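import Pool.Agent.H.MP_43e44c_ag.PE.AutC

/-!
# SG/Art: the fixed field of `Aut ℂ` is `ℚ`; independence of conjugates (helper3)
-/

set_option autoImplicit false

open NumberField Module Cardinal

namespace Pool.MP43e44c.SG

open PE

/-- An automorphism moves every transcendental number. -/
theorem exists_aut_trans (z : ℂ) (hz : Transcendental ℚ z) : ∃ σ : ℂ ≃+* ℂ, σ z ≠ z := by
  have hz1 : Transcendental ℚ (z + 1) := by
    intro h
    apply hz
    have h2 : IsAlgebraic ℚ (z + 1 - 1) := h.sub isAlgebraic_one
    rwa [add_sub_cancel_right] at h2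
  have hi : Function.Injective (Polynomial.aeval z : Polynomial ℚ →ₐ[ℚ] ℂ) :=
    transcendental_iff_injective.1 hz
  have hi1 : Function.Injective (Polynomial.aeval (z + 1) : Polynomial ℚ →ₐ[ℚ] ℂ) :=
    transcendental_iff_injective.1 hz1
  let K := FractionRing (Polynomial ℚ)
  let f : K →+* ℂ := IsFractionRing.lift (A := Polynomial ℚ) (K := K)
    (g := (Polynomial.aeval z : Polynomial ℚ →ₐ[ℚ] ℂ).toRingHom) hi
  let f1 : K →+* ℂ := IsFractionRing.lift (A := Polynomial ℚ) (K := K)
    (g := (Polynomial.aeval (z + 1) : Polynomial ℚ →ₐ[ℚ] ℂ).toRingHom) hi1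
  have hK : #K ≤ ℵ₀ := by
    refine (IsLocalization.cardinalMk_le (nonZeroDivisors (Polynomial ℚ))).trans ?_
    refine Polynomial.cardinalMk_le_max.trans ?_
    simp
  have hL : ℵ₀ < #ℂ := by
    rw [Cardinal.mk_complex]
    exact Cardinal.aleph0_lt_continuum
  obtain ⟨σ, hσ⟩ := @autC_aux K ℂ ℂ _ _ _ _ _ f.toAlgebra f1.toAlgebra hK hL rfl
  refine ⟨σ, ?_⟩
  have h1 : (σ : ℂ →+* ℂ) (f (algebraMap (Polynomial ℚ) K Polynomial.X)) =
      f1 (algebraMap (Polynomial ℚ) K Polynomial.X) := RingHom.congr_fun hσ _
  have h2 : f (algebraMap (Polynomial ℚ) K Polynomial.X) = z := by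
    rw [IsFractionRing.lift_algebraMap]
    simp
  have h3 : f1 (algebraMap (Polynomial ℚ) K Polynomial.X) = z + 1 := by
    rw [IsFractionRing.lift_algebraMap]
    simp
  rw [h2, h3] at h1
  intro h4
  have h5 : z = z + 1 := h4.symm.trans h1
  exact one_ne_zero (left_eq_add.1 h5)

/-- The fixed field of `Aut ℂ` is `ℚ`. -/
theorem fixed_rat (z : ℂ) (h : ∀ σ : ℂ ≃+* ℂ, σ z = z) : ∃ q : ℚ, (q : ℂ) = z := by
  by_cases hz : Transcendental ℚ z
  · obtain ⟨σ, hσ⟩ := exists_aut_trans z hz
    exact absurd (h σ) hσ
  · have hint : IsIntegral ℚ z := by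
      rw [Transcendental, not_not] at hz
      exact hz.isIntegral
    let K := IntermediateField.adjoin ℚ {z}
    have : FiniteDimensional ℚ K := IntermediateField.adjoin.finiteDimensional hint
    have : NumberField K := { to_charZero := inferInstance, to_finiteDimensional := inferInstance }
    let ι : K →+* ℂ := algebraMap K ℂ
    have hz' : ι (IntermediateField.AdjoinSimple.gen ℚ z) = z :=
      IntermediateField.AdjoinSimple.algebraMap_gen ℚ z
    have hall : ∀ τ : K →+* ℂ, τ = ι := by
      intro τ
      obtain ⟨σ, hσ⟩ := exists_aut ι τ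
      have h1 : τ (IntermediateField.AdjoinSimple.gen ℚ z) = z := by
        rw [← hσ]
        change σ (ι _) = z
        rw [hz', h σ]
      have h2 : τ.toRatAlgHom = ι.toRatAlgHom := by
        apply (IntermediateField.adjoin.powerBasis hint).algHom_ext
        rw [IntermediateField.adjoin.powerBasis_gen]
        exact h1.trans hz'.symm
      ext x
      exact congrArg (fun g : K →ₐ[ℚ] ℂ => g x) h2
    have hcard : Fintype.card (K →+* ℂ) = finrank ℚ K := Embeddings.card K ℂ
    have hone : Fintype.card (K →+* ℂ) = 1 := Fintype.card_eq_one_iff.2 ⟨ι, hall⟩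
    rw [hone] at hcard
    have hbot : K = ⊥ := IntermediateField.finrank_eq_one_iff.1 hcard.symm
    have hzK : z ∈ K := IntermediateField.mem_adjoin_simple_self ℚ z
    rw [hbot, IntermediateField.mem_bot] at hzK
    obtain ⟨q, hq⟩ := hzK
    exact ⟨q, by simpa using hq⟩

/-- Artin: conjugates of rationally independent numbers. -/
theorem artin {q : ℕ} (lam : Fin q → ℂ) (hl : LinearIndependent ℚ lam) (c : Fin q → ℂ)
    (h : ∀ σ : ℂ ≃+* ℂ, ∑ j, c j * σ (lam j) = 0) : c = 0 := by
  classical
  -- minimal support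
  induction hn : (Finset.univ.filter fun j => c j ≠ 0).card using Nat.strong_induction_on
    generalizing c with
  | _ n ih =>
    by_contra hc
    obtain ⟨j0, hj0⟩ : ∃ j, c j ≠ 0 := by
      by_contra hcon
      push Not at hcon
      exact hc (funext hcon)
    -- normalise
    have h1 : ∀ σ : ℂ ≃+* ℂ, ∑ j, (c j / c j0) * σ (lam j) = 0 := by
      intro σ
      have h2 := congrArg (fun z => z / c j0) (h σ)
      simp only [zero_div, Finset.sum_div] at h2
      rw [← h2]
      exact Finset.sum_congr rfl fun j _ => by ring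
    have h3 : ∀ τ : ℂ ≃+* ℂ, (fun j => c j / c j0 - τ (c j / c j0)) = 0 := by
      intro τ
      refine ih _ ?_ _ ?_ rfl
      · rw [← hn]
        apply Finset.card_lt_card
        rw [Finset.ssubset_iff_of_subset]
        · refine ⟨j0, by simp [hj0], ?_⟩
          rw [Finset.mem_filter]
          rintro ⟨-, h9⟩
          apply h9
          rw [div_self hj0, map_one, sub_self]
        · intro j hj
          rw [Finset.mem_filter] at hj ⊢
          refine ⟨Finset.mem_univ _, fun h4 => hj.2 ?_⟩
          rw [h4]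
          simp
      · intro σ
        have h4 := congrArg τ (h1 (σ.trans τ.symm))
        rw [map_sum, map_zero] at h4
        have h5 : ∑ j, τ (c j / c j0) * σ (lam j) = 0 := by
          rw [← h4]
          refine Finset.sum_congr rfl fun j _ => ?_
          rw [map_mul]
          congr 1
          exact (τ.apply_symm_apply _).symm
        have h6 := h1 σ
        calc ∑ j, (c j / c j0 - τ (c j / c j0)) * σ (lam j)
            = ∑ j, (c j / c j0) * σ (lam j) - ∑ j, τ (c j / c j0) * σ (lam j) := by
              rw [← Finset.sum_sub_distrib]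
              exact Finset.sum_congr rfl fun j _ => by ring
          _ = 0 := by rw [h6, h5, sub_zero]
    have h4 : ∀ j, ∃ r : ℚ, (r : ℂ) = c j / c j0 := fun j =>
      fixed_rat _ fun τ => (sub_eq_zero.1 (congrFun (h3 τ) j)).symm
    choose r hr using h4
    have h5 := h1 (RingEquiv.refl ℂ)
    have h6 : ∑ j, r j • lam j = 0 := by
      rw [← h5]
      refine Finset.sum_congr rfl fun j _ => ?_
      rw [← hr j, Rat.smul_def]
      rfl
    have h7 := Fintype.linearIndependent_iff.1 hl r h6 j0
    have h8 := hr j0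
    rw [h7, div_self hj0] at h8
    simp at h8

end Pool.MP43e44c.SG
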