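import Pool.Agent.H.MP_43e44c_ag.SG.BlkA0

/-!
# SG/BlkA: the two blocks of the elements of degree one
-/

set_option autoImplicit false

namespace Pool.MP43e44c.SG

open Module PE

variable {W : Type*} [NormedAddCommGroup W] [InnerProductSpace ℂ W] [FiniteDimensional ℂ W]
variable {e : Module.End ℂ W} {V : Submodule ℂ (Module.End ℂ W)} {u v A x₀ : Module.End ℂ W}

theorem blk_zero_aux (F : AFrame e V u v A x₀) {z y : Module.End ℂ W} (hz : InB V u A z)
    (hy : InA V u A y) (hv : P1 v y) :
    u * star u * (z * star y) = 0 ∧ u * star y * z * star u = 0 := by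
  have hvz := blk_B_v F hz
  have hAy : A * u * star y = 0 := by
    have := congrArg star hy.r
    simpa only [star_mul, star_star, star_zero, F.As, mul_assoc] using this
  have hyA : star y * A = star y * (u * star u) := by
    have := congrArg star hy.l
    simpa only [star_mul, star_star, F.As, mul_assoc] using this
  have hs := star_id F.T F.hu hz.mem hy.mem hz.p1 hy.p1
  have c := P1.comm F.bt hz.p1 hy.p1
  set cc := fr z y / fr u u
  -- `cc A = 0`
  have k1 : cc • A = 0 := by
    have h1 : A * (u * star u * (z * star y) + u * star y * z * star u) * A =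
        A * (cc • (u * star u)) * A := by rw [hs]
    have h2 : A * (u * star u * (z * star y) + u * star y * z * star u) * A = 0 := by
      have t1 : A * (u * star u * (z * star y)) = 0 := by
        rw [← mul_assoc, F.Ap, ← mul_assoc, hz.l, zero_mul]
      have t2 : A * (u * star y * z * star u) = 0 := by
        have : A * (u * star y * z * star u) = (A * u * star y) * (z * star u) := by
          simp only [mul_assoc]
        rw [this, hAy, zero_mul]
      rw [mul_add, t1, t2, add_zero, zero_mul]
    have h3 : A * (cc • (u * star u)) * A = cc • A := by
      rw [mul_smul_comm, smul_mul_assoc, F.Ap, F.AA]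
    rw [h2, h3] at h1
    exact h1.symm
  have k2 : cc • (u * star u - A) = 0 := by
    have h1 : (u * star u - A) * (u * star u * (z * star y) + u * star y * z * star u) *
        (u * star u - A) = (u * star u - A) * (cc • (u * star u)) * (u * star u - A) := by rw [hs]
    have h2 : (u * star u * (z * star y) + u * star y * z * star u) * (u * star u - A) = 0 := by
      have t1 : u * star u * (z * star y) * (u * star u - A) = 0 := by
        have : u * star u * (z * star y) * (u * star u - A) =
            u * star u * z * (star y * (u * star u) - star y * A) := by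
          simp only [mul_sub, mul_assoc]
        rw [this, hyA, sub_self, mul_zero]
      have t2 : u * star y * z * star u * (u * star u - A) = 0 := by
        have : u * star y * z * star u * (u * star u - A) =
            u * star y * (z * (star u * u * star u) - z * star u * A) := by
          simp only [mul_sub, mul_assoc]
        rw [this, star_trip F.bt, hz.r, sub_self, mul_zero]
      rw [add_mul, t1, t2, add_zero]
    have h3 : (u * star u - A) * (cc • (u * star u)) * (u * star u - A) =
        cc • (u * star u - A) := by
      have t1 : (u * star u - A) * (u * star u) = u * star u - A := by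
        rw [sub_mul, p1_idem F.bt, F.Ap]
      have t2 : (u * star u - A) * (u * star u - A) = u * star u - A := by
        rw [mul_sub, t1, sub_mul, F.pA, F.AA, sub_self, sub_zero]
      rw [mul_smul_comm, smul_mul_assoc, t1, t2]
    rw [mul_assoc, h2, mul_zero, h3] at h1
    exact h1.symm
  have k3 : cc • (u * star u) = 0 := by
    rw [smul_sub, k1, sub_zero] at k2
    exact k2
  rw [k3] at hs
  -- `a = u u* z y*`
  have ha2 : u * star u * (z * star y) * A = u * star u * (z * star y) := by
    calc u * star u * (z * star y) * A = u * star u * z * (star y * A) := by simp only [mul_assoc]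
      _ = u * star u * z * star y * (u * star u) := by rw [hyA]; simp only [mul_assoc]
      _ = u * star u * (z * star y) := c.2.1
  -- `x₀`
  have x1 := F.hx₀.p1
  have x2 := F.hx₀.p0
  have cx := P1.comm F.bt hy.p1 x1
  -- `u u* x₀ y* = 0`
  have q1 : u * star u * (x₀ * star y) = 0 := by
    have h1 : u * star u * (y * star x₀) = 0 := blk_zx F.uv hv x2
    rw [cx.1] at h1
    have := congrArg star h1
    simpa only [star_mul, star_star, star_zero, mul_assoc] using this
  have q2 : star y * x₀ * (star u * u) = 0 := by
    have h1 : star x₀ * y * (star u * u) = 0 := blk_xz F.uv hv x2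
    have c2 := (P1.comm F.bt x1 hy.p1).2.2
    have c3 := (P1.comm F.bt hy.p1 x1).2.2
    rw [← c3] at h1
    have := congrArg star h1
    simpa only [star_mul, star_star, star_zero, mul_assoc] using this
  -- `w`
  have hw : z * star y * x₀ + x₀ * star y * z ∈ V := F.T.tri z hz.mem y hy.mem x₀ F.hx₀.mem
  have hw1 : P1 u (z * star y * x₀ + x₀ * star y * z) := by
    have h1 := P1.tri F.bt hz.p1 hy.p1 x1
    have h2 := P1.tri F.bt x1 hy.p1 hz.p1
    constructor
    · rw [mul_add, add_mul, h1.1, h2.1, add_zero]
    · rw [mul_add, add_mul]
      conv_lhs => rw [h1.2, h2.2]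
      abel
  -- `z y* x₀ = u u* z y* x₀`
  have q3 : z * star y * x₀ = u * star u * (z * star y) * x₀ := by
    have h1 : star y * x₀ = star y * (u * star u * x₀) := by
      rw [x1.bleft, mul_sub, ← mul_assoc, q2, sub_zero]
    calc z * star y * x₀ = z * (star y * (u * star u * x₀)) := by rw [mul_assoc, ← h1]
      _ = z * star y * (u * star u) * x₀ := by simp only [mul_assoc]
      _ = u * star u * (z * star y) * x₀ := by rw [← c.1]
  have q4 : x₀ * star y * z = x₀ * (star y * z * (star u * u)) := by
    have h1 : x₀ * star y = x₀ * (star u * u) * star y := by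
      rw [x1.right, sub_mul, mul_assoc (u * star u) x₀, q1, sub_zero]
    have c3 := c.2.2
    calc x₀ * star y * z = x₀ * (star u * u) * star y * z := by rw [← h1]
      _ = x₀ * ((star u * u) * (star y * z)) := by simp only [mul_assoc]
      _ = x₀ * (star y * z * (star u * u)) := by rw [c3]
  have hw0 : P0 v (z * star y * x₀ + x₀ * star y * z) := by
    constructor
    · rw [mul_add, q3]
      have t1 : star v * (u * star u * (z * star y) * x₀) = 0 := by
        have : star v * (u * star u * (z * star y) * x₀) =
            (star v * u) * (star u * (z * star y) * x₀) := by simp only [mul_assoc]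
        rw [this, F.uv.bls, zero_mul]
      have t2 : star v * (x₀ * star y * z) = 0 := by
        have : star v * (x₀ * star y * z) = (star v * x₀) * (star y * z) := by
          simp only [mul_assoc]
        rw [this, x2.bl, zero_mul]
      rw [t1, t2, add_zero]
    · rw [add_mul, q4]
      have t1 : z * star y * x₀ * star v = 0 := by
        rw [mul_assoc, x2.br, mul_zero]
      have t2 : x₀ * (star y * z * (star u * u)) * star v = 0 := by
        have : x₀ * (star y * z * (star u * u)) * star v =
            x₀ * (star y * z * star u) * (u * star v) := by simp only [mul_assoc]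
        rw [this, F.uv.brs, mul_zero]
      rw [t1, t2, add_zero]
  have hXw := F.XA _ ⟨hw, hw1, hw0⟩
  have r1 : u * star u * (x₀ * star y * z) = 0 := by
    have : u * star u * (x₀ * star y * z) = u * star u * (x₀ * star y) * z := by
      simp only [mul_assoc]
    rw [this, q1, zero_mul]
  have r2 : A * (z * star y * x₀ + x₀ * star y * z) = 0 := by
    have t1 : A * (z * star y * x₀) = 0 := by
      rw [← mul_assoc, ← mul_assoc, hz.l, zero_mul, zero_mul]
    have t2 : A * (x₀ * star y * z) = 0 := by
      have : A * (x₀ * star y * z) = A * x₀ * (star y * z) := by simp only [mul_assoc]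
      rw [this, F.XA x₀ F.hx₀]
      have : u * star u * x₀ * (star y * z) = u * star u * (x₀ * star y) * z := by
        simp only [mul_assoc]
      rw [this, q1, zero_mul]
    rw [mul_add, t1, t2, add_zero]
  rw [r2, mul_add, r1, add_zero] at hXw
  have r3 : u * star u * (z * star y) * x₀ = 0 := by
    rw [← q3]
    have : u * star u * (z * star y * x₀) = z * star y * x₀ := by
      rw [← mul_assoc (u * star u), ← q3]
    rw [← this]
    exact hXw.symm
  have r4 : u * star u * (z * star y) = 0 := by
    calc u * star u * (z * star y) = u * star u * (z * star y) * A := ha2.symm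
      _ = u * star u * (z * star y) * (u * star u * (x₀ * star x₀)) := by rw [F.bux]
      _ = (u * star u * z * star y * (u * star u)) * x₀ * star x₀ := by simp only [mul_assoc]
      _ = u * star u * (z * star y) * x₀ * star x₀ := by rw [c.2.1]
      _ = 0 := by rw [r3, zero_mul]
  rw [r4, zero_add] at hs
  exact ⟨r4, hs⟩

/-- **No mixing.**  `y = y₁ + y₂` (`split_v`, `y₁` of degree (1,1), `y₂` of degree (1,0), both in the first block; for
`y₂` trivial, as `z y₂* u u* = 0`: `u u* z = u u* z v* v`, `v y₂* = 0`).  `star_id` for `z, y`, multiplied by `A` on both sides and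
by `u u* - A` on both sides, gives `fr z y = 0`, so `u y* z u* = -a`, `a = u u* z y*`,
`A a = 0`, `a A = a`.  `w = {z, y, x₀} = z y* x₀ + x₀ y* z` is in `X` (degrees), `u u* w = a x₀`, so `XA` gives `A a x₀ = a x₀`, `a x₀ = 0`,
`a = a A = a u u* x₀ x₀* = 0`. -/
theorem blk_zero (F : AFrame e V u v A x₀) {z y : Module.End ℂ W} (hz : InB V u A z)
    (hy : InA V u A y) :
    u * star u * (z * star y) = 0 ∧ u * star y * z * star u = 0 := by
  obtain ⟨a, ha, x, hx, a1, a2, x1, x2, rfl⟩ := split_v F.T F.bt F.hv F.vt F.uv hy.mem hy.p1
  have hX : InX V u v x := ⟨hx, x1, x2⟩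
  have hA : InA V u A a := by
    refine ⟨ha, a1, ?_, ?_⟩
    · have := hy.l
      rw [mul_add, mul_add, F.XA x hX] at this
      exact add_right_cancel this
    · have := hy.r
      rwa [add_mul, add_mul, F.XB x hX, add_zero] at this
  obtain ⟨h1, h2⟩ := blk_zero_aux F hz hA a2
  have hvz := blk_B_v F hz
  have h3 : u * star u * (z * star x) = 0 := blk_zx F.uv hvz x2
  have h4 : u * star x * z * star u = 0 := by
    have t := blk_xz F.uv hvz x2
    calc u * star x * z * star u = u * star x * z * (star u * u * star u) := by
          rw [star_trip F.bt]
      _ = u * (star x * z * (star u * u)) * star u := by simp only [mul_assoc]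
      _ = 0 := by rw [t, mul_zero, zero_mul]
  constructor
  · rw [star_add, mul_add, mul_add, h1, h3, add_zero]
  · rw [star_add, mul_add, add_mul, add_mul, h2, h4, add_zero]

/-- `{y, ·, u}` exchanges the blocks, `y` of degree zero. -/
theorem blk_yA (F : AFrame e V u v A x₀) {y q : Module.End ℂ W} (hy : y ∈ V) (h0 : P0 u y)
    (hq : InA V u A q) : InB V u A (y * star q * u + u * star q * y) := by
  obtain ⟨h1, h2⟩ := mem_yqu F.T F.hu.mem F.bt hy h0 hq.mem hq.p1
  have hAq : A * u * star q = 0 := by
    have := congrArg star hq.r
    simpa only [star_mul, star_star, star_zero, F.As, mul_assoc] using this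
  have hqA : star q * A = star q * (u * star u) := by
    have := congrArg star hq.l
    simpa only [star_mul, star_star, F.As, mul_assoc] using this
  have hus : (y * star q * u + u * star q * y) * star u = y * (star q * (u * star u)) := by
    have t : u * star q * y * star u = 0 := by rw [mul_assoc, h0.br, mul_zero]
    rw [add_mul, t, add_zero]
    simp only [mul_assoc]
  refine ⟨h1, h2, ?_, ?_⟩
  · have t1 : A * (y * star q * u) = 0 := by
      calc A * (y * star q * u) = A * (u * star u) * (y * star q * u) := by rw [F.Ap]
        _ = A * u * (star u * y) * (star q * u) := by simp only [mul_assoc]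
        _ = 0 := by rw [h0.bl, mul_zero, zero_mul]
    have t2 : A * (u * star q * y) = 0 := by
      have : A * (u * star q * y) = A * u * star q * y := by simp only [mul_assoc]
      rw [this, hAq, zero_mul]
    rw [mul_add, t1, t2, add_zero]
  · rw [hus, ← hqA]
    have : y * (star q * A) * A = y * (star q * (A * A)) := by simp only [mul_assoc]
    rw [this, F.AA]

theorem blk_yB (F : AFrame e V u v A x₀) {y q : Module.End ℂ W} (hy : y ∈ V) (h0 : P0 u y)
    (hq : InB V u A q) : InA V u A (y * star q * u + u * star q * y) := by
  obtain ⟨h1, h2⟩ := mem_yqu F.T F.hu.mem F.bt hy h0 hq.mem hq.p1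
  have hAq : A * u * star q = u * star q := by
    have := congrArg star hq.r
    simpa only [star_mul, star_star, star_zero, F.As, mul_assoc] using this
  have hqA : star q * A = 0 := by
    have := congrArg star hq.l
    simpa only [star_mul, star_star, star_zero, F.As, mul_assoc] using this
  have hus : (y * star q * u + u * star q * y) * star u = y * star q * (u * star u) := by
    have t : u * star q * y * star u = 0 := by rw [mul_assoc, h0.br, mul_zero]
    rw [add_mul, t, add_zero]
    simp only [mul_assoc]
  have t0 : u * star u * (y * star q * u) = 0 := by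
    have : u * star u * (y * star q * u) = u * (star u * y) * (star q * u) := by
      simp only [mul_assoc]
    rw [this, h0.bl, mul_zero, zero_mul]
  refine ⟨h1, h2, ?_, ?_⟩
  · have t1 : A * (y * star q * u) = 0 := by
      rw [← F.Ap, mul_assoc, t0, mul_zero]
    have t2 : A * (u * star q * y) = u * star q * y := by
      have : A * (u * star q * y) = A * u * star q * y := by simp only [mul_assoc]
      rw [this, hAq]
    have t3 : u * star u * (u * star q * y) = u * star q * y := by
      have : u * star u * (u * star q * y) = u * star u * u * star q * y := by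
        simp only [mul_assoc]
      rw [this, F.bt]
    rw [mul_add, mul_add, t0, t1, t2, t3]
  · rw [hus]
    have : y * star q * (u * star u) * A = y * (star q * (u * star u * A)) := by
      simp only [mul_assoc]
    rw [this, F.pA, hqA, mul_zero]

end Pool.MP43e44c.SG
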