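import Pool.Agent.H.MP_43e44c_ag.SG.PairA

/-!
# SG/BlkA0: the two blocks of the elements of degree one, first part
-/

set_option autoImplicit false

namespace Pool.MP43e44c.SG

open Module PE

variable {W : Type*} [NormedAddCommGroup W] [InnerProductSpace ℂ W] [FiniteDimensional ℂ W]

/-- First block. -/
structure InA (V : Submodule ℂ (Module.End ℂ W)) (u A q : Module.End ℂ W) : Prop where
  mem : q ∈ V
  p1 : P1 u q
  l : A * q = u * star u * q
  r : q * star u * A = 0

/-- Second block. -/
structure InB (V : Submodule ℂ (Module.End ℂ W)) (u A q : Module.End ℂ W) : Prop where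
  mem : q ∈ V
  p1 : P1 u q
  l : A * q = 0
  r : q * star u * A = q * star u

variable {e : Module.End ℂ W} {V : Submodule ℂ (Module.End ℂ W)} {u v A x₀ : Module.End ℂ W}

/-! ### helpers -/

theorem P0.bl {x : Module.End ℂ W} (h : P0 v x) : star v * x = 0 := h.1

theorem P0.br {x : Module.End ℂ W} (h : P0 v x) : x * star v = 0 := h.2

theorem P0.bls {x : Module.End ℂ W} (h : P0 v x) : star x * v = 0 := (P0_symm h).1

theorem P0.brs {x : Module.End ℂ W} (h : P0 v x) : v * star x = 0 := (P0_symm h).2

theorem blk_zR {z : Module.End ℂ W} (huv : P0 u v) (h2 : P1 v z) :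
    z * (star u * u) = v * star v * (z * (star u * u)) := by
  have h3 : z * (star v * v) * (star u * u) = 0 := by
    have : z * (star v * v) * (star u * u) = z * star v * (v * star u) * u := by
      simp only [mul_assoc]
    rw [this, huv.br, mul_zero, zero_mul]
  calc z * (star u * u) = (v * star v * z + z * (star v * v)) * (star u * u) := by rw [← h2.2]
    _ = v * star v * (z * (star u * u)) + z * (star v * v) * (star u * u) := by
        rw [add_mul, mul_assoc (v * star v) z]
    _ = v * star v * (z * (star u * u)) := by rw [h3, add_zero]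

theorem blk_zL {z : Module.End ℂ W} (huv : P0 u v) (h2 : P1 v z) :
    u * star u * z = u * star u * z * (star v * v) := by
  have h3 : u * star u * (v * star v * z) = 0 := by
    have : u * star u * (v * star v * z) = u * (star u * v) * (star v * z) := by
      simp only [mul_assoc]
    rw [this, huv.bl, mul_zero, zero_mul]
  calc u * star u * z = u * star u * (v * star v * z + z * (star v * v)) := by rw [← h2.2]
    _ = u * star u * (v * star v * z) + u * star u * z * (star v * v) := by
        rw [mul_add, mul_assoc (u * star u) z]
    _ = u * star u * z * (star v * v) := by rw [h3, zero_add]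

/-- `z x* ` for `z` of degree (1,1), `x` of degree (1,0): only the right part. -/
theorem blk_zx {z x : Module.End ℂ W} (huv : P0 u v) (h2 : P1 v z) (hx : P0 v x) :
    u * star u * (z * star x) = 0 := by
  have h3 := blk_zL huv h2
  calc u * star u * (z * star x) = u * star u * z * star x := by rw [mul_assoc (u * star u)]
    _ = u * star u * z * (star v * v) * star x := by rw [← h3]
    _ = u * star u * z * star v * (v * star x) := by simp only [mul_assoc]
    _ = 0 := by rw [hx.brs, mul_zero]

theorem blk_xz {z x : Module.End ℂ W} (huv : P0 u v) (h2 : P1 v z) (hx : P0 v x) :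
    star x * z * (star u * u) = 0 := by
  have h3 := blk_zR huv h2
  calc star x * z * (star u * u) = star x * (z * (star u * u)) := by rw [mul_assoc]
    _ = star x * (v * star v * (z * (star u * u))) := by rw [← h3]
    _ = (star x * v) * (star v * (z * (star u * u))) := by simp only [mul_assoc]
    _ = 0 := by rw [hx.bls, zero_mul]

theorem P1.bleft {x : Module.End ℂ W} (h : P1 u x) : u * star u * x = x - x * (star u * u) :=
  eq_sub_iff_add_eq.2 h.2.symm

theorem AFrame.bt (F : AFrame e V u v A x₀) : u * star u * u = u := F.hu.trip

theorem AFrame.bux (F : AFrame e V u v A x₀) : u * star u * (x₀ * star x₀) = A := by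
  rw [F.P x₀ x₀ F.hx₀ F.hx₀, F.nx₀, div_self (fr_self_ne F.hu.ne), one_smul]

theorem AFrame.bxu (F : AFrame e V u v A x₀) : u * star x₀ * x₀ * star u = u * star u - A := by
  rw [F.Q x₀ x₀ F.hx₀ F.hx₀, F.nx₀, div_self (fr_self_ne F.hu.ne), one_smul]

/-- `A q u* = 0` for `q` of degree one. -/
theorem AFrame.bAqu (F : AFrame e V u v A x₀) {q : Module.End ℂ W} (h1 : P1 u q) :
    A * q * star u = 0 := by
  have h2 := h1.sxs F.bt
  calc A * q * star u = A * (u * star u) * q * star u := by rw [F.Ap]
    _ = A * u * (star u * q * star u) := by simp only [mul_assoc]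
    _ = 0 := by rw [h2, mul_zero]

/-- `q = z + x` (`split_v`).  For `x` of degree (1,0) `A x + x u* (u u* - A) u = x` (`XA`, `XB`).  For `z` of degree (1,1)
`{x₀, x₀, z} = x₀ x₀* z + z x₀* x₀ = A z + z u* (u u* - A) u` (`P`, `Q` for `x₀, x₀`; `x₀ x₀* z = u u* x₀ x₀* z` because
`x₀'' x₀''* z = 0`, as `z` has range in `range u + range v`; similarly on the right). -/
theorem blk_mem (F : AFrame e V u v A x₀) {q : Module.End ℂ W} (hq : q ∈ V) (h1 : P1 u q) :
    A * q + q * star u * (u * star u - A) * u ∈ V := by
  obtain ⟨z, hz, x, hx, z1, z2, x1, x2, rfl⟩ := split_v F.T F.bt F.hv F.vt F.uv hq h1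
  have hX : InX V u v x := ⟨hx, x1, x2⟩
  have e1 : A * x + x * star u * (u * star u - A) * u = x := by
    rw [mul_sub, F.XB x hX, sub_zero, F.XA x hX]
    have : x * star u * (u * star u) * u = x * (star u * (u * star u * u)) := by
      simp only [mul_assoc]
    rw [this, F.bt]
    exact x1.2.symm
  have e2 : A * z + z * star u * (u * star u - A) * u = x₀ * star x₀ * z + z * star x₀ * x₀ := by
    have c := P1.comm F.bt F.hx₀.p1 F.hx₀.p1
    -- left
    have l1 : x₀ * star x₀ * z = A * z := by
      have l2 : x₀ * star x₀ * (z * (star u * u)) = 0 := by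
        have := blk_xz F.uv z2 F.hx₀.p0
        calc x₀ * star x₀ * (z * (star u * u)) = x₀ * (star x₀ * z * (star u * u)) := by
              simp only [mul_assoc]
          _ = 0 := by rw [this, mul_zero]
      calc x₀ * star x₀ * z = x₀ * star x₀ * (u * star u * z + z * (star u * u)) := by rw [← z1.2]
        _ = x₀ * star x₀ * (u * star u) * z + x₀ * star x₀ * (z * (star u * u)) := by
            rw [mul_add, mul_assoc (x₀ * star x₀) (u * star u) z]
        _ = A * z := by rw [l2, add_zero, ← c.1, F.bux]
    have r1 : z * star x₀ * x₀ = z * star u * (u * star u - A) * u := by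
      have r2 : u * star u * (z * star x₀) = 0 := blk_zx F.uv z2 F.hx₀.p0
      calc z * star x₀ * x₀ = (u * star u * z + z * (star u * u)) * star x₀ * x₀ := by
            rw [← z1.2]
        _ = u * star u * (z * star x₀) * x₀ + z * ((star u * u) * (star x₀ * x₀)) := by
            simp only [add_mul, mul_assoc]
        _ = z * ((star u * u) * (star u * u) * (star x₀ * x₀)) := by
            rw [r2, zero_mul, zero_add, p0_idem F.bt]
        _ = z * ((star u * u) * (star x₀ * x₀ * (star u * u))) := by
            rw [mul_assoc (star u * u) (star u * u), c.2.2]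
        _ = z * star u * (u * star x₀ * x₀ * star u) * u := by simp only [mul_assoc]
        _ = z * star u * (u * star u - A) * u := by rw [F.bxu]
    rw [l1, r1]
  have e3 : A * (z + x) + (z + x) * star u * (u * star u - A) * u =
      (A * z + z * star u * (u * star u - A) * u) + (A * x + x * star u * (u * star u - A) * u) := by
    simp only [mul_add, add_mul]
    abel
  rw [e3, e1, e2]
  exact V.add_mem (F.T.tri x₀ F.hx₀.mem x₀ F.hx₀.mem z hz) hx

/-- `q_A = A q + q u* (u u* - A) u`, `q_B = q - q_A`. -/
theorem blk_split (F : AFrame e V u v A x₀) {q : Module.End ℂ W} (hq : q ∈ V) (h1 : P1 u q) :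
    ∃ a b, InA V u A a ∧ InB V u A b ∧ q = a + b := by
  have hA := F.bAqu h1
  have hsxs := h1.sxs F.bt
  obtain ⟨a, ha⟩ : ∃ a, a = A * q + q * star u * (u * star u - A) * u := ⟨_, rfl⟩
  have haV : a ∈ V := ha ▸ blk_mem F hq h1
  have hA2 : A * q * (star u * u) = 0 := by rw [← mul_assoc, hA, zero_mul]
  -- `u u* q u* = 0`
  have hl : u * star u * q * star u = 0 := by
    have : u * star u * q * star u = u * (star u * q * star u) := by simp only [mul_assoc]
    rw [this, hsxs, mul_zero]
  have hAu : u * star u * a = A * q := by
    rw [ha, mul_add]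
    have t1 : u * star u * (A * q) = A * q := by rw [← mul_assoc, F.pA]
    have t2 : u * star u * (q * star u * (u * star u - A) * u) = 0 := by
      have : u * star u * (q * star u * (u * star u - A) * u) =
          (u * star u * q * star u) * ((u * star u - A) * u) := by simp only [mul_assoc]
      rw [this, hl, zero_mul]
    rw [t1, t2, add_zero]
  have hau : a * (star u * u) = q * star u * (u * star u - A) * u := by
    rw [ha, add_mul, hA2, zero_add]
    have : q * star u * (u * star u - A) * u * (star u * u) =
        q * star u * (u * star u - A) * (u * star u * u) := by simp only [mul_assoc]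
    rw [this, F.bt]
  have hP : P1 u a := by
    constructor
    · rw [hAu, hA2]
    · rw [hAu, hau, ha]
  have hAa : A * a = A * q := by
    rw [ha, mul_add]
    have t1 : A * (A * q) = A * q := by rw [← mul_assoc, F.AA]
    have t2 : A * (q * star u * (u * star u - A) * u) = 0 := by
      have : A * (q * star u * (u * star u - A) * u) =
          (A * q * star u) * ((u * star u - A) * u) := by simp only [mul_assoc]
      rw [this, hA, zero_mul]
    rw [t1, t2, add_zero]
  have haus : a * star u = q * star u - q * star u * A := by
    rw [ha, add_mul, hA, zero_add]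
    have : q * star u * (u * star u - A) * u * star u =
        q * star u * ((u * star u - A) * (u * star u)) := by simp only [mul_assoc]
    rw [this, sub_mul, p1_idem F.bt, F.Ap, mul_sub]
    have h3 : q * star u * (u * star u) = q * (star u * u * star u) := by simp only [mul_assoc]
    rw [h3, star_trip F.bt]
  have haA : a * star u * A = 0 := by
    rw [haus, sub_mul, mul_assoc (q * star u) A A, F.AA, sub_self]
  refine ⟨a, q - a, ⟨haV, hP, by rw [hAa, hAu], haA⟩, ⟨V.sub_mem hq haV, ?_, ?_, ?_⟩, ?_⟩
  · constructor
    · rw [mul_sub, sub_mul, h1.1, hP.1, sub_zero]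
    · rw [mul_sub, sub_mul]
      conv_lhs => rw [h1.2, hP.2]
      abel
  · rw [mul_sub, hAa, sub_self]
  · rw [sub_mul, sub_mul, haA, sub_zero, haus, sub_sub_cancel]
  · abel

/-- Elements of the second block have degree one for `v`: `z = z₁ + z₂` (`split_v`), `A z = 0` and `z u* A = z u*` give
`u u* z₂ = 0` (multiply by `1 - v* v` on the right) and `z₂ u* = 0` (by `1 - v v*` on the left). -/
theorem blk_B_v (F : AFrame e V u v A x₀) {z : Module.End ℂ W} (hz : InB V u A z) : P1 v z := by
  obtain ⟨a, ha, x, hx, a1, a2, x1, x2, hzz⟩ := split_v F.T F.bt F.hv F.vt F.uv hz.mem hz.p1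
  have hX : InX V u v x := ⟨hx, x1, x2⟩
  have h1 : A * a + u * star u * x = 0 := by
    rw [← F.XA x hX, ← mul_add, ← hzz, hz.l]
  have h2 : a * star u * A = a * star u + x * star u := by
    have h3 := hz.r
    rw [hzz, add_mul, add_mul, F.XB x hX, add_zero] at h3
    exact h3
  -- `u u* x = 0`
  have h4 : u * star u * x = 0 := by
    have h5 : A * a * (star v * v) = A * a := by
      calc A * a * (star v * v) = A * (u * star u) * a * (star v * v) := by rw [F.Ap]
        _ = A * (u * star u * a * (star v * v)) := by simp only [mul_assoc]
        _ = A * (u * star u * a) := by rw [← blk_zL F.uv a2]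
        _ = A * a := by rw [← mul_assoc, F.Ap]
    have h6 : u * star u * x * (star v * v) = 0 := by
      have : u * star u * x * (star v * v) = u * star u * (x * star v) * v := by
        simp only [mul_assoc]
      rw [this, x2.br, mul_zero, zero_mul]
    have h7 : (A * a + u * star u * x) * (star v * v) = 0 := by rw [h1, zero_mul]
    rw [add_mul, h5, h6, add_zero] at h7
    rw [h7, zero_add] at h1
    exact h1
  have h8 : x * star u = 0 := by
    have h9 : v * star v * (a * star u) = a * star u := by
      have t := blk_zR F.uv a2
      have t1 : a * star u = a * (star u * u) * star u := by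
        rw [mul_assoc a, star_trip F.bt]
      have t2 : v * star v * (a * star u) = v * star v * (a * (star u * u)) * star u := by
        conv_lhs => rw [t1]
        simp only [mul_assoc]
      rw [t2, ← t, ← t1]
    have h10 : v * star v * (x * star u) = 0 := by
      have : v * star v * (x * star u) = v * (star v * x) * star u := by simp only [mul_assoc]
      rw [this, x2.bl, mul_zero, zero_mul]
    have h11 : v * star v * (a * star u * A) = v * star v * (a * star u + x * star u) := by rw [h2]
    rw [← mul_assoc (v * star v), h9, mul_add, h9, h10, add_zero, h2] at h11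
    exact add_eq_left.1 h11
  have h12 : x = 0 := by
    rw [x1.2, h4, ← mul_assoc, h8, zero_mul, add_zero]
  rw [hzz, h12, add_zero]
  exact a2

end Pool.MP43e44c.SG
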