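import Pool.Agent.H.MP_43e44c_ag.SG.BlkA

/-!
# SG/BlkB: the stable subspace, `A = 0` or `A = u u*`
-/

set_option autoImplicit false

namespace Pool.MP43e44c.SG

open Module PE

variable {W : Type*} [NormedAddCommGroup W] [InnerProductSpace ℂ W] [FiniteDimensional ℂ W]
variable {e : Module.End ℂ W} {V : Submodule ℂ (Module.End ℂ W)} {u v A x₀ : Module.End ℂ W}

/-- `V = C u + PV1 + PV0`. -/
theorem blk_decomp (T : Tri e V) (hu : Prim V u) {x : Module.End ℂ W} (hx : x ∈ V) :
    ∃ c : ℂ, ∃ p ∈ PV1 V u, ∃ y ∈ PV0 V u, x = c • u + p + y := by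
  have hut := hu.trip
  have h2 := mem_P2 T hu.mem hx
  have h1 := mem_P1 T hu.mem hut hx
  have h0 := mem_P0 T hu.mem hut hx
  have h3 : u * star u * (u * star u * x * (star u * u)) * (star u * u) =
      u * star u * x * (star u * u) := by
    have h4 : u * star u * (u * star u * x * (star u * u)) * (star u * u) =
        (u * star u * (u * star u)) * x * ((star u * u) * (star u * u)) := by
      simp only [mul_assoc]
    rw [h4, p1_idem hut, p0_idem hut]
  obtain ⟨c, hc⟩ := hu.one _ h2 h3
  refine ⟨c, _, h1, _, h0, ?_⟩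
  rw [← hc]
  module

/-- The operators whose ranges generate the stable subspace. -/
inductive GM (V : Submodule ℂ (Module.End ℂ W)) (u A : Module.End ℂ W) : Module.End ℂ W → Prop
  | a : GM V u A A
  | b : GM V u A (star u * A)
  | c (q : Module.End ℂ W) (hq : q ∈ PV1 V u) : GM V u A (star q * A)
  | d (q : Module.End ℂ W) (hq : q ∈ PV1 V u) : GM V u A (q * star u * A)

/-- The stable subspace. -/
def GU (V : Submodule ℂ (Module.End ℂ W)) (u A : Module.End ℂ W) : Submodule ℂ W :=
  Submodule.span ℂ {w | ∃ m, GM V u A m ∧ ∃ ξ, w = m ξ}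

theorem GU_mem {m : Module.End ℂ W} (hm : GM V u A m) (ξ : W) : m ξ ∈ GU V u A :=
  Submodule.subset_span ⟨m, hm, ξ, rfl⟩

theorem GU_mem_mul {m k x : Module.End ℂ W} (hm : GM V u A m) (h : x = m * k) (ξ : W) :
    x ξ ∈ GU V u A := by
  rw [h]
  exact GU_mem hm (k ξ)

theorem GU_mem_zero {x : Module.End ℂ W} (h : x = 0) (ξ : W) : x ξ ∈ GU V u A := by
  rw [h]
  exact (GU V u A).zero_mem

theorem GU_stab {x : Module.End ℂ W} (h : ∀ m, GM V u A m → ∀ ξ, (x * m) ξ ∈ GU V u A) :
    ∀ w ∈ GU V u A, x w ∈ GU V u A := by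
  have h1 : GU V u A ≤ (GU V u A).comap x := by
    refine Submodule.span_le.2 ?_
    rintro w ⟨m, hm, ξ, rfl⟩
    exact h m hm ξ
  exact fun w hw => h1 hw

section
variable (F : AFrame e V u v A x₀)
include F

theorem eA : e * A = A := by
  rw [← F.pA, ← mul_assoc, ← mul_assoc, F.T.left u F.hu.mem]

theorem mul_A {x : Module.End ℂ W} (hx : x ∈ V) : x * A = 0 := by
  rw [← eA F, ← mul_assoc, F.T.right x hx, zero_mul]

theorem mul_V {x y : Module.End ℂ W} (hx : x ∈ V) (hy : y ∈ V) : x * y = 0 := by
  rw [← F.T.left y hy, ← mul_assoc, F.T.right x hx, zero_mul]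

theorem smul_V {x y : Module.End ℂ W} (hx : x ∈ V) (hy : y ∈ V) : star x * star y = 0 := by
  rw [← star_mul, mul_V F hy hx, star_zero]

theorem GU_u : ∀ w ∈ GU V u A, u w ∈ GU V u A := by
  refine GU_stab ?_
  intro m hm ξ
  cases hm with
  | a => exact GU_mem_zero (mul_A F F.hu.mem) ξ
  | b =>
    refine GU_mem_mul (m := A) (k := 1) GM.a ?_ ξ
    rw [← mul_assoc, F.pA, mul_one]
  | c q hq =>
    refine GU_mem_zero ?_ ξ
    have h := hq.2.usu F.hu.trip
    rw [← F.pA]
    simp only [← mul_assoc]
    rw [h, zero_mul, zero_mul]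
  | d q hq =>
    refine GU_mem_zero ?_ ξ
    simp only [← mul_assoc]
    rw [mul_V F F.hu.mem hq.1, zero_mul, zero_mul]

theorem GU_su : ∀ w ∈ GU V u A, (star u) w ∈ GU V u A := by
  refine GU_stab ?_
  intro m hm ξ
  cases hm with
  | a => exact GU_mem GM.b ξ
  | b =>
    refine GU_mem_zero ?_ ξ
    rw [← mul_assoc, smul_V F F.hu.mem F.hu.mem, zero_mul]
  | c q hq =>
    refine GU_mem_zero ?_ ξ
    rw [← mul_assoc, smul_V F F.hu.mem hq.1, zero_mul]
  | d q hq =>
    refine GU_mem_zero ?_ ξ
    have h := hq.2.sxs F.hu.trip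
    simp only [← mul_assoc]
    rw [h, zero_mul]

/-- `q* A = q_A* u u*`. -/
theorem qA {q a b : Module.End ℂ W} (ha : InA V u A a) (hb : InB V u A b) (h : q = a + b) :
    star q * A = star a * (u * star u) := by
  have h1 : star a * A = star a * (u * star u) := by
    have := congrArg star ha.l
    simpa only [star_mul, star_star, F.As, mul_assoc] using this
  have h2 : star b * A = 0 := by
    have := congrArg star hb.l
    simpa only [star_mul, star_star, F.As, star_zero] using this
  rw [h, star_add, add_mul, h1, h2, add_zero]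

omit F in
theorem qB {q a b : Module.End ℂ W} (ha : InA V u A a) (hb : InB V u A b) (h : q = a + b) :
    q * star u * A = b * star u := by
  rw [h, add_mul, add_mul, ha.r, hb.r, zero_add]

theorem GU_p {p : Module.End ℂ W} (hp : p ∈ PV1 V u) : ∀ w ∈ GU V u A, p w ∈ GU V u A := by
  have hut := F.hu.trip
  refine GU_stab ?_
  intro m hm ξ
  cases hm with
  | a => exact GU_mem_zero (mul_A F hp.1) ξ
  | b =>
    refine GU_mem_mul (m := p * star u * A) (k := 1) (GM.d p hp) ?_ ξ
    rw [← mul_assoc, mul_one]
  | c q hq =>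
    obtain ⟨a, b, ha, hb, hq2⟩ := blk_split F hq.1 hq.2
    obtain ⟨a', b', ha', hb', hp2⟩ := blk_split F hp.1 hp.2
    refine GU_mem_mul (m := A) (k := a' * star a) GM.a ?_ ξ
    rw [qA F ha hb hq2]
    have h1 := (P1.comm hut ha'.p1 ha.p1).1
    have h2 := (P1.comm hut hb'.p1 ha.p1).1
    have h3 := (blk_zero F hb' ha).1
    rw [h3] at h2
    have e1 : a' * (star a * (u * star u)) = A * (a' * star a) := by
      rw [← mul_assoc a' (star a), ← h1, ← mul_assoc, ← ha'.l, mul_assoc]
    have e2 : b' * (star a * (u * star u)) = 0 := by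
      rw [← mul_assoc b' (star a), ← h2]
    rw [hp2, add_mul, e1, e2, add_zero]
  | d q hq =>
    refine GU_mem_zero ?_ ξ
    simp only [← mul_assoc]
    rw [mul_V F hp.1 hq.1, zero_mul, zero_mul]

theorem GU_sp {p : Module.End ℂ W} (hp : p ∈ PV1 V u) :
    ∀ w ∈ GU V u A, (star p) w ∈ GU V u A := by
  have hut := F.hu.trip
  refine GU_stab ?_
  intro m hm ξ
  cases hm with
  | a => exact GU_mem (GM.c p hp) ξ
  | b =>
    refine GU_mem_zero ?_ ξ
    rw [← mul_assoc, smul_V F hp.1 F.hu.mem, zero_mul]
  | c q hq =>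
    refine GU_mem_zero ?_ ξ
    rw [← mul_assoc, smul_V F hp.1 hq.1, zero_mul]
  | d q hq =>
    obtain ⟨a, b, ha, hb, hq2⟩ := blk_split F hq.1 hq.2
    obtain ⟨a', b', ha', hb', hp2⟩ := blk_split F hp.1 hp.2
    refine GU_mem_mul (m := star u * A) (k := u * star b' * b * star u) GM.b ?_ ξ
    rw [qB ha hb hq2]
    have h1 := (P1.comm hut hb.p1 ha'.p1).2.2
    have h2 := (P1.comm hut hb.p1 hb'.p1).2.2
    have h3 := (blk_zero F hb ha').2
    have h4 : A * (u * star b') = u * star b' := by
      have := congrArg star hb'.r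
      simpa only [star_mul, star_star, F.As, mul_assoc] using this
    have h5 : star a' * (b * star u) = 0 := by
      have h6 : star a' * (b * star u) = star u * (u * star a' * b * star u) := by
        have h7 : star a' * (b * star u) = star a' * b * (star u * u) * star u := by
          rw [mul_assoc (star a' * b), star_trip hut]
          simp only [mul_assoc]
        rw [h7, ← h1]
        simp only [mul_assoc]
      rw [h6, h3, mul_zero]
    have h6 : star b' * (b * star u) = star u * A * (u * star b' * b * star u) := by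
      have h7 : star b' * (b * star u) = star b' * b * (star u * u) * star u := by
        rw [mul_assoc (star b' * b), star_trip hut]
        simp only [mul_assoc]
      rw [h7, ← h2]
      have h8 : star u * A * (u * star b' * b * star u) =
          star u * (A * (u * star b')) * b * star u := by simp only [mul_assoc]
      rw [h8, h4]
      simp only [mul_assoc]
    rw [hp2, star_add, add_mul, h5, zero_add, h6]

theorem GU_y {y : Module.End ℂ W} (hy : y ∈ PV0 V u) : ∀ w ∈ GU V u A, y w ∈ GU V u A := by
  have hut := F.hu.trip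
  refine GU_stab ?_
  intro m hm ξ
  cases hm with
  | a => exact GU_mem_zero (mul_A F hy.1) ξ
  | b =>
    refine GU_mem_zero ?_ ξ
    rw [← mul_assoc, hy.2.2, zero_mul]
  | c q hq =>
    have h := mem_yqu F.T F.hu.mem hut hy.1 hy.2 hq.1 hq.2
    refine GU_mem_mul (k := 1) (GM.d _ h) ?_ ξ
    have h1 : (y * star q * u + u * star q * y) * star u * A =
        y * star q * (u * star u * A) + u * star q * (y * star u) * A := by
      simp only [add_mul, mul_assoc]
    rw [h1, F.pA, hy.2.2, mul_zero, zero_mul, add_zero, mul_one, mul_assoc]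
  | d q hq =>
    refine GU_mem_zero ?_ ξ
    simp only [← mul_assoc]
    rw [mul_V F hy.1 hq.1, zero_mul, zero_mul]

theorem GU_sy {y : Module.End ℂ W} (hy : y ∈ PV0 V u) :
    ∀ w ∈ GU V u A, (star y) w ∈ GU V u A := by
  have hut := F.hu.trip
  have hyA : star y * A = 0 := by
    have h : star y * u = 0 := by
      have := congrArg star hy.2.1
      simpa only [star_mul, star_star, star_zero] using this
    rw [← F.pA, ← mul_assoc, ← mul_assoc, h, zero_mul, zero_mul]
  refine GU_stab ?_
  intro m hm ξ
  cases hm with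
  | a => exact GU_mem_zero hyA ξ
  | b =>
    refine GU_mem_zero ?_ ξ
    rw [← mul_assoc, smul_V F hy.1 F.hu.mem, zero_mul]
  | c q hq =>
    refine GU_mem_zero ?_ ξ
    rw [← mul_assoc, smul_V F hy.1 hq.1, zero_mul]
  | d q hq =>
    have h := mem_yqu F.T F.hu.mem hut hy.1 hy.2 hq.1 hq.2
    refine GU_mem_mul (k := 1) (GM.c _ h) ?_ ξ
    have h1 : star (y * star q * u + u * star q * y) * A =
        star u * q * (star y * A) + star y * q * star u * A := by
      simp only [star_add, star_mul, star_star, add_mul, mul_assoc]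
    rw [h1, hyA, mul_zero, zero_add, mul_one]
    simp only [mul_assoc]

end

/-- `U = range A + range (u* A) + ∑_q range (q* A) + ∑_q range (q u* A)`, `q ∈ V` of degree one, is stable under `V` and
`V*` (write `V = C u + PV1 + PV0`, `mem_P2`, `Prim.one`, `mem_P1`, `mem_P0`):
* `u`: `u A = 0`, `u u* A = A`, `u q* A = 0`, `u q u* A = 0`; `u*`: similarly;
* `p` of degree one: `p A = 0`; `p u* A` in `U`; `p q* A = A (u u* p q*) A` by `blk_split` for `p`, `q` and `blk_zero`; `p q u* A = 0`;
  `p* A` in `U`; `p* u* A = 0`; `p* q* A = 0`; `p* q u* A = u* (u p* q u*) A = u* A (u p* q u*) A`;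
* `y` of degree zero: `y A = 0`, `y u* A = 0`, `y q* A = {y,q,u} u* A`, `y q u* A = 0`; `y* A = 0`, `y* u* A = 0`, `y* q* A = 0`,
  `y* q u* A = {y,q,u}* A` (because `y* A = 0`), `mem_yqu`.
If `U = ⊥` then `A = 0`; if `U = ⊤`, apply `u u*`: `u u* U ⊆ range A`, so `u u* = A u u* = A`. -/
theorem A_eq (hI : Irr V) (F : AFrame e V u v A x₀) : A = 0 ∨ A = u * star u := by
  have h1 : ∀ x ∈ V, ∀ w ∈ GU V u A, x w ∈ GU V u A := by
    intro x hx w hw
    obtain ⟨c, p, hp, y, hy, rfl⟩ := blk_decomp F.T F.hu hx
    rw [LinearMap.add_apply, LinearMap.add_apply, LinearMap.smul_apply]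
    exact Submodule.add_mem _ (Submodule.add_mem _ (Submodule.smul_mem _ c (GU_u F w hw))
      (GU_p F hp w hw)) (GU_y F hy w hw)
  have h2 : ∀ x ∈ V, ∀ w ∈ GU V u A, (star x) w ∈ GU V u A := by
    intro x hx w hw
    obtain ⟨c, p, hp, y, hy, rfl⟩ := blk_decomp F.T F.hu hx
    rw [star_add, star_add, star_smul, LinearMap.add_apply, LinearMap.add_apply,
      LinearMap.smul_apply]
    exact Submodule.add_mem _ (Submodule.add_mem _ (Submodule.smul_mem _ _ (GU_su F w hw))
      (GU_sp F hp w hw)) (GU_sy F hy w hw)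
  rcases hI _ h1 h2 with h | h
  · left
    ext ξ
    have h3 : A ξ ∈ GU V u A := GU_mem GM.a ξ
    rw [h] at h3
    simpa using h3
  · right
    have hut := F.hu.trip
    have h3 : GU V u A ≤ (LinearMap.range A).comap (u * star u) := by
      refine Submodule.span_le.2 ?_
      rintro w ⟨m, hm, ξ, rfl⟩
      show (u * star u) (m ξ) ∈ LinearMap.range A
      have h4 : (u * star u) (m ξ) = (u * star u * m) ξ := rfl
      rw [h4]
      cases hm with
      | a => rw [F.pA]; exact ⟨ξ, rfl⟩
      | b =>
        have h5 : u * star u * (star u * A) = 0 := by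
          rw [← mul_assoc, mul_assoc u, smul_V F F.hu.mem F.hu.mem, mul_zero, zero_mul]
        rw [h5]
        exact Submodule.zero_mem _
      | c q hq =>
        have h5 : u * star u * (star q * A) = 0 := by
          rw [← mul_assoc, mul_assoc u, smul_V F F.hu.mem hq.1, mul_zero, zero_mul]
        rw [h5]
        exact Submodule.zero_mem _
      | d q hq =>
        have h5 : u * star u * (q * star u * A) = 0 := by
          have h6 := hq.2.sxs hut
          have h7 : u * star u * (q * star u * A) = u * (star u * q * star u) * A := by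
            simp only [mul_assoc]
          rw [h7, h6, mul_zero, zero_mul]
        rw [h5]
        exact Submodule.zero_mem _
    have h4 : A * (u * star u) = u * star u := by
      ext w
      have hw : w ∈ GU V u A := by rw [h]; trivial
      obtain ⟨η, hη⟩ := h3 hw
      have h5 : A ((u * star u) w) = (u * star u) w := by
        rw [← hη]
        have h6 : A (A η) = (A * A) η := rfl
        rw [h6, F.AA]
      exact h5
    rw [← h4, F.Ap]

/-- Consequence: the first components are in `V`. -/
theorem comp_mem (hI : Irr V) (F : AFrame e V u v A x₀) {q : Module.End ℂ W} (hq : q ∈ V)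
    (h1 : P1 u q) : u * star u * q ∈ V := by
  have hut := F.hu.trip
  have h := blk_mem F hq h1
  rcases A_eq hI F with hA | hA
  · rw [hA, zero_mul, zero_add, sub_zero] at h
    have h2 : q * star u * (u * star u) * u = q * (star u * u) := by
      have h3 : q * star u * (u * star u) * u = q * star u * (u * star u * u) := by
        simp only [mul_assoc]
      rw [h3, hut, mul_assoc]
    rw [h2] at h
    have h4 : u * star u * q = q - q * (star u * u) := by
      rw [eq_sub_iff_add_eq]
      exact h1.2.symm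
    rw [h4]
    exact V.sub_mem hq h
  · rw [hA, sub_self, mul_zero, zero_mul, add_zero] at h
    exact h

end Pool.MP43e44c.SG
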