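import Pool.Agent.H.MP_43e44c_ag.SG.Frob

/-!
# SG/Cas: the Casimir identities for the corner of `g`
-/

set_option autoImplicit false

namespace Pool.MP43e44c.SG

open Module PE

variable {W : Type*} [NormedAddCommGroup W] [InnerProductSpace ℂ W] [FiniteDimensional ℂ W]

theorem tri_of_g {g : Submodule ℂ (Module.End ℂ W)}
    (hbr : ∀ x ∈ g, ∀ y ∈ g, x * y - y * x ∈ g) (hst : ∀ x ∈ g, star x ∈ g)
    {e : Module.End ℂ W} (he : e * e = e) (hes : star e = e) : Tri e (copG1 g e) where
  idem := he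
  sa := hes
  left := fun _ hx => hx.2.1
  right := fun _ hx => hx.2.2
  tri := fun _ hx _ hy _ hz => cop_triple hbr hst hx hy hz

/-- `fr [A, x] y = fr x [A*, y]`. -/
theorem fr_ad (A x y : Module.End ℂ W) :
    fr (A * x - x * A) y = fr x (star A * y - y * star A) := by
  unfold fr
  rw [star_sub, star_mul, star_mul, star_star, mul_sub, sub_mul, map_sub, map_sub]
  congr 1
  rw [mul_assoc, LinearMap.trace_mul_comm, mul_assoc]

private theorem Cas_exp {V : Submodule ℂ (Module.End ℂ W)} {n : ℕ} {b : Fin n → Module.End ℂ W}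
    (hb : ONB V b) {A : Module.End ℂ W} (h2 : ∀ x ∈ V, star A * x - x * star A ∈ V) (i : Fin n) :
    A * star (b i) - star (b i) * A = - ∑ j, fr (A * b j - b j * A) (b i) • star (b j) := by
  have h3 : A * star (b i) - star (b i) * A = - star (star A * b i - b i * star A) := by
    rw [star_sub, star_mul, star_mul, star_star]
    abel
  rw [h3, hb.span _ (h2 _ (hb.mem i)), star_sum]
  congr 1
  refine Finset.sum_congr rfl fun j _ => ?_
  rw [star_smul]
  congr 1
  have h4 := fr_ad A (b j) (b i)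
  rw [h4]
  exact fr_conj _ _

/-- `∑ b_i b_i*` commutes with `A`. -/
theorem cas_comm1 {V : Submodule ℂ (Module.End ℂ W)} {n : ℕ} {b : Fin n → Module.End ℂ W}
    (hb : ONB V b) {A : Module.End ℂ W} (h1 : ∀ x ∈ V, A * x - x * A ∈ V)
    (h2 : ∀ x ∈ V, star A * x - x * star A ∈ V) :
    (∑ i, b i * star (b i)) * A = A * ∑ i, b i * star (b i) := by
  have h3 : A * (∑ i, b i * star (b i)) - (∑ i, b i * star (b i)) * A = 0 := by
    have h4 : ∀ i, A * (b i * star (b i)) - b i * star (b i) * A =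
        (A * b i - b i * A) * star (b i) + b i * (A * star (b i) - star (b i) * A) := by
      intro i
      rw [sub_mul, mul_sub]
      simp only [mul_assoc]
      abel
    rw [Finset.mul_sum, Finset.sum_mul, ← Finset.sum_sub_distrib, Finset.sum_congr rfl fun i _ => h4 i,
      Finset.sum_add_distrib]
    have h5 : ∑ i, (A * b i - b i * A) * star (b i) =
        ∑ i, ∑ j, fr (A * b i - b i * A) (b j) • (b j * star (b i)) := by
      refine Finset.sum_congr rfl fun i _ => ?_
      conv_lhs => rw [hb.span _ (h1 _ (hb.mem i))]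
      rw [Finset.sum_mul]
      refine Finset.sum_congr rfl fun j _ => ?_
      rw [smul_mul_assoc]
    have h6 : ∑ i, b i * (A * star (b i) - star (b i) * A) =
        - ∑ i, ∑ j, fr (A * b j - b j * A) (b i) • (b i * star (b j)) := by
      rw [← Finset.sum_neg_distrib]
      refine Finset.sum_congr rfl fun i _ => ?_
      rw [Cas_exp hb h2 i, mul_neg, Finset.mul_sum]
      congr 1
      refine Finset.sum_congr rfl fun j _ => ?_
      rw [mul_smul_comm]
    rw [h5, h6, Finset.sum_comm, add_neg_cancel]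
  exact (sub_eq_zero.1 h3).symm

/-- `∑ b_i* b_i` commutes with `A`. -/
theorem cas_comm2 {V : Submodule ℂ (Module.End ℂ W)} {n : ℕ} {b : Fin n → Module.End ℂ W}
    (hb : ONB V b) {A : Module.End ℂ W} (h1 : ∀ x ∈ V, A * x - x * A ∈ V)
    (h2 : ∀ x ∈ V, star A * x - x * star A ∈ V) :
    (∑ i, star (b i) * b i) * A = A * ∑ i, star (b i) * b i := by
  have h3 : A * (∑ i, star (b i) * b i) - (∑ i, star (b i) * b i) * A = 0 := by
    have h4 : ∀ i, A * (star (b i) * b i) - star (b i) * b i * A =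
        star (b i) * (A * b i - b i * A) + (A * star (b i) - star (b i) * A) * b i := by
      intro i
      rw [sub_mul, mul_sub]
      simp only [mul_assoc]
      abel
    rw [Finset.mul_sum, Finset.sum_mul, ← Finset.sum_sub_distrib, Finset.sum_congr rfl fun i _ => h4 i,
      Finset.sum_add_distrib]
    have h5 : ∑ i, star (b i) * (A * b i - b i * A) =
        ∑ i, ∑ j, fr (A * b i - b i * A) (b j) • (star (b i) * b j) := by
      refine Finset.sum_congr rfl fun i _ => ?_
      conv_lhs => rw [hb.span _ (h1 _ (hb.mem i))]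
      rw [Finset.mul_sum]
      refine Finset.sum_congr rfl fun j _ => ?_
      rw [mul_smul_comm]
    have h6 : ∑ i, (A * star (b i) - star (b i) * A) * b i =
        - ∑ i, ∑ j, fr (A * b j - b j * A) (b i) • (star (b j) * b i) := by
      rw [← Finset.sum_neg_distrib]
      refine Finset.sum_congr rfl fun i _ => ?_
      rw [Cas_exp hb h2 i, neg_mul, Finset.sum_mul]
      rfl
    rw [h5, h6, Finset.sum_comm, add_neg_cancel]
  exact (sub_eq_zero.1 h3).symm

/-- Casimir.  For `A ∈ copG0 g e` one has `fr [A, x] y = fr x [A*, y]`, so `C₁ = ∑ b_i b_i*` commutes with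
`copG0 g e`: `[A, C₁] = ∑ [A, b_i] b_i* + ∑ b_i [A, b_i*]`, `[A, b_i*] = -[A*, b_i]*`, expand `[A, b_i]`, `[A*, b_i]`
in the basis (`cop_ad_mem`, `cop_star_G0`, `ONB.span`).  `cop_schur` (for `e`, and for `1 - e ∈ g`) gives
`C₁ = C₁ e = ν e`; traces: `ν r = ∑ fr b_i b_i = n = dim V` (`ONB.card`), `r ≠ 0`.  Same for `C₂ = ∑ b_i* b_i`. -/
theorem cas_of_g {g : Submodule ℂ (Module.End ℂ W)}
    (hbr : ∀ x ∈ g, ∀ y ∈ g, x * y - y * x ∈ g) (hst : ∀ x ∈ g, star x ∈ g)
    (hirr : ∀ U : Submodule ℂ W, (∀ x ∈ g, ∀ w ∈ U, x w ∈ U) → U = ⊥ ∨ U = ⊤)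
    {e : Module.End ℂ W} (he : e * e = e) (hes : star e = e) (heg : e ∈ g)
    (h1g : (1 : Module.End ℂ W) ∈ g) (he0 : e ≠ 0) (he1 : e ≠ 1) :
    ∃ c₁ c₂ : ℂ, Cas e (copG1 g e) c₁ c₂ ∧
      c₁ * (finrank ℂ (LinearMap.range e) : ℂ) = (finrank ℂ (copG1 g e) : ℂ) ∧
      c₂ * (finrank ℂ (LinearMap.ker e) : ℂ) = (finrank ℂ (copG1 g e) : ℂ) := by
  have he' : (1 - e) * (1 - e) = 1 - e := by
    rw [mul_sub, sub_mul, sub_mul, one_mul, one_mul, mul_one, he]
    abel
  have tr_e : LinearMap.trace ℂ W e = (finrank ℂ (LinearMap.range e) : ℂ) := cop_trace_idem e he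
  have hN : finrank ℂ (LinearMap.range e) + finrank ℂ (LinearMap.ker e) = finrank ℂ W :=
    LinearMap.finrank_range_add_finrank_ker e
  have tr_1e : LinearMap.trace ℂ W (1 - e) = (finrank ℂ (LinearMap.ker e) : ℂ) := by
    rw [map_sub, tr_e, LinearMap.trace_one, ← hN]
    push_cast
    ring
  have hr : (finrank ℂ (LinearMap.range e) : ℂ) ≠ 0 := by
    intro h
    have h1 : finrank ℂ (LinearMap.range e) = 0 := by exact_mod_cast h
    exact he0 (LinearMap.range_eq_bot.1 (Submodule.finrank_eq_zero.1 h1))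
  have hs : (finrank ℂ (LinearMap.ker e) : ℂ) ≠ 0 := by
    intro h
    have h1 : finrank ℂ (LinearMap.ker e) = 0 := by exact_mod_cast h
    have h2 : LinearMap.ker e = ⊥ := Submodule.finrank_eq_zero.1 h1
    apply he1
    refine LinearMap.ext fun w => ?_
    have h3 : w - e w ∈ LinearMap.ker e := by
      rw [LinearMap.mem_ker, map_sub, sub_eq_zero]
      exact (congrArg (fun f : Module.End ℂ W => f w) he).symm
    rw [h2, Submodule.mem_bot, sub_eq_zero] at h3
    exact h3.symm
  refine ⟨(finrank ℂ (copG1 g e) : ℂ) / (finrank ℂ (LinearMap.range e) : ℂ),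
    (finrank ℂ (copG1 g e) : ℂ) / (finrank ℂ (LinearMap.ker e) : ℂ), ?_, div_mul_cancel₀ _ hr,
    div_mul_cancel₀ _ hs⟩
  intro n b hb
  have hcard : (finrank ℂ (copG1 g e) : ℂ) = (n : ℂ) := by exact_mod_cast hb.card
  have hG : ∀ A ∈ g, e * A = A * e → (∀ x ∈ copG1 g e, A * x - x * A ∈ copG1 g e) ∧
      ∀ x ∈ copG1 g e, star A * x - x * star A ∈ copG1 g e := by
    intro A hA hAe
    have h0 : A ∈ copG0 g e := mem_copG0.2 ⟨hA, hAe⟩
    exact ⟨fun x hx => cop_ad_mem hbr h0 hx, fun x hx => cop_ad_mem hbr (cop_star_G0 hst hes h0) hx⟩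
  constructor
  · obtain ⟨ν, hν⟩ := cop_schur g hbr hirr e he heg he0 (∑ i, b i * star (b i))
      (fun y hy hey => cas_comm1 hb (hG y hy hey).1 (hG y hy hey).2)
    have h1 : (∑ i, b i * star (b i)) * e = ∑ i, b i * star (b i) := by
      rw [Finset.sum_mul]
      refine Finset.sum_congr rfl fun i _ => ?_
      have h2 := congrArg star (mem_copG1.1 (hb.mem i)).2.1
      rw [star_mul, hes] at h2
      rw [mul_assoc, h2]
    rw [h1] at hν
    have h3 : LinearMap.trace ℂ W (∑ i, b i * star (b i)) = (n : ℂ) := by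
      rw [map_sum]
      have h4 : ∀ i, LinearMap.trace ℂ W (b i * star (b i)) = 1 := fun i => by
        have := hb.orth i i
        rwa [if_pos rfl] at this
      rw [Finset.sum_congr rfl fun i _ => h4 i]
      simp
    rw [hν, map_smul, tr_e, smul_eq_mul] at h3
    rw [hν, hcard, ← h3, mul_div_cancel_right₀ _ hr]
  · obtain ⟨ν, hν⟩ := cop_schur g hbr hirr (1 - e) he' (g.sub_mem h1g heg)
      (sub_ne_zero.2 he1.symm) (∑ i, star (b i) * b i)
      (fun y hy hey => by
        have hey' : e * y = y * e := by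
          rw [sub_mul, mul_sub, one_mul, mul_one] at hey
          exact sub_right_injective hey
        exact cas_comm2 hb (hG y hy hey').1 (hG y hy hey').2)
    have h1 : (∑ i, star (b i) * b i) * (1 - e) = ∑ i, star (b i) * b i := by
      rw [Finset.sum_mul]
      refine Finset.sum_congr rfl fun i _ => ?_
      rw [mul_sub, mul_one, mul_assoc, (mem_copG1.1 (hb.mem i)).2.2, mul_zero, sub_zero]
    rw [h1] at hν
    have h3 : LinearMap.trace ℂ W (∑ i, star (b i) * b i) = (n : ℂ) := by
      rw [map_sum]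
      have h4 : ∀ i, LinearMap.trace ℂ W (star (b i) * b i) = 1 := fun i => by
        have := hb.orth i i
        rw [if_pos rfl] at this
        rw [LinearMap.trace_mul_comm]
        exact this
      rw [Finset.sum_congr rfl fun i _ => h4 i]
      simp
    rw [hν, map_smul, tr_1e, smul_eq_mul] at h3
    rw [hν, hcard, ← h3, mul_div_cancel_right₀ _ hs]

end Pool.MP43e44c.SG
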