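import Pool.Agent.H.MP_43e44c_ag.SG.Peirce

/-!
# SG/Full: if the components of the elements of degree one are in `V` then `V` is everything
-/

set_option autoImplicit false

namespace Pool.MP43e44c.SG

open Module PE

variable {W : Type*} [NormedAddCommGroup W] [InnerProductSpace ℂ W] [FiniteDimensional ℂ W]
variable {e : Module.End ℂ W} {V : Submodule ℂ (Module.End ℂ W)} {u : Module.End ℂ W}

theorem tri_mul_zero (T : Tri e V) {x y : Module.End ℂ W} (hx : x ∈ V) (hy : y ∈ V) : x * y = 0 := by
  rw [← T.left y hy, ← mul_assoc, T.right x hx, zero_mul]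

theorem tri_star_mul_zero (T : Tri e V) {x y : Module.End ℂ W} (hx : x ∈ V) (hy : y ∈ V) :
    star x * star y = 0 := by
  rw [← star_mul, tri_mul_zero T hy hx, star_zero]

/-- The elements of degree one with `q = u u* q`. -/
structure H1 (V : Submodule ℂ (Module.End ℂ W)) (u q : Module.End ℂ W) : Prop where
  mem : q ∈ V
  p1 : P1 u q
  l : u * star u * q = q
  r : q * star u = 0

/-- The elements of degree one with `q = q u* u`. -/
structure H2 (V : Submodule ℂ (Module.End ℂ W)) (u q : Module.End ℂ W) : Prop where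
  mem : q ∈ V
  p1 : P1 u q
  l : q * (star u * u) = q
  r : star u * q = 0

theorem H1.mk' (hut : u * star u * u = u) {q : Module.End ℂ W} (hq : q ∈ V) (h : P1 u q)
    (hl : u * star u * q = q) : H1 V u q := by
  refine ⟨hq, h, hl, ?_⟩
  have h1 : q * (star u * u) = 0 := by
    have h2 := h.1
    rwa [hl] at h2
  rw [← star_trip hut, ← mul_assoc q, h1, zero_mul]

theorem H2.mk' (hut : u * star u * u = u) {q : Module.End ℂ W} (hq : q ∈ V) (h : P1 u q)
    (hl : q * (star u * u) = q) : H2 V u q := by
  refine ⟨hq, h, hl, ?_⟩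
  have h1 : u * star u * q = 0 := by
    have h2 := h.1
    rwa [mul_assoc (u * star u), hl] at h2
  rw [← star_trip hut, mul_assoc, mul_assoc, ← mul_assoc u, h1, mul_zero]

/-- The subspace generated by a vector of the range of `u`. -/
def fullU (V : Submodule ℂ (Module.End ℂ W)) (u : Module.End ℂ W) (ξ : W) : Submodule ℂ W where
  carrier := {w | ∃ (a b : ℂ) (q r : Module.End ℂ W), H1 V u q ∧ H2 V u r ∧
    w = a • ξ + b • (star u) ξ + (star q) ξ + r ((star u) ξ)}
  add_mem' := by
    rintro w w' ⟨a, b, q, r, h1, h2, rfl⟩ ⟨a', b', q', r', h1', h2', rfl⟩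
    refine ⟨a + a', b + b', q + q', r + r',
      ⟨V.add_mem h1.mem h1'.mem, ((PV1 V u).add_mem ⟨h1.mem, h1.p1⟩ ⟨h1'.mem, h1'.p1⟩).2,
        by rw [mul_add, h1.l, h1'.l], by rw [add_mul, h1.r, h1'.r, add_zero]⟩,
      ⟨V.add_mem h2.mem h2'.mem, ((PV1 V u).add_mem ⟨h2.mem, h2.p1⟩ ⟨h2'.mem, h2'.p1⟩).2,
        by rw [add_mul, h2.l, h2'.l], by rw [mul_add, h2.r, h2'.r, add_zero]⟩, ?_⟩
    rw [star_add, LinearMap.add_apply, LinearMap.add_apply]
    module
  zero_mem' := ⟨0, 0, 0, 0,
    ⟨V.zero_mem, (PV1 V u).zero_mem.2, by rw [mul_zero], by rw [zero_mul]⟩,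
    ⟨V.zero_mem, (PV1 V u).zero_mem.2, by rw [zero_mul], by rw [mul_zero]⟩, by simp⟩
  smul_mem' := by
    rintro c w ⟨a, b, q, r, h1, h2, rfl⟩
    refine ⟨c * a, c * b, (starRingEnd ℂ c) • q, c • r,
      ⟨V.smul_mem _ h1.mem, ((PV1 V u).smul_mem _ ⟨h1.mem, h1.p1⟩).2,
        by rw [mul_smul_comm, h1.l], by rw [smul_mul_assoc, h1.r, smul_zero]⟩,
      ⟨V.smul_mem _ h2.mem, ((PV1 V u).smul_mem _ ⟨h2.mem, h2.p1⟩).2,
        by rw [smul_mul_assoc, h2.l], by rw [mul_smul_comm, h2.r, smul_zero]⟩, ?_⟩
    rw [star_smul, LinearMap.smul_apply, LinearMap.smul_apply]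
    have : star ((starRingEnd ℂ) c) = c := by simp
    rw [this]
    module

theorem fullU_q {q : Module.End ℂ W} (h : H1 V u q) (ξ : W) : (star q) ξ ∈ fullU V u ξ :=
  ⟨0, 0, q, 0, h, ⟨V.zero_mem, (PV1 V u).zero_mem.2, by rw [zero_mul], by rw [mul_zero]⟩, by simp⟩

theorem fullU_r {r : Module.End ℂ W} (h : H2 V u r) (ξ : W) : r ((star u) ξ) ∈ fullU V u ξ :=
  ⟨0, 0, 0, r, ⟨V.zero_mem, (PV1 V u).zero_mem.2, by rw [mul_zero], by rw [zero_mul]⟩, h, by simp⟩

theorem fullU_xi (ξ : W) : ξ ∈ fullU V u ξ :=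
  ⟨1, 0, 0, 0, ⟨V.zero_mem, (PV1 V u).zero_mem.2, by rw [mul_zero], by rw [zero_mul]⟩,
    ⟨V.zero_mem, (PV1 V u).zero_mem.2, by rw [zero_mul], by rw [mul_zero]⟩, by simp⟩

theorem fullU_eta (ξ : W) : (star u) ξ ∈ fullU V u ξ :=
  ⟨0, 1, 0, 0, ⟨V.zero_mem, (PV1 V u).zero_mem.2, by rw [mul_zero], by rw [zero_mul]⟩,
    ⟨V.zero_mem, (PV1 V u).zero_mem.2, by rw [zero_mul], by rw [mul_zero]⟩, by simp⟩

/-- An operator which maps the four kinds of generators into `U` preserves `U`. -/
theorem fullU_stable {ξ : W} (z : Module.End ℂ W) (h1 : z ξ ∈ fullU V u ξ)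
    (h2 : z ((star u) ξ) ∈ fullU V u ξ) (h3 : ∀ q, H1 V u q → z ((star q) ξ) ∈ fullU V u ξ)
    (h4 : ∀ r, H2 V u r → z (r ((star u) ξ)) ∈ fullU V u ξ) :
    ∀ w ∈ fullU V u ξ, z w ∈ fullU V u ξ := by
  rintro w ⟨a, b, q, r, hq, hr, rfl⟩
  rw [map_add, map_add, map_add, map_smul, map_smul]
  exact add_mem (add_mem (add_mem (Submodule.smul_mem _ _ h1) (Submodule.smul_mem _ _ h2)) (h3 q hq))
    (h4 r hr)

theorem app_zero {z : Module.End ℂ W} (h : z = 0) (w : W) : z w = 0 := by rw [h]; rfl

section Stable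

variable (T : Tri e V) (hu : Prim V u) (ξ : W) (hξ : u ((star u) ξ) = ξ)
include T hu hξ

theorem full_u : ∀ w ∈ fullU V u ξ, u w ∈ fullU V u ξ := by
  refine fullU_stable u ?_ ?_ ?_ ?_
  · have h : u ξ = 0 := by
      rw [← hξ]
      exact app_zero (tri_mul_zero T hu.mem hu.mem) ((star u) ξ)
    rw [h]; exact zero_mem _
  · rw [hξ]; exact fullU_xi ξ
  · intro q hq
    have h : u * star q = 0 := by
      have := congrArg star hq.r
      rwa [star_mul, star_star, star_zero] at this
    have h2 : u ((star q) ξ) = 0 := app_zero h ξ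
    rw [h2]; exact zero_mem _
  · intro r hr
    have h2 : u (r ((star u) ξ)) = 0 := app_zero (tri_mul_zero T hu.mem hr.mem) _
    rw [h2]; exact zero_mem _

theorem full_us : ∀ w ∈ fullU V u ξ, (star u) w ∈ fullU V u ξ := by
  refine fullU_stable (star u) ?_ ?_ ?_ ?_
  · exact fullU_eta ξ
  · have h2 : (star u) ((star u) ξ) = 0 := app_zero (tri_star_mul_zero T hu.mem hu.mem) _
    rw [h2]; exact zero_mem _
  · intro q hq
    have h2 : (star u) ((star q) ξ) = 0 := app_zero (tri_star_mul_zero T hu.mem hq.mem) _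
    rw [h2]; exact zero_mem _
  · intro r hr
    have h2 : (star u) (r ((star u) ξ)) = 0 := app_zero hr.r _
    rw [h2]; exact zero_mem _

theorem full_H1 {s : Module.End ℂ W} (hs : H1 V u s) :
    (∀ w ∈ fullU V u ξ, s w ∈ fullU V u ξ) ∧ ∀ w ∈ fullU V u ξ, (star s) w ∈ fullU V u ξ := by
  constructor
  · refine fullU_stable s ?_ ?_ ?_ ?_
    · have h : s ξ = 0 := by
        rw [← hξ]
        exact app_zero (tri_mul_zero T hs.mem hu.mem) ((star u) ξ)
      rw [h]; exact zero_mem _
    · have h : s ((star u) ξ) = 0 := app_zero hs.r ξ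
      rw [h]; exact zero_mem _
    · intro q hq
      have h := star_id T hu hs.mem hq.mem hs.p1 hq.p1
      have h3 : u * star u * (s * star q) = s * star q := by rw [← mul_assoc, hs.l]
      have h4 : u * star q * s * star u = 0 := by rw [mul_assoc, hs.r, mul_zero]
      rw [h3, h4, add_zero] at h
      have h5 : s ((star q) ξ) = (fr s q / fr u u) • ξ := by
        have h6 := congrArg (fun f : Module.End ℂ W => f ξ) h
        have h7 : (u * star u) ξ = ξ := hξ
        simpa [h7] using h6
      rw [h5]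
      exact Submodule.smul_mem _ _ (fullU_xi ξ)
    · intro r hr
      have h2 : s (r ((star u) ξ)) = 0 := app_zero (tri_mul_zero T hs.mem hr.mem) _
      rw [h2]; exact zero_mem _
  · refine fullU_stable (star s) ?_ ?_ ?_ ?_
    · exact fullU_q hs ξ
    · have h2 : (star s) ((star u) ξ) = 0 := app_zero (tri_star_mul_zero T hs.mem hu.mem) _
      rw [h2]; exact zero_mem _
    · intro q hq
      have h2 : (star s) ((star q) ξ) = 0 := app_zero (tri_star_mul_zero T hs.mem hq.mem) _
      rw [h2]; exact zero_mem _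
    · intro r hr
      have h : star s * r = 0 := by
        have h1 : star s * (u * star u) = star s := by
          have := congrArg star hs.l
          simpa only [star_mul, star_star] using this
        rw [← h1, mul_assoc, mul_assoc, hr.r, mul_zero, mul_zero]
      have h2 : (star s) (r ((star u) ξ)) = 0 := app_zero h _
      rw [h2]; exact zero_mem _

theorem full_H2 {t : Module.End ℂ W} (ht : H2 V u t) :
    (∀ w ∈ fullU V u ξ, t w ∈ fullU V u ξ) ∧ ∀ w ∈ fullU V u ξ, (star t) w ∈ fullU V u ξ := by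
  constructor
  · refine fullU_stable t ?_ ?_ ?_ ?_
    · have h : t ξ = 0 := by
        rw [← hξ]
        exact app_zero (tri_mul_zero T ht.mem hu.mem) ((star u) ξ)
      rw [h]; exact zero_mem _
    · exact fullU_r ht ξ
    · intro q hq
      have h : t * star q = 0 := by
        have h1 : u * star q = 0 := by
          have := congrArg star hq.r
          rwa [star_mul, star_star, star_zero] at this
        rw [← ht.l, mul_assoc, mul_assoc, h1, mul_zero, mul_zero]
      have h2 : t ((star q) ξ) = 0 := app_zero h ξ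
      rw [h2]; exact zero_mem _
    · intro r hr
      have h2 : t (r ((star u) ξ)) = 0 := app_zero (tri_mul_zero T ht.mem hr.mem) _
      rw [h2]; exact zero_mem _
  · have hts : star t * u = 0 := by
      have := congrArg star ht.r
      rwa [star_mul, star_star, star_zero] at this
    refine fullU_stable (star t) ?_ ?_ ?_ ?_
    · have h : (star t) ξ = 0 := by
        rw [← hξ]
        exact app_zero hts ((star u) ξ)
      rw [h]; exact zero_mem _
    · have h2 : (star t) ((star u) ξ) = 0 := app_zero (tri_star_mul_zero T ht.mem hu.mem) _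
      rw [h2]; exact zero_mem _
    · intro q hq
      have h2 : (star t) ((star q) ξ) = 0 := app_zero (tri_star_mul_zero T ht.mem hq.mem) _
      rw [h2]; exact zero_mem _
    · intro r hr
      have h := star_id T hu hr.mem ht.mem hr.p1 ht.p1
      have h3 : u * star u * (r * star t) = 0 := by
        rw [← mul_assoc, mul_assoc u, hr.r, mul_zero, zero_mul]
      rw [h3, zero_add] at h
      have h4 : star u * u * star t = star t := by
        have := congrArg star ht.l
        simpa only [star_mul, star_star] using this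
      have h5 : star t * r * star u = (fr r t / fr u u) • star u := by
        have h6 : star u * (u * star t * r * star u) = star t * r * star u := by
          rw [← mul_assoc, ← mul_assoc, ← mul_assoc, h4]
        rw [← h6, h, mul_smul_comm, ← mul_assoc, star_trip hu.trip]
      have h7 : (star t) (r ((star u) ξ)) = (fr r t / fr u u) • (star u) ξ :=
        congrArg (fun f : Module.End ℂ W => f ξ) h5
      rw [h7]
      exact Submodule.smul_mem _ _ (fullU_eta ξ)

theorem full_0 {y : Module.End ℂ W} (hy : y ∈ V) (h0 : P0 u y) :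
    (∀ w ∈ fullU V u ξ, y w ∈ fullU V u ξ) ∧ ∀ w ∈ fullU V u ξ, (star y) w ∈ fullU V u ξ := by
  constructor
  · refine fullU_stable y ?_ ?_ ?_ ?_
    · have h : y ξ = 0 := by
        rw [← hξ]
        exact app_zero (tri_mul_zero T hy hu.mem) ((star u) ξ)
      rw [h]; exact zero_mem _
    · have h : y ((star u) ξ) = 0 := app_zero h0.2 ξ
      rw [h]; exact zero_mem _
    · intro q hq
      have hm := mem_yqu T hu.mem hu.trip hy h0 hq.mem hq.p1
      have h1 : u * star q * y = 0 := by
        have h1 : star q * (u * star u) = star q := by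
          have := congrArg star hq.l
          simpa only [star_mul, star_star] using this
        rw [← h1, mul_assoc, mul_assoc, mul_assoc, h0.1, mul_zero, mul_zero, mul_zero]
      rw [h1, add_zero] at hm
      have h2 : y * star q * u * (star u * u) = y * star q * u := by
        rw [mul_assoc, ← mul_assoc u, hu.trip]
      have h3 := H2.mk' hu.trip hm.1 hm.2 h2
      have h4 : y ((star q) ξ) = (y * star q * u) ((star u) ξ) := by
        conv_lhs => rw [← hξ]
        rfl
      rw [h4]
      exact fullU_r h3 ξ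
    · intro r hr
      have h2 : y (r ((star u) ξ)) = 0 := app_zero (tri_mul_zero T hy hr.mem) _
      rw [h2]; exact zero_mem _
  · refine fullU_stable (star y) ?_ ?_ ?_ ?_
    · have h : (star y) ξ = 0 := by
        rw [← hξ]
        have hys : star y * u = 0 := by
          have := congrArg star h0.1
          rwa [star_mul, star_star, star_zero] at this
        exact app_zero hys ((star u) ξ)
      rw [h]; exact zero_mem _
    · have h2 : (star y) ((star u) ξ) = 0 := app_zero (tri_star_mul_zero T hy hu.mem) _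
      rw [h2]; exact zero_mem _
    · intro q hq
      have h2 : (star y) ((star q) ξ) = 0 := app_zero (tri_star_mul_zero T hy hq.mem) _
      rw [h2]; exact zero_mem _
    · intro r hr
      have hm := mem_yqu T hu.mem hu.trip hy h0 hr.mem hr.p1
      have h1 : y * star r * u = 0 := by
        have h1 : star r * u = 0 := by
          have := congrArg star hr.r
          rwa [star_mul, star_star, star_zero] at this
        rw [mul_assoc, h1, mul_zero]
      rw [h1, zero_add] at hm
      have h2 : u * star u * (u * star r * y) = u * star r * y := by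
        rw [← mul_assoc, ← mul_assoc, hu.trip]
      have h3 := H1.mk' hu.trip hm.1 hm.2 h2
      have h4 : (star y) (r ((star u) ξ)) = (star (u * star r * y)) ξ := by
        rw [star_mul, star_mul, star_star]
        rfl
      rw [h4]
      exact fullU_q h3 ξ

end Stable

/-- `H1` and `H2` fill `PV1`. -/
theorem H12 (T : Tri e V) (hu : Prim V u) (h : ∀ q ∈ V, P1 u q → u * star u * q ∈ V)
    {q : Module.End ℂ W} (hq : q ∈ V) (h1 : P1 u q) :
    ∃ s t, H1 V u s ∧ H2 V u t ∧ q = s + t := by
  have hp := p1_idem hu.trip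
  have hp0 := p0_idem hu.trip
  have hs : u * star u * q ∈ V := h q hq h1
  have ht : q * (star u * u) ∈ V := by
    rw [h1.right]
    exact V.sub_mem hq hs
  refine ⟨u * star u * q, q * (star u * u), H1.mk' hu.trip hs ⟨?_, ?_⟩ ?_,
    H2.mk' hu.trip ht ⟨?_, ?_⟩ ?_, h1.2⟩
  · rw [← mul_assoc (u * star u), hp, h1.1]
  · rw [h1.1, add_zero, ← mul_assoc (u * star u), hp]
  · rw [← mul_assoc (u * star u), hp]
  · rw [← mul_assoc (u * star u), mul_assoc _ (star u * u), hp0, h1.1]
  · rw [← mul_assoc (u * star u), h1.1, zero_add, mul_assoc, hp0]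
  · rw [mul_assoc, hp0]

theorem full_top (T : Tri e V) (hI : Irr V) (hu : Prim V u)
    (h : ∀ q ∈ V, P1 u q → u * star u * q ∈ V) {ξ : W} (hξ : u ((star u) ξ) = ξ) (hξ0 : ξ ≠ 0) :
    fullU V u ξ = ⊤ := by
  have hdec : ∀ x ∈ V, ∃ c : ℂ, ∃ s t y, H1 V u s ∧ H2 V u t ∧ y ∈ V ∧ P0 u y ∧
      x = c • u + s + t + y := by
    intro x hx
    obtain ⟨c, hc⟩ := hu.one _ (mem_P2 T hu.mem hx) (by
      have e1 : u * star u * (u * star u * x * (star u * u)) * (star u * u) =
          (u * star u) * (u * star u) * x * ((star u * u) * (star u * u)) := by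
        simp only [mul_assoc]
      rw [e1, p1_idem hu.trip, p0_idem hu.trip])
    have h1 := mem_P1 T hu.mem hu.trip hx
    have h0 := mem_P0 T hu.mem hu.trip hx
    obtain ⟨s, t, hs, ht, hst⟩ := H12 T hu h h1.1 h1.2
    refine ⟨c, s, t, _, hs, ht, h0.1, h0.2, ?_⟩
    rw [add_assoc (c • u) s t, ← hst, ← hc]
    module
  have hst1 : ∀ x ∈ V, ∀ w ∈ fullU V u ξ, x w ∈ fullU V u ξ := by
    intro x hx w hw
    obtain ⟨c, s, t, y, hs, ht, hy, hy0, rfl⟩ := hdec x hx
    simp only [LinearMap.add_apply, LinearMap.smul_apply]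
    exact add_mem (add_mem (add_mem (Submodule.smul_mem _ _ (full_u T hu ξ hξ w hw))
      ((full_H1 T hu ξ hξ hs).1 w hw)) ((full_H2 T hu ξ hξ ht).1 w hw)) ((full_0 T hu ξ hξ hy hy0).1 w hw)
  have hst2 : ∀ x ∈ V, ∀ w ∈ fullU V u ξ, (star x) w ∈ fullU V u ξ := by
    intro x hx w hw
    obtain ⟨c, s, t, y, hs, ht, hy, hy0, rfl⟩ := hdec x hx
    simp only [star_add, star_smul, LinearMap.add_apply, LinearMap.smul_apply]
    exact add_mem (add_mem (add_mem (Submodule.smul_mem _ _ (full_us T hu ξ hξ w hw))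
      ((full_H1 T hu ξ hξ hs).2 w hw)) ((full_H2 T hu ξ hξ ht).2 w hw)) ((full_0 T hu ξ hξ hy hy0).2 w hw)
  rcases hI (fullU V u ξ) hst1 hst2 with h1 | h1
  · exfalso
    have h2 : ξ ∈ fullU V u ξ := fullU_xi ξ
    rw [h1] at h2
    exact hξ0 ((Submodule.mem_bot ℂ).1 h2)
  · exact h1

/-- `H1` and `H2` as above.  `star_id`: `q r* = ⟨q, r⟩ u u*` on `H1`, `u p* r u* = ⟨r, p⟩ u u*` on `H2`.  `fullU` is stable,
so it is everything, so `range u = C ξ`, and `V` contains all
`h ⊗ s* : w ↦ ⟨s, w⟩ h` for `h ∈ {ξ} ∪ H2 u* ξ`, `s ∈ {u* ξ} ∪ H1* ξ`, which span `e W` and `(1 - e) W`. -/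
theorem full_of (T : Tri e V) (hI : Irr V) (hu : Prim V u)
    (h : ∀ q ∈ V, P1 u q → u * star u * q ∈ V) (x : Module.End ℂ W) (h1 : e * x = x) (h2 : x * e = 0) :
    x ∈ V := by
  classical
  obtain ⟨w₀, hw₀⟩ : ∃ w₀, u w₀ ≠ 0 := by
    by_contra hcon
    push Not at hcon
    exact hu.ne (LinearMap.ext hcon)
  set ξ := u w₀ with hξd
  have hξ : u ((star u) ξ) = ξ := by
    rw [hξd]
    exact congrArg (fun f : Module.End ℂ W => f w₀) hu.trip
  have htop := full_top T hI hu h hξ hw₀
  have heu : e * star u = 0 := by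
    have := congrArg star (T.right u hu.mem)
    rwa [star_mul, T.sa, star_zero] at this
  -- the range of u is a line
  have hline : ∀ w, ∃ a : ℂ, u ((star u) w) = a • ξ := by
    intro w
    have hw : w ∈ fullU V u ξ := by rw [htop]; trivial
    obtain ⟨a, b, q, r, hq, hr, rfl⟩ := hw
    refine ⟨a, ?_⟩
    have e1 : (star u) ((star u) ξ) = 0 := app_zero (tri_star_mul_zero T hu.mem hu.mem) _
    have e2 : (star u) ((star q) ξ) = 0 := app_zero (tri_star_mul_zero T hu.mem hq.mem) _
    have e3 : (star u) (r ((star u) ξ)) = 0 := app_zero hr.r _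
    have e4 : (star u) (a • ξ + b • (star u) ξ + (star q) ξ + r ((star u) ξ)) = a • (star u) ξ := by
      rw [map_add, map_add, map_add, map_smul, map_smul, e1, e2, e3, smul_zero, add_zero, add_zero,
        add_zero]
    rw [e4, map_smul, hξ]
  have hn0 : inner ℂ ξ ξ ≠ (0 : ℂ) := inner_self_ne_zero.2 hw₀
  -- operators with range in the line
  have hrank : ∀ z : Module.End ℂ W, u * star u * z = z → ∀ w,
      (inner ℂ ξ ξ) • z w = (inner ℂ ((star z) ξ) w) • ξ := by
    intro z hz w
    obtain ⟨a, ha⟩ := hline (z w)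
    have hz' : u ((star u) (z w)) = z w := congrArg (fun f : Module.End ℂ W => f w) hz
    rw [hz'] at ha
    rw [LinearMap.star_eq_adjoint, LinearMap.adjoint_inner_left, ha, inner_smul_right, smul_smul,
      mul_comm]
  let R : W → W → Module.End ℂ W := fun h s => (innerₛₗ ℂ s).smulRight h
  have hR : ∀ h s w, R h s w = (inner ℂ s w) • h := fun h s w => rfl
  have hRmem : ∀ h s, e h = h → e s = 0 → R h s ∈ V := by
    intro h' s hh hs
    have hw : h' ∈ fullU V u ξ := by rw [htop]; trivial
    have hw2 : s ∈ fullU V u ξ := by rw [htop]; trivial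
    obtain ⟨a, b, q, r, hq, hr, hh'⟩ := hw
    obtain ⟨a', b', q', r', hq', hr', hs'⟩ := hw2
    have eξ : e ξ = ξ := by
      rw [hξd]; exact congrArg (fun f : Module.End ℂ W => f w₀) (T.left u hu.mem)
    have es : ∀ y ∈ V, ∀ w, e ((star y) w) = 0 := by
      intro y hy w
      have h3 : e * star y = 0 := by
        have := congrArg star (T.right y hy)
        rwa [star_mul, T.sa, star_zero] at this
      exact app_zero h3 w
    have er : ∀ y ∈ V, ∀ w, e (y w) = y w := fun y hy w =>
      congrArg (fun f : Module.End ℂ W => f w) (T.left y hy)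
    have hh2 : h' = a • ξ + r ((star u) ξ) := by
      have h3 := hh
      rw [hh', map_add, map_add, map_add, map_smul, map_smul, eξ, es u hu.mem, es q hq.mem,
        er r hr.mem, smul_zero, add_zero, add_zero] at h3
      rw [hh', ← h3]
    have hs2 : s = b' • (star u) ξ + (star q') ξ := by
      have h3 := hs
      rw [hs', map_add, map_add, map_add, map_smul, map_smul, eξ, es u hu.mem, es q' hq'.mem,
        er r' hr'.mem, smul_zero, add_zero, add_zero] at h3
      have h4 : s = (a' • ξ + r' ((star u) ξ)) + (b' • (star u) ξ + (star q') ξ) := by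
        rw [hs']; module
      rw [h4, h3, zero_add]
    set z : Module.End ℂ W := (starRingEnd ℂ b') • u + q' with hz
    have hzV : z ∈ V := V.add_mem (V.smul_mem _ hu.mem) hq'.mem
    have hzs : (star z) ξ = s := by
      rw [hz, star_add, star_smul, hs2]
      have : star ((starRingEnd ℂ) b') = b' := by simp
      rw [this]
      rfl
    have hzz : u * star u * z = z := by
      rw [hz, mul_add, mul_smul_comm, hu.trip, hq'.l]
    have hz3 := hrank z hzz
    rw [hzs] at hz3
    have hmem1 : r * star u * z ∈ V := by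
      have h3 := T.tri r hr.mem u hu.mem z hzV
      have h4 : z * star u * r = 0 := by rw [mul_assoc, hr.r, mul_zero]
      rwa [h4, add_zero] at h3
    have h5 : R h' s = (a * inner ℂ ξ ξ) • z + (inner ℂ ξ ξ) • (r * star u * z) := by
      refine LinearMap.ext fun w => ?_
      have h6 : (r * star u * z) w = r ((star u) (z w)) := rfl
      have h7 : (inner ℂ ξ ξ) • r ((star u) (z w)) = (inner ℂ s w) • r ((star u) ξ) := by
        have h8 := congrArg (fun v => r ((star u) v)) (hz3 w)
        simp only [map_smul] at h8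
        exact h8
      have h9 : (a * inner ℂ ξ ξ) • z w = (inner ℂ s w * a) • ξ := by
        rw [mul_smul, hz3 w, smul_smul, mul_comm]
      rw [hR, hh2, LinearMap.add_apply, LinearMap.smul_apply, LinearMap.smul_apply, h6, h7, h9,
        smul_add, smul_smul]
    rw [h5]
    exact V.add_mem (V.smul_mem _ hzV) (V.smul_mem _ hmem1)
  -- conclusion
  let b := stdOrthonormalBasis ℂ W
  have hx : x = ∑ i, R (x (b i)) (b i - e (b i)) := by
    refine LinearMap.ext fun w => ?_
    rw [LinearMap.sum_apply]
    have h3 : x w = x (w - e w) := by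
      rw [map_sub]
      have : x (e w) = 0 := app_zero h2 w
      rw [this, sub_zero]
    have h4 : w - e w = ∑ i, (inner ℂ (b i) (w - e w)) • b i := (b.sum_repr' (w - e w)).symm
    rw [h3]
    conv_lhs => rw [h4]
    rw [map_sum]
    refine Finset.sum_congr rfl fun i _ => ?_
    rw [hR, map_smul]
    congr 1
    rw [inner_sub_left, inner_sub_right]
    congr 1
    have h5 : star e = e := T.sa
    conv_lhs => rw [← h5]
    rw [LinearMap.star_eq_adjoint, LinearMap.adjoint_inner_right]
  rw [hx]
  refine V.sum_mem fun i _ => hRmem _ _ ?_ ?_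
  · exact congrArg (fun f : Module.End ℂ W => f (b i)) h1
  · rw [map_sub]
    have : e (e (b i)) = e (b i) := congrArg (fun f : Module.End ℂ W => f (b i)) T.idem
    rw [this, sub_self]

end Pool.MP43e44c.SG
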