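import Pool.Agent.H.MP_43e44c_ag.SG.BlkB
import Pool.Agent.H.MP_43e44c_ag.SG.Full

/-!
# SG/CaseB: a primitive tripotent with a nonzero orthogonal element
-/

set_option autoImplicit false

namespace Pool.MP43e44c.SG

open Module PE

variable {W : Type*} [NormedAddCommGroup W] [InnerProductSpace ℂ W] [FiniteDimensional ℂ W]
variable {e : Module.End ℂ W} {V : Submodule ℂ (Module.End ℂ W)}

theorem caseB (T : Tri e V) (hI : Irr V) {c₁ c₂ : ℂ} (hC : Cas e V c₁ c₂) (hne : c₁ ≠ c₂)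
    {u : Module.End ℂ W} (hu : Prim V u) (hY : ∃ y ∈ V, y ≠ 0 ∧ P0 u y)
    (x : Module.End ℂ W) (h1 : e * x = x) (h2 : x * e = 0) : x ∈ V := by
  obtain ⟨v, hv, hvt, huv, hmax⟩ := exists_max T u
  have hv0 : v ≠ 0 := by
    rintro rfl
    obtain ⟨y, hy, hy0, hyu⟩ := hY
    exact hy0 (hmax y hy hyu ⟨by simp, by simp⟩)
  obtain ⟨x₁, hx₁, g1, g2, g3⟩ := trF T hC hne hu hv hvt huv
  obtain ⟨z, hz, hz0, z1, z2⟩ := exists_Z T hI hu hv hv0 hvt huv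
  obtain ⟨ζ, hζ, w1, w2, w3, w4⟩ := exists_zeta T hu hv hvt huv hz hz0 z1 z2
  have F : Frame e V u v := ⟨T, hu, hv, hvt, huv, hmax⟩
  obtain ⟨A, x₀, FA⟩ := exists_A F hζ w1 w2 w3 w4 ⟨hx₁, g1, g2⟩ g3
  exact full_of T hI hu (fun q hq hq1 => comp_mem hI FA hq hq1) x h1 h2

end Pool.MP43e44c.SG
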