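import Pool.Agent.H.MP_43e44c_ag.PE.Pr
import Pool.Agent.H.MP_43e44c_ag.SG.Art

/-!
# SG/Conj: the Lie algebra `G` is generated by the conjugates of the complex structure
-/

set_option autoImplicit false

open NumberField Module Matrix

namespace Pool.MP43e44c.SG

open PE

variable {m : ℕ} {K : Type*} [Field K] [NumberField K] [IsCMField K] (D : Dat K m)

/-- Decomposition of `J` with respect to rationally independent reals. -/
theorem J_decomp : ∃ (r : ℕ) (lam : Fin r → ℝ) (M : Fin r → Mat m ℚ),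
    LinearIndependent ℚ lam ∧ ∀ i j, D.J i j = ∑ k, M k i j • lam k := by
  classical
  let y : Fin m × Fin m → ℝ := fun p => D.J p.1 p.2
  let S : Submodule ℚ ℝ := Submodule.span ℚ (Set.range y)
  have hfin : FiniteDimensional ℚ S := FiniteDimensional.span_of_finite ℚ (Set.finite_range y)
  let b := Module.finBasis ℚ S
  have hy : ∀ p, y p ∈ S := fun p => Submodule.subset_span ⟨p, rfl⟩
  refine ⟨Module.finrank ℚ S, fun k => (b k : ℝ), fun k i j => b.repr ⟨y (i, j), hy (i, j)⟩ k,
    ?_, fun i j => ?_⟩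
  · exact b.linearIndependent.map' S.subtype (Submodule.ker_subtype S)
  · have h2 := congrArg (fun v : S => (v : ℝ)) (b.sum_repr ⟨y (i, j), hy (i, j)⟩)
    simp only [Submodule.coe_sum, Submodule.coe_smul] at h2
    exact h2.symm

/-- The rational matrices `l(J)` are complex combinations of the conjugates of `J`. -/
theorem qc_Jl_mem (l : ℝ →ₗ[ℚ] ℚ) :
    qc (D.Jl l) ∈ Submodule.span ℂ (Set.range fun σ : ℂ ≃+* ℂ => act σ (rc D.J)) := by
  classical
  obtain ⟨r, lam, M, hlam, hJ⟩ := J_decomp D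
  have hlc : LinearIndependent ℚ fun k => ((lam k : ℝ) : ℂ) := by
    rw [Fintype.linearIndependent_iff] at hlam ⊢
    intro g hg
    apply hlam g
    apply Complex.ofReal_injective
    rw [Complex.ofReal_sum, Complex.ofReal_zero, ← hg]
    refine Finset.sum_congr rfl fun k _ => ?_
    rw [Rat.smul_def, Rat.smul_def]
    push_cast
    rfl
  have hact : ∀ σ : ℂ ≃+* ℂ, act σ (rc D.J) = ∑ k, σ ((lam k : ℝ) : ℂ) • qc (M k) := by
    intro σ
    ext i j
    rw [Matrix.sum_apply]
    change σ ((algebraMap ℝ ℂ) (D.J i j)) = _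
    rw [hJ i j, map_sum, map_sum]
    refine Finset.sum_congr rfl fun k _ => ?_
    rw [Rat.smul_def, map_mul, map_mul, Matrix.smul_apply, smul_eq_mul, mul_comm]
    congr 1
    simp
  have hM : ∀ k, qc (M k) ∈ Submodule.span ℂ (Set.range fun σ : ℂ ≃+* ℂ => act σ (rc D.J)) := by
    intro k
    by_contra hk
    obtain ⟨φ, hφ, hle⟩ := Submodule.exists_le_ker_of_notMem hk
    have h1 : (fun k => φ (qc (M k))) = 0 := by
      refine artin _ hlc _ fun σ => ?_
      have h2 : φ (act σ (rc D.J)) = 0 := hle (Submodule.subset_span ⟨σ, rfl⟩)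
      rw [hact σ, map_sum] at h2
      rw [← h2]
      refine Finset.sum_congr rfl fun j _ => ?_
      rw [map_smul, smul_eq_mul, mul_comm]
    exact hφ (congrFun h1 k)
  have hl : qc (D.Jl l) = ∑ k, ((l (lam k) : ℚ) : ℂ) • qc (M k) := by
    ext i j
    rw [Matrix.sum_apply]
    change ((l (D.J i j) : ℚ) : ℂ) = _
    rw [hJ i j, map_sum]
    push_cast
    refine Finset.sum_congr rfl fun k _ => ?_
    rw [map_smul, smul_eq_mul, Matrix.smul_apply, smul_eq_mul, mul_comm]
    push_cast
    rfl
  rw [hl]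
  exact Submodule.sum_mem _ fun k _ => Submodule.smul_mem _ _ (hM k)

/-- So `G` is contained in every Lie closed space containing the conjugates of `J`. -/
theorem G_le_of_conj {g : Submodule ℂ (Mat m ℂ)} (hg : LieClosed g)
    (h : ∀ σ : ℂ ≃+* ℂ, act σ (rc D.J) ∈ g) : D.G ≤ g := by
  refine D.G_le hg fun l => ?_
  exact Submodule.span_le.2 (by rintro _ ⟨σ, rfl⟩; exact h σ) (qc_Jl_mem D l)

end Pool.MP43e44c.SG
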