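import Pool.Agent.H.MP_43e44c_ag.SG.Defs

/-!
# SG/Frob: orthonormal bases for the trace form
-/

set_option autoImplicit false

namespace Pool.MP43e44c.SG

open Module

variable {W : Type*} [NormedAddCommGroup W] [InnerProductSpace ℂ W] [FiniteDimensional ℂ W]

/-- `fr` of a linear combination -/
theorem fr_sum_left {ι : Type*} (s : Finset ι) (t : ι → ℂ) (x : ι → Module.End ℂ W)
    (y : Module.End ℂ W) : fr (∑ i ∈ s, t i • x i) y = ∑ i ∈ s, t i * fr (x i) y := by
  classical
  induction s using Finset.induction_on with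
  | empty => rw [Finset.sum_empty, Finset.sum_empty, fr_zero_left]
  | insert a s ha ih =>
    rw [Finset.sum_insert ha, Finset.sum_insert ha, fr_add_left, fr_smul_left, ih]

/-- the space of the elements of `V` orthogonal to `y` -/
noncomputable def perpV (V : Submodule ℂ (Module.End ℂ W)) (y : Module.End ℂ W) :
    Submodule ℂ (Module.End ℂ W) where
  carrier := {x | x ∈ V ∧ fr x y = 0}
  add_mem' := by
    rintro a b ⟨h1, h2⟩ ⟨h3, h4⟩
    exact ⟨V.add_mem h1 h3, by rw [fr_add_left, h2, h4, add_zero]⟩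
  zero_mem' := ⟨V.zero_mem, fr_zero_left y⟩
  smul_mem' := by
    rintro c a ⟨h1, h2⟩
    exact ⟨V.smul_mem c h1, by rw [fr_smul_left, h2, mul_zero]⟩

theorem mem_perpV {V : Submodule ℂ (Module.End ℂ W)} {x y : Module.End ℂ W} :
    x ∈ perpV V y ↔ x ∈ V ∧ fr x y = 0 := Iff.rfl

/-- every nonzero element can be normalised -/
theorem exists_unit {V : Submodule ℂ (Module.End ℂ W)} (hV : V ≠ ⊥) :
    ∃ y ∈ V, fr y y = 1 := by
  obtain ⟨x, hx, hx0⟩ := Submodule.exists_mem_ne_zero_of_ne_bot hV
  obtain ⟨s, hs, hsx, hs0⟩ := fr_self x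
  have hspos : 0 < s := lt_of_le_of_ne hs fun h => hx0 (hs0 h.symm)
  have hne : (Real.sqrt s : ℂ) ≠ 0 := by
    have := Real.sqrt_pos.mpr hspos
    exact_mod_cast this.ne'
  refine ⟨((Real.sqrt s : ℂ))⁻¹ • x, V.smul_mem _ hx, ?_⟩
  rw [fr_smul_left, fr_smul_right, hsx, map_inv₀, Complex.conj_ofReal]
  have h1 : ((Real.sqrt s : ℂ)) * (Real.sqrt s : ℂ) = (s : ℂ) := by
    rw [← Complex.ofReal_mul, Real.mul_self_sqrt hs]
  rw [← h1]
  field_simp

theorem onb_cons {V : Submodule ℂ (Module.End ℂ W)} {y : Module.End ℂ W} (hy : y ∈ V)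
    (hyy : fr y y = 1) {n : ℕ} {b : Fin n → Module.End ℂ W} (hb : ONB (perpV V y) b) :
    ONB V (Fin.cons y b : Fin (n + 1) → Module.End ℂ W) := by
  have hby : ∀ i, fr (b i) y = 0 := fun i => (mem_perpV.mp (hb.mem i)).2
  have hyb : ∀ i, fr y (b i) = 0 := fun i => by rw [← fr_conj, hby, map_zero]
  refine ⟨?_, ?_, ?_⟩
  · intro i
    refine Fin.cases ?_ (fun j => ?_) i
    · exact hy
    · exact (mem_perpV.mp (hb.mem j)).1
  · intro i j
    refine Fin.cases ?_ (fun i' => ?_) i <;> refine Fin.cases ?_ (fun j' => ?_) j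
    · rw [Fin.cons_zero, hyy, if_pos rfl]
    · rw [Fin.cons_zero, Fin.cons_succ, hyb, if_neg (Fin.succ_ne_zero j').symm]
    · rw [Fin.cons_zero, Fin.cons_succ, hby, if_neg (Fin.succ_ne_zero i')]
    · rw [Fin.cons_succ, Fin.cons_succ, hb.orth]
      simp only [Fin.succ_inj]
  · intro x hx
    have h1 : x - fr x y • y ∈ perpV V y := by
      refine mem_perpV.mpr ⟨V.sub_mem hx (V.smul_mem _ hy), ?_⟩
      rw [fr_sub_left, fr_smul_left, hyy, mul_one, sub_self]
    have h2 := hb.span _ h1
    rw [Fin.sum_univ_succ, Fin.cons_zero]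
    simp only [Fin.cons_succ]
    have h3 : ∀ i, fr (x - fr x y • y) (b i) = fr x (b i) := by
      intro i
      rw [fr_sub_left, fr_smul_left, hyb, mul_zero, sub_zero]
    simp only [h3] at h2
    rw [← h2]
    abel

/-- Every subspace has an orthonormal basis (Gram-Schmidt; e.g. make `V` an inner product space with
`⟪x, y⟫ = fr y x` through `InnerProductSpace.Core` (`fr_self`, `fr_conj`) and take `stdOrthonormalBasis`,
or induction on the dimension: take `0 ≠ x ∈ V`, normalise it, and the orthogonal complement in `V`). -/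
theorem exists_onb (V : Submodule ℂ (Module.End ℂ W)) :
    ∃ (n : ℕ) (b : Fin n → Module.End ℂ W), ONB V b := by
  have key : ∀ (d : ℕ) (V : Submodule ℂ (Module.End ℂ W)), finrank ℂ V = d →
      ∃ (n : ℕ) (b : Fin n → Module.End ℂ W), ONB V b := by
    intro d
    induction d using Nat.strong_induction_on with
    | _ d ih =>
      intro V hV
      by_cases hbot : V = ⊥
      · refine ⟨0, Fin.elim0, ⟨fun i => i.elim0, fun i => i.elim0, ?_⟩⟩
        intro x hx
        rw [hbot, Submodule.mem_bot] at hx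
        rw [hx, Finset.univ_eq_empty, Finset.sum_empty]
      · obtain ⟨y, hy, hyy⟩ := exists_unit hbot
        have hle : perpV V y ≤ V := fun x hx => (mem_perpV.mp hx).1
        have hlt : perpV V y < V := by
          refine lt_of_le_of_ne hle fun h => ?_
          have h1 : y ∈ perpV V y := by rw [h]; exact hy
          have h2 := (mem_perpV.mp h1).2
          rw [hyy] at h2
          exact one_ne_zero h2
        obtain ⟨n, b, hb⟩ := ih (finrank ℂ (perpV V y))
          (by rw [← hV]; exact Submodule.finrank_lt_finrank_of_lt hlt) (perpV V y) rfl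
        exact ⟨n + 1, Fin.cons y b, onb_cons hy hyy hb⟩
  exact key _ V rfl

theorem ONB.card {V : Submodule ℂ (Module.End ℂ W)} {n : ℕ} {b : Fin n → Module.End ℂ W}
    (hb : ONB V b) : finrank ℂ V = n := by
  have hli : LinearIndependent ℂ b := by
    rw [Fintype.linearIndependent_iff]
    intro c hc j
    have h1 := fr_sum_left Finset.univ c b (b j)
    rw [hc, fr_zero_left] at h1
    simp only [hb.orth, mul_ite, mul_one, mul_zero, Finset.sum_ite_eq', Finset.mem_univ,
      if_true] at h1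
    exact h1.symm
  have hsp : V = Submodule.span ℂ (Set.range b) := by
    refine le_antisymm (fun x hx => ?_) (Submodule.span_le.mpr ?_)
    · rw [hb.span x hx]
      exact Submodule.sum_mem _ fun i _ =>
        Submodule.smul_mem _ _ (Submodule.subset_span (Set.mem_range_self i))
    · rintro _ ⟨i, rfl⟩
      exact hb.mem i
  rw [hsp, finrank_span_eq_card hli, Fintype.card_fin]

/-- `∑ Φ(b_i, b_i)` does not depend on the orthonormal basis. -/
theorem onb_indep {V : Submodule ℂ (Module.End ℂ W)} {n m : ℕ} {b : Fin n → Module.End ℂ W}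
    {c : Fin m → Module.End ℂ W} (hb : ONB V b) (hc : ONB V c)
    (Φ : Module.End ℂ W → Module.End ℂ W → ℂ)
    (h1 : ∀ x y z, Φ (x + y) z = Φ x z + Φ y z) (h2 : ∀ (t : ℂ) x z, Φ (t • x) z = t * Φ x z)
    (h3 : ∀ x y z, Φ x (y + z) = Φ x y + Φ x z)
    (h4 : ∀ (t : ℂ) x z, Φ x (t • z) = (starRingEnd ℂ) t * Φ x z) :
    ∑ i, Φ (b i) (b i) = ∑ j, Φ (c j) (c j) := by
  classical
  have hz1 : ∀ z, Φ 0 z = 0 := by
    intro z
    have := h2 0 0 z
    rwa [zero_smul, zero_mul] at this
  have hz2 : ∀ z, Φ z 0 = 0 := by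
    intro z
    have := h4 0 z 0
    rwa [zero_smul, map_zero, zero_mul] at this
  have hs1 : ∀ (s : Finset (Fin m)) (t : Fin m → ℂ) z, Φ (∑ j ∈ s, t j • c j) z =
      ∑ j ∈ s, t j * Φ (c j) z := by
    intro s t z
    induction s using Finset.induction_on with
    | empty => rw [Finset.sum_empty, Finset.sum_empty, hz1]
    | insert a s ha ih => rw [Finset.sum_insert ha, Finset.sum_insert ha, h1, h2, ih]
  have hs2 : ∀ (s : Finset (Fin m)) (t : Fin m → ℂ) z, Φ z (∑ j ∈ s, t j • c j) =
      ∑ j ∈ s, (starRingEnd ℂ) (t j) * Φ z (c j) := by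
    intro s t z
    induction s using Finset.induction_on with
    | empty => rw [Finset.sum_empty, Finset.sum_empty, hz2]
    | insert a s ha ih => rw [Finset.sum_insert ha, Finset.sum_insert ha, h3, h4, ih]
  have hexp : ∀ i, Φ (b i) (b i) =
      ∑ j, ∑ k, fr (b i) (c j) * fr (c k) (b i) * Φ (c j) (c k) := by
    intro i
    have h5 : Φ (b i) (b i) = Φ (∑ j, fr (b i) (c j) • c j) (∑ k, fr (b i) (c k) • c k) := by
      rw [← hc.span _ (hb.mem i)]
    rw [h5, hs1]
    refine Finset.sum_congr rfl fun j _ => ?_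
    rw [hs2, Finset.mul_sum]
    refine Finset.sum_congr rfl fun k _ => ?_
    rw [fr_conj, mul_assoc]
  have hdel : ∀ j k, ∑ i, fr (b i) (c j) * fr (c k) (b i) = if k = j then 1 else 0 := by
    intro j k
    rw [← hc.orth k j]
    have h5 := fr_sum_left Finset.univ (fun i => fr (c k) (b i)) b (c j)
    rw [← hb.span _ (hc.mem k)] at h5
    rw [h5]
    exact Finset.sum_congr rfl fun i _ => mul_comm _ _
  calc ∑ i, Φ (b i) (b i) = ∑ i, ∑ j, ∑ k, fr (b i) (c j) * fr (c k) (b i) * Φ (c j) (c k) :=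
        Finset.sum_congr rfl fun i _ => hexp i
    _ = ∑ j, ∑ k, ∑ i, fr (b i) (c j) * fr (c k) (b i) * Φ (c j) (c k) := by
        rw [Finset.sum_comm]
        exact Finset.sum_congr rfl fun j _ => Finset.sum_comm
    _ = ∑ j, ∑ k, (if k = j then 1 else 0) * Φ (c j) (c k) := by
        refine Finset.sum_congr rfl fun j _ => Finset.sum_congr rfl fun k _ => ?_
        rw [← Finset.sum_mul, hdel]
    _ = ∑ j, Φ (c j) (c j) := by
        refine Finset.sum_congr rfl fun j _ => ?_
        simp only [ite_mul, one_mul, zero_mul, Finset.sum_ite_eq', Finset.mem_univ, if_true]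

/-- Orthogonal sums. -/
theorem onb_append {V V₁ V₂ : Submodule ℂ (Module.End ℂ W)} (h1 : V₁ ≤ V) (h2 : V₂ ≤ V)
    (h3 : ∀ x ∈ V, ∃ y ∈ V₁, ∃ z ∈ V₂, x = y + z) (ho : ∀ x ∈ V₁, ∀ y ∈ V₂, fr x y = 0)
    {n m : ℕ} {b : Fin n → Module.End ℂ W} {c : Fin m → Module.End ℂ W} (hb : ONB V₁ b)
    (hc : ONB V₂ c) : ONB V (Fin.append b c) := by
  have ho' : ∀ x ∈ V₂, ∀ y ∈ V₁, fr x y = 0 := by
    intro x hx y hy
    rw [← fr_conj, ho y hy x hx, map_zero]
  refine ⟨?_, ?_, ?_⟩
  · intro i
    refine Fin.addCases (fun j => ?_) (fun j => ?_) i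
    · rw [Fin.append_left]
      exact h1 (hb.mem j)
    · rw [Fin.append_right]
      exact h2 (hc.mem j)
  · intro i j
    refine Fin.addCases (fun i' => ?_) (fun i' => ?_) i <;>
      refine Fin.addCases (fun j' => ?_) (fun j' => ?_) j
    · rw [Fin.append_left, Fin.append_left, hb.orth]
      simp only [Fin.castAdd_inj]
    · rw [Fin.append_left, Fin.append_right, ho _ (hb.mem _) _ (hc.mem _), if_neg]
      intro h
      have := congrArg Fin.val h
      simp only [Fin.val_castAdd, Fin.val_natAdd] at this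
      omega
    · rw [Fin.append_left, Fin.append_right, ho' _ (hc.mem _) _ (hb.mem _), if_neg]
      intro h
      have := congrArg Fin.val h
      simp only [Fin.val_castAdd, Fin.val_natAdd] at this
      omega
    · rw [Fin.append_right, Fin.append_right, hc.orth]
      simp only [Fin.natAdd_inj]
  · intro x hx
    obtain ⟨y, hy, z, hz, rfl⟩ := h3 x hx
    rw [Fin.sum_univ_add]
    simp only [Fin.append_left, Fin.append_right]
    have e1 : ∀ i, fr (y + z) (b i) = fr y (b i) := fun i => by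
      rw [fr_add_left, ho' z hz _ (hb.mem i), add_zero]
    have e2 : ∀ i, fr (y + z) (c i) = fr z (c i) := fun i => by
      rw [fr_add_left, ho y hy _ (hc.mem i), zero_add]
    simp only [e1, e2]
    rw [← hb.span y hy, ← hc.span z hz]

/-- The image of an orthonormal basis under an antiunitary involution. -/
theorem onb_anti {V : Submodule ℂ (Module.End ℂ W)} {n : ℕ} {b : Fin n → Module.End ℂ W}
    (hb : ONB V b) (f : Module.End ℂ W → Module.End ℂ W) (hf : ∀ x ∈ V, f x ∈ V)
    (hff : ∀ x ∈ V, f (f x) = x) (hfr : ∀ x ∈ V, ∀ y ∈ V, fr (f x) (f y) = fr y x)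
    (hadd : ∀ x y, f (x + y) = f x + f y) (hsm : ∀ (t : ℂ) x, f (t • x) = (starRingEnd ℂ) t • f x) :
    ONB V (fun i => f (b i)) := by
  classical
  refine ⟨fun i => hf _ (hb.mem i), ?_, ?_⟩
  · intro i j
    rw [hfr _ (hb.mem i) _ (hb.mem j), hb.orth]
    simp only [eq_comm]
  · intro x hx
    have hf0 : f 0 = 0 := by
      have := hsm 0 0
      rwa [zero_smul, map_zero, zero_smul] at this
    have hs : ∀ (s : Finset (Fin n)) (t : Fin n → ℂ), f (∑ i ∈ s, t i • b i) =
        ∑ i ∈ s, (starRingEnd ℂ) (t i) • f (b i) := by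
      intro s t
      induction s using Finset.induction_on with
      | empty => rw [Finset.sum_empty, Finset.sum_empty, hf0]
      | insert a s ha ih => rw [Finset.sum_insert ha, Finset.sum_insert ha, hadd, hsm, ih]
    have h1 : x = f (∑ i, fr (f x) (b i) • b i) := by
      rw [← hb.span _ (hf x hx), hff x hx]
    conv_lhs => rw [h1, hs]
    refine Finset.sum_congr rfl fun i _ => ?_
    congr 1
    rw [fr_conj]
    have h2 := hfr (f x) (hf x hx) (b i) (hb.mem i)
    rw [hff x hx] at h2
    exact h2.symm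

end Pool.MP43e44c.SG
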