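import Pool.Agent.H.MP_43e44c_ag.SG.Peirce
import Pool.Agent.H.MP_43e44c_ag.SG.Frob

/-!
# SG/Count: the counting identities for a primitive tripotent
-/

set_option autoImplicit false

namespace Pool.MP43e44c.SG

open Module PE

variable {W : Type*} [NormedAddCommGroup W] [InnerProductSpace ℂ W] [FiniteDimensional ℂ W]
variable {e : Module.End ℂ W} {V : Submodule ℂ (Module.End ℂ W)}

/-- The Peirce decomposition of an element orthogonal to `u`. -/
theorem count_split (T : Tri e V) {u : Module.End ℂ W} (hu : Prim V u) {x : Module.End ℂ W}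
    (hx : x ∈ V) (hxu : fr x u = 0) : ∃ y ∈ PV1 V u, ∃ z ∈ PV0 V u, x = y + z := by
  have ht := hu.trip
  have a := p1_idem ht
  have b := p0_idem ht
  have m2 := mem_P2 T hu.mem hx
  have f1 : u * star u * (u * star u * x * (star u * u)) * (star u * u) =
      u * star u * x * (star u * u) := by
    calc u * star u * (u * star u * x * (star u * u)) * (star u * u)
        = (u * star u) * (u * star u) * x * ((star u * u) * (star u * u)) := by
          simp only [mul_assoc]
      _ = _ := by rw [a, b]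
  obtain ⟨c, hc⟩ := hu.one _ m2 f1
  have f2 : fr (u * star u * x * (star u * u)) u = fr x u := by
    have e1 : u * star u * x * (star u * u) * star u = u * star u * x * star u := by
      calc u * star u * x * (star u * u) * star u = u * star u * x * (star u * u * star u) := by
            simp only [mul_assoc]
        _ = _ := by rw [star_trip ht]
    rw [fr, fr, e1]
    have e2 : u * star u * x * star u = u * (star u * x * star u) := by simp only [mul_assoc]
    rw [e2, cop_trace_comm]
    have e3 : star u * x * star u * u = star u * (x * star u * u) := by simp only [mul_assoc]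
    rw [e3, cop_trace_comm]
    have e4 : x * star u * u * star u = x * (star u * u * star u) := by simp only [mul_assoc]
    rw [e4, star_trip ht]
  have f3 : c = 0 := by
    rw [hxu, hc, fr_smul_left] at f2
    exact (mul_eq_zero.1 f2).resolve_right (fr_self_ne hu.ne)
  have f4 : u * star u * x * (star u * u) = 0 := by rw [hc, f3, zero_smul]
  have m1 := mem_P1 T hu.mem ht hx
  have m0 := mem_P0 T hu.mem ht hx
  refine ⟨_, m1, _, m0, ?_⟩
  rw [f4]
  module

/-- The orthonormal basis of `V` from `t • u`, a basis of `PV1 V u` and a basis of `PV0 V u`. -/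
theorem count_onb (T : Tri e V) {u : Module.End ℂ W} (hu : Prim V u) {m k : ℕ}
    {c : Fin m → Module.End ℂ W} {d : Fin k → Module.End ℂ W}
    (hc : ONB (PV1 V u) c) (hd : ONB (PV0 V u) d) :
    ∃ t : ℂ, t * (starRingEnd ℂ) t * fr u u = 1 ∧
      ONB V (Fin.cons (t • u) (Fin.append c d) : Fin (m + k + 1) → Module.End ℂ W) := by
  obtain ⟨s, hs, hsu, hs0⟩ := fr_self u
  have hspos : 0 < s := lt_of_le_of_ne hs fun h => hu.ne (hs0 h.symm)
  have hne : (Real.sqrt s : ℂ) ≠ 0 := by
    have := Real.sqrt_pos.mpr hspos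
    exact_mod_cast this.ne'
  have h1 : ((Real.sqrt s : ℂ)) * (Real.sqrt s : ℂ) = (s : ℂ) := by
    rw [← Complex.ofReal_mul, Real.mul_self_sqrt hs]
  have ht : ((Real.sqrt s : ℂ))⁻¹ * (starRingEnd ℂ) ((Real.sqrt s : ℂ))⁻¹ * fr u u = 1 := by
    rw [map_inv₀, Complex.conj_ofReal, hsu, ← h1]
    field_simp
  refine ⟨((Real.sqrt s : ℂ))⁻¹, ht, ?_⟩
  obtain ⟨t, htd⟩ : ∃ t : ℂ, t = ((Real.sqrt s : ℂ))⁻¹ := ⟨_, rfl⟩
  rw [← htd] at ht ⊢
  have ht0 : t ≠ 0 := by
    rintro rfl
    simp at ht
  have hyy : fr (t • u) (t • u) = 1 := by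
    rw [fr_smul_left, fr_smul_right, ← mul_assoc]
    exact ht
  refine onb_cons (V.smul_mem t hu.mem) hyy ?_
  refine onb_append ?_ ?_ ?_ ?_ hc hd
  · rintro x ⟨hx, hx1⟩
    refine mem_perpV.2 ⟨hx, ?_⟩
    rw [fr_smul_right, ← fr_conj u x, fr_P2_P1 hu.trip hx1, map_zero, mul_zero]
  · rintro x ⟨hx, hx0⟩
    refine mem_perpV.2 ⟨hx, ?_⟩
    rw [fr_smul_right, ← fr_conj u x, fr_P2_P0 hx0, map_zero, mul_zero]
  · intro x hx
    obtain ⟨hx1, hx2⟩ := mem_perpV.1 hx
    refine count_split T hu hx1 ?_
    rw [fr_smul_right] at hx2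
    exact (mul_eq_zero.1 hx2).resolve_left (by simpa using ht0)
  · intro x hx y hy
    exact fr_P1_P0 hu.trip hx.2 hy.2

/-- An orthonormal basis of `V` from `t • u` (`t > 0`, `t^2 fr u u = 1`), one of `PV1 V u` and one of `PV0 V u`:
`onb_append` twice, for `span {u}`, `PV1`, `PV0` (`mem_P2` and `Prim.one`, `mem_P1`, `mem_P0`; orthogonality in
Peirce).  Stated through sums: for a form `Φ` as in `onb_indep`. -/
theorem sum_onb (T : Tri e V) {u : Module.End ℂ W} (hu : Prim V u) {n m k : ℕ}
    {b : Fin n → Module.End ℂ W} {c : Fin m → Module.End ℂ W} {d : Fin k → Module.End ℂ W}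
    (hb : ONB V b) (hc : ONB (PV1 V u) c) (hd : ONB (PV0 V u) d)
    (Φ : Module.End ℂ W → Module.End ℂ W → ℂ)
    (h1 : ∀ x y z, Φ (x + y) z = Φ x z + Φ y z) (h2 : ∀ (t : ℂ) x z, Φ (t • x) z = t * Φ x z)
    (h3 : ∀ x y z, Φ x (y + z) = Φ x y + Φ x z)
    (h4 : ∀ (t : ℂ) x z, Φ x (t • z) = (starRingEnd ℂ) t * Φ x z) :
    ∑ i, Φ (b i) (b i) = Φ u u / fr u u + ∑ i, Φ (c i) (c i) + ∑ i, Φ (d i) (d i) := by
  obtain ⟨t, ht, hB⟩ := count_onb T hu hc hd
  rw [onb_indep hb hB Φ h1 h2 h3 h4, Fin.sum_univ_succ, Fin.cons_zero, Fin.sum_univ_add]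
  simp only [Fin.cons_succ, Fin.append_left, Fin.append_right]
  have e1 : Φ (t • u) (t • u) = Φ u u / fr u u := by
    rw [h2, h4, eq_div_iff (fr_self_ne hu.ne)]
    linear_combination (Φ u u) * ht
  rw [e1, add_assoc]

/-- `c₁ k = 1 + ∑ |x_i'|²`: multiply `∑ b_i b_i* = c₁ e` by `u u*`, take traces, `sum_onb`
with `Φ x y = tr (u u* x y*)` (degree zero gives `0`, `u` gives `1`); same for `c₂` with `tr (y* x u* u)`. -/
theorem count1 (T : Tri e V) {c₁ c₂ : ℂ} (hC : Cas e V c₁ c₂) {u : Module.End ℂ W} (hu : Prim V u)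
    {m : ℕ} {c : Fin m → Module.End ℂ W} (hc : ONB (PV1 V u) c) :
    c₁ * fr u u = 1 + ∑ i, LinearMap.trace ℂ W (u * star u * (c i * star (c i))) ∧
    c₂ * fr u u = 1 + ∑ i, LinearMap.trace ℂ W (star (c i) * c i * (star u * u)) := by
  obtain ⟨k, d, hd⟩ := exists_onb (PV0 V u)
  obtain ⟨t, ht, hB⟩ := count_onb T hu hc hd
  obtain ⟨g1, g2⟩ := hC _ _ hB
  have heu : e * u = u := T.left u hu.mem
  have hue : u * e = 0 := T.right u hu.mem
  have hsu : star u * e = star u := by
    have := congrArg star heu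
    rwa [star_mul, T.sa] at this
  have hes : e * star u = 0 := by
    have := congrArg star hue
    rwa [star_mul, T.sa, star_zero] at this
  have hst : star (t • u) = (starRingEnd ℂ) t • star u := star_smul t u
  constructor
  · have h5 := congrArg (fun x => LinearMap.trace ℂ W (u * star u * x)) g1
    rw [Fin.sum_univ_succ, Fin.cons_zero, Fin.sum_univ_add] at h5
    simp only [Fin.cons_succ, Fin.append_left, Fin.append_right] at h5
    rw [mul_add, mul_add, Finset.mul_sum, Finset.mul_sum, map_add, map_add, map_sum, map_sum] at h5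
    have e1 : LinearMap.trace ℂ W (u * star u * (t • u * star (t • u))) = 1 := by
      have e2 : u * star u * (u * star u) = u * star u := p1_idem hu.trip
      have e6 : u * star u * (t • u * ((starRingEnd ℂ) t • star u)) =
          (t * (starRingEnd ℂ) t) • (u * star u) := by
        rw [smul_mul_assoc, mul_smul_comm t, mul_smul_comm ((starRingEnd ℂ) t),
          mul_smul_comm ((starRingEnd ℂ) t), smul_smul, e2]
      rw [hst, e6, map_smul, smul_eq_mul]
      exact ht
    have e3 : ∀ i, LinearMap.trace ℂ W (u * star u * (d i * star (d i))) = 0 := by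
      intro i
      have e4 : u * star u * (d i * star (d i)) = u * (star u * d i) * star (d i) := by
        simp only [mul_assoc]
      rw [e4, (hd.mem i).2.1, mul_zero, zero_mul, map_zero]
    have e5 : LinearMap.trace ℂ W (u * star u * (c₁ • e)) = c₁ * fr u u := by
      rw [mul_smul_comm, map_smul, smul_eq_mul, mul_assoc u, hsu, fr]
    rw [e1, Finset.sum_eq_zero fun i _ => e3 i, add_zero, e5] at h5
    exact h5.symm
  · have h5 := congrArg (fun x => LinearMap.trace ℂ W (x * (star u * u))) g2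
    rw [Fin.sum_univ_succ, Fin.cons_zero, Fin.sum_univ_add] at h5
    simp only [Fin.cons_succ, Fin.append_left, Fin.append_right] at h5
    rw [add_mul, add_mul, Finset.sum_mul, Finset.sum_mul, map_add, map_add, map_sum, map_sum] at h5
    have e1 : LinearMap.trace ℂ W (star (t • u) * (t • u) * (star u * u)) = 1 := by
      have e2 : star u * u * (star u * u) = star u * u := p0_idem hu.trip
      have e6 : (starRingEnd ℂ) t • star u * (t • u) * (star u * u) =
          ((starRingEnd ℂ) t * t) • (star u * u) := by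
        rw [smul_mul_assoc, mul_smul_comm t, smul_smul, smul_mul_assoc, e2]
      rw [hst, e6, map_smul, smul_eq_mul, cop_trace_comm, mul_comm ((starRingEnd ℂ) t) t]
      exact ht
    have e3 : ∀ i, LinearMap.trace ℂ W (star (d i) * d i * (star u * u)) = 0 := by
      intro i
      have e4 : star (d i) * d i * (star u * u) = star (d i) * (d i * star u) * u := by
        simp only [mul_assoc]
      rw [e4, (hd.mem i).2.2, mul_zero, zero_mul, map_zero]
    have e5 : LinearMap.trace ℂ W (c₂ • (1 - e) * (star u * u)) = c₂ * fr u u := by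
      rw [smul_mul_assoc, map_smul, smul_eq_mul, sub_mul, one_mul, ← mul_assoc e, hes, zero_mul,
        sub_zero, cop_trace_comm, fr]
    rw [e1, Finset.sum_eq_zero fun i _ => e3 i, add_zero, e5] at h5
    exact h5.symm

theorem count2 (T : Tri e V) {c₁ c₂ : ℂ} (hC : Cas e V c₁ c₂) {u : Module.End ℂ W} (hu : Prim V u) :
    (c₁ + c₂) * fr u u = 2 + (finrank ℂ (PV1 V u) : ℂ) := by
  obtain ⟨m, c, hc⟩ := exists_onb (PV1 V u)
  obtain ⟨g1, g2⟩ := count1 T hC hu hc
  have g3 : ∑ i, (LinearMap.trace ℂ W (u * star u * (c i * star (c i))) +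
      LinearMap.trace ℂ W (star (c i) * c i * (star u * u))) = (m : ℂ) := by
    have e1 : ∀ i, LinearMap.trace ℂ W (u * star u * (c i * star (c i))) +
      LinearMap.trace ℂ W (star (c i) * c i * (star u * u)) = 1 := by
      intro i
      rw [fr_split hu.trip (hc.mem i).2, hc.orth, if_pos rfl]
    rw [Finset.sum_congr rfl fun i _ => e1 i]
    simp
  rw [Finset.sum_add_distrib] at g3
  rw [hc.card]
  linear_combination g1 + g2 + g3

theorem count3 (T : Tri e V) {u : Module.End ℂ W} (hu : Prim V u) :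
    finrank ℂ V = 1 + finrank ℂ (PV1 V u) + finrank ℂ (PV0 V u) := by
  obtain ⟨m, c, hc⟩ := exists_onb (PV1 V u)
  obtain ⟨k, d, hd⟩ := exists_onb (PV0 V u)
  obtain ⟨t, -, hB⟩ := count_onb T hu hc hd
  rw [hB.card, hc.card, hd.card]
  omega

end Pool.MP43e44c.SG
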