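import Pool.Agent.H.MP_43e44c_ag.PE.CopC

/-!
# SG/Defs: triple systems of operators (MP_43e44c, signatures without coprimality)

`W` is a finite dimensional complex inner product space, `star` the adjoint, `e` an orthogonal projection,
`V` a complex space of operators from `ker e` to `range e`, closed under `x y* z + z y* x`.
-/

set_option autoImplicit false

namespace Pool.MP43e44c.SG

open Module

variable {W : Type*} [NormedAddCommGroup W] [InnerProductSpace ℂ W] [FiniteDimensional ℂ W]

/-- The trace form `tr (x y*)`. -/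
noncomputable def fr (x y : Module.End ℂ W) : ℂ := LinearMap.trace ℂ W (x * star y)

/-- `V` is a triple system of maps from `ker e` to `range e`. -/
structure Tri (e : Module.End ℂ W) (V : Submodule ℂ (Module.End ℂ W)) : Prop where
  idem : e * e = e
  sa : star e = e
  left : ∀ x ∈ V, e * x = x
  right : ∀ x ∈ V, x * e = 0
  tri : ∀ x ∈ V, ∀ y ∈ V, ∀ z ∈ V, x * star y * z + z * star y * x ∈ V

/-- `V` and `V*` together act irreducibly. -/
def Irr (V : Submodule ℂ (Module.End ℂ W)) : Prop :=
  ∀ U : Submodule ℂ W, (∀ x ∈ V, ∀ w ∈ U, x w ∈ U) → (∀ x ∈ V, ∀ w ∈ U, (star x) w ∈ U) →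
    U = ⊥ ∨ U = ⊤

/-- `b` is an orthonormal basis of `V` for the trace form. -/
structure ONB (V : Submodule ℂ (Module.End ℂ W)) {n : ℕ} (b : Fin n → Module.End ℂ W) : Prop where
  mem : ∀ i, b i ∈ V
  orth : ∀ i j, fr (b i) (b j) = if i = j then 1 else 0
  span : ∀ x ∈ V, x = ∑ i, fr x (b i) • b i

/-- The Casimir identities. -/
def Cas (e : Module.End ℂ W) (V : Submodule ℂ (Module.End ℂ W)) (c₁ c₂ : ℂ) : Prop :=
  ∀ (n : ℕ) (b : Fin n → Module.End ℂ W), ONB V b →
    ∑ i, b i * star (b i) = c₁ • e ∧ ∑ i, star (b i) * b i = c₂ • (1 - e)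

/-- Primitive tripotents. -/
structure Prim (V : Submodule ℂ (Module.End ℂ W)) (u : Module.End ℂ W) : Prop where
  mem : u ∈ V
  ne : u ≠ 0
  trip : u * star u * u = u
  one : ∀ y ∈ V, u * star u * y * (star u * u) = y → ∃ c : ℂ, y = c • u

/-- Degree one with respect to the tripotent `u`: `x = x' + x''`, `x' = u u* x`, `x'' = x u* u`. -/
def P1 (u x : Module.End ℂ W) : Prop :=
  u * star u * x * (star u * u) = 0 ∧ x = u * star u * x + x * (star u * u)

/-- Degree zero with respect to the tripotent `u`. -/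
def P0 (u x : Module.End ℂ W) : Prop := star u * x = 0 ∧ x * star u = 0

/-- The part of degree one of `V`. -/
def PV1 (V : Submodule ℂ (Module.End ℂ W)) (u : Module.End ℂ W) : Submodule ℂ (Module.End ℂ W) where
  carrier := {x | x ∈ V ∧ P1 u x}
  add_mem' := by
    rintro a b ⟨h1, h2, h3⟩ ⟨h4, h5, h6⟩
    refine ⟨V.add_mem h1 h4, by rw [mul_add, add_mul, h2, h5, add_zero], ?_⟩
    rw [mul_add, add_mul]
    conv_lhs => rw [h3, h6]
    abel
  zero_mem' := ⟨V.zero_mem, by simp, by simp⟩
  smul_mem' := by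
    rintro c a ⟨h1, h2, h3⟩
    refine ⟨V.smul_mem c h1, by rw [mul_smul_comm, smul_mul_assoc, h2, smul_zero], ?_⟩
    rw [mul_smul_comm, smul_mul_assoc, ← smul_add, ← h3]

/-- The part of degree zero of `V`. -/
def PV0 (V : Submodule ℂ (Module.End ℂ W)) (u : Module.End ℂ W) : Submodule ℂ (Module.End ℂ W) where
  carrier := {x | x ∈ V ∧ P0 u x}
  add_mem' := by
    rintro a b ⟨h1, h2, h3⟩ ⟨h4, h5, h6⟩
    exact ⟨V.add_mem h1 h4, by rw [mul_add, h2, h5, add_zero], by rw [add_mul, h3, h6, add_zero]⟩
  zero_mem' := ⟨V.zero_mem, by simp, by simp⟩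
  smul_mem' := by
    rintro c a ⟨h1, h2, h3⟩
    exact ⟨V.smul_mem c h1, by rw [mul_smul_comm, h2, smul_zero], by rw [smul_mul_assoc, h3, smul_zero]⟩

theorem mem_PV1 {V : Submodule ℂ (Module.End ℂ W)} {u x : Module.End ℂ W} :
    x ∈ PV1 V u ↔ x ∈ V ∧ P1 u x := Iff.rfl

theorem mem_PV0 {V : Submodule ℂ (Module.End ℂ W)} {u x : Module.End ℂ W} :
    x ∈ PV0 V u ↔ x ∈ V ∧ P0 u x := Iff.rfl

/-! ### the trace form -/

theorem fr_add_left (x y z : Module.End ℂ W) : fr (x + y) z = fr x z + fr y z := by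
  simp [fr, add_mul]

theorem fr_add_right (x y z : Module.End ℂ W) : fr x (y + z) = fr x y + fr x z := by
  simp [fr, mul_add]

theorem fr_smul_left (c : ℂ) (x y : Module.End ℂ W) : fr (c • x) y = c * fr x y := by
  simp [fr, smul_mul_assoc]

theorem fr_smul_right (c : ℂ) (x y : Module.End ℂ W) : fr x (c • y) = (starRingEnd ℂ) c * fr x y := by
  simp [fr, star_smul]

theorem fr_zero_left (y : Module.End ℂ W) : fr 0 y = 0 := by simp [fr]

theorem fr_zero_right (x : Module.End ℂ W) : fr x 0 = 0 := by simp [fr]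

theorem fr_sub_left (x y z : Module.End ℂ W) : fr (x - y) z = fr x z - fr y z := by
  simp [fr, sub_mul]

theorem fr_sub_right (x y z : Module.End ℂ W) : fr x (y - z) = fr x y - fr x z := by
  simp [fr, mul_sub]

/-- `tr x* = conj (tr x)`. -/
theorem trace_star (x : Module.End ℂ W) :
    LinearMap.trace ℂ W (star x) = (starRingEnd ℂ) (LinearMap.trace ℂ W x) := by
  classical
  let b := stdOrthonormalBasis ℂ W
  rw [LinearMap.trace_eq_sum_inner _ b, LinearMap.trace_eq_sum_inner _ b, map_sum]
  refine Finset.sum_congr rfl fun i _ => ?_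
  rw [inner_conj_symm, LinearMap.star_eq_adjoint, LinearMap.adjoint_inner_right]

theorem fr_conj (x y : Module.End ℂ W) : (starRingEnd ℂ) (fr x y) = fr y x := by
  rw [fr, ← trace_star, star_mul, star_star, fr]

/-- Positivity: `fr x x` is a nonnegative real, zero only for `x = 0`. -/
theorem fr_self (x : Module.End ℂ W) : ∃ s : ℝ, 0 ≤ s ∧ fr x x = (s : ℂ) ∧ (s = 0 → x = 0) :=
  PE.cop_pos x

theorem fr_self_eq_zero {x : Module.End ℂ W} (h : fr x x = 0) : x = 0 := PE.cop_pos_zero x h

theorem fr_self_ne {x : Module.End ℂ W} (h : x ≠ 0) : fr x x ≠ 0 := fun h' => h (fr_self_eq_zero h')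

/-- `x x* = 0` only for `x = 0`. -/
theorem eq_zero_of_mul_star {x : Module.End ℂ W} (h : x * star x = 0) : x = 0 :=
  fr_self_eq_zero (by rw [fr, h, map_zero])

/-- `x* x = 0` only for `x = 0`. -/
theorem eq_zero_of_star_mul {x : Module.End ℂ W} (h : star x * x = 0) : x = 0 := by
  have h1 : star x * star (star x) = 0 := by rw [star_star]; exact h
  have h2 := eq_zero_of_mul_star h1
  rw [← star_star x, h2, star_zero]

/-! ### tripotents -/

/-- `u u*` for a tripotent is a projection. -/
theorem p1_idem {u : Module.End ℂ W} (h : u * star u * u = u) :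
    (u * star u) * (u * star u) = u * star u := by rw [← mul_assoc, h]

theorem p0_idem {u : Module.End ℂ W} (h : u * star u * u = u) :
    (star u * u) * (star u * u) = star u * u := by rw [mul_assoc, ← mul_assoc u (star u) u, h]

theorem star_trip {u : Module.End ℂ W} (h : u * star u * u = u) : star u * u * star u = star u := by
  have := congrArg star h
  rwa [star_mul, star_mul, star_star, ← mul_assoc] at this

theorem P0_symm {u v : Module.End ℂ W} (h : P0 u v) : P0 v u := by
  obtain ⟨h1, h2⟩ := h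
  constructor
  · have := congrArg star h1
    rwa [star_mul, star_star, star_zero] at this
  · have := congrArg star h2
    rwa [star_mul, star_star, star_zero] at this

end Pool.MP43e44c.SG
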