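import Pool.Agent.H.MP_43e44c_ag.SG.Pol

/-!
# SG/Fock1: number operators and their joint eigenspaces
-/

set_option autoImplicit false

namespace Pool.MP43e44c.SG

open Module PE

variable {W : Type*} [NormedAddCommGroup W] [InnerProductSpace ℂ W] [FiniteDimensional ℂ W]

/-- The number operators: `x_i x_i*` on `range e`, `1 - x_i* x_i` on `ker e`. -/
noncomputable def num (e : Module.End ℂ W) {d : ℕ} (x : Fin d → Module.End ℂ W) (i : Fin d) :
    Module.End ℂ W := x i * star (x i) + (1 - e - star (x i) * x i)

/-- The joint eigenspaces. -/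
def Wt (e : Module.End ℂ W) {d : ℕ} (x : Fin d → Module.End ℂ W) (A : Finset (Fin d)) :
    Submodule ℂ W where
  carrier := {w | ∀ i, num e x i w = if i ∈ A then w else 0}
  add_mem' := by
    intro a b ha hb i
    rw [map_add, ha i, hb i]
    split <;> simp
  zero_mem' := by intro i; simp
  smul_mem' := by
    intro c a ha i
    rw [map_smul, ha i]
    split <;> simp

theorem mem_Wt {e : Module.End ℂ W} {d : ℕ} {x : Fin d → Module.End ℂ W} {A : Finset (Fin d)} {w : W} :
    w ∈ Wt e x A ↔ ∀ i, num e x i w = if i ∈ A then w else 0 := Iff.rfl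

variable {e : Module.End ℂ W} {d : ℕ} {x : Fin d → Module.End ℂ W} {a b : ℂ}

theorem fock_star_e (F : Fock e d x a b) (i : Fin d) : star (x i) * e = star (x i) := by
  have h := congrArg star (F.left i)
  rwa [star_mul, F.sa] at h

theorem fock_e_star (F : Fock e d x a b) (i : Fin d) : e * star (x i) = 0 := by
  have h := congrArg star (F.right i)
  rwa [star_mul, F.sa, star_zero] at h

theorem fock_xx (F : Fock e d x a b) (i j : Fin d) : x i * x j = 0 := by
  rw [← F.left j, ← mul_assoc, F.right i, zero_mul]

theorem fock_ss (F : Fock e d x a b) (i j : Fin d) : star (x i) * star (x j) = 0 := by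
  rw [← fock_star_e F i, mul_assoc, fock_e_star F j, mul_zero]

theorem fock_tri (F : Fock e d x a b) (i : Fin d) : x i * star (x i) * x i = x i := by
  have h1 := F.rel i i i
  simp only [if_true, one_smul] at h1
  have h2 : (2 : ℂ) • (x i * star (x i) * x i) = (2 : ℂ) • x i := by
    rw [two_smul, two_smul]; exact h1
  exact smul_right_injective _ (two_ne_zero' ℂ) h2

theorem fock_tri_star (F : Fock e d x a b) (i : Fin d) :
    star (x i) * x i * star (x i) = star (x i) := star_trip (fock_tri F i)

/-- `x_i x_i* x_l = x_l - x_l x_i* x_i` for `i ≠ l`. -/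
theorem fock_move (F : Fock e d x a b) {i l : Fin d} (hil : i ≠ l) :
    x i * star (x i) * x l = x l - x l * (star (x i) * x i) := by
  have h1 := F.rel i i l
  rw [if_pos rfl, if_neg (Ne.symm hil), one_smul, zero_smul, add_zero] at h1
  rw [← mul_assoc]; exact eq_sub_of_add_eq h1

theorem fock_p_comm (F : Fock e d x a b) (i l : Fin d) :
    (x i * star (x i)) * (x l * star (x l)) = (x l * star (x l)) * (x i * star (x i)) := by
  by_cases hil : i = l
  · rw [hil]
  · have h1 : (x i * star (x i)) * (x l * star (x l)) =
        x l * star (x l) - x l * (star (x i) * x i) * star (x l) := by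
      rw [← mul_assoc, fock_move F hil, sub_mul]
    have h2 := congrArg star h1
    rw [star_sub] at h2
    simp only [star_mul, star_star, mul_assoc] at h1 h2 ⊢
    rw [h1, h2]

theorem fock_q_comm (F : Fock e d x a b) (i l : Fin d) :
    (star (x i) * x i) * (star (x l) * x l) = (star (x l) * x l) * (star (x i) * x i) := by
  by_cases hil : i = l
  · rw [hil]
  · have h1 : (star (x l) * x l) * (star (x i) * x i) =
        star (x l) * x l - star (x l) * (x i * star (x i)) * x l := by
      have h := fock_move F hil
      have h3 : x l * (star (x i) * x i) = x l - x i * star (x i) * x l := by rw [h]; abel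
      rw [mul_assoc (star (x l)), h3, mul_sub]
      simp only [mul_assoc]
    have h2 := congrArg star h1
    rw [star_sub] at h2
    simp only [star_mul, star_star, mul_assoc] at h1 h2 ⊢
    rw [h1, h2]

theorem fock_pq (F : Fock e d x a b) (i j : Fin d) :
    (x i * star (x i)) * (star (x j) * x j) = 0 ∧ (star (x j) * x j) * (x i * star (x i)) = 0 := by
  constructor
  · rw [mul_assoc, ← mul_assoc (star (x i)), fock_ss F, zero_mul, mul_zero]
  · rw [mul_assoc, ← mul_assoc (x j), fock_xx F, zero_mul, mul_zero]

theorem num_star (F : Fock e d x a b) (i : Fin d) : star (num e x i) = num e x i := by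
  unfold num
  rw [star_add, star_sub, star_sub, star_one, F.sa, star_mul, star_mul, star_star]

theorem num_e (F : Fock e d x a b) (i : Fin d) :
    num e x i * e = x i * star (x i) ∧ e * num e x i = x i * star (x i) := by
  unfold num
  constructor
  · rw [add_mul, sub_mul, sub_mul, one_mul, F.idem, sub_self, mul_assoc, fock_star_e F,
      mul_assoc (star (x i)), F.right i, mul_zero, sub_zero, add_zero]
  · rw [mul_add, mul_sub, mul_sub, mul_one, F.idem, sub_self, ← mul_assoc, F.left i,
      ← mul_assoc e, fock_e_star F, zero_mul, sub_zero, add_zero]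

theorem num_mul (F : Fock e d x a b) (i j : Fin d) :
    num e x i * num e x j = (x i * star (x i)) * (x j * star (x j)) +
      ((1 - e) - star (x i) * x i - star (x j) * x j + (star (x i) * x i) * (star (x j) * x j)) := by
  have h1 : (x i * star (x i)) * e = x i * star (x i) := by rw [mul_assoc, fock_star_e F]
  have h2 : e * (x j * star (x j)) = x j * star (x j) := by rw [← mul_assoc, F.left]
  have h3 : (star (x i) * x i) * e = 0 := by rw [mul_assoc, F.right, mul_zero]
  have h4 : e * (star (x j) * x j) = 0 := by rw [← mul_assoc, fock_e_star F, zero_mul]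
  obtain ⟨h5, -⟩ := fock_pq F i j
  obtain ⟨-, h6⟩ := fock_pq F j i
  unfold num
  generalize x i * star (x i) = P at *
  generalize x j * star (x j) = P' at *
  generalize star (x i) * x i = Q at *
  generalize star (x j) * x j = Q' at *
  simp only [add_mul, mul_add, sub_mul, mul_sub, one_mul, mul_one, h1, h2, h3, h4, h5, h6, F.idem]
  abel

/-- `x_i x_i* x_i = x_i`; `x_i x_i* x_l = x_l (1 - x_i* x_i)` for `i ≠ l`; the number operators are self-adjoint, idempotent,
commute with each other and with `e`. -/
theorem num_props (F : Fock e d x a b) (i j : Fin d) :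
    star (num e x i) = num e x i ∧ num e x i * num e x i = num e x i ∧
    num e x i * num e x j = num e x j * num e x i ∧ num e x i * e = e * num e x i := by
  refine ⟨num_star F i, ?_, ?_, ?_⟩
  · rw [num_mul F i i, p1_idem (fock_tri F i), p0_idem (fock_tri F i)]
    unfold num
    abel
  · rw [num_mul F i j, num_mul F j i, fock_p_comm F i j, fock_q_comm F i j]
    abel
  · rw [(num_e F i).1, (num_e F i).2]

/-- Creation and annihilation. -/
theorem num_x (F : Fock e d x a b) (i : Fin d) :
    num e x i * x i = x i ∧ x i * num e x i = 0 ∧ num e x i * star (x i) = 0 ∧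
      star (x i) * num e x i = star (x i) := by
  have h1 : num e x i * x i = x i := by
    unfold num
    rw [add_mul, fock_tri F, sub_mul, sub_mul, one_mul, F.left, sub_self, mul_assoc, fock_xx F,
      mul_zero, sub_zero, add_zero]
  have h2 : x i * num e x i = 0 := by
    unfold num
    rw [mul_add, ← mul_assoc, fock_xx F, zero_mul, mul_sub, mul_sub, mul_one, F.right,
      ← mul_assoc, fock_tri F, sub_zero, sub_self, add_zero]
  refine ⟨h1, h2, ?_, ?_⟩
  · have h := congrArg star h2
    rwa [star_mul, num_star F, star_zero] at h
  · have h := congrArg star h1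
    rwa [star_mul, num_star F] at h

theorem num_x_ne (F : Fock e d x a b) {i l : Fin d} (h : i ≠ l) :
    num e x i * x l = x l * num e x i ∧ num e x i * star (x l) = star (x l) * num e x i := by
  have h1 : num e x i * x l = x l * num e x i := by
    unfold num
    rw [add_mul, fock_move F h, sub_mul, sub_mul, one_mul, F.left, sub_self,
      mul_assoc (star (x i)), fock_xx F, mul_zero, mul_add, ← mul_assoc (x l) (x i), fock_xx F,
      zero_mul, mul_sub, mul_sub, mul_one, F.right]
    abel
  refine ⟨h1, ?_⟩
  have h2 := congrArg star h1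
  rw [star_mul, star_mul, num_star F] at h2
  exact h2.symm

theorem Wt_star (F : Fock e d x a b) {A : Finset (Fin d)} {w : W} (hw : w ∈ Wt e x A) (l : Fin d) :
    (l ∈ A → (star (x l)) w ∈ Wt e x (A.erase l)) ∧ (l ∉ A → (star (x l)) w = 0) := by
  rw [mem_Wt] at hw
  constructor
  · intro hl i
    by_cases hil : i = l
    · subst hil
      have h := congrArg (fun f : Module.End ℂ W => f w) (num_x F i).2.2.1
      simp only [Module.End.mul_apply, LinearMap.zero_apply] at h
      rw [h, if_neg (Finset.notMem_erase i A)]
    · have h := congrArg (fun f : Module.End ℂ W => f w) (num_x_ne F hil).2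
      simp only [Module.End.mul_apply] at h
      rw [h, hw i]
      by_cases hiA : i ∈ A
      · rw [if_pos hiA, if_pos (Finset.mem_erase.2 ⟨hil, hiA⟩)]
      · rw [if_neg hiA, map_zero, if_neg (fun h' => hiA (Finset.mem_of_mem_erase h'))]
  · intro hl
    have h := congrArg (fun f : Module.End ℂ W => f w) (num_x F l).2.2.2
    simp only [Module.End.mul_apply] at h
    rw [← h, hw l, if_neg hl, map_zero]

theorem Wt_x (F : Fock e d x a b) {A : Finset (Fin d)} {w : W} (hw : w ∈ Wt e x A) (l : Fin d) :
    (l ∉ A → x l w ∈ Wt e x (insert l A)) ∧ (l ∈ A → x l w = 0) := by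
  rw [mem_Wt] at hw
  constructor
  · intro hl i
    by_cases hil : i = l
    · subst hil
      have h := congrArg (fun f : Module.End ℂ W => f w) (num_x F i).1
      simp only [Module.End.mul_apply] at h
      rw [h, if_pos (Finset.mem_insert_self i A)]
    · have h := congrArg (fun f : Module.End ℂ W => f w) (num_x_ne F hil).1
      simp only [Module.End.mul_apply] at h
      rw [h, hw i]
      by_cases hiA : i ∈ A
      · rw [if_pos hiA, if_pos (Finset.mem_insert_of_mem hiA)]
      · rw [if_neg hiA, map_zero, if_neg (fun h' => (Finset.mem_insert.1 h').elim hil hiA)]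
  · intro hl
    have h := congrArg (fun f : Module.End ℂ W => f w) (num_x F l).2.1
    simp only [Module.End.mul_apply, LinearMap.zero_apply] at h
    rw [hw l, if_pos hl] at h
    exact h

/-- `x_l x_l* w = w` for `w` in `range e` and `l ∈ A`; `x_l* x_l w = w` for `w` in `ker e` and `l ∉ A`. -/
theorem Wt_norm (F : Fock e d x a b) {A : Finset (Fin d)} {w : W} (hw : w ∈ Wt e x A) (l : Fin d) :
    (e w = w → l ∈ A → x l ((star (x l)) w) = w) ∧ (e w = 0 → l ∉ A → (star (x l)) (x l w) = w) := by
  have h := hw l
  simp only [num, LinearMap.add_apply, LinearMap.sub_apply, Module.End.mul_apply,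
    Module.End.one_apply] at h
  constructor
  · intro he hl
    have h1 := congrArg (fun f : Module.End ℂ W => f w) (F.right l)
    simp only [Module.End.mul_apply, LinearMap.zero_apply, he] at h1
    rw [if_pos hl, he, h1, map_zero, sub_self, sub_zero, add_zero] at h
    exact h
  · intro he hl
    have h1 := congrArg (fun f : Module.End ℂ W => f w) (fock_star_e F l)
    simp only [Module.End.mul_apply, he, map_zero] at h1
    rw [if_neg hl, he, ← h1, map_zero, sub_zero, zero_add] at h
    exact (sub_eq_zero.1 h).symm

/-- The eigenspaces are stable under `e`; a vector of `range e` has `|A| = a`, one of `ker e` has `|A| = d - b`. -/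
theorem Wt_level (F : Fock e d x a b) {A : Finset (Fin d)} {w : W} (hw : w ∈ Wt e x A) :
    e w ∈ Wt e x A ∧ (e w = w → w ≠ 0 → (A.card : ℂ) = a) ∧
      (e w = 0 → w ≠ 0 → (A.card : ℂ) = d - b) := by
  have hsum : ∑ i, num e x i w = (A.card : ℂ) • w := by
    rw [Finset.sum_congr rfl (fun i _ => hw i), Finset.sum_ite_mem, Finset.univ_inter,
      Finset.sum_const, ← Nat.cast_smul_eq_nsmul ℂ]
  have hP : ∑ i, x i ((star (x i)) w) = a • e w := by
    have h := congrArg (fun f : Module.End ℂ W => f w) F.sumP
    simp only [LinearMap.sum_apply, Module.End.mul_apply, LinearMap.smul_apply] at h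
    exact h
  have hQ : ∑ i, (star (x i)) (x i w) = b • (w - e w) := by
    have h := congrArg (fun f : Module.End ℂ W => f w) F.sumQ
    simp only [LinearMap.sum_apply, Module.End.mul_apply, LinearMap.smul_apply,
      LinearMap.sub_apply, Module.End.one_apply] at h
    exact h
  have hS : ∑ i, num e x i w = a • e w + ((d : ℂ) • (w - e w) - b • (w - e w)) := by
    simp only [num, LinearMap.add_apply, LinearMap.sub_apply, Module.End.mul_apply,
      Module.End.one_apply, Finset.sum_add_distrib, Finset.sum_sub_distrib, hP, hQ]
    rw [Finset.sum_const, Finset.sum_const, Finset.card_univ, Fintype.card_fin,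
      ← Nat.cast_smul_eq_nsmul ℂ, ← Nat.cast_smul_eq_nsmul ℂ, ← smul_sub]
  refine ⟨?_, ?_, ?_⟩
  · intro i
    have h := congrArg (fun f : Module.End ℂ W => f w) (num_props F i i).2.2.2
    simp only [Module.End.mul_apply] at h
    rw [h, hw i]
    split
    · rfl
    · rw [map_zero]
  · intro he h0
    rw [hsum, he, sub_self, smul_zero, smul_zero, sub_self, add_zero] at hS
    exact smul_left_injective ℂ h0 hS
  · intro he h0
    rw [hsum, he, smul_zero, sub_zero, zero_add, ← sub_smul] at hS
    exact smul_left_injective ℂ h0 hS

/-- There is a nonzero joint eigenvector in `range e` (successively replace `w` by `num i w` if it is not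
zero). -/
theorem exists_Wt (F : Fock e d x a b) {w : W} (hw : w ≠ 0) (hew : e w = w) :
    ∃ A : Finset (Fin d), ∃ w' ∈ Wt e x A, w' ≠ 0 ∧ e w' = w' := by
  classical
  have key : ∀ S : Finset (Fin d), ∃ w' : W, w' ≠ 0 ∧ e w' = w' ∧
      ∀ i ∈ S, num e x i w' = w' ∨ num e x i w' = 0 := by
    intro S
    induction S using Finset.induction_on with
    | empty => exact ⟨w, hw, hew, by simp⟩
    | insert i S _ ih =>
      obtain ⟨w', h0, he, hS⟩ := ih
      by_cases hi : num e x i w' = 0
      · refine ⟨w', h0, he, ?_⟩
        intro j hj
        rcases Finset.mem_insert.1 hj with h | h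
        · rw [h]; exact Or.inr hi
        · exact hS j h
      · refine ⟨num e x i w', hi, ?_, ?_⟩
        · have h := congrArg (fun f : Module.End ℂ W => f w') (num_props F i i).2.2.2
          simp only [Module.End.mul_apply] at h
          rw [← h, he]
        · intro j hj
          rcases Finset.mem_insert.1 hj with h | h
          · rw [h]
            left
            have h := congrArg (fun f : Module.End ℂ W => f w') (num_props F i i).2.1
            simp only [Module.End.mul_apply] at h
            exact h
          · have h' := congrArg (fun f : Module.End ℂ W => f w') (num_props F j i).2.2.1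
            simp only [Module.End.mul_apply] at h'
            rw [h']
            rcases hS j h with h1 | h1
            · left; rw [h1]
            · right; rw [h1, map_zero]
  obtain ⟨w', h0, he, hS⟩ := key Finset.univ
  refine ⟨Finset.univ.filter fun i => num e x i w' = w', w', ?_, h0, he⟩
  intro i
  by_cases hi : num e x i w' = w'
  · rw [if_pos (Finset.mem_filter.2 ⟨Finset.mem_univ i, hi⟩)]; exact hi
  · have hn : i ∉ Finset.univ.filter (fun i => num e x i w' = w') :=
      fun h => hi (Finset.mem_filter.1 h).2
    rw [if_neg hn]
    exact (hS i (Finset.mem_univ i)).resolve_left hi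

/-- Different eigenspaces are orthogonal. -/
theorem Wt_orth (F : Fock e d x a b) {A B : Finset (Fin d)} (hAB : A ≠ B) {w w' : W}
    (hw : w ∈ Wt e x A) (hw' : w' ∈ Wt e x B) : inner ℂ w w' = (0 : ℂ) := by
  have hadj : ∀ i, inner ℂ (num e x i w) w' = inner ℂ w (num e x i w') := by
    intro i
    conv_rhs => rw [← num_star F i, LinearMap.star_eq_adjoint, LinearMap.adjoint_inner_right]
  by_contra hne
  apply hAB
  ext i
  have h := hadj i
  rw [hw i, hw' i] at h
  by_cases hA : i ∈ A <;> by_cases hB : i ∈ B
  · exact ⟨fun _ => hB, fun _ => hA⟩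
  · rw [if_pos hA, if_neg hB, inner_zero_right] at h; exact absurd h hne
  · rw [if_neg hA, if_pos hB, inner_zero_left] at h; exact absurd h.symm hne
  · exact ⟨fun h => absurd h hA, fun h => absurd h hB⟩

end Pool.MP43e44c.SG
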