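import Pool.Agent.H.MP_43e44c_ag.SG.Pol
import Pool.Agent.H.MP_43e44c_ag.NC.Fock3

/-!
# SG/Fock3: the dimensions are consecutive binomial coefficients

The proof is in NC/Fock1, NC/Fock2, NC/Fock3.
-/

set_option autoImplicit false

namespace Pool.MP43e44c.SG

open Module PE

variable {W : Type*} [NormedAddCommGroup W] [InnerProductSpace ℂ W] [FiniteDimensional ℂ W]
variable {e : Module.End ℂ W} {d : ℕ} {x : Fin d → Module.End ℂ W} {a b : ℂ}

/-- The relations in the form of NC/Fock1. -/
theorem fock_fk (F : Fock e d x a b) : NC.Fk d e x where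
  he := F.idem
  hes := F.sa
  ex := F.left
  xe := F.right
  tri := by
    intro i j l
    rw [F.rel i j l, ite_smul, ite_smul, one_smul, one_smul, zero_smul, zero_smul]

/-- `finrank (range e) = C(d, n)`, `finrank (ker e) = C(d, n - 1)`. -/
theorem fock_dims (F : Fock e d x a b) (he0 : e ≠ 0) (he1 : e ≠ 1) :
    ∃ n : ℕ, 1 ≤ n ∧ n ≤ d ∧ finrank ℂ (LinearMap.range e) = d.choose n ∧
      finrank ℂ (LinearMap.ker e) = d.choose (n - 1) := by
  obtain ⟨n, h1, h2, _, _, h3, h4⟩ := (fock_fk F).dims F.irr he0 he1 a b F.sumP F.sumQ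
  refine ⟨n, h1, h2, h3, ?_⟩
  have h5 : LinearMap.ker e = LinearMap.range (1 - e) := by
    ext w
    rw [LinearMap.mem_ker, LinearMap.mem_range]
    constructor
    · intro h
      refine ⟨w, ?_⟩
      rw [LinearMap.sub_apply, h, sub_zero, Module.End.one_apply]
    · rintro ⟨w', rfl⟩
      rw [LinearMap.sub_apply, map_sub, Module.End.one_apply]
      have := NC.end_app F.idem w'
      rw [Module.End.mul_apply] at this
      rw [this, sub_self]
  rw [h5]
  exact h4

end Pool.MP43e44c.SG
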