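import Pool.Agent.H.MP_43e44c_ag.SG.Defs

/-!
# SG/Split: a full matrix algebra inside `End W` and its normaliser (helper55)
-/

set_option autoImplicit false

namespace Pool.MP43e44c.SG

open Module PE

section Units

variable {A : Type*} [Ring A] [Algebra ℂ A] {n : ℕ} (φ : Matrix (Fin n) (Fin n) ℂ →ₐ[ℂ] A)

/-- The matrix units. -/
noncomputable def mu (i j : Fin n) : A := φ (Matrix.single i j 1)

theorem mu_mul (i j k : Fin n) : mu φ i j * mu φ j k = mu φ i k := by
  rw [mu, mu, mu, ← map_mul, Matrix.single_mul_single_same, one_mul]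

theorem mu_mul_ne {i j k l : Fin n} (h : j ≠ k) : mu φ i j * mu φ k l = 0 := by
  rw [mu, mu, ← map_mul, Matrix.single_mul_single_of_ne _ _ _ _ h, map_zero]

theorem mu_sum : ∑ i, mu φ i i = 1 := by
  have h : (1 : Matrix (Fin n) (Fin n) ℂ) = ∑ i, Matrix.single i i (1 : ℂ) := by
    rw [Matrix.matrix_eq_sum_single (1 : Matrix (Fin n) (Fin n) ℂ)]
    refine Finset.sum_congr rfl fun i _ => ?_
    rw [Finset.sum_eq_single i]
    · rw [Matrix.one_apply_eq]
    · intro j _ hj
      rw [Matrix.one_apply_ne hj.symm, Matrix.single_zero]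
    · simp
  simp only [mu]
  rw [← map_sum, ← h, map_one]

theorem mu_expand (a : Matrix (Fin n) (Fin n) ℂ) : φ a = ∑ i, ∑ j, a i j • mu φ i j := by
  conv_lhs => rw [Matrix.matrix_eq_sum_single a]
  rw [map_sum]
  refine Finset.sum_congr rfl fun i _ => ?_
  rw [map_sum]
  refine Finset.sum_congr rfl fun j _ => ?_
  rw [mu, ← map_smul, Matrix.smul_single, smul_eq_mul, mul_one]

/-- `∑ₚ E_pi φ(a) E_jp = a_ij`. -/
theorem mu_avg (a : Matrix (Fin n) (Fin n) ℂ) (i j : Fin n) :
    ∑ p, mu φ p i * φ a * mu φ j p = a i j • (1 : A) := by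
  have h : ∀ p, mu φ p i * φ a * mu φ j p = a i j • mu φ p p := by
    intro p
    rw [mu, mu, mu, ← map_mul, ← map_mul, ← map_smul]
    congr 1
    ext x y
    by_cases hx : x = p
    · subst hx
      by_cases hy : y = x
      · subst hy
        simp
      · simp [hy, Ne.symm hy]
    · simp [Matrix.mul_assoc, hx, Ne.symm hx]
  rw [Finset.sum_congr rfl fun p _ => h p, ← Finset.smul_sum, mu_sum]

/-- An element which normalises the matrix algebra is the sum of an element of it and of an element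
of the commutant. -/
theorem mu_split (hn : 0 < n) (y : A) (hy : ∀ a, y * φ a - φ a * y ∈ φ.range) :
    ∃ b c : A, b ∈ φ.range ∧ (∀ a, c * φ a = φ a * c) ∧ y = b + c := by
  let o : Fin n := ⟨0, hn⟩
  refine ⟨∑ i, (y * mu φ i o - mu φ i o * y) * mu φ o i, ∑ i, mu φ i o * y * mu φ o i, ?_, ?_, ?_⟩
  · refine sum_mem fun i _ => mul_mem (hy _) ⟨_, rfl⟩
  · intro a
    rw [mu_expand φ a]
    simp only [Finset.mul_sum, Finset.sum_mul]
    have h : ∀ k l, (∑ i, mu φ i o * y * mu φ o i) * mu φ k l =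
        mu φ k l * ∑ i, mu φ i o * y * mu φ o i := by
      intro k l
      rw [Finset.sum_mul, Finset.mul_sum, Finset.sum_eq_single k, Finset.sum_eq_single l]
      · rw [mul_assoc, mu_mul, ← mul_assoc, ← mul_assoc, mu_mul]
      · intro i _ hi
        rw [← mul_assoc, ← mul_assoc, mu_mul_ne φ hi.symm, zero_mul, zero_mul]
      · simp
      · intro i _ hi
        rw [mul_assoc, mu_mul_ne φ hi, mul_zero]
      · simp
    have h2 : ∀ k l, (∑ i, mu φ i o * y * mu φ o i) * (a k l • mu φ k l) =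
        (a k l • mu φ k l) * ∑ i, mu φ i o * y * mu φ o i := by
      intro k l
      rw [mul_smul_comm, smul_mul_assoc, h]
    have h3 : (∑ i, mu φ i o * y * mu φ o i) * (∑ k, ∑ l, a k l • mu φ k l) =
        (∑ k, ∑ l, a k l • mu φ k l) * ∑ i, mu φ i o * y * mu φ o i := by
      rw [Finset.mul_sum, Finset.sum_mul]
      refine Finset.sum_congr rfl fun k _ => ?_
      rw [Finset.mul_sum, Finset.sum_mul]
      exact Finset.sum_congr rfl fun l _ => h2 k l
    simpa only [Finset.mul_sum, Finset.sum_mul] using h3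
  · rw [← Finset.sum_add_distrib]
    have h : ∀ i, (y * mu φ i o - mu φ i o * y) * mu φ o i + mu φ i o * y * mu φ o i =
        y * mu φ i i := by
      intro i
      rw [sub_mul, sub_add_cancel, mul_assoc, mu_mul]
    rw [Finset.sum_congr rfl fun i _ => h i, ← Finset.mul_sum, mu_sum, mul_one]

/-- An idempotent `φ a + c`, `c` in the commutant: one of the two parts is a scalar. -/
theorem mu_idem (hn : 0 < n) (a : Matrix (Fin n) (Fin n) ℂ) (c : A) (hc : ∀ x, c * φ x = φ x * c)
    (hf : (φ a + c) * (φ a + c) = φ a + c) :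
    (∃ s : ℂ, c = s • (1 : A)) ∨ ∃ s : ℂ, φ a = s • (1 : A) := by
  have h0 : φ (a * a - a) + φ ((2 : ℂ) • a - 1) * c + c * c = 0 := by
    have h1 : (φ a + c) * (φ a + c) - (φ a + c) = 0 := sub_eq_zero.2 hf
    rw [← h1]
    rw [two_smul ℂ a]
    simp only [map_sub, map_add, map_mul, map_one, sub_mul, add_mul, mul_add, hc a, one_mul]
    abel
  have key : ∀ i j, (a * a - a) i j • (1 : A) + ((2 : ℂ) • a - 1) i j • c +
      (1 : Matrix (Fin n) (Fin n) ℂ) i j • (c * c) = 0 := by
    intro i j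
    have e1 := mu_avg φ (a * a - a) i j
    have e2 := mu_avg φ ((2 : ℂ) • a - 1) i j
    have e3 := mu_avg φ (1 : Matrix (Fin n) (Fin n) ℂ) i j
    have hcm : ∀ i j, c * mu φ i j = mu φ i j * c := fun i j => hc _
    have h1 : ∑ p, mu φ p i * (φ (a * a - a) + φ ((2 : ℂ) • a - 1) * c + c * c) * mu φ j p = 0 := by
      rw [h0]; simp
    have h2 : ∀ p, mu φ p i * (φ (a * a - a) + φ ((2 : ℂ) • a - 1) * c + c * c) * mu φ j p =
        mu φ p i * φ (a * a - a) * mu φ j p + (mu φ p i * φ ((2 : ℂ) • a - 1) * mu φ j p) * c +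
          (mu φ p i * φ 1 * mu φ j p) * (c * c) := by
      intro p
      rw [map_one, mul_one]
      simp only [mul_add, add_mul, mul_assoc, hcm]
      congr 1
      rw [← mul_assoc c (mu φ j p) c, hcm, mul_assoc]
    rw [Finset.sum_congr rfl fun p _ => h2 p, Finset.sum_add_distrib, Finset.sum_add_distrib,
      ← Finset.sum_mul, ← Finset.sum_mul, e1, e2, e3, smul_mul_assoc, smul_mul_assoc, one_mul,
      one_mul] at h1
    exact h1
  by_cases h1 : ∃ i j, i ≠ j ∧ a i j ≠ 0
  · left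
    obtain ⟨i, j, hij, haij⟩ := h1
    have h := key i j
    rw [Matrix.one_apply_ne hij, zero_smul, add_zero, Matrix.sub_apply ((2 : ℂ) • a),
      Matrix.one_apply_ne hij, sub_zero, Matrix.smul_apply, smul_eq_mul] at h
    refine ⟨-((2 * a i j)⁻¹ * (a * a - a) i j), ?_⟩
    have h2 : (2 * a i j) ≠ 0 := mul_ne_zero two_ne_zero haij
    have h3 : c = (2 * a i j)⁻¹ • ((2 * a i j) • c) := by rw [smul_smul, inv_mul_cancel₀ h2, one_smul]
    have h4 : (2 * a i j) • c = -((a * a - a) i j • (1 : A)) := by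
      rw [eq_neg_iff_add_eq_zero, add_comm]
      exact h
    rw [h3, h4, smul_neg, smul_smul, neg_smul]
  push Not at h1
  by_cases h2 : ∃ i j, a i i ≠ a j j
  · left
    obtain ⟨i, j, hij⟩ := h2
    have hi := key i i
    have hj := key j j
    rw [Matrix.one_apply_eq, one_smul, Matrix.sub_apply ((2 : ℂ) • a), Matrix.one_apply_eq,
      Matrix.smul_apply, smul_eq_mul] at hi hj
    have h3 : (2 * (a i i - a j j)) • c = -(((a * a - a) i i - (a * a - a) j j) • (1 : A)) := by
      rw [eq_neg_iff_add_eq_zero]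
      have h4 := congrArg₂ (· - ·) hi hj
      simp only [sub_zero] at h4
      rw [← h4]
      module
    have h5 : (2 * (a i i - a j j)) ≠ 0 := mul_ne_zero two_ne_zero (sub_ne_zero.2 hij)
    refine ⟨-((2 * (a i i - a j j))⁻¹ * ((a * a - a) i i - (a * a - a) j j)), ?_⟩
    have h6 : c = (2 * (a i i - a j j))⁻¹ • ((2 * (a i i - a j j)) • c) := by
      rw [smul_smul, inv_mul_cancel₀ h5, one_smul]
    rw [h6, h3, smul_neg, smul_smul, neg_smul]
  · right
    push Not at h2
    let o : Fin n := ⟨0, hn⟩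
    refine ⟨a o o, ?_⟩
    have h3 : a = a o o • (1 : Matrix (Fin n) (Fin n) ℂ) := by
      ext i j
      rw [Matrix.smul_apply, smul_eq_mul]
      by_cases hij : i = j
      · subst hij
        rw [Matrix.one_apply_eq, mul_one]
        exact h2 i o
      · rw [h1 i j hij, Matrix.one_apply_ne hij, mul_zero]
    conv_lhs => rw [h3]
    rw [map_smul, map_one]

end Units

section Rank

variable {W : Type*} [AddCommGroup W] [Module ℂ W] [FiniteDimensional ℂ W] {n : ℕ}
  (φ : Matrix (Fin n) (Fin n) ℂ →ₐ[ℂ] Module.End ℂ W)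

theorem mu_dvd_comm (hn : 0 < n) (f : Module.End ℂ W) (hf : f * f = f)
    (hc : ∀ a, f * φ a = φ a * f) : n ∣ finrank ℂ (LinearMap.range f) := by
  let o : Fin n := ⟨0, hn⟩
  have hcm : ∀ i j, f * mu φ i j = mu φ i j * f := fun i j => hc _
  have h1 : LinearMap.trace ℂ W f = ∑ i, LinearMap.trace ℂ W (f * mu φ i i) := by
    rw [← map_sum, ← Finset.mul_sum, mu_sum, mul_one]
  have h2 : ∀ i, LinearMap.trace ℂ W (f * mu φ i i) = LinearMap.trace ℂ W (f * mu φ o o) := by
    intro i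
    rw [← mu_mul φ i o i, ← mul_assoc, cop_trace_comm, ← mul_assoc, ← hcm, mul_assoc, mu_mul]
  have h3 : (f * mu φ o o) * (f * mu φ o o) = f * mu φ o o := by
    rw [mul_assoc, ← mul_assoc (mu φ o o) f, ← hcm, mul_assoc, ← mul_assoc f f, hf, mu_mul]
  rw [Finset.sum_congr rfl fun i _ => h2 i, Finset.sum_const, Finset.card_univ, Fintype.card_fin,
    cop_trace_idem _ hf, cop_trace_idem _ h3, nsmul_eq_mul] at h1
  exact ⟨_, by exact_mod_cast h1⟩

theorem mu_trace (hn : 0 < n) (a : Matrix (Fin n) (Fin n) ℂ) :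
    LinearMap.trace ℂ W (φ a) =
      (finrank ℂ (LinearMap.range (mu φ ⟨0, hn⟩ ⟨0, hn⟩)) : ℂ) * a.trace := by
  let o : Fin n := ⟨0, hn⟩
  have h0 : LinearMap.trace ℂ W (mu φ o o) = (finrank ℂ (LinearMap.range (mu φ o o)) : ℂ) :=
    cop_trace_idem _ (mu_mul φ o o o)
  have h1 : ∀ i, LinearMap.trace ℂ W (mu φ i i) = LinearMap.trace ℂ W (mu φ o o) := by
    intro i
    rw [← mu_mul φ i o i, cop_trace_comm, mu_mul]
  have h2 : ∀ i j, i ≠ j → LinearMap.trace ℂ W (mu φ i j) = 0 := by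
    intro i j hij
    rw [← mu_mul φ i j j, cop_trace_comm, mu_mul_ne φ hij.symm, map_zero]
  rw [mu_expand φ a, map_sum, Matrix.trace, Finset.mul_sum]
  refine Finset.sum_congr rfl fun i _ => ?_
  rw [map_sum, Finset.sum_eq_single i]
  · rw [map_smul, h1, h0, smul_eq_mul, Matrix.diag_apply, mul_comm]
  · intro j _ hj
    rw [map_smul, h2 i j hj.symm, smul_zero]
  · simp

theorem mu_dvd_mem (hn : 0 < n) (a : Matrix (Fin n) (Fin n) ℂ) (h1 : a * a = a) :
    finrank ℂ (LinearMap.range (mu φ ⟨0, hn⟩ ⟨0, hn⟩)) ∣ finrank ℂ (LinearMap.range (φ a)) := by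
  have ha : φ a * φ a = φ a := by rw [← map_mul, h1]
  have h2 : a.trace = (finrank ℂ (LinearMap.range a.toLin') : ℂ) := by
    rw [← Matrix.trace_toLin'_eq]
    refine cop_trace_idem _ ?_
    rw [Module.End.mul_eq_comp, ← Matrix.toLin'_mul, h1]
  have h3 := mu_trace φ hn a
  rw [cop_trace_idem _ ha, h2] at h3
  exact ⟨_, by exact_mod_cast h3⟩

theorem mu_finrank (hn : 0 < n) :
    n * finrank ℂ (LinearMap.range (mu φ ⟨0, hn⟩ ⟨0, hn⟩)) = finrank ℂ W := by
  have h := mu_trace φ hn 1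
  rw [map_one, LinearMap.trace_one, Matrix.trace_one, Fintype.card_fin] at h
  rw [mul_comm]
  exact_mod_cast h.symm

end Rank

section Main

variable {W : Type*} [AddCommGroup W] [Module ℂ W] [FiniteDimensional ℂ W]
variable {n : ℕ} (φ : Matrix (Fin n) (Fin n) ℂ →ₐ[ℂ] Module.End ℂ W)

/-- `b = ∑ i, [y, φ E_i1] φ E_1i`, `c = y - b` commutes with `φ`. -/
theorem split_mem (hn : 0 < n) (y : Module.End ℂ W) (hy : ∀ M, ∃ M', φ M' = y * φ M - φ M * y) :
    ∃ M c, y = φ M + c ∧ ∀ M', c * φ M' = φ M' * c := by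
  obtain ⟨b, c, ⟨M, hM⟩, hc, h⟩ := mu_split φ hn y hy
  exact ⟨M, c, by rw [h, ← hM]; rfl, hc⟩

theorem range_one_sub {W : Type*} [AddCommGroup W] [Module ℂ W] {f : Module.End ℂ W}
    (hf : f * f = f) : LinearMap.range (1 - f) = LinearMap.ker f := by
  apply le_antisymm
  · rintro w ⟨v, rfl⟩
    have h : (f * (1 - f)) v = 0 := by rw [mul_sub, mul_one, hf, sub_self]; rfl
    exact h
  · intro w hw
    refine ⟨w, ?_⟩
    rw [LinearMap.sub_apply, LinearMap.mem_ker.1 hw, sub_zero]
    rfl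

theorem one_sub_idem {A : Type*} [Ring A] {f : A} (hf : f * f = f) :
    (1 - f) * (1 - f) = 1 - f := by
  rw [mul_sub, mul_one, sub_mul, one_mul, hf, sub_self, sub_zero]

include φ in
theorem phi_inj (hn : 0 < n) [Nontrivial (Module.End ℂ W)] : Function.Injective φ := by
  have : NeZero n := ⟨hn.ne'⟩
  exact φ.toRingHom.injective

/-- `f = φ M + c` idempotent, `c` in the commutant: `M` or `c` is a scalar.  From `f² = f`: for all `i, j`
`(M² - M)_ij + (2 M - 1)_ij c + δ_ij c² = 0` (multiply by `φ E_pi` on the left, `φ E_jp` on the right and sum over `p`);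
an off-diagonal entry or a difference of diagonal entries of `M`. -/
theorem idem_dich (hn : 0 < n) {M : Matrix (Fin n) (Fin n) ℂ} {c : Module.End ℂ W}
    (hc : ∀ M', c * φ M' = φ M' * c) (hf : (φ M + c) * (φ M + c) = φ M + c) :
    (∃ t : ℂ, M = t • 1) ∨ ∃ t : ℂ, c = t • 1 := by
  rcases subsingleton_or_nontrivial (Module.End ℂ W) with h | h
  · exact Or.inr ⟨0, Subsingleton.elim _ _⟩
  rcases mu_idem φ hn M c hc hf with h1 | ⟨t, ht⟩
  · exact Or.inr h1
  · refine Or.inl ⟨t, phi_inj φ hn ?_⟩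
    rw [ht, map_smul, map_one]

/-- An idempotent of the commutant has rank and corank divisible by `n`: `tr f = n tr (f φ E_11)`. -/
theorem dvd_rank (hn : 0 < n) {f : Module.End ℂ W} (hf : f * f = f) (hc : ∀ M, f * φ M = φ M * f) :
    n ∣ finrank ℂ (LinearMap.range f) ∧ n ∣ finrank ℂ (LinearMap.ker f) := by
  refine ⟨mu_dvd_comm φ hn f hf hc, ?_⟩
  rw [← range_one_sub hf]
  refine mu_dvd_comm φ hn _ (one_sub_idem hf) fun M => ?_
  rw [sub_mul, mul_sub, one_mul, mul_one, hc]

/-- `dim W = n k`, and `k` divides rank and corank of the idempotents of the image of `φ`; `k = tr (φ E_11)`,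
`tr (φ M) = k tr M`. -/
theorem dim_dvd (hn : 0 < n) : ∃ k : ℕ, finrank ℂ W = n * k ∧ ∀ M : Matrix (Fin n) (Fin n) ℂ, M * M = M →
    k ∣ finrank ℂ (LinearMap.range (φ M)) ∧ k ∣ finrank ℂ (LinearMap.ker (φ M)) := by
  refine ⟨_, (mu_finrank φ hn).symm, fun M hM => ?_⟩
  have h1 : φ M * φ M = φ M := by rw [← map_mul, hM]
  refine ⟨mu_dvd_mem φ hn M hM, ?_⟩
  rw [← range_one_sub h1, ← map_one φ, ← map_sub]
  exact mu_dvd_mem φ hn _ (one_sub_idem hM)

/-- If `n = dim W` then `φ` is onto. -/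
theorem surj_of_dim (hφ : Function.Injective φ) (h : finrank ℂ W = n) (A : Module.End ℂ W) :
    ∃ M, φ M = A := by
  have h1 : finrank ℂ (Matrix (Fin n) (Fin n) ℂ) = finrank ℂ (Module.End ℂ W) := by
    rw [Module.finrank_matrix, Module.finrank_linearMap, h]
    simp
  exact (LinearMap.injective_iff_surjective_of_finrank_eq_finrank h1 (f := φ.toLinearMap)).1 hφ A

end Main

end Pool.MP43e44c.SG
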