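import Pool.Agent.H.MP_43e44c_ag.SG.Simple
import Pool.Agent.H.MP_43e44c_ag.SG.Split
import Pool.Agent.H.MP_43e44c_ag.SG.Cas

/-!
# SG/IrrG: the corner of `g` and its adjoint act irreducibly
-/

set_option autoImplicit false

namespace Pool.MP43e44c.SG

open Module PE

variable {W : Type*} [NormedAddCommGroup W] [InnerProductSpace ℂ W] [FiniteDimensional ℂ W]

/-- The algebra generated by the two corners of `g`. -/
noncomputable def sgB (g : Submodule ℂ (Module.End ℂ W)) (e : Module.End ℂ W) :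
    Subalgebra ℂ (Module.End ℂ W) :=
  Algebra.adjoin ℂ {x | x ∈ copG1 g e ∨ star x ∈ copG1 g e}

section AlgB

variable {g : Submodule ℂ (Module.End ℂ W)} {e : Module.End ℂ W}

theorem sgB_gen {x : Module.End ℂ W} (hx : x ∈ copG1 g e) : x ∈ sgB g e :=
  Algebra.subset_adjoin (Or.inl hx)

theorem sgB_gen' {x : Module.End ℂ W} (hx : x ∈ copG1 g e) : star x ∈ sgB g e :=
  Algebra.subset_adjoin (Or.inr (by rw [star_star]; exact hx))

theorem sgB_star {b : Module.End ℂ W} (hb : b ∈ sgB g e) : star b ∈ sgB g e := by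
  unfold sgB at hb ⊢
  induction hb using Algebra.adjoin_induction with
  | mem x hx =>
    refine Algebra.subset_adjoin ?_
    rcases hx with h | h
    · exact Or.inr (by rw [star_star]; exact h)
    · exact Or.inl h
  | algebraMap c =>
    rw [Algebra.algebraMap_eq_smul_one, star_smul, star_one]
    exact Subalgebra.smul_mem _ (Subalgebra.one_mem _) _
  | add x y _ _ h1 h2 => rw [star_add]; exact Subalgebra.add_mem _ h1 h2
  | mul x y _ _ h1 h2 => rw [star_mul]; exact Subalgebra.mul_mem _ h2 h1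

theorem sgB_der (hbr : ∀ x ∈ g, ∀ y ∈ g, x * y - y * x ∈ g) (hst : ∀ x ∈ g, star x ∈ g)
    (he : e * e = e) (hes : star e = e) (heg : e ∈ g) {y : Module.End ℂ W} (hy : y ∈ g)
    {b : Module.End ℂ W} (hb : b ∈ sgB g e) : y * b - b * y ∈ sgB g e := by
  have hee : ∀ z : Module.End ℂ W, e * (e * z) = e * z := fun z => by rw [← mul_assoc, he]
  -- generators in the upper corner
  have key : ∀ y ∈ g, ∀ x ∈ copG1 g e, y * x - x * y ∈ sgB g e := by
    intro y hy x hx
    obtain ⟨h1, h2, h3⟩ := cop_corner g hbr e he heg y hy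
    have hy1 : e * y * (1 - e) ∈ copG1 g e := by
      refine mem_copG1.2 ⟨h1, ?_, ?_⟩
      · simp only [mul_sub, mul_one, mul_assoc, hee]
      · simp only [mul_sub, sub_mul, mul_one, mul_assoc, he]
        abel
    have hy2 : star ((1 - e) * y * e) ∈ copG1 g e := by
      refine mem_copG1.2 ⟨hst _ h2, ?_, ?_⟩
      · simp only [star_mul, star_sub, star_one, hes, hee]
      · simp only [star_mul, star_sub, star_one, hes]
        simp only [mul_sub, sub_mul, mul_one, mul_assoc, he]
        abel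
    have hy0 : e * y * e + (1 - e) * y * (1 - e) ∈ copG0 g e := by
      refine mem_copG0.2 ⟨h3, ?_⟩
      simp only [mul_sub, sub_mul, mul_add, add_mul, one_mul, mul_one, mul_assoc, he, hee]
      abel
    have h4 := sgB_gen (cop_ad_mem hbr hy0 hx)
    have h5 := sgB_gen hy1
    have h6 := sgB_gen' hy2
    rw [star_star] at h6
    have h7 := sgB_gen hx
    have h8 : y * x - x * y = ((e * y * e + (1 - e) * y * (1 - e)) * x -
        x * (e * y * e + (1 - e) * y * (1 - e))) + ((e * y * (1 - e)) * x - x * (e * y * (1 - e))) +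
        (((1 - e) * y * e) * x - x * ((1 - e) * y * e)) := by
      have h9 : y = (e * y * e + (1 - e) * y * (1 - e)) + e * y * (1 - e) + (1 - e) * y * e := by
        simp only [mul_sub, sub_mul, one_mul, mul_one]
        abel
      conv_lhs => rw [h9]
      simp only [mul_add, add_mul]
      abel
    rw [h8]
    refine Subalgebra.add_mem _ (Subalgebra.add_mem _ h4 ?_) ?_
    · exact Subalgebra.sub_mem _ (Subalgebra.mul_mem _ h5 h7) (Subalgebra.mul_mem _ h7 h5)
    · exact Subalgebra.sub_mem _ (Subalgebra.mul_mem _ h6 h7) (Subalgebra.mul_mem _ h7 h6)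
  have hb' := hb
  unfold sgB at hb'
  induction hb' using Algebra.adjoin_induction with
  | mem x hx =>
    rcases hx with h | h
    · exact key y hy x h
    · have h1 := sgB_star (key _ (hst y hy) _ h)
      simp only [star_sub, star_mul, star_star] at h1
      have h2 := Subalgebra.neg_mem _ h1
      rwa [neg_sub] at h2
  | algebraMap c =>
    rw [← Algebra.commutes c y, sub_self]
    exact Subalgebra.zero_mem _
  | add x z hx hz h1 h2 =>
    have h3 : y * (x + z) - (x + z) * y = (y * x - x * y) + (y * z - z * y) := by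
      rw [mul_add, add_mul]
      abel
    rw [h3]
    exact Subalgebra.add_mem _ (h1 hx) (h2 hz)
  | mul x z hx hz h1 h2 =>
    have h3 : y * (x * z) - (x * z) * y = (y * x - x * y) * z + x * (y * z - z * y) := by
      rw [sub_mul, mul_sub, ← mul_assoc, ← mul_assoc, ← mul_assoc]
      abel
    rw [h3]
    exact Subalgebra.add_mem _ (Subalgebra.mul_mem _ (h1 hx) hz) (Subalgebra.mul_mem _ hx (h2 hz))

theorem sgB_stable (U : Submodule ℂ W) (hU : ∀ x ∈ copG1 g e, ∀ w ∈ U, x w ∈ U)
    (hU' : ∀ x ∈ copG1 g e, ∀ w ∈ U, (star x) w ∈ U) {b : Module.End ℂ W}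
    (hb : b ∈ sgB g e) : ∀ w ∈ U, b w ∈ U := by
  unfold sgB at hb
  induction hb using Algebra.adjoin_induction with
  | mem x hx =>
    intro w hw
    rcases hx with h | h
    · exact hU x h w hw
    · have := hU' _ h w hw
      rwa [star_star] at this
  | algebraMap c =>
    intro w hw
    exact U.smul_mem c hw
  | add x y _ _ h1 h2 => intro w hw; exact U.add_mem (h1 w hw) (h2 w hw)
  | mul x y _ _ h1 h2 => intro w hw; exact h1 _ (h2 w hw)

end AlgB

/-- `B = Algebra.adjoin ℂ {x | x ∈ V ∨ star x ∈ V}`, `V = copG1 g e`: contains `e` (Casimir, `c₁ ≠ 0` as `V ≠ 0`, `cop_G1_ne`), star closed,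
`[g, B] ⊆ B` (`cop_corner`, `cop_ad_mem`, `Algebra.adjoin_induction`); `exists_mat`: `φ`, `dim W = n k` (`dim_dvd`), `k` divides
`rank e` and `corank e`.  Every `y ∈ g` is `φ M + c` (`split_mem`), so every `f ∈ 𝒥` (in `g`) has `f ∈ B`, or is in the commutant up
to ... : by `idem_dich` either `c` is scalar and `f ∈ B`, or `M` is scalar and `f` commutes with `φ`; in the second case if `f ≠ 0, 1`
then `n` divides rank and corank of `f` (`dvd_rank`), so `dim W = n k` divides the product of the gcds: excluded by `hdiv`; if `f = 0, 1` then `f ∈ B`.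
So all of `𝒥` and hence `g` is in `B` (`hgen` with `g' = B` as a submodule).  Then `B` acts irreducibly; a subspace stable under
`V` and `V*` is stable under `B`. -/
theorem irrG (g : Submodule ℂ (Module.End ℂ W))
    (hbr : ∀ x ∈ g, ∀ y ∈ g, x * y - y * x ∈ g) (hst : ∀ x ∈ g, star x ∈ g)
    (hirr : ∀ U : Submodule ℂ W, (∀ x ∈ g, ∀ w ∈ U, x w ∈ U) → U = ⊥ ∨ U = ⊤)
    (e : Module.End ℂ W) (he : e * e = e) (hes : star e = e) (heg : e ∈ g)
    (h1g : (1 : Module.End ℂ W) ∈ g) (he0 : e ≠ 0) (he1 : e ≠ 1)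
    (J : Set (Module.End ℂ W)) (hJg : ∀ f ∈ J, f ∈ g) (hJi : ∀ f ∈ J, f * f = f)
    (hgen : ∀ g' : Submodule ℂ (Module.End ℂ W), (∀ x ∈ g', ∀ y ∈ g', x * y - y * x ∈ g') →
      (1 : Module.End ℂ W) ∈ g' → (∀ f ∈ J, f ∈ g') → g ≤ g')
    (hdiv : ∀ f ∈ J, f ≠ 0 → f ≠ 1 → ¬ finrank ℂ W ∣
      Nat.gcd (finrank ℂ (LinearMap.range e)) (finrank ℂ (LinearMap.ker e)) *
      Nat.gcd (finrank ℂ (LinearMap.range f)) (finrank ℂ (LinearMap.ker f))) :
    Irr (copG1 g e) := by
  have hW : Nontrivial W := by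
    by_contra hcon
    rw [not_nontrivial_iff_subsingleton] at hcon
    exact he0 (LinearMap.ext fun w => Subsingleton.elim _ _)
  obtain ⟨n, hn, φ, hφ, hφB⟩ := exists_mat (sgB g e) (fun b hb => sgB_star hb) g hirr
    (fun y hy b hb => sgB_der hbr hst he hes heg hy hb) hW
  obtain ⟨k, hk, hkd⟩ := dim_dvd φ hn
  have hkey : ∀ f ∈ g, f * f = f → f ∈ sgB g e ∨ ∀ b, f * φ b = φ b * f := by
    intro f hf hff
    obtain ⟨a, c, hac, hc⟩ := split_mem φ hn f (fun M => by
      have h1 := sgB_der hbr hst he hes heg hf ((hφB (φ M)).2 ⟨M, rfl⟩)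
      obtain ⟨M', hM'⟩ := (hφB _).1 h1
      exact ⟨M', hM'⟩)
    rw [hac] at hff
    rcases idem_dich φ hn hc hff with ⟨l, hl⟩ | ⟨l, hl⟩
    · right
      intro b
      rw [hac, hl, map_smul, map_one, mul_add, add_mul, hc b, mul_smul_comm, smul_mul_assoc, mul_one,
        one_mul]
    · left
      rw [hac, hl]
      exact Subalgebra.add_mem _ ((hφB _).2 ⟨a, rfl⟩)
        (Subalgebra.smul_mem _ (Subalgebra.one_mem _) l)
  have heB : e ∈ sgB g e := by
    rcases hkey e heg he with h | h
    · exact h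
    · exfalso
      obtain ⟨x, hx, hx0⟩ := cop_G1_ne hbr hst hirr he hes heg he0 he1
      obtain ⟨_, h2, h3⟩ := mem_copG1.1 hx
      obtain ⟨b, hb⟩ := (hφB x).1 (sgB_gen hx)
      have h5 := h b
      rw [hb, h3, h2] at h5
      exact hx0 h5
  obtain ⟨E, hE⟩ := (hφB e).1 heB
  have hEE : E * E = E := hφ (by rw [map_mul, hE, he])
  obtain ⟨hk1, hk2⟩ := hkd E hEE
  rw [hE] at hk1 hk2
  have hgB : g ≤ Subalgebra.toSubmodule (sgB g e) := by
    apply hgen
    · intro x hx y hy
      exact Subalgebra.sub_mem _ (Subalgebra.mul_mem _ hx hy) (Subalgebra.mul_mem _ hy hx)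
    · exact Subalgebra.one_mem _
    · intro f hf
      rcases hkey f (hJg f hf) (hJi f hf) with h | h
      · exact h
      · by_cases hf0 : f = 0
        · rw [hf0]; exact Subalgebra.zero_mem _
        · by_cases hf1 : f = 1
          · rw [hf1]; exact Subalgebra.one_mem _
          · exfalso
            obtain ⟨h4, h5⟩ := dvd_rank φ hn (hJi f hf) h
            apply hdiv f hf hf0 hf1
            rw [hk, mul_comm n k]
            exact mul_dvd_mul (Nat.dvd_gcd hk1 hk2) (Nat.dvd_gcd h4 h5)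
  intro U hU hU'
  exact hirr U fun x hx w hw => sgB_stable U hU hU' (hgB hx) w hw

end Pool.MP43e44c.SG
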