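import Pool.Agent.H.MP_43e44c_ag.SG.Pr2
import Pool.Agent.H.MP_43e44c_ag.PE.Main

/-!
# SG/Main2: `PE.Main` without coprimality (helper55)
-/

set_option autoImplicit false

open NumberField Module Matrix

namespace Pool.MP43e44c.SG

open PE

section

variable {m : ℕ} {K : Type*} [Field K] [NumberField K] [IsCMField K] (D : Dat K m)

theorem pos_of_mul {τ : K →+* ℂ} (h : D.mul τ ≠ 0 ∨ D.mul (cj τ) ≠ 0) : 0 < m := by
  rcases Nat.eq_zero_or_pos m with h' | h'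
  · exfalso
    subst h'
    have h0 : ∀ τ, D.mul τ = 0 := fun τ => by
      have h1 : finrank ℂ (D.eig τ) ≤ finrank ℂ (Fin 0 → ℂ) := Submodule.finrank_le _
      rw [finrank_fin_fun] at h1
      exact Nat.le_zero.mp h1
    rcases h with h | h
    · exact h (h0 _)
    · exact h (h0 _)
  · exact h'

theorem ne_of_reg {K : Type*} [Field K] {μ : (K →+* ℂ) → ℕ} {τ : K →+* ℂ}
    (h : Nat.Coprime (μ τ) (μ (cj τ)) ∨ Reg μ τ) : μ τ ≠ 0 ∨ μ (cj τ) ≠ 0 := by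
  rcases h with h | h
  · by_contra hcon
    push Not at hcon
    rw [hcon.1, hcon.2] at h
    exact absurd h (by decide)
  · exact Or.inl h.1.ne'

/-- As `PE.all_of`. -/
theorem all_of (τ₁ : K →+* ℂ) (hc : Nat.Coprime (D.mul τ₁) (D.mul (cj τ₁)) ∨ Reg D.mul τ₁)
    (hs : ∀ τ t : K →+* ℂ, t ≠ τ → t ≠ cj τ → ∃ s : ℂ ≃+* ℂ, D.Dif (tw s τ) (tw s t))
    (hnd : D.Nd) {X : Mat m ℂ} (hX : D.Sk X) : X ∈ D.G := by
  have hm : 0 < m := pos_of_mul D (ne_of_reg hc)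
  have hpr := pr D τ₁ hc
  refine uall D hm (fun τ X h1 h2 h3 => full D hm hpr (fun τ t h h' => ?_) τ h1 h2 h3) hnd hX
  refine sep D hpr τ t (hs τ t h h') (hs τ (cj t) ?_ ?_)
  · intro h''
    apply h'
    rw [← h'', cj_cj]
  · intro h''
    apply h
    rw [← cj_cj t, h'', cj_cj]

end

variable {E : Type*} [AddCommGroup E] [Module ℂ E] [Module ℝ E] [IsScalarTower ℝ ℂ E]
variable {K : Type*} [Field K] [NumberField K] [IsCMField K]

/-- The general theorem. -/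
theorem main {Λ : AddSubgroup E} {ι : K →+* Module.End ℂ E} (h : HasEndK Λ ι)
    (h1 : ∃ τ, Nat.Coprime (mult ι τ) (mult ι (ComplexEmbedding.conjugate τ)) ∨ Reg (mult ι) τ)
    (h2 : NondegMult (mult ι))
    (h3 : ∀ τ t : K →+* ℂ, t ≠ τ → t ≠ ComplexEmbedding.conjugate τ → ∃ σ : ℂ ≃+* ℂ,
      mult ι ((σ : ℂ →+* ℂ).comp τ) ≠ mult ι ((σ : ℂ →+* ℂ).comp t) ∧
      ¬ (mult ι ((σ : ℂ →+* ℂ).comp τ) * mult ι (ComplexEmbedding.conjugate ((σ : ℂ →+* ℂ).comp τ)) = 0 ∧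
        mult ι ((σ : ℂ →+* ℂ).comp t) * mult ι (ComplexEmbedding.conjugate ((σ : ℂ →+* ℂ).comp t)) = 0))
    (k p : ℕ) : GeneratedByDivisors (powLattice Λ k) p := by
  obtain ⟨m, b, hΛ⟩ := h.lat
  obtain ⟨ψ, hψ⟩ := h.pol
  obtain ⟨D, hD⟩ := exists_repr (K := K) b hΛ hψ h.endo
  obtain ⟨τ₁, hc⟩ := h1
  have hmul : ∀ τ, D.mul τ = mult ι τ := mul_eq_mult hD
  have hmul' : D.mul = mult ι := funext hmul
  have hc' : Nat.Coprime (D.mul τ₁) (D.mul (cj τ₁)) ∨ Reg D.mul τ₁ := by rw [hmul']; exact hc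
  have hm : 0 < m := pos_of_mul D (ne_of_reg hc')
  have hnd : D.Nd := by
    intro z hz
    have := h2 z hz
    simpa only [hmul] using this
  have hall : ∀ X, D.Sk X → X ∈ D.G := fun X hX => by
    refine all_of D τ₁ hc' (fun τ t ht ht' => ?_) hnd hX
    obtain ⟨σ, h4, h5⟩ := h3 τ t ht ht'
    refine ⟨σ, ?_, ?_⟩
    · rw [hmul, hmul]; exact h4
    · rw [hmul, hmul, hmul, hmul]; exact h5
  exact generated hΛ hψ h.endo hD p (fun T hT => core D hm hall T hT) k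

/-- All places indefinite. -/
theorem main_indef {Λ : AddSubgroup E} {ι : K →+* Module.End ℂ E} (h : HasEndK Λ ι)
    (h1 : ∃ τ, Nat.Coprime (mult ι τ) (mult ι (ComplexEmbedding.conjugate τ)) ∨ Reg (mult ι) τ)
    (h2 : NondegMult (mult ι)) (h3 : ∀ τ, 0 < mult ι τ) (k p : ℕ) :
    GeneratedByDivisors (powLattice Λ k) p := by
  obtain ⟨τ₁, hc⟩ := h1
  refine main h ⟨τ₁, hc⟩ h2 (fun τ t ht _ => ?_) k p
  obtain ⟨s, hs⟩ := sep_of_nondeg (mult ι) _ (fun t => mult_add_mult h t τ₁) h2 ht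
  exact ⟨s, hs, fun h' => absurd h'.1 (Nat.mul_pos (h3 _) (h3 _)).ne'⟩

/-- Divisibility criterion. -/
theorem main_dvd {Λ : AddSubgroup E} {ι : K →+* Module.End ℂ E} (h : HasEndK Λ ι)
    (h1 : ∃ τ, Nat.Coprime (mult ι τ) (mult ι (ComplexEmbedding.conjugate τ)) ∨ Reg (mult ι) τ)
    (τ₀ : K →+* ℂ) (d : ℤ)
    (h2 : ∀ τ, τ ≠ τ₀ → τ ≠ ComplexEmbedding.conjugate τ₀ →
      d ∣ (mult ι τ : ℤ) - mult ι (ComplexEmbedding.conjugate τ))
    (h3 : ¬ d ∣ (mult ι τ₀ : ℤ) - mult ι (ComplexEmbedding.conjugate τ₀)) (k p : ℕ) :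
    GeneratedByDivisors (powLattice Λ k) p := by
  have hadd := mult_add_mult h
  refine main h h1 ?_ (fun τ t ht ht' => ?_) k p
  · intro z hz
    have h4 := nondeg_of_dvd (fun τ => (mult ι τ : ℤ) - mult ι (ComplexEmbedding.conjugate τ))
      (fun τ => by
        have e : ComplexEmbedding.conjugate (cj τ) = τ := cj_cj τ
        simp only [e]
        ring) τ₀ d h2 h3 z hz
    convert h4 using 4
    push_cast
    rfl
  · obtain ⟨σ, hσ⟩ := exists_aut τ τ₀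
    have e1 : (σ : ℂ →+* ℂ).comp τ = τ₀ := hσ
    have ht1 : tw σ t ≠ τ₀ := fun h5 => ht (by
      rw [← tw_symm_tw σ t, h5, ← hσ, tw_symm_tw])
    have ht2 : tw σ t ≠ cj τ₀ := fun h5 => ht' (by
      rw [← tw_symm_tw σ t, h5, ← hσ, ← tw_cj, tw_symm_tw])
    have h6 := h2 _ ht1 ht2
    have h7 := hadd τ₀ (tw σ t)
    refine ⟨σ, ?_, ?_⟩
    · rw [e1]
      exact fun h8 => h3 (dvd_aux h7 h6 (Or.inl h8))
    · rw [e1]
      exact fun h8 => h3 (dvd_aux h7 h6 (Or.inr h8))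

/-- One indefinite place. -/
theorem main_one {Λ : AddSubgroup E} {ι : K →+* Module.End ℂ E} (h : HasEndK Λ ι)
    (τ₀ : K →+* ℂ) (h0 : 0 < mult ι τ₀) (h0' : 0 < mult ι (ComplexEmbedding.conjugate τ₀))
    (h1 : ∃ τ, Nat.Coprime (mult ι τ) (mult ι (ComplexEmbedding.conjugate τ)) ∨ Reg (mult ι) τ)
    (h2 : mult ι τ₀ ≠ mult ι (ComplexEmbedding.conjugate τ₀))
    (h3 : ∀ τ, τ ≠ τ₀ → τ ≠ ComplexEmbedding.conjugate τ₀ →
      mult ι τ = 0 ∨ mult ι (ComplexEmbedding.conjugate τ) = 0) (k p : ℕ) :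
    GeneratedByDivisors (powLattice Λ k) p := by
  refine main_dvd h h1 τ₀ ((mult ι τ₀ : ℤ) + mult ι (ComplexEmbedding.conjugate τ₀))
    (fun τ hτ hτ' => ?_) ?_ k p
  · have h4 := mult_add_mult h τ₀ τ
    have h4' : ((mult ι τ₀ : ℤ) + mult ι (ComplexEmbedding.conjugate τ₀)) =
        (mult ι τ : ℤ) + mult ι (ComplexEmbedding.conjugate τ) := by exact_mod_cast h4
    rw [h4']
    rcases h3 τ hτ hτ' with h5 | h5
    · rw [h5]
      rw [← dvd_neg]
      simp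
    · rw [h5]
      simp
  · rintro ⟨c, hc⟩
    have h5 : c = 0 := by
      by_contra hc0
      have h6 : (1 : ℤ) ≤ |c| := Int.one_le_abs hc0
      have h7 := congrArg abs hc
      rw [abs_mul] at h7
      have h8 : |(mult ι τ₀ : ℤ) + mult ι (ComplexEmbedding.conjugate τ₀)| =
        (mult ι τ₀ : ℤ) + mult ι (ComplexEmbedding.conjugate τ₀) := abs_of_nonneg (by positivity)
      rw [h8] at h7
      have h9 : |(mult ι τ₀ : ℤ) - mult ι (ComplexEmbedding.conjugate τ₀)| <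
        (mult ι τ₀ : ℤ) + mult ι (ComplexEmbedding.conjugate τ₀) := by
        rw [abs_lt]
        constructor <;> omega
      rw [h7] at h9
      nlinarith
    rw [h5, mul_zero, sub_eq_zero] at hc
    exact h2 (by exact_mod_cast hc)

end Pool.MP43e44c.SG
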