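import Pool.Agent.H.MP_43e44c_ag.SG.Pairs

/-!
# SG/PairA: the projection `A`
-/

set_option autoImplicit false

namespace Pool.MP43e44c.SG

open Module PE

variable {W : Type*} [NormedAddCommGroup W] [InnerProductSpace ℂ W] [FiniteDimensional ℂ W]

/-- The situation after the construction of `A`. -/
structure AFrame (e : Module.End ℂ W) (V : Submodule ℂ (Module.End ℂ W)) (u v A x₀ : Module.End ℂ W) :
    Prop extends Frame e V u v where
  As : star A = A
  AA : A * A = A
  pA : u * star u * A = A
  Ap : A * (u * star u) = A
  hx₀ : InX V u v x₀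
  nx₀ : fr x₀ x₀ = fr u u
  XA : ∀ x, InX V u v x → A * x = u * star u * x
  XB : ∀ x, InX V u v x → x * star u * A = 0
  P : ∀ x y, InX V u v x → InX V u v y →
    u * star u * (x * star y) = (fr x y / fr u u) • A
  Q : ∀ x y, InX V u v x → InX V u v y →
    u * star y * x * star u = (fr x y / fr u u) • (u * star u - A)

variable {e : Module.End ℂ W} {V : Submodule ℂ (Module.End ℂ W)} {u v : Module.End ℂ W}

/-! ### closure properties of `X` and the sesquilinear map `P(x, y) = u u* x y*` -/

theorem InX.add {x y : Module.End ℂ W} (hx : InX V u v x) (hy : InX V u v y) :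
    InX V u v (x + y) :=
  ⟨V.add_mem hx.mem hy.mem,
    ((PV1 V u).add_mem (mem_PV1.mpr ⟨hx.mem, hx.p1⟩) (mem_PV1.mpr ⟨hy.mem, hy.p1⟩)).2,
    ((PV0 V v).add_mem (mem_PV0.mpr ⟨hx.mem, hx.p0⟩) (mem_PV0.mpr ⟨hy.mem, hy.p0⟩)).2⟩

theorem InX.smul (c : ℂ) {x : Module.End ℂ W} (hx : InX V u v x) : InX V u v (c • x) :=
  ⟨V.smul_mem c hx.mem, ((PV1 V u).smul_mem c (mem_PV1.mpr ⟨hx.mem, hx.p1⟩)).2,
    ((PV0 V v).smul_mem c (mem_PV0.mpr ⟨hx.mem, hx.p0⟩)).2⟩

/-- `P(x, y)* = P(y, x)`. -/
theorem pair_star (F : Frame e V u v) {x y : Module.End ℂ W} (hx : InX V u v x)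
    (hy : InX V u v y) : star (u * star u * (x * star y)) = u * star u * (y * star x) := by
  obtain ⟨c1, -, -⟩ := P1.comm F.hu.trip hy.p1 hx.p1
  rw [c1]
  simp only [star_mul, star_star, mul_assoc]

/-- Polarisation of a multiple of `A`. -/
theorem pair_pol {A : Module.End ℂ W} (F : Frame e V u v)
    (h : ∀ y, InX V u v y → u * star u * (y * star y) = (fr y y / fr u u) • A)
    {x y : Module.End ℂ W} (hx : InX V u v x) (hy : InX V u v y) :
    u * star u * (x * star y) = (fr x y / fr u u) • A := by
  have hx1 := h x hx
  have hy1 := h y hy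
  have h1 := h (x + y) (hx.add hy)
  have h2 := h (Complex.I • x + y) ((hx.smul Complex.I).add hy)
  have e1 : u * star u * ((x + y) * star (x + y)) =
      u * star u * (x * star x) + u * star u * (y * star y) + u * star u * (x * star y) +
        u * star u * (y * star x) := by
    rw [star_add]; noncomm_ring
  have e2 : u * star u * ((Complex.I • x + y) * star (Complex.I • x + y)) =
      u * star u * (x * star x) + u * star u * (y * star y) +
        Complex.I • (u * star u * (x * star y)) - Complex.I • (u * star u * (y * star x)) := by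
    have h3 : star (Complex.I • x + y) = -(Complex.I • star x) + star y := by
      rw [star_add, star_smul, Complex.star_def, Complex.conj_I, neg_smul]
    have h4 : (Complex.I • x + y) * (-(Complex.I • star x) + star y) =
        x * star x + y * star y + Complex.I • (x * star y) - Complex.I • (y * star x) := by
      simp only [add_mul, mul_add, mul_neg, smul_mul_assoc, mul_smul_comm]
      match_scalars <;> first | ring1 | linear_combination (-1 : ℂ) * Complex.I_mul_I
    rw [h3, h4, mul_sub, mul_add, mul_add, mul_smul_comm, mul_smul_comm]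
  have f1 : fr (x + y) (x + y) = fr x x + fr y y + fr x y + fr y x := by
    rw [fr_add_left, fr_add_right, fr_add_right]; ring
  have f2 : fr (Complex.I • x + y) (Complex.I • x + y) =
      fr x x + fr y y + Complex.I * fr x y - Complex.I * fr y x := by
    rw [fr_add_left, fr_add_right, fr_add_right, fr_smul_left, fr_smul_left, fr_smul_right,
      fr_smul_right, Complex.conj_I]
    linear_combination (-fr x x) * Complex.I_mul_I
  rw [e1, hx1, hy1, f1] at h1
  rw [e2, hx1, hy1, f2] at h2
  set P := u * star u * (x * star y)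
  set P' := u * star u * (y * star x)
  set k := fr u u
  have g1 : P + P' = ((fr x y + fr y x) / k) • A := by
    have : P + P' = ((fr x x / k) • A + (fr y y / k) • A + P + P') -
        ((fr x x / k) • A + (fr y y / k) • A) := by abel
    rw [this, h1, ← add_smul, ← sub_smul]
    congr 1
    ring
  have g2 : Complex.I • P - Complex.I • P' =
      ((Complex.I * fr x y - Complex.I * fr y x) / k) • A := by
    have : Complex.I • P - Complex.I • P' =
        ((fr x x / k) • A + (fr y y / k) • A + Complex.I • P - Complex.I • P') -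
        ((fr x x / k) • A + (fr y y / k) • A) := by abel
    rw [this, h2, ← add_smul, ← sub_smul]
    congr 1
    ring
  have g3 : P - P' = ((fr x y - fr y x) / k) • A := by
    have h5 : (-Complex.I) • (Complex.I • P - Complex.I • P') = P - P' := by
      rw [smul_sub, smul_smul, smul_smul]
      have : -Complex.I * Complex.I = 1 := by rw [neg_mul, Complex.I_mul_I, neg_neg]
      rw [this, one_smul, one_smul]
    rw [← h5, g2, smul_smul]
    congr 1
    linear_combination (-(fr x y - fr y x) / k) * Complex.I_mul_I
  have g4 : P = (1 / 2 : ℂ) • ((P + P') + (P - P')) := by module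
  rw [g4, g1, g3, ← add_smul, smul_smul]
  congr 1
  ring

/-- `A x = u u* x` for elements with `P(x, x)` a multiple of `A`. -/
theorem pair_XA (F : Frame e V u v) {A x : Module.End ℂ W} (As : star A = A) (AA : A * A = A)
    (pA : u * star u * A = A) (Ap : A * (u * star u) = A) (hx : InX V u v x) {c : ℂ}
    (h : u * star u * (x * star x) = c • A) : A * x = u * star u * x := by
  obtain ⟨-, c2, -⟩ := P1.comm F.hu.trip hx.p1 hx.p1
  have h1 : (u * star u - A) * x * star ((u * star u - A) * x) = 0 := by
    have e1 : star ((u * star u - A) * x) = star x * (u * star u - A) := by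
      rw [star_mul, star_sub, As, star_mul, star_star]
    have e2 : u * star u - A = (u * star u - A) * (u * star u) := by
      rw [sub_mul, p1_idem F.hu.trip, Ap]
    have e3 : u * star u - A = (u * star u) * (u * star u - A) := by
      rw [mul_sub, p1_idem F.hu.trip, pA]
    have e4 : (u * star u - A) * x * (star x * (u * star u - A)) =
        (u * star u - A) * (u * star u * x * star x * (u * star u)) * (u * star u - A) := by
      calc (u * star u - A) * x * (star x * (u * star u - A))
          = ((u * star u - A) * (u * star u)) * x * (star x * ((u * star u) * (u * star u - A))) := by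
            rw [← e2, ← e3]
        _ = _ := by simp only [mul_assoc]
    rw [e1, e4, c2, h, mul_smul_comm, sub_mul, pA, AA, sub_self, smul_zero, zero_mul]
  have h2 := eq_zero_of_mul_star h1
  rw [sub_mul, sub_eq_zero] at h2
  exact h2.symm

/-- The main step: `P(y, y) = ⟨y, y⟩ A` for `y` orthogonal to `x₀`. -/
theorem pair_orth (F : Frame e V u v) {x₀ y : Module.End ℂ W} (hx : InX V u v x₀)
    (hy : InX V u v y) (nx : fr x₀ x₀ = fr u u)
    (h1 : u * star u * (x₀ * star y) = 0) (h2 : u * star u * (y * star x₀) = 0)
    (f1 : fr x₀ y = 0) (f2 : fr y x₀ = 0) :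
    u * star u * (y * star y) = (fr y y / fr u u) • (u * star u * (x₀ * star x₀)) := by
  have hut := F.hu.trip
  have hk : fr u u ≠ 0 := fr_self_ne F.hu.ne
  have hA := Px_sq F hx
  have hP := Px_sq F hy
  have hS := Px_sq F (hx.add hy)
  obtain ⟨cx1, cx2, -⟩ := P1.comm hut hx.p1 hx.p1
  obtain ⟨cy1, cy2, -⟩ := P1.comm hut hy.p1 hy.p1
  have sA := pair_star F hx hx
  have sP := pair_star F hy hy
  have e1 : u * star u * ((x₀ + y) * star (x₀ + y)) =
      u * star u * (x₀ * star x₀) + u * star u * (y * star y) := by
    have : u * star u * ((x₀ + y) * star (x₀ + y)) =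
        u * star u * (x₀ * star x₀) + u * star u * (y * star y) + u * star u * (x₀ * star y) +
          u * star u * (y * star x₀) := by
      rw [star_add]; noncomm_ring
    rw [this, h1, h2, add_zero, add_zero]
  have e2 : fr (x₀ + y) (x₀ + y) = fr u u + fr y y := by
    rw [fr_add_left, fr_add_right, fr_add_right, f1, f2, nx]; ring
  rw [e1, e2, add_div, div_self hk] at hS
  rw [nx, div_self hk, one_smul] at hA
  set A := u * star u * (x₀ * star x₀) with hAdef
  set P := u * star u * (y * star y) with hPdef
  set t := fr y y / fr u u with ht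
  -- `A P + P A = t A + P`
  have g1 : A * P + P * A = t • A + P := by
    have : A * P + P * A = (A + P) * (A + P) - A * A - P * P := by noncomm_ring
    rw [this, hS, hA, hP]
    module
  -- `A P A = t A`
  have g2 : A * P * A = t • A := by
    have h3 : A * (A * P + P * A) = A * (t • A + P) := by rw [g1]
    have h4 : A * (A * P + P * A) = A * P + A * P * A := by
      rw [mul_add, ← mul_assoc A A P, hA, ← mul_assoc A P A]
    have h5 : A * (t • A + P) = t • A + A * P := by rw [mul_add, mul_smul_comm, hA]
    rw [h4, h5, add_comm] at h3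
    exact add_right_cancel h3
  -- `(p - A) P (p - A) = 0`
  have pA : u * star u * A = A := by rw [hAdef, ← mul_assoc, p1_idem hut]
  have Ap : A * (u * star u) = A := by rw [cx1, mul_assoc, p1_idem hut]
  have pP : u * star u * P = P := by rw [hPdef, ← mul_assoc, p1_idem hut]
  have Pp : P * (u * star u) = P := by rw [cy1, mul_assoc, p1_idem hut]
  have g3 : (u * star u - A) * P * (u * star u - A) = 0 := by
    have h3 : (u * star u - A) * P * (u * star u - A) =
        u * star u * P * (u * star u) - A * (P * (u * star u)) - (u * star u * P) * A + A * P * A := by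
      noncomm_ring
    rw [h3, pP, Pp, g2]
    have h4 : A * P + P * A = t • A + P := g1
    have : P - A * P - P * A + t • A = (t • A + P) - (A * P + P * A) := by abel
    rw [this, h4, sub_self]
  have g4 : (u * star u - A) * (u * star u * y) * star ((u * star u - A) * (u * star u * y)) = 0 := by
    have h3 : star ((u * star u - A) * (u * star u * y)) = star y * (u * star u) * (u * star u - A) := by
      rw [star_mul, star_sub, sA, star_mul (u * star u) y, star_mul u (star u), star_star, mul_assoc]
    rw [h3]
    have h4 : (u * star u - A) * (u * star u * y) * (star y * (u * star u) * (u * star u - A)) =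
        (u * star u - A) * (u * star u * y * star y * (u * star u)) * (u * star u - A) := by
      simp only [mul_assoc]
    rw [h4, cy2]
    exact g3
  have g5 := eq_zero_of_mul_star g4
  have g6 : (u * star u - A) * P = 0 := by
    have h3 : (u * star u - A) * P = (u * star u - A) * (u * star u * y) * star y := by
      rw [hPdef]; simp only [mul_assoc]
    rw [h3, g5, zero_mul]
  have g7 : A * P = P := by
    rw [sub_mul, pP, sub_eq_zero] at g6
    exact g6.symm
  have g8 : P * A = P := by
    have := congrArg star g7
    rwa [star_mul, sA, sP] at this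
  rw [← g2, g7, g8]

/-- Normalise `x` to `x₀`, `A = u u* x₀ x₀*` (a projection by `Px_sq`).  For `y ∈ X`, `fr x₀ y = 0`:
`P(x₀, y) = 0 = P(y, x₀)` by `pair_zero`, and `Px_sq` for `x₀ + t y`, `fr (t y) (t y) = fr u u` (or directly for `x₀ + y`) gives
`A P + P A = P + ⟨y,y⟩ A` with `P = P(y)`, hence `P(y) = ⟨y, y⟩ A`; polarise on the orthogonal complement of `x₀` in `X`;
write `x = α x₀ + x₁`, `y = β x₀ + y₁`.  `Q` is then `star_id`.  `XA`: `((u u* - A) x)((u u* - A) x)* = 0`. -/
theorem exists_A (F : Frame e V u v) {ζ x : Module.End ℂ W} (hζ : ζ ∈ V) (z1 : P1 u ζ) (z2 : P1 v ζ)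
    (z3 : u * star u * (ζ * star ζ) * (u * star u) = u * star u)
    (z4 : star u * u * (star ζ * ζ) * (star u * u) = star u * u)
    (hx : InX V u v x)
    (hne : 2 * LinearMap.trace ℂ W (u * star u * (x * star x)) ≠ fr x x) :
    ∃ A x₀, AFrame e V u v A x₀ := by
  have hut := F.hu.trip
  have hk : fr u u ≠ 0 := fr_self_ne F.hu.ne
  have hx0 : x ≠ 0 := by
    rintro rfl
    apply hne
    simp [fr_zero_left]
  -- normalisation
  obtain ⟨s, s0, hs, hs'⟩ := fr_self x
  obtain ⟨k, k0, hkk, hk'⟩ := fr_self u
  have sp : 0 < s := lt_of_le_of_ne s0 fun h => hx0 (hs' h.symm)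
  have kp : 0 < k := lt_of_le_of_ne k0 fun h => F.hu.ne (hk' h.symm)
  set c : ℂ := ((Real.sqrt (k / s) : ℝ) : ℂ) with hc
  have hcc : c * c = (k : ℂ) / s := by
    rw [hc, ← Complex.ofReal_mul, Real.mul_self_sqrt (div_nonneg k0 s0), Complex.ofReal_div]
  have hcs : (starRingEnd ℂ) c = c := by rw [hc, Complex.conj_ofReal]
  have hsC : (s : ℂ) ≠ 0 := by exact_mod_cast sp.ne'
  have hkC : (k : ℂ) ≠ 0 := by exact_mod_cast kp.ne'
  have hc0 : c * c ≠ 0 := by rw [hcc]; exact div_ne_zero hkC hsC
  set x₀ := c • x with hx₀def
  have hX0 : InX V u v x₀ := hx.smul c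
  have nx : fr x₀ x₀ = fr u u := by
    rw [hx₀def, fr_smul_left, fr_smul_right, hcs, hs, hkk, ← mul_assoc, hcc]
    field_simp
  have hne0 : 2 * LinearMap.trace ℂ W (u * star u * (x₀ * star x₀)) ≠ fr x₀ x₀ := by
    have h1 : u * star u * (x₀ * star x₀) = (c * c) • (u * star u * (x * star x)) := by
      rw [hx₀def, star_smul, smul_mul_smul_comm, mul_smul_comm]
      congr 2
    have h2 : fr x₀ x₀ = (c * c) * fr x x := by
      rw [hx₀def, fr_smul_left, fr_smul_right, hcs]; ring
    rw [h1, h2, map_smul, smul_eq_mul]
    intro h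
    apply hne
    apply mul_left_cancel₀ hc0
    linear_combination h
  clear_value x₀
  set A := u * star u * (x₀ * star x₀) with hA
  have As : star A = A := pair_star F hX0 hX0
  have AA : A * A = A := by
    have := Px_sq F hX0
    rwa [nx, div_self hk, one_smul] at this
  obtain ⟨c1, -, -⟩ := P1.comm hut hX0.p1 hX0.p1
  have pA : u * star u * A = A := by rw [hA, ← mul_assoc, p1_idem hut]
  have Ap : A * (u * star u) = A := by rw [hA, c1, mul_assoc, p1_idem hut]
  -- `P(y, y) = ⟨y, y⟩ A` for all `y`
  have hPP : ∀ y, InX V u v y → u * star u * (y * star y) = (fr y y / fr u u) • A := by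
    intro y hy
    set α := fr y x₀ / fr u u with hα
    set y₁ := y + (-α) • x₀ with hy₁
    have hY : InX V u v y₁ := hy.add (hX0.smul (-α))
    have f2 : fr y₁ x₀ = 0 := by
      rw [hy₁, fr_add_left, fr_smul_left, nx, hα]
      field_simp
      ring
    have f1 : fr x₀ y₁ = 0 := by rw [← fr_conj, f2, map_zero]
    have p1 : u * star u * (x₀ * star y₁) = 0 := pair_zero F hζ z1 z2 z3 z4 hX0 hY f1 hne0
    have p2 : u * star u * (y₁ * star x₀) = 0 := by
      rw [← pair_star F hX0 hY, p1, star_zero]
    have p3 := pair_orth F hX0 hY nx p1 p2 f1 f2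
    have hyy : y = α • x₀ + y₁ := by rw [hy₁]; module
    clear_value y₁
    have e1 : u * star u * (y * star y) =
        (α * (starRingEnd ℂ) α) • A + u * star u * (y₁ * star y₁) := by
      have h3 : u * star u * ((α • x₀ + y₁) * star (α • x₀ + y₁)) =
          (α * (starRingEnd ℂ) α) • (u * star u * (x₀ * star x₀)) + u * star u * (y₁ * star y₁) +
            α • (u * star u * (x₀ * star y₁)) +
            ((starRingEnd ℂ) α) • (u * star u * (y₁ * star x₀)) := by
        rw [star_add, star_smul, Complex.star_def]
        simp only [add_mul, mul_add, smul_mul_assoc, mul_smul_comm]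
        module
      rw [hyy, h3, p1, p2, smul_zero, smul_zero, add_zero, add_zero]
    have e2 : fr y y = α * (starRingEnd ℂ) α * fr u u + fr y₁ y₁ := by
      conv_lhs => rw [hyy]
      rw [fr_add_left, fr_add_right, fr_add_right, fr_smul_left, fr_smul_left, fr_smul_right,
        fr_smul_right, f1, f2, nx]
      ring
    rw [e1, p3, e2, ← add_smul]
    congr 1
    field_simp
  have hPol : ∀ x y, InX V u v x → InX V u v y →
      u * star u * (x * star y) = (fr x y / fr u u) • A := fun x y hx hy => pair_pol F hPP hx hy
  have hQ : ∀ x y, InX V u v x → InX V u v y →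
      u * star y * x * star u = (fr x y / fr u u) • (u * star u - A) := by
    intro x y hx hy
    have h := star_id F.T F.hu hx.mem hy.mem hx.p1 hy.p1
    rw [hPol x y hx hy] at h
    rw [smul_sub, ← h]
    abel
  refine ⟨A, x₀, ⟨F, As, AA, pA, Ap, hX0, nx, ?_, ?_, hPol, hQ⟩⟩
  · intro x hx
    exact pair_XA F As AA pA Ap hx (hPP x hx)
  · intro x hx
    apply eq_zero_of_star_mul
    have h1 : star (x * star u * A) * (x * star u * A) = A * (u * star x * x * star u) * A := by
      simp only [star_mul, star_star, As, mul_assoc]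
    rw [h1, hQ x x hx hx, mul_smul_comm, mul_sub, Ap, AA, sub_self, smul_zero, zero_mul]

end Pool.MP43e44c.SG
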