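import Pool.Agent.H.MP_43e44c_ag.SG.Zeta

/-!
# SG/Pairs: orthogonal elements of degree (1,0)
-/

set_option autoImplicit false

namespace Pool.MP43e44c.SG

open Module PE

variable {W : Type*} [NormedAddCommGroup W] [InnerProductSpace ℂ W] [FiniteDimensional ℂ W]

/-- `u` primitive, `v` a maximal tripotent orthogonal to `u`. -/
structure Frame (e : Module.End ℂ W) (V : Submodule ℂ (Module.End ℂ W)) (u v : Module.End ℂ W) :
    Prop where
  T : Tri e V
  hu : Prim V u
  hv : v ∈ V
  vt : v * star v * v = v
  uv : P0 u v
  max : ∀ y ∈ V, P0 u y → P0 v y → y = 0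

/-- Elements of degree one for `u` and degree zero for `v`. -/
structure InX (V : Submodule ℂ (Module.End ℂ W)) (u v x : Module.End ℂ W) : Prop where
  mem : x ∈ V
  p1 : P1 u x
  p0 : P0 v x

variable {e : Module.End ℂ W} {V : Submodule ℂ (Module.End ℂ W)} {u v : Module.End ℂ W}


/-! ### first relations for elements of degree (1,0) -/

theorem InX.vx {x : Module.End ℂ W} (hx : InX V u v x) :
    star v * x = 0 ∧ x * star v = 0 ∧ star x * v = 0 ∧ v * star x = 0 := by
  obtain ⟨h1, h2⟩ := hx.p0
  have h3 := congrArg star h1
  have h4 := congrArg star h2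
  rw [star_mul, star_star, star_zero] at h3 h4
  exact ⟨h1, h2, h3, h4⟩

/-- `{x, u, y} ∈ V` has degree zero for `u` and `v`. -/
theorem xuy (F : Frame e V u v) {x y : Module.End ℂ W} (hx : InX V u v x) (hy : InX V u v y) :
    x * star u * y + y * star u * x = 0 := by
  have hut := F.hu.trip
  have h1 := hx.p1.sxs hut
  have h2 := hy.p1.sxs hut
  obtain ⟨x1, x2, -, -⟩ := hx.vx
  obtain ⟨y1, y2, -, -⟩ := hy.vx
  refine F.max _ (F.T.tri x hx.mem u F.hu.mem y hy.mem) ⟨?_, ?_⟩ ⟨?_, ?_⟩
  · rw [mul_add, ← mul_assoc, ← mul_assoc, ← mul_assoc, ← mul_assoc, h1, h2, zero_mul, zero_mul,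
      add_zero]
  · rw [add_mul, mul_assoc x, mul_assoc x, mul_assoc y, mul_assoc y, h1, h2, mul_zero, mul_zero,
      add_zero]
  · rw [mul_add, ← mul_assoc, ← mul_assoc, ← mul_assoc, ← mul_assoc, x1, y1]
    simp
  · rw [add_mul, mul_assoc, mul_assoc (y * star u), x2, y2, mul_zero, mul_zero, add_zero]


/-- `x u* x = 0`. -/
theorem xux (F : Frame e V u v) {x : Module.End ℂ W} (hx : InX V u v x) :
    x * star u * x = 0 := by
  have h := xuy F hx hx
  have h2 : (2 : ℂ) • (x * star u * x) = 0 := by rw [two_smul, h]
  exact (smul_eq_zero.mp h2).resolve_left two_ne_zero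

/-- `x* u x* = 0`. -/
theorem xsux (F : Frame e V u v) {x : Module.End ℂ W} (hx : InX V u v x) :
    star x * u * star x = 0 := by
  have := congrArg star (xux F hx)
  simpa only [star_mul, star_star, star_zero, mul_assoc] using this

/-- `P(x) = x' x'*` satisfies `P(x)² = ⟨x, x⟩ P(x)`: multiply `star_id` by `P(x)`, `x u* x = 0`. -/
theorem Px_sq (F : Frame e V u v) {x : Module.End ℂ W} (hx : InX V u v x) :
    (u * star u * (x * star x)) * (u * star u * (x * star x)) =
      (fr x x / fr u u) • (u * star u * (x * star x)) := by
  have hut := F.hu.trip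
  have hs := star_id F.T F.hu hx.mem hx.mem hx.p1 hx.p1
  obtain ⟨c1, -, -⟩ := P1.comm hut hx.p1 hx.p1
  have h0 := xsux F hx
  -- `P (u u*) = P`
  have h1 : u * star u * (x * star x) * (u * star u) = u * star u * (x * star x) := by
    rw [mul_assoc, ← c1, ← mul_assoc, p1_idem hut]
  -- `P u x* x u* = 0`
  have h2 : u * star u * (x * star x) * (u * star x * x * star u) = 0 := by
    have : u * star u * (x * star x) * (u * star x * x * star u) =
        u * star u * x * (star x * u * star x) * x * star u := by simp only [mul_assoc]
    rw [this, h0, mul_zero, zero_mul, zero_mul]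
  have h3 : u * star u * (x * star x) * (u * star u * (x * star x) + u * star x * x * star u) =
      u * star u * (x * star x) * ((fr x x / fr u u) • (u * star u)) := by rw [hs]
  rw [mul_add, h2, add_zero, mul_smul_comm, h1] at h3
  exact h3

/-- The key step.  `a = u u* x y*`.  By `star_id` `u y* x u* = -a`; `a² = -a (u y* x u*) = 0` as
`y* u y* = 0`.  `w = {x, y, ζ} = x y* ζ + ζ y* x ∈ V` has degree one, `u u* w = x y* ζ`-part, `w u* u = ζ y* x u* u`;
`star_id` for `w`, `w` reads `a a* + a* a = c u u*`, `c = fr w w / fr u u`.  If `c = 0` then `a = 0`.  If `c ≠ 0`, `E = a a*/c`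
and `F = a* a/c` are projections with sum `u u*`, `tr E = tr F`; with `p = P(x) fr u u / fr x x` (a projection)
`p a = a`, `a p = 0`, so `p E = E`, `p F = 0`, `p = p (E + F) = E`: `2 tr P(x) = fr x x`. -/
theorem pair_zero (F : Frame e V u v) {ζ x y : Module.End ℂ W} (hζ : ζ ∈ V) (z1 : P1 u ζ) (z2 : P1 v ζ)
    (z3 : u * star u * (ζ * star ζ) * (u * star u) = u * star u)
    (z4 : star u * u * (star ζ * ζ) * (star u * u) = star u * u)
    (hx : InX V u v x) (hy : InX V u v y) (hxy : fr x y = 0)
    (hne : 2 * LinearMap.trace ℂ W (u * star u * (x * star x)) ≠ fr x x) :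
    u * star u * (x * star y) = 0 := by
  have hut := F.hu.trip
  have hus := star_trip hut
  obtain ⟨x1, x2, x3, x4⟩ := hx.vx
  obtain ⟨y1, y2, y3, y4⟩ := hy.vx
  obtain ⟨cxy1, -, cxy3⟩ := P1.comm hut hx.p1 hy.p1
  obtain ⟨cxx1, -, -⟩ := P1.comm hut hx.p1 hx.p1
  have hx0 := xux F hx
  have hs0 := xsux F hx
  set a := u * star u * (x * star y) with ha
  -- `u y* x u* = -a`
  have hb : u * star y * x * star u = -a := by
    have h := star_id F.T F.hu hx.mem hy.mem hx.p1 hy.p1
    rw [hxy, zero_div, zero_smul] at h
    rw [eq_neg_iff_add_eq_zero, add_comm]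
    exact h
  -- the element `w`
  have hw : x * star y * ζ + ζ * star y * x ∈ V := F.T.tri x hx.mem y hy.mem ζ hζ
  have hw1 : P1 u (x * star y * ζ + ζ * star y * x) :=
    ((PV1 (⊤ : Submodule ℂ (Module.End ℂ W)) u).add_mem
      (mem_PV1.mpr ⟨Submodule.mem_top, P1.tri hut hx.p1 hy.p1 z1⟩)
      (mem_PV1.mpr ⟨Submodule.mem_top, P1.tri hut z1 hy.p1 hx.p1⟩)).2
  have hww := star_id F.T F.hu hw hw hw1 hw1
  obtain ⟨cw1, cw2, -⟩ := P1.comm hut hw1 hw1
  set w := x * star y * ζ + ζ * star y * x with hwdef
  obtain ⟨uv1, uv2⟩ := F.uv
  obtain ⟨vu1, vu2⟩ := P0_symm F.uv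
  -- `a u u* = a = u u* a`
  have ha1 : a * (u * star u) = a := by
    rw [cxy1, mul_assoc, p1_idem hut]
  have ha2 : u * star u * a = a := by
    rw [ha, ← mul_assoc, p1_idem hut]
  have ha3 : u * star u * star a = star a := by
    have := congrArg star ha1
    simpa only [star_mul, star_star] using this
  -- `u u* ζ y* = 0` and `y* ζ u* u = 0`
  have hz1 : u * star u * ζ * star y = 0 := by
    conv_lhs => rw [z2.2]
    have : u * star u * (v * star v * ζ + ζ * (star v * v)) * star y =
        u * (star u * v) * star v * ζ * star y + u * star u * ζ * star v * (v * star y) := by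
      noncomm_ring
    rw [this, uv1, y4]; simp
  have hz2 : star y * ζ * (star u * u) = 0 := by
    conv_lhs => rw [z2.2]
    have : star y * (v * star v * ζ + ζ * (star v * v)) * (star u * u) =
        (star y * v) * star v * ζ * (star u * u) + star y * ζ * star v * (v * star u) * u := by
      noncomm_ring
    rw [this, uv2, y3]; simp
  have hA : u * star u * w = a * ζ := by
    have : u * star u * w = u * star u * (x * star y) * ζ + (u * star u * ζ * star y) * x := by
      rw [hwdef]; noncomm_ring
    rw [this, hz1, zero_mul, add_zero]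
  have hyx : star y * x * star u = -(star u * a) := by
    have h1 : star y * x * star u = star y * x * (star u * u) * star u := by
      conv_lhs => rw [← hus]
      simp only [mul_assoc]
    rw [h1, ← cxy3]
    have h2 : star u * u * (star y * x) * star u = star u * (u * star y * x * star u) := by
      simp only [mul_assoc]
    rw [h2, hb, mul_neg]
  have hB : w * star u = -(ζ * star u * a) := by
    have h1 : w * star u = w * (star u * u) * star u := by
      conv_lhs => rw [← hus]
      simp only [mul_assoc]
    have h2 : w * (star u * u) = x * (star y * ζ * (star u * u)) + ζ * star y * x * (star u * u) := by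
      rw [hwdef]; noncomm_ring
    rw [h1, h2, hz2, mul_zero, zero_add]
    have h3 : ζ * star y * x * (star u * u) * star u = ζ * (star y * x * (star u * u * star u)) := by
      simp only [mul_assoc]
    rw [h3, hus, hyx, mul_neg, mul_assoc]
  -- `u u* w w* = a a*`
  have hC : u * star u * (w * star w) = a * star a := by
    rw [← cw2]
    have h1 : u * star u * w * star w * (u * star u) = (u * star u * w) * star (u * star u * w) := by
      simp only [star_mul, star_star, mul_assoc]
    rw [h1, hA, star_mul]
    calc a * ζ * (star ζ * star a) = (a * (u * star u)) * ζ * (star ζ * (u * star u * star a)) := by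
          rw [ha1, ha3]
      _ = a * (u * star u * (ζ * star ζ) * (u * star u)) * star a := by simp only [mul_assoc]
      _ = a * star a := by rw [z3, ha1]
  have hD : u * star w * w * star u = star a * a := by
    have h1 : u * star w * w * star u = star (w * star u) * (w * star u) := by
      simp only [star_mul, star_star, mul_assoc]
    rw [h1, hB, star_neg, neg_mul_neg]
    have h2 : star (ζ * star u * a) * (ζ * star u * a) =
        star a * (u * (star u * u * (star ζ * ζ) * (star u * u)) * star u) * a := by
      have h3 : star (ζ * star u * a) * (ζ * star u * a) =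
          star a * (u * star u * u) * (star ζ * ζ) * (star u * u * star u) * a := by
        rw [hut, hus]; simp only [star_mul, star_star, mul_assoc]
      rw [h3]; simp only [mul_assoc]
    have h4 : u * (star u * u) * star u = u * star u := by rw [← mul_assoc, hut]
    rw [h2, z4, h4, mul_assoc, ha2]
  rw [hC, hD] at hww
  -- traces
  have hfu : fr u u ≠ 0 := fr_self_ne F.hu.ne
  have htr : 2 * fr a a = fr w w / fr u u * fr u u := by
    have h1 := congrArg (LinearMap.trace ℂ W) hww
    rw [map_add, map_smul, smul_eq_mul, LinearMap.trace_mul_comm ℂ (star a) a] at h1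
    rw [two_mul]
    exact h1
  set c := fr w w / fr u u with hc
  by_cases hc0 : c = 0
  · rw [hc0, zero_mul] at htr
    exact fr_self_eq_zero ((mul_eq_zero.mp htr).resolve_left two_ne_zero)
  · exfalso
    set s := fr x x / fr u u with hs
    have hss := star_id F.T F.hu hx.mem hx.mem hx.p1 hx.p1
    set P := u * star u * (x * star x) with hP
    have hPs : star P = P := by
      conv_rhs => rw [cxx1]
      rw [hP]
      simp only [star_mul, star_star, mul_assoc]
    have hPa : P * a = s • a := by
      have h1 : (P + u * star x * x * star u) * a = (s • (u * star u)) * a := by rw [hss]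
      have h2 : u * star x * x * star u * a = 0 := by
        have h3 : u * star x * x * star u * a = u * star x * x * (star u * u * star u) * x * star y := by
          rw [ha]; simp only [mul_assoc]
        have h4 : u * star x * x * star u * x * star y = u * star x * (x * star u * x) * star y := by
          simp only [mul_assoc]
        rw [h3, hus, h4, hx0, mul_zero, zero_mul]
      rwa [add_mul, h2, add_zero, smul_mul_assoc, ha2] at h1
    have haP : a * P = 0 := by
      have h1 : a = -(u * star y * x * star u) := by rw [hb, neg_neg]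
      have h3 : u * star y * x * star u * P = u * star y * x * (star u * u * star u) * x * star x := by
        rw [hP]; simp only [mul_assoc]
      have h4 : u * star y * x * star u * x * star x = u * star y * (x * star u * x) * star x := by
        simp only [mul_assoc]
      rw [h1, neg_mul, h3, hus, h4, hx0, mul_zero, zero_mul, neg_zero]
    have hPa2 : P * star a = 0 := by
      have := congrArg star haP
      rwa [star_mul, star_zero, hPs] at this
    have hPu : P * (u * star u) = P := by
      rw [cxx1, mul_assoc, p1_idem hut]
    have h5 : s • (a * star a) = c • P := by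
      have h6 : P * (a * star a + star a * a) = P * (c • (u * star u)) := by rw [hww]
      rwa [mul_add, ← mul_assoc, hPa, ← mul_assoc, hPa2, zero_mul, add_zero, mul_smul_comm, hPu,
        smul_mul_assoc] at h6
    have h7 := congrArg (LinearMap.trace ℂ W) h5
    rw [map_smul, map_smul, smul_eq_mul, smul_eq_mul] at h7
    have h8 : s * fr a a = c * LinearMap.trace ℂ W P := h7
    have h9 : s * fr u u = fr x x := by rw [hs, div_mul_cancel₀ _ hfu]
    apply hne
    apply mul_left_cancel₀ hc0
    linear_combination (-2) * h8 + s * htr + c * h9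

end Pool.MP43e44c.SG
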