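import Pool.Agent.H.MP_43e44c_ag.SG.Trip

/-!
# SG/Peirce: the Peirce decomposition with respect to a tripotent
-/

set_option autoImplicit false

namespace Pool.MP43e44c.SG

open Module PE

variable {W : Type*} [NormedAddCommGroup W] [InnerProductSpace ℂ W] [FiniteDimensional ℂ W]

/-! ### degree one: first identities (`u` a tripotent) -/

theorem P1.sxs {u x : Module.End ℂ W} (hu : u * star u * u = u) (h : P1 u x) :
    star u * x * star u = 0 := by
  have h1 : star u * (u * star u * x * (star u * u)) * star u = 0 := by rw [h.1]; simp
  have h2 : star u * (u * star u * x * (star u * u)) * star u =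
      (star u * u * star u) * x * (star u * u * star u) := by simp only [mul_assoc]
  rwa [h2, star_trip hu] at h1

theorem P1.usu {u x : Module.End ℂ W} (hu : u * star u * u = u) (h : P1 u x) :
    u * star x * u = 0 := by
  have := congrArg star (h.sxs hu)
  simpa only [star_mul, star_star, star_zero, mul_assoc] using this

/-- `x'' = x u* u = (1 - u u*) x`. -/
theorem P1.right {u x : Module.End ℂ W} (h : P1 u x) : x * (star u * u) = x - u * star u * x := by
  rw [eq_sub_iff_add_eq, add_comm]
  exact h.2.symm

/-- `u u* x = x - x u* u`. -/
theorem P1.left {u x : Module.End ℂ W} (h : P1 u x) : u * star u * x = x - x * (star u * u) := by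
  rw [eq_sub_iff_add_eq]
  exact h.2.symm

/-- The star of `x = x' + x''`. -/
theorem P1.star2 {u x : Module.End ℂ W} (h : P1 u x) :
    star x * (u * star u) = star x - star u * u * star x := by
  rw [eq_sub_iff_add_eq]
  have h1 := congrArg star h.2
  rw [star_add] at h1
  simp only [star_mul, star_star] at h1
  rw [← h1]

/-- If `x`, `y`, `z` have degree one then so has `x y* z`, with `(x y* z)' = x' y'* z'`,
`(x y* z)'' = x'' y''* z''`. -/
theorem P1.tri {u x y z : Module.End ℂ W} (hu : u * star u * u = u) (hx : P1 u x) (hy : P1 u y)
    (hz : P1 u z) : P1 u (x * star y * z) := by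
  have a1 := hx.left
  have a2 := hz.right
  have a3 := hy.star2
  have a4 := p1_idem hu
  constructor
  · calc u * star u * (x * star y * z) * (star u * u)
        = (u * star u * x) * star y * (z * (star u * u)) := by simp only [mul_assoc]
      _ = (x - x * (star u * u)) * star y * (z - u * star u * z) := by rw [a1, a2]
      _ = x * (star y - star u * u * star y) * z -
          x * ((star y - star u * u * star y) * (u * star u)) * z := by noncomm_ring
      _ = 0 := by rw [← a3, mul_assoc (star y), a4, sub_self]
  · have e1 : u * star u * (x * star y * z) = x * star y * z - x * (star u * u * star y) * z := by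
      calc u * star u * (x * star y * z) = (u * star u * x) * star y * z := by
            simp only [mul_assoc]
        _ = x * star y * z - x * (star u * u * star y) * z := by rw [a1]; noncomm_ring
    have e2 : x * star y * z * (star u * u) =
        x * star y * z - x * (star y * (u * star u)) * z := by
      calc x * star y * z * (star u * u) = x * star y * (z * (star u * u)) := by
            simp only [mul_assoc]
        _ = x * star y * z - x * (star y * (u * star u)) * z := by rw [a2]; noncomm_ring
    rw [e1, e2, a3]
    noncomm_ring

/-- For `x`, `y` of degree one: `u u* x y* = u u* x y* u u* = x y* u u*`. -/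
theorem P1.comm {u x y : Module.End ℂ W} (hu : u * star u * u = u) (hx : P1 u x) (hy : P1 u y) :
    u * star u * (x * star y) = x * star y * (u * star u) ∧
    u * star u * x * star y * (u * star u) = u * star u * (x * star y) ∧
    star u * u * (star y * x) = star y * x * (star u * u) := by
  have a1 := hx.left
  have a2 := hx.right
  have a3 := hy.star2
  have a4 := p1_idem hu
  have e1 : u * star u * (x * star y) = x * star y * (u * star u) := by
    calc u * star u * (x * star y) = (u * star u * x) * star y := by simp only [mul_assoc]
      _ = x * (star y - star u * u * star y) := by rw [a1]; noncomm_ring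
      _ = x * star y * (u * star u) := by rw [← a3, mul_assoc x]
  refine ⟨e1, ?_, ?_⟩
  · calc u * star u * x * star y * (u * star u) = u * star u * (x * star y * (u * star u)) := by
          simp only [mul_assoc]
      _ = (u * star u) * (u * star u) * (x * star y) := by rw [← e1]; simp only [mul_assoc]
      _ = u * star u * (x * star y) := by rw [a4]
  · calc star u * u * (star y * x) = (star u * u * star y) * x := by simp only [mul_assoc]
      _ = (star y - star y * (u * star u)) * x := by
          congr 1
          rw [a3]
          abel
      _ = star y * (x - u * star u * x) := by noncomm_ring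
      _ = star y * x * (star u * u) := by rw [← a2, mul_assoc (star y)]

variable {e : Module.End ℂ W} {V : Submodule ℂ (Module.End ℂ W)}

/-! ### the projections preserve `V` -/

theorem mem_P2 (T : Tri e V) {u x : Module.End ℂ W} (hu : u ∈ V) (hx : x ∈ V) :
    u * star u * x * (star u * u) ∈ V := by
  have h := tri_half T hu (tri_half T hu hx)
  simpa only [star_mul, star_star, ← mul_assoc] using h

theorem mem_P1 (T : Tri e V) {u x : Module.End ℂ W} (hu : u ∈ V) (hut : u * star u * u = u)
    (hx : x ∈ V) :
    u * star u * x + x * (star u * u) - (2 : ℂ) • (u * star u * x * (star u * u)) ∈ PV1 V u := by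
  have h1 : u * star u * x + x * (star u * u) ∈ V := by
    have := T.tri u hu u hu x hx
    rwa [mul_assoc x] at this
  refine ⟨V.sub_mem h1 (V.smul_mem _ (mem_P2 T hu hx)), ?_⟩
  have a := p1_idem hut
  have b := p0_idem hut
  have e1 : u * star u * (u * star u * x + x * (star u * u) -
      (2 : ℂ) • (u * star u * x * (star u * u))) = u * star u * x - u * star u * x * (star u * u) := by
    have : u * star u * (u * star u * x + x * (star u * u) -
      (2 : ℂ) • (u * star u * x * (star u * u))) = (u * star u) * (u * star u) * x +
      u * star u * x * (star u * u) -
      (2 : ℂ) • ((u * star u) * (u * star u) * x * (star u * u)) := by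
      rw [mul_sub, mul_add, mul_smul_comm]
      simp only [mul_assoc]
    rw [this, a]
    module
  have e2 : (u * star u * x + x * (star u * u) -
      (2 : ℂ) • (u * star u * x * (star u * u))) * (star u * u) =
      x * (star u * u) - u * star u * x * (star u * u) := by
    have : (u * star u * x + x * (star u * u) -
      (2 : ℂ) • (u * star u * x * (star u * u))) * (star u * u) = u * star u * x * (star u * u) +
      x * ((star u * u) * (star u * u)) -
      (2 : ℂ) • (u * star u * x * ((star u * u) * (star u * u))) := by
      rw [sub_mul, add_mul, smul_mul_assoc]
      simp only [mul_assoc]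
    rw [this, b]
    module
  constructor
  · rw [e1, sub_mul]
    have : u * star u * x * (star u * u) * (star u * u) = u * star u * x * (star u * u) := by
      rw [mul_assoc (u * star u * x), b]
    rw [this, sub_self]
  · rw [e1, e2]
    module

theorem mem_P0 (T : Tri e V) {u x : Module.End ℂ W} (hu : u ∈ V) (hut : u * star u * u = u)
    (hx : x ∈ V) :
    x - u * star u * x - x * (star u * u) + u * star u * x * (star u * u) ∈ PV0 V u := by
  have h1 : u * star u * x + x * (star u * u) ∈ V := by
    have := T.tri u hu u hu x hx
    rwa [mul_assoc x] at this
  have a := star_trip hut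
  refine ⟨?_, ?_, ?_⟩
  · rw [sub_sub]
    exact V.add_mem (V.sub_mem hx h1) (mem_P2 T hu hx)
  · have : star u * (x - u * star u * x - x * (star u * u) + u * star u * x * (star u * u)) =
        star u * x - (star u * u * star u) * x - star u * x * (star u * u) +
          (star u * u * star u) * x * (star u * u) := by noncomm_ring
    rw [this, a]
    abel
  · have : (x - u * star u * x - x * (star u * u) + u * star u * x * (star u * u)) * star u =
        x * star u - u * star u * x * star u - x * (star u * u * star u) +
          u * star u * x * (star u * u * star u) := by noncomm_ring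
    rw [this, a]
    abel

/-- If moreover `x` has degree zero or one with respect to a tripotent `v` orthogonal to `u`, then so have the
components: here for `x ∈ V` with `P1 u x`: its components of degree one and zero with respect to `v`. -/
theorem split_v (T : Tri e V) {u v x : Module.End ℂ W} (hut : u * star u * u = u) (hv : v ∈ V)
    (hvt : v * star v * v = v) (huv : P0 u v) (hx : x ∈ V) (h1 : P1 u x) :
    ∃ z ∈ V, ∃ y ∈ V, P1 u z ∧ P1 v z ∧ P1 u y ∧ P0 v y ∧ x = z + y := by
  have b1 : star u * v = 0 := huv.1
  have b2 : v * star u = 0 := huv.2
  have b3 : star v * u = 0 := (P0_symm huv).1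
  have b4 : u * star v = 0 := (P0_symm huv).2
  have c1 : v * star v * (u * star u * x) = 0 := by
    have : v * star v * (u * star u * x) = v * (star v * u) * star u * x := by
      simp only [mul_assoc]
    rw [this, b3]
    simp
  have c2 : x * (star u * u) * (star v * v) = 0 := by
    have : x * (star u * u) * (star v * v) = x * star u * (u * star v) * v := by
      simp only [mul_assoc]
    rw [this, b4]
    simp
  have d1 : v * star v * x = v * star v * (x * (star u * u)) := by
    conv_lhs => rw [h1.2]
    rw [mul_add, c1, zero_add]
  have d2 : x * (star v * v) = u * star u * x * (star v * v) := by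
    conv_lhs => rw [h1.2]
    rw [add_mul, c2, add_zero]
  have d3 : v * star v * x * (star v * v) = 0 := by
    rw [d1]
    have : v * star v * (x * (star u * u)) * (star v * v) =
      v * star v * (x * (star u * u) * (star v * v)) := by simp only [mul_assoc]
    rw [this, c2, mul_zero]
  have m1 := mem_P1 T hv hvt hx
  have m0 := mem_P0 T hv hvt hx
  rw [d3, smul_zero, sub_zero] at m1
  rw [d3, add_zero] at m0
  have hz1 : P1 u (v * star v * x + x * (star v * v)) := by
    have g1 : u * star u * (v * star v * x + x * (star v * v)) = x * (star v * v) := by
      rw [mul_add]
      have g2 : u * star u * (v * star v * x) = 0 := by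
        have : u * star u * (v * star v * x) = u * (star u * v) * star v * x := by
          simp only [mul_assoc]
        rw [this, b1]
        simp
      have g3 : u * star u * (x * (star v * v)) = u * star u * x * (star v * v) := by
        simp only [mul_assoc]
      rw [g2, g3, ← d2, zero_add]
    have g4 : (v * star v * x + x * (star v * v)) * (star u * u) = v * star v * x := by
      rw [add_mul]
      have g2 : x * (star v * v) * (star u * u) = 0 := by
        have : x * (star v * v) * (star u * u) = x * star v * (v * star u) * u := by
          simp only [mul_assoc]
        rw [this, b2]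
        simp
      have g3 : v * star v * x * (star u * u) = v * star v * (x * (star u * u)) := by
        simp only [mul_assoc]
      rw [g2, g3, ← d1, add_zero]
    constructor
    · rw [g1]
      have : x * (star v * v) * (star u * u) = x * star v * (v * star u) * u := by
          simp only [mul_assoc]
      rw [this, b2]
      simp
    · rw [g1, g4, add_comm]
  refine ⟨_, m1.1, _, m0.1, hz1, m1.2, ?_, m0.2, ?_⟩
  · have hV : x ∈ PV1 (⊤ : Submodule ℂ (Module.End ℂ W)) u := ⟨Submodule.mem_top, h1⟩
    have hZ : v * star v * x + x * (star v * v) ∈ PV1 (⊤ : Submodule ℂ (Module.End ℂ W)) u :=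
      ⟨Submodule.mem_top, hz1⟩
    have := (Submodule.sub_mem _ hV hZ).2
    rwa [← sub_sub] at this
  · abel

/-! ### orthogonality -/

theorem fr_P1_P0 {u x y : Module.End ℂ W} (hu : u * star u * u = u) (hx : P1 u x) (hy : P0 u y) :
    fr x y = 0 := by
  have h1 : u * star y = 0 := by
    have := congrArg star hy.2
    simpa only [star_mul, star_star, star_zero] using this
  have h2 : star y * u = 0 := by
    have := congrArg star hy.1
    simpa only [star_mul, star_star, star_zero] using this
  have e1 : x * star y = u * (star u * x * star y) := by
    have : x * star y = u * star u * x * star y + x * star u * (u * star y) := by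
      conv_lhs => rw [hx.2]
      noncomm_ring
    rw [this, h1, mul_zero, add_zero]
    simp only [mul_assoc]
  rw [fr, e1, cop_trace_comm]
  have : star u * x * star y * u = star u * x * (star y * u) := by simp only [mul_assoc]
  rw [this, h2, mul_zero, map_zero]

theorem fr_P2_P1 {u x : Module.End ℂ W} (hu : u * star u * u = u) (hx : P1 u x) : fr u x = 0 := by
  have h1 : star u * u * star x * (u * star u) = 0 := by
    have := congrArg star hx.1
    simpa only [star_mul, star_star, star_zero, mul_assoc] using this
  have e1 : u * star x = u * star u * (u * star x) := by
    rw [← mul_assoc (u * star u), hu]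
  rw [fr, e1, cop_trace_comm]
  have e2 : u * star x * (u * star u) = u * (star u * u * star x * (u * star u)) := by
    have : u * (star u * u * star x * (u * star u)) = (u * star u * u) * star x * (u * star u) := by
      simp only [mul_assoc]
    rw [this, hu]
  rw [e2, h1, mul_zero, map_zero]

theorem fr_P2_P0 {u x : Module.End ℂ W} (hx : P0 u x) : fr u x = 0 := by
  rw [fr, P0] at *
  have h : u * star x = 0 := by
    have := congrArg star hx.2
    simpa only [star_mul, star_star, star_zero] using this
  rw [h, map_zero]

/-- `tr (u u* x x*) + tr (x* x u* u) = fr x x` for `x` of degree one. -/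
theorem fr_split {u x : Module.End ℂ W} (hu : u * star u * u = u) (hx : P1 u x) :
    LinearMap.trace ℂ W (u * star u * (x * star x)) + LinearMap.trace ℂ W (star x * x * (star u * u)) =
      fr x x := by
  have e1 : star x * x * (star u * u) = star x * (x * (star u * u)) := mul_assoc _ _ _
  rw [e1, cop_trace_comm (star x), hx.right, sub_mul, map_sub, fr]
  have e2 : u * star u * x * star x = u * star u * (x * star x) := by simp only [mul_assoc]
  rw [e2]
  ring

/-! ### the basic identity -/

/-- **The star identity** `x' y'* + u y''* x'' u* = ⟨x, y⟩ u u*`, `⟨x, y⟩ = fr x y / fr u u`: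
`{x, y, u} = x y* u + u y* x ∈ V` is `u u* (...) u* u`, hence `c u`; `c fr u u = fr (c u) u = fr x y`; multiply by `u*`
on the right. -/
theorem star_id (T : Tri e V) {u x y : Module.End ℂ W} (hu : Prim V u) (hx : x ∈ V) (hy : y ∈ V)
    (h1 : P1 u x) (h2 : P1 u y) :
    u * star u * (x * star y) + u * star y * x * star u = (fr x y / fr u u) • (u * star u) := by
  have ht := hu.trip
  obtain ⟨k1, -, k3⟩ := P1.comm ht h1 h2
  have hw := T.tri x hx y hy u hu.mem
  have f1 : u * star u * (x * star y * u + u * star y * x) * (star u * u) =
      x * star y * u + u * star y * x := by
    have e1 : u * star u * (x * star y * u) * (star u * u) = x * star y * u := by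
      calc u * star u * (x * star y * u) * (star u * u)
          = (u * star u * (x * star y)) * (u * star u * u) := by simp only [mul_assoc]
        _ = x * star y * (u * star u * u) := by rw [ht, k1, mul_assoc (x * star y), ht]
        _ = x * star y * u := by rw [ht]
    have e2 : u * star u * (u * star y * x) * (star u * u) = u * star y * x := by
      calc u * star u * (u * star y * x) * (star u * u)
          = (u * star u * u) * (star y * x * (star u * u)) := by simp only [mul_assoc]
        _ = (u * star u * u) * (star y * x) := by rw [← k3, ht]; simp only [← mul_assoc]; rw [ht]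
        _ = u * star y * x := by rw [ht, mul_assoc u]
    rw [mul_add, add_mul, e1, e2]
  obtain ⟨c, hc⟩ := hu.one _ hw f1
  have f2 : u * star u * (x * star y) + u * star y * x * star u = c • (u * star u) := by
    have : (x * star y * u + u * star y * x) * star u = c • (u * star u) := by
      rw [hc, smul_mul_assoc]
    rw [← this, k1, add_mul]
    simp only [mul_assoc]
  have f3 : fr x y = c * fr u u := by
    have g1 := congrArg (LinearMap.trace ℂ W) f2
    rw [map_add, map_smul, smul_eq_mul] at g1
    have g2 : LinearMap.trace ℂ W (u * star y * x * star u) =
        fr x y - LinearMap.trace ℂ W (u * star u * (x * star y)) := by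
      have e1 : u * star y * x * star u = u * (star y * x * star u) := by simp only [mul_assoc]
      rw [e1, cop_trace_comm]
      have e2 : star y * x * star u * u = star y * (x * (star u * u)) := by simp only [mul_assoc]
      rw [e2, cop_trace_comm, h1.right, sub_mul, map_sub, fr]
      simp only [mul_assoc]
    rw [g2] at g1
    rw [fr, fr]
    rw [fr] at g1
    linear_combination g1
  rw [f2, f3, mul_div_cancel_right₀ _ (fr_self_ne hu.ne)]

/-- `{y, q, u}` has degree one for `y` of degree zero and `q` of degree one. -/
theorem mem_yqu (T : Tri e V) {u y q : Module.End ℂ W} (hu : u ∈ V) (hut : u * star u * u = u)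
    (hy : y ∈ V) (h0 : P0 u y) (hq : q ∈ V) (h1 : P1 u q) :
    y * star q * u + u * star q * y ∈ PV1 V u := by
  have b1 : star u * y = 0 := h0.1
  have b2 : y * star u = 0 := h0.2
  have e1 : u * star u * (y * star q * u + u * star q * y) = u * star q * y := by
    have : u * star u * (y * star q * u + u * star q * y) =
        u * (star u * y) * star q * u + (u * star u * u) * star q * y := by noncomm_ring
    rw [this, b1, hut]
    simp
  have e2 : (y * star q * u + u * star q * y) * (star u * u) = y * star q * u := by
    have : (y * star q * u + u * star q * y) * (star u * u) =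
        y * star q * (u * star u * u) + u * star q * (y * star u) * u := by noncomm_ring
    rw [this, b2, hut]
    simp
  refine ⟨T.tri y hy q hq u hu, ?_, ?_⟩
  · rw [e1]
    have : u * star q * y * (star u * u) = u * star q * (y * star u) * u := by
      simp only [mul_assoc]
    rw [this, b2]
    simp
  · rw [e1, e2, add_comm]

end Pool.MP43e44c.SG
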