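import Pool.Agent.H.MP_43e44c_ag.SG.RankA

/-!
# SG/Pol: polarisation, the fermionic relations
-/

set_option autoImplicit false

namespace Pool.MP43e44c.SG

open Module PE

variable {W : Type*} [NormedAddCommGroup W] [InnerProductSpace ℂ W] [FiniteDimensional ℂ W]

/-- `B(x,y,z) = x y* z + z y* x - ⟨x,y⟩ z - ⟨z,y⟩ x` is symmetric in `x, z` and vanishes on the diagonal; `B(x + t z, x + t z, x + t z)`
for `t = ±1, ±i` gives `B(x, z, x) = 0`; then polarise in `x`. -/
theorem pol {V : Submodule ℂ (Module.End ℂ W)} {k : ℂ}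
    (h : ∀ x ∈ V, x * star x * x = (fr x x / k) • x) {x y z : Module.End ℂ W} (hx : x ∈ V) (hy : y ∈ V)
    (hz : z ∈ V) : x * star y * z + z * star y * x = (fr x y / k) • z + (fr z y / k) • x := by
  have key : ∀ u ∈ V, ∀ w ∈ V, u * star w * u = (fr u w / k) • u := by
    intro u hu w hw
    have keyR : ∀ w ∈ V, w * star u * u + u * star u * w + u * star w * u =
        ((fr u w + fr w u) / k) • u + (fr u u / k) • w := by
      intro w hw
      have f1 := h _ (V.add_mem hu hw)
      have f2 := h _ (V.sub_mem hu hw)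
      have f3 := h _ hw
      have e1 : (u + w) * star (u + w) = u * star u + u * star w + w * star u + w * star w := by
        rw [star_add]; simp only [mul_add, add_mul]; abel
      have e2 : (u - w) * star (u - w) = u * star u - u * star w - w * star u + w * star w := by
        rw [star_sub]; simp only [mul_sub, sub_mul]; abel
      rw [e1, fr_add_left, fr_add_right, fr_add_right] at f1
      rw [e2, fr_sub_left, fr_sub_right, fr_sub_right] at f2
      simp only [mul_add, add_mul] at f1
      simp only [mul_sub, add_mul, sub_mul] at f2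
      linear_combination (norm := module) (1/2 : ℂ) • f1 - (1/2 : ℂ) • f2 - f3
    have hI : star (Complex.I • w) = -(Complex.I • star w) := by
      rw [star_smul]
      have : star Complex.I = -Complex.I := Complex.conj_I
      rw [this, neg_smul]
    have g1 := keyR w hw
    have g2 := keyR (Complex.I • w) (V.smul_mem _ hw)
    rw [hI, fr_smul_left, fr_smul_right, Complex.conj_I] at g2
    have h3 : Complex.I • (Complex.I • w * star u * u + u * star u * Complex.I • w +
        u * -(Complex.I • star w) * u) =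
        -(w * star u * u) - u * star u * w + u * star w * u := by
      simp only [smul_mul_assoc, mul_smul_comm, smul_smul, smul_add, mul_neg, neg_mul, smul_neg,
        Complex.I_mul_I]
      module
    have h4 : Complex.I • (((-Complex.I * fr u w + Complex.I * fr w u) / k) • u +
        (fr u u / k) • (Complex.I • w)) =
        ((fr u w - fr w u) / k) • u - (fr u u / k) • w := by
      rw [smul_add, smul_smul, smul_smul, smul_smul]
      have i1 : Complex.I * ((-Complex.I * fr u w + Complex.I * fr w u) / k) =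
          (fr u w - fr w u) / k := by
        linear_combination ((fr w u - fr u w) / k) * Complex.I_mul_I
      have i2 : Complex.I * (fr u u / k * Complex.I) = -(fr u u / k) := by
        linear_combination (fr u u / k) * Complex.I_mul_I
      rw [i1]
      first
        | (rw [i2, neg_smul, ← sub_eq_add_neg])
        | (rw [mul_assoc, i2, neg_smul, ← sub_eq_add_neg])
        | (rw [← mul_assoc] at i2; rw [i2, neg_smul, ← sub_eq_add_neg])
    have h5 := congrArg (fun z : Module.End ℂ W => Complex.I • z) g2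
    change Complex.I • _ = Complex.I • _ at h5
    rw [h3, h4] at h5
    linear_combination (norm := module) (1/2 : ℂ) • g1 + (1/2 : ℂ) • h5
  have f1 := key (x + z) (V.add_mem hx hz) y hy
  have f2 := key x hx y hy
  have f3 := key z hz y hy
  rw [fr_add_left] at f1
  have f4 : (x + z) * star y * (x + z) =
      x * star y * x + x * star y * z + z * star y * x + z * star y * z := by
    simp only [mul_add, add_mul]
    abel
  rw [f4] at f1
  linear_combination (norm := module) f1 - f2 - f3

/-- The fermionic model. -/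
structure Fock (e : Module.End ℂ W) (d : ℕ) (x : Fin d → Module.End ℂ W) (a b : ℂ) : Prop where
  idem : e * e = e
  sa : star e = e
  left : ∀ i, e * x i = x i
  right : ∀ i, x i * e = 0
  rel : ∀ i j l, x i * star (x j) * x l + x l * star (x j) * x i =
    (if i = j then (1 : ℂ) else 0) • x l + (if l = j then (1 : ℂ) else 0) • x i
  sumP : ∑ i, x i * star (x i) = a • e
  sumQ : ∑ i, star (x i) * x i = b • (1 - e)
  irr : ∀ U : Submodule ℂ W, (∀ i, ∀ w ∈ U, x i w ∈ U) → (∀ i, ∀ w ∈ U, (star (x i)) w ∈ U) →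
    U = ⊥ ∨ U = ⊤

/-- `x_i = √k b_i`, `k = fr u u` (a positive real), `b` an orthonormal basis of `V`. -/
theorem exists_fock {e : Module.End ℂ W} {V : Submodule ℂ (Module.End ℂ W)} (T : Tri e V) (hI : Irr V)
    {c₁ c₂ : ℂ} (hC : Cas e V c₁ c₂) {u : Module.End ℂ W} (hu : Prim V u)
    (h : ∀ x ∈ V, x * star x * x = (fr x x / fr u u) • x) :
    ∃ (x : Fin (finrank ℂ V) → Module.End ℂ W) (a b : ℂ), Fock e (finrank ℂ V) x a b := by
  classical
  obtain ⟨n, b, hb⟩ := exists_onb V
  have hn := hb.card
  subst hn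
  obtain ⟨s, hs0, hs, hsz⟩ := fr_self u
  have hs1 : 0 < s := lt_of_le_of_ne hs0 fun h' => hu.ne (hsz h'.symm)
  obtain ⟨q, hq0, hq⟩ : ∃ q : ℝ, 0 < q ∧ q * q = s :=
    ⟨Real.sqrt s, Real.sqrt_pos.2 hs1, Real.mul_self_sqrt hs0⟩
  have hqc : (q : ℂ) ≠ 0 := by exact_mod_cast hq0.ne'
  have hsc : (s : ℂ) ≠ 0 := by exact_mod_cast hs1.ne'
  have hqq : (q : ℂ) * (q : ℂ) = (s : ℂ) := by exact_mod_cast hq
  have hstar : star (q : ℂ) = (q : ℂ) := Complex.conj_ofReal q
  have hmem : ∀ i, (q : ℂ) • b i ∈ V := fun i => V.smul_mem _ (hb.mem i)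
  have hfr : ∀ i j, fr ((q : ℂ) • b i) ((q : ℂ) • b j) / (s : ℂ) = if i = j then 1 else 0 := by
    intro i j
    rw [fr_smul_left, fr_smul_right, Complex.conj_ofReal, hb.orth i j, ← mul_assoc, hqq]
    split_ifs
    · rw [mul_one, div_self hsc]
    · rw [mul_zero, zero_div]
  have hprod : ∀ i, ((q : ℂ) • b i) * star ((q : ℂ) • b i) = (s : ℂ) • (b i * star (b i)) := by
    intro i
    rw [star_smul, hstar, smul_mul_assoc, mul_smul_comm, smul_smul, hqq]
  have hprod2 : ∀ i, star ((q : ℂ) • b i) * ((q : ℂ) • b i) = (s : ℂ) • (star (b i) * b i) := by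
    intro i
    rw [star_smul, hstar, smul_mul_assoc, mul_smul_comm, smul_smul, hqq]
  obtain ⟨hc1, hc2⟩ := hC _ b hb
  refine ⟨fun i => (q : ℂ) • b i, (s : ℂ) * c₁, (s : ℂ) * c₂, ⟨T.idem, T.sa, fun i => T.left _ (hmem i),
    fun i => T.right _ (hmem i), ?_, ?_, ?_, ?_⟩⟩
  · intro i j l
    have h1 := pol h (hmem i) (hmem j) (hmem l)
    rw [hs, hfr i j, hfr l j] at h1
    exact h1
  · rw [Finset.sum_congr rfl fun i _ => hprod i, ← Finset.smul_sum, hc1, smul_smul]
  · rw [Finset.sum_congr rfl fun i _ => hprod2 i, ← Finset.smul_sum, hc2, smul_smul]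
  · intro U h1 h2
    have h3 : ∀ i, ∀ w ∈ U, b i w ∈ U := by
      intro i w hw
      have h4 := U.smul_mem (q : ℂ)⁻¹ (h1 i w hw)
      rwa [LinearMap.smul_apply, smul_smul, inv_mul_cancel₀ hqc, one_smul] at h4
    have h3' : ∀ i, ∀ w ∈ U, (star (b i)) w ∈ U := by
      intro i w hw
      have h4 := U.smul_mem (q : ℂ)⁻¹ (h2 i w hw)
      rwa [star_smul, hstar, LinearMap.smul_apply, smul_smul, inv_mul_cancel₀ hqc, one_smul] at h4
    refine hI U ?_ ?_
    · intro x hx w hw
      rw [hb.span x hx, LinearMap.sum_apply]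
      exact U.sum_mem fun i _ => U.smul_mem _ (h3 i w hw)
    · intro x hx w hw
      rw [hb.span x hx, star_sum, LinearMap.sum_apply]
      refine U.sum_mem fun i _ => ?_
      rw [star_smul]
      exact U.smul_mem _ (h3' i w hw)

end Pool.MP43e44c.SG
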