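import Pool.Agent.H.MP_43e44c_ag.SG.Sl
import Pool.Agent.H.MP_43e44c_ag.SG.Conj

/-!
# SG/Pr2: `PE.pr` without coprimality
-/

set_option autoImplicit false

open NumberField Module Matrix

namespace Pool.MP43e44c.SG

open PE

variable {m : ℕ} {K : Type*} [Field K] [NumberField K] [IsCMField K] (D : Dat K m)

/-- The regularity condition at `τ` for multiplicities `μ`. -/
def Reg {K : Type*} [Field K] (μ : (K →+* ℂ) → ℕ) (τ : K →+* ℂ) : Prop :=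
  0 < μ τ ∧ 0 < μ (cj τ) ∧ μ τ ≠ μ (cj τ) ∧
  (∀ n j : ℕ, 1 < j → j < n → ¬ (μ τ = n.choose j ∧ μ (cj τ) = n.choose (j - 1))) ∧
  ∀ t : K →+* ℂ, 0 < μ t → 0 < μ (cj t) →
    ¬ (μ τ + μ (cj τ)) ∣ Nat.gcd (μ τ) (μ (cj τ)) * Nat.gcd (μ t) (μ (cj t))

/-- The regular case. -/
theorem pr_reg (τ : K →+* ℂ) (hc : Reg D.mul τ)
    (Y : Module.End ℂ (D.W τ)) (hY : LinearMap.trace ℂ (D.W τ) Y = 0) : ∃ X ∈ D.G, D.cp τ X = Y := by
  obtain ⟨hc0, hc1, hcne, hcbin, hcdiv⟩ := hc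
  rcases Nat.eq_zero_or_pos m with hm | hm
  · subst hm
    refine ⟨0, D.G.zero_mem, LinearMap.ext fun v => Subtype.ext (Subsingleton.elim _ _)⟩
  obtain ⟨c, hi1, hi2⟩ := inn D hm τ
  choose q hq1 hq2 hq3 hq4 using fun σ : ℂ ≃+* ℂ => cp_J D σ τ
  have hact : act (RingEquiv.refl ℂ) (rc D.J) = rc D.J := by
    ext i j
    rfl
  have htw : tw (RingEquiv.refl ℂ).symm τ = τ := by
    ext x
    rfl
  have hr := hq2 (RingEquiv.refl ℂ)
  have hk := hq3 (RingEquiv.refl ℂ)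
  have hJ := hq4 (RingEquiv.refl ℂ)
  have hp := hq1 (RingEquiv.refl ℂ)
  rw [hact] at hJ
  rw [htw] at hr hk
  have hI : (RingEquiv.refl ℂ) Complex.I = Complex.I := rfl
  rw [hI] at hJ
  set p : Module.End ℂ (D.W τ) := q (RingEquiv.refl ℂ) with hpdef
  have hpe : p = (-Complex.I / 2) • D.cp τ (rc D.J) + (1 / 2 : ℂ) • (1 : Module.End ℂ (D.W τ)) := by
    rw [hJ, smul_add, smul_smul, smul_smul]
    have h1 : -Complex.I / 2 * (2 * Complex.I) = 1 := by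
      linear_combination (-1) * Complex.I_mul_I
    have h2 : -Complex.I / 2 * (-Complex.I) = -(1 / 2) := by
      linear_combination (1 / 2) * Complex.I_mul_I
    rw [h1, h2]
    module
  have hps : ∀ u v, c.inner (p u) v = c.inner u (p v) := Pr_sa c _ p hi2 hpe
  have hmem : Y ∈ (D.G).map (D.cp τ) := by
    refine sl_of c ((D.G).map (D.cp τ)) ?_ ?_ ?_ p hp hps (-Complex.I) (2 * Complex.I) ?_ ?_
      (Set.range q) ?_ ?_ ?_ ?_ ?_ ?_ ?_ ?_ Y hY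
    · rintro _ ⟨X, hX, rfl⟩ _ ⟨Z, hZ, rfl⟩
      refine ⟨X * Z - Z * X, D.G_lie X hX Z hZ, ?_⟩
      rw [map_sub, cp_mul D τ X Z (Pr_G_e D hZ τ), cp_mul D τ Z X (Pr_G_e D hX τ)]
    · rintro _ ⟨X, hX, rfl⟩
      obtain ⟨Z, hZ, h⟩ := hi1 X hX
      exact ⟨D.cp τ Z, ⟨Z, hZ, rfl⟩, h⟩
    · intro U hU
      exact irr D τ U fun X hX => hU _ ⟨X, hX, rfl⟩
    · exact mul_ne_zero two_ne_zero Complex.I_ne_zero
    · rw [← hJ]
      exact ⟨rc D.J, J_mem D, rfl⟩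
    · rintro _ ⟨σ, rfl⟩
      exact hq1 σ
    · rintro _ ⟨σ, rfl⟩
      refine ⟨-σ Complex.I, 2 * σ Complex.I, ?_, ?_⟩
      · refine mul_ne_zero two_ne_zero ?_
        rw [Ne, map_eq_zero_iff σ σ.injective]
        exact Complex.I_ne_zero
      · rw [← hq4 σ]
        exact ⟨_, G_act D σ (J_mem D), rfl⟩
    · intro g' hg1 hg2 hg3
      let g0 : Submodule ℂ (Mat m ℂ) :=
        { carrier := {X | X * D.e τ = D.e τ * X ∧ D.cp τ X ∈ g'}
          add_mem' := by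
            rintro X Z ⟨h1, h2⟩ ⟨h3, h4⟩
            refine ⟨by rw [add_mul, mul_add, h1, h3], ?_⟩
            rw [map_add]
            exact g'.add_mem h2 h4
          zero_mem' := ⟨by simp, by rw [map_zero]; exact g'.zero_mem⟩
          smul_mem' := by
            rintro a X ⟨h1, h2⟩
            refine ⟨by rw [smul_mul_assoc, mul_smul_comm, h1], ?_⟩
            rw [map_smul]
            exact g'.smul_mem a h2 }
      have hg0 : ∀ X : Mat m ℂ, X ∈ g0 ↔ X * D.e τ = D.e τ * X ∧ D.cp τ X ∈ g' := fun X => Iff.rfl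
      have hlie : LieClosed g0 := by
        intro X hX Z hZ
        obtain ⟨h1, h2⟩ := (hg0 X).1 hX
        obtain ⟨h3, h4⟩ := (hg0 Z).1 hZ
        refine (hg0 _).2 ⟨?_, ?_⟩
        · rw [sub_mul, mul_sub, mul_assoc, h3, ← mul_assoc, h1, mul_assoc, mul_assoc Z X, h1,
            ← mul_assoc Z, h3, mul_assoc]
        · rw [map_sub, cp_mul D τ X Z h3, cp_mul D τ Z X h1]
          exact hg1 _ h2 _ h4
      have hle : D.G ≤ g0 := by
        refine G_le_of_conj D hlie fun σ => (hg0 _).2 ⟨Pr_G_e D (G_act D σ (J_mem D)) τ, ?_⟩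
        rw [hq4 σ]
        exact g'.add_mem (g'.smul_mem _ hg2) (g'.smul_mem _ (hg3 _ ⟨σ, rfl⟩))
      rintro _ ⟨X, hX, rfl⟩
      exact ((hg0 X).1 (hle hX)).2
    · rw [hr]; exact hc0
    · rw [hk]; exact hc1
    · rw [hr, hk]; exact hcne
    · rw [hr, hk]; exact hcbin
    · rintro _ ⟨σ, rfl⟩
      rw [hr, hk, hq2 σ, hq3 σ, finrank_W]
      exact hcdiv (tw σ.symm τ)
  obtain ⟨X, hX, h⟩ := hmem
  exact ⟨X, hX, h⟩

/-- As `PE.pr_one`, with `sl_of` in place of `coprime_sl`; `J` = the idempotents `p_σ` of `cp_J D σ τ` (all `σ`), `hgen` by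
`G_le_of_conj` (the matrices `X` commuting with all `D.e τ` with `cp τ X ∈ g'` are Lie closed, `cp_mul`), `hdiv` from `Reg` for
`t = tw σ.symm τ`; `finrank (W τ) = mul τ + mul (cj τ)`. -/
theorem pr_one (τ : K →+* ℂ) (hc : Nat.Coprime (D.mul τ) (D.mul (cj τ)) ∨ Reg D.mul τ)
    (Y : Module.End ℂ (D.W τ)) (hY : LinearMap.trace ℂ (D.W τ) Y = 0) : ∃ X ∈ D.G, D.cp τ X = Y := by
  rcases hc with hc | hc
  · exact PE.pr_one D τ hc Y hY
  · exact pr_reg D τ hc Y hY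

/-- As `PE.pr`. -/
theorem pr (τ₁ : K →+* ℂ) (hc : Nat.Coprime (D.mul τ₁) (D.mul (cj τ₁)) ∨ Reg D.mul τ₁) (τ : K →+* ℂ)
    (Y : Module.End ℂ (D.W τ)) (hY : LinearMap.trace ℂ (D.W τ) Y = 0) : ∃ X ∈ D.G, D.cp τ X = Y := by
  obtain ⟨σ, rfl⟩ := exists_aut τ₁ τ
  obtain ⟨X, hX, -, rfl⟩ := cp_surj D (tw σ τ₁) Y
  have he : D.e τ₁ = act σ.symm (D.e (tw σ τ₁)) := by
    rw [act_e, tw_symm_tw]
  have he' : act σ (D.e τ₁) = D.e (tw σ τ₁) := act_e D σ τ₁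
  have hss : ∀ Z : Mat m ℂ, act σ (act σ.symm Z) = Z := by
    intro Z
    ext i j
    simp [act]
  have hX1 : act σ.symm X * D.e τ₁ = D.e τ₁ * act σ.symm X := by
    rw [he, ← BlkJ_act_mul, ← BlkJ_act_mul, hX]
  have htr : LinearMap.trace ℂ (D.W τ₁) (D.cp τ₁ (act σ.symm X)) = 0 := by
    rw [trace_cp, he, ← BlkJ_act_mul, BlkJ_trace_act, ← trace_cp, hY, map_zero]
  obtain ⟨Z, hZ, hZ2⟩ := pr_one D τ₁ hc _ htr
  have h1 := (cp_eq_iff D τ₁ (Pr_G_e D hZ τ₁) hX1).1 hZ2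
  have h2 := congrArg (act σ) h1
  rw [BlkJ_act_mul, BlkJ_act_mul, he', hss] at h2
  refine ⟨act σ Z, G_act D σ hZ, ?_⟩
  exact (cp_eq_iff D (tw σ τ₁) (Pr_G_e D (G_act D σ hZ) _) (hX _)).2 h2

end Pool.MP43e44c.SG
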