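import Pool.Agent.H.MP_43e44c_ag.SG.CaseB
import Pool.Agent.H.MP_43e44c_ag.SG.Fock3
import Pool.Agent.H.MP_43e44c_ag.PE.CopE

/-!
# SG/PropJ: triple systems of unequal rank
-/

set_option autoImplicit false

namespace Pool.MP43e44c.SG

open Module PE

variable {W : Type*} [NormedAddCommGroup W] [InnerProductSpace ℂ W] [FiniteDimensional ℂ W]

/-- **Proposition J.** -/
theorem propJ {e : Module.End ℂ W} {V : Submodule ℂ (Module.End ℂ W)} (T : Tri e V) (hI : Irr V)
    {c₁ c₂ : ℂ} (hC : Cas e V c₁ c₂) (hne : c₁ ≠ c₂) (hV : ∃ a ∈ V, a ≠ 0) (he0 : e ≠ 0)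
    (he1 : e ≠ 1) :
    (∀ x : Module.End ℂ W, e * x = x → x * e = 0 → x ∈ V) ∨
    ∃ n j : ℕ, 1 < j ∧ j < n ∧ finrank ℂ (LinearMap.range e) = n.choose j ∧
      finrank ℂ (LinearMap.ker e) = n.choose (j - 1) := by
  by_cases hall : ∀ v, Prim V v → ∀ y ∈ V, P0 v y → y = 0
  · obtain ⟨u, hu⟩ := exists_prim T hV
    obtain ⟨x, a, b, F⟩ := exists_fock T hI hC hu (rankA T hC hall hu)
    obtain ⟨n, h1, h2, h3, h4⟩ := fock_dims F he0 he1
    by_cases hn : 1 < n ∧ n < finrank ℂ V
    · exact Or.inr ⟨finrank ℂ V, n, hn.1, hn.2, h3, h4⟩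
    · left
      have hle : V ≤ copAll e := fun x hx => ⟨T.left x hx, T.right x hx⟩
      have hfin := cop_all_finrank e T.idem
      have hd : finrank ℂ (LinearMap.range e) * finrank ℂ (LinearMap.ker e) = finrank ℂ V := by
        rw [h3, h4]
        rcases Nat.lt_or_ge 1 n with h5 | h5
        · have h6 : n = finrank ℂ V := by
            by_contra h7
            exact hn ⟨h5, lt_of_le_of_ne h2 h7⟩
          rw [← h6, Nat.choose_self, one_mul, Nat.choose_symm_of_eq_add (b := 1) (by omega),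
            Nat.choose_one_right]
        · have h6 : n = 1 := le_antisymm h5 h1
          rw [h6, Nat.choose_one_right, Nat.sub_self, Nat.choose_zero_right, mul_one]
      rw [hd] at hfin
      have heq : V = copAll e := Submodule.eq_of_le_of_finrank_le hle hfin
      intro x h1 h2
      rw [heq]
      exact ⟨h1, h2⟩
  · push Not at hall
    obtain ⟨v, hv, y, hy, hy0, hy1⟩ := hall
    left
    intro x h1 h2
    exact caseB T hI hC hne hv ⟨y, hy, hy1, hy0⟩ x h1 h2

end Pool.MP43e44c.SG
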