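import Pool.Agent.H.MP_43e44c_ag.SG.RankA0
import Pool.Agent.H.MP_43e44c_ag.SG.Count

/-!
# SG/RankA: if nothing is orthogonal to a primitive tripotent, every element is a multiple of one (helper9)
-/

set_option autoImplicit false

namespace Pool.MP43e44c.SG

open Module PE

variable {W : Type*} [NormedAddCommGroup W] [InnerProductSpace ℂ W] [FiniteDimensional ℂ W]
variable {e : Module.End ℂ W} {V : Submodule ℂ (Module.End ℂ W)}

/-- One real direction. -/
theorem real_dir {E : Type*} [AddCommGroup E] [Module ℂ E] {x y P Q : E} {c0 c1 : ℂ}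
    (hli : ∀ a b : ℂ, a • x + b • y = 0 → a = 0 ∧ b = 0) (c : ℝ → ℂ)
    (hf : ∀ s : ℝ, c0 • x + (s : ℂ) • P + ((s : ℂ) * (s : ℂ)) • Q +
      ((s : ℂ) * (s : ℂ) * (s : ℂ)) • (c1 • y) = (c s) • (x + (s : ℂ) • y)) :
    ∃ β : ℂ, P = c0 • y + β • x := by
  have f1 := hf 1
  have f2 := hf (-1)
  have f3 := hf 2
  have f4 := hf (-2)
  push_cast at f1 f2 f3 f4
  have hP1 : (2 : ℂ) • P = (c 1 - c (-1)) • x + (c 1 + c (-1) - 2 * c1) • y := by
    linear_combination (norm := module) f1 - f2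
  have hP2 : (4 : ℂ) • P = (c 2 - c (-2)) • x + (2 * c 2 + 2 * c (-2) - 16 * c1) • y := by
    linear_combination (norm := module) f3 - f4
  have hQ1 : (2 : ℂ) • Q = (c 1 + c (-1) - 2 * c0) • x + (c 1 - c (-1)) • y := by
    linear_combination (norm := module) f1 + f2
  have hQ2 : (8 : ℂ) • Q = (c 2 + c (-2) - 2 * c0) • x + (2 * c 2 - 2 * c (-2)) • y := by
    linear_combination (norm := module) f3 + f4
  have g1 := (hli (2 * (c 1 - c (-1)) - (c 2 - c (-2)))
    (2 * (c 1 + c (-1) - 2 * c1) - (2 * c 2 + 2 * c (-2) - 16 * c1)) (by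
      linear_combination (norm := module) hP2 - (2 : ℂ) • hP1)).2
  have g2 := (hli (4 * (c 1 + c (-1) - 2 * c0) - (c 2 + c (-2) - 2 * c0))
    (4 * (c 1 - c (-1)) - (2 * c 2 - 2 * c (-2))) (by
      linear_combination (norm := module) hQ2 - (4 : ℂ) • hQ1)).1
  have g3 : c 1 + c (-1) - 2 * c1 = 2 * c0 := by
    linear_combination (1/3 : ℂ) * g2 - (1/6 : ℂ) * g1
  rw [g3] at hP1
  refine ⟨(c 1 - c (-1)) / 2, ?_⟩
  linear_combination (norm := module) (1/2 : ℂ) • hP1

theorem star_real (s : ℝ) (y : Module.End ℂ W) : star ((s : ℂ) • y) = (s : ℂ) • star y := by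
  rw [star_smul]
  congr 1
  simp

/-- `x y* x` is a multiple of `x`. -/
theorem xyx (hs : ∀ x ∈ V, ∃ c : ℂ, x * star x * x = c • x) {x y : Module.End ℂ W} (hx : x ∈ V)
    (hy : y ∈ V) : ∃ γ : ℂ, x * star y * x = γ • x := by
  by_cases hx0 : x = 0
  · exact ⟨0, by rw [hx0]; simp⟩
  by_cases hd : ∃ a : ℂ, y = a • x
  · obtain ⟨a, rfl⟩ := hd
    obtain ⟨c, hc⟩ := hs x hx
    refine ⟨star a * c, ?_⟩
    rw [star_smul, mul_smul_comm, smul_mul_assoc, hc, smul_smul]
  have hli : ∀ a b : ℂ, a • x + b • y = 0 → a = 0 ∧ b = 0 := by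
    intro a b hab
    by_cases hb : b = 0
    · rw [hb, zero_smul, add_zero] at hab
      exact ⟨(smul_eq_zero.1 hab).resolve_right hx0, hb⟩
    · exfalso
      apply hd
      refine ⟨-(b⁻¹ * a), ?_⟩
      have h1 : y = b⁻¹ • (b • y) := by rw [smul_smul, inv_mul_cancel₀ hb, one_smul]
      rw [h1, eq_neg_of_add_eq_zero_right hab]
      module
  obtain ⟨c0, hc0⟩ := hs x hx
  have key : ∀ z ∈ V, (∀ a b : ℂ, a • x + b • z = 0 → a = 0 ∧ b = 0) →
      ∃ β : ℂ, z * star x * x + x * star x * z + x * star z * x = c0 • z + β • x := by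
    intro z hz hlz
    obtain ⟨c1, hc1⟩ := hs z hz
    have h1 : ∀ s : ℝ, ∃ c : ℂ, (x + (s : ℂ) • z) * star (x + (s : ℂ) • z) * (x + (s : ℂ) • z) =
        c • (x + (s : ℂ) • z) := fun s => hs _ (V.add_mem hx (V.smul_mem _ hz))
    choose c hc using h1
    refine real_dir (Q := x * star z * z + z * star z * x + z * star x * z) (c1 := c1) hlz c ?_
    intro s
    rw [← hc s, star_add, star_real, ← hc0, ← hc1]
    simp only [mul_add, add_mul, smul_mul_assoc, mul_smul_comm, smul_smul, smul_add]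
    module
  obtain ⟨β, hβ⟩ := key y hy hli
  obtain ⟨β', hβ'⟩ := key (Complex.I • y) (V.smul_mem _ hy) (by
    intro a b hab
    rw [smul_smul] at hab
    obtain ⟨h1, h2⟩ := hli _ _ hab
    exact ⟨h1, (mul_eq_zero.1 h2).resolve_right Complex.I_ne_zero⟩)
  have hI : star (Complex.I • y) = -(Complex.I • star y) := by
    rw [star_smul]
    have : star Complex.I = -Complex.I := Complex.conj_I
    rw [this, neg_smul]
  rw [hI] at hβ'
  refine ⟨(β + Complex.I * β') / 2, ?_⟩
  have h3 : Complex.I • (Complex.I • y * star x * x + x * star x * Complex.I • y +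
      x * -(Complex.I • star y) * x) =
      -(y * star x * x) - x * star x * y + x * star y * x := by
    simp only [smul_mul_assoc, mul_smul_comm, smul_smul, smul_add, mul_neg, neg_mul, smul_neg,
      Complex.I_mul_I]
    module
  have h4 : Complex.I • (c0 • (Complex.I • y) + β' • x) = -(c0 • y) + (Complex.I * β') • x := by
    have h5 : Complex.I * (c0 * Complex.I) = -c0 := by
      linear_combination c0 * Complex.I_mul_I
    simp only [smul_add, smul_smul]
    rw [h5, neg_smul]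
  have h5 : Complex.I • (Complex.I • y * star x * x + x * star x * Complex.I • y +
      x * -(Complex.I • star y) * x) = Complex.I • (c0 • (Complex.I • y) + β' • x) := by rw [hβ']
  rw [h3, h4] at h5
  linear_combination (norm := module) (1/2 : ℂ) • hβ + (1/2 : ℂ) • h5


/-- All tripotents are primitive. -/
theorem trip_prim0 (hs : ∀ x ∈ V, ∃ c : ℂ, x * star x * x = c • x) {t : Module.End ℂ W}
    (ht : t ∈ V) (ht0 : t ≠ 0) (httt : t * star t * t = t) : Prim V t := by
  refine ⟨ht, ht0, httt, fun y hy hyp => ?_⟩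
  obtain ⟨γ, hγ⟩ := xyx hs ht hy
  refine ⟨star γ, ?_⟩
  have h1 : star t * y * star t = star γ • star t := by
    have := congrArg star hγ
    simp only [star_mul, star_smul, star_star] at this
    rw [← mul_assoc] at this
    exact this
  calc y = t * (star t * y * star t) * t := by
        conv_lhs => rw [← hyp]
        simp only [mul_assoc]
    _ = star γ • t := by rw [h1, mul_smul_comm, smul_mul_assoc, httt]


/-- All primitive tripotents have the same rank. -/
theorem prim_rank (T : Tri e V) {c₁ c₂ : ℂ} (hC : Cas e V c₁ c₂)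
    (hall : ∀ v, Prim V v → ∀ y ∈ V, P0 v y → y = 0) {u v : Module.End ℂ W} (hu : Prim V u)
    (hv : Prim V v) : fr v v = fr u u := by
  have key : ∀ w, Prim V w → (c₁ + c₂) * fr w w = 1 + (finrank ℂ V : ℂ) := by
    intro w hw
    have h0 : PV0 V w = ⊥ := by
      rw [Submodule.eq_bot_iff]
      rintro y ⟨hy, hy0⟩
      exact hall w hw y hy hy0
    have h1 := count3 T hw
    rw [h0, finrank_bot, add_zero] at h1
    rw [count2 T hC hw, h1]
    push_cast
    ring
  have h1 := key u hu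
  have h2 := key v hv
  have h3 : c₁ + c₂ ≠ 0 := by
    intro hc
    rw [hc, zero_mul] at h1
    have h4 : ((1 + finrank ℂ V : ℕ) : ℂ) = 0 := by push_cast; exact h1.symm
    have h5 : 1 + finrank ℂ V = 0 := by exact_mod_cast h4
    omega
  exact mul_left_cancel₀ h3 (h2.trans h1.symm)

/-- Every element is a multiple of a tripotent. -/
theorem multiple (T : Tri e V) (hall : ∀ v, Prim V v → ∀ y ∈ V, P0 v y → y = 0)
    {x : Module.End ℂ W} (hx : x ∈ V) (hx0 : x ≠ 0) :
    ∃ w ∈ V, w ≠ 0 ∧ w * star w * w = w ∧ ∃ c : ℂ, x = c • w := by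
  obtain ⟨c, hc⟩ := scal T hall _ x hx le_rfl
  obtain ⟨q, hq0, hq⟩ := triple_pos hx0 hc
  have hqc : (q : ℂ) ≠ 0 := by exact_mod_cast hq0.ne'
  rw [hq] at hc
  exact ⟨(q : ℂ)⁻¹ • x, V.smul_mem _ hx, smul_ne_zero (inv_ne_zero hqc) hx0, triple_scale hq0 hc,
    (q : ℂ), by rw [smul_smul, mul_inv_cancel₀ hqc, one_smul]⟩

/-- Every nonzero tripotent is primitive. -/
theorem trip_prim (T : Tri e V) (hall : ∀ v, Prim V v → ∀ y ∈ V, P0 v y → y = 0)
    {w : Module.End ℂ W} (hw : w ∈ V) (hw0 : w ≠ 0) (hwt : w * star w * w = w) : Prim V w :=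
  trip_prim0 (fun x hx => scal T hall _ x hx le_rfl) hw hw0 hwt

theorem rankA (T : Tri e V) {c₁ c₂ : ℂ} (hC : Cas e V c₁ c₂)
    (hall : ∀ v, Prim V v → ∀ y ∈ V, P0 v y → y = 0) {u : Module.End ℂ W} (hu : Prim V u)
    (x : Module.End ℂ W) (hx : x ∈ V) : x * star x * x = (fr x x / fr u u) • x := by
  by_cases hx0 : x = 0
  · rw [hx0]; simp
  obtain ⟨c, hc⟩ := scal T hall _ x hx le_rfl
  obtain ⟨q, hq0, hq⟩ := triple_pos hx0 hc
  have hqc : (q : ℂ) ≠ 0 := by exact_mod_cast hq0.ne'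
  rw [hq] at hc
  have hsc := triple_scale hq0 hc
  set t : Module.End ℂ W := (q : ℂ)⁻¹ • x with ht
  have htV : t ∈ V := V.smul_mem _ hx
  have hp := trip_prim T hall htV (smul_ne_zero (inv_ne_zero hqc) hx0) hsc
  have h1 := prim_rank T hC hall hu hp
  have hxt : x = (q : ℂ) • t := by rw [ht, smul_smul, mul_inv_cancel₀ hqc, one_smul]
  have h4 : fr x x = (q : ℂ) * (q : ℂ) * fr u u := by
    rw [hxt, fr_smul_left, fr_smul_right, h1, Complex.conj_ofReal, mul_assoc]
  have hu0 : fr u u ≠ 0 := fr_self_ne hu.ne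
  rw [hc, h4, mul_div_assoc, div_self hu0, mul_one]

end Pool.MP43e44c.SG
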