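import Pool.Agent.H.MP_43e44c_ag.SG.Trip

/-!
# SG/RankA0: elements are multiples of tripotents if nothing is orthogonal to a primitive tripotent (helper9)
-/

set_option autoImplicit false

namespace Pool.MP43e44c.SG

open Module PE

variable {W : Type*} [NormedAddCommGroup W] [InnerProductSpace ℂ W] [FiniteDimensional ℂ W]
variable {e : Module.End ℂ W} {V : Submodule ℂ (Module.End ℂ W)}

/-- The scalar of `a a* a = c a` is a positive real. -/
theorem triple_pos {a : Module.End ℂ W} (ha0 : a ≠ 0) {c : ℂ} (hc : a * star a * a = c • a) :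
    ∃ q : ℝ, 0 < q ∧ c = (q : ℂ) * (q : ℂ) := by
  obtain ⟨s, hs0, hs, hsz⟩ := cop_pos (a * star a)
  obtain ⟨t, ht0, ht, htz⟩ := cop_pos a
  have hAA : (a * star a) * star (a * star a) = c • (a * star a) := by
    rw [star_mul, star_star, ← mul_assoc, hc, smul_mul_assoc]
  have hlam : (s : ℂ) = c * (t : ℂ) := by
    rw [← hs, hAA, map_smul, ht, smul_eq_mul]
  have ht1 : 0 < t := lt_of_le_of_ne ht0 fun h => ha0 (htz h.symm)
  have hs1 : 0 < s := by
    refine lt_of_le_of_ne hs0 fun h => ?_
    have h1 := hsz h.symm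
    have h2 : LinearMap.trace ℂ W (a * star a) = 0 := by rw [h1, map_zero]
    exact ha0 (cop_pos_zero a h2)
  have hlam2 : c = ((s / t : ℝ) : ℂ) := by
    have : (t : ℂ) ≠ 0 := by exact_mod_cast ht1.ne'
    rw [Complex.ofReal_div, hlam]
    field_simp
  have hst' : 0 < s / t := div_pos hs1 ht1
  refine ⟨Real.sqrt (s / t), Real.sqrt_pos.2 hst', ?_⟩
  rw [hlam2, ← Complex.ofReal_mul, Real.mul_self_sqrt hst'.le]

/-- Rescaling to a tripotent. -/
theorem triple_scale {a : Module.End ℂ W} {q : ℝ} (hq0 : 0 < q)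
    (hc : a * star a * a = ((q : ℂ) * (q : ℂ)) • a) :
    ((q : ℂ)⁻¹ • a) * star ((q : ℂ)⁻¹ • a) * ((q : ℂ)⁻¹ • a) = (q : ℂ)⁻¹ • a := by
  have hqc : (q : ℂ) ≠ 0 := by exact_mod_cast hq0.ne'
  rw [star_smul]
  have h1 : star ((q : ℂ)⁻¹) = (q : ℂ)⁻¹ := by simp
  rw [h1]
  simp only [smul_mul_assoc, mul_smul_comm, smul_smul]
  rw [hc, smul_smul]
  congr 1
  field_simp

/-- An eigenvector of `a a*` in the range of `a`, with real eigenvalue. -/
theorem exists_eig {a : Module.End ℂ W} (ha0 : a ≠ 0) :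
    ∃ lam : ℝ, ∃ v : W, v ≠ 0 ∧ v ∈ LinearMap.range a ∧ (a * star a) v = (lam : ℂ) • v := by
  set A : Module.End ℂ W := a * star a with hA
  have hstab : ∀ w ∈ LinearMap.range a, A w ∈ LinearMap.range a := by
    rintro w -
    exact ⟨(star a) w, rfl⟩
  have hnt : Nontrivial (LinearMap.range a) := by
    rw [Submodule.nontrivial_iff_ne_bot]
    intro h
    exact ha0 (LinearMap.range_eq_bot.1 h)
  obtain ⟨ν, hν⟩ := Module.End.exists_eigenvalue (A.restrict hstab)
  obtain ⟨v, hv⟩ := hν.exists_hasEigenvector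
  have hv0 : v.1 ≠ 0 := fun h => hv.2 (Subtype.ext h)
  have hAv : A v.1 = ν • v.1 := by
    have := congrArg Subtype.val hv.apply_eq_smul
    simpa using this
  have h1 : (inner ℂ v.1 (A v.1) : ℂ) = inner ℂ (star a v.1) (star a v.1) := by
    rw [hA, Module.End.mul_apply, LinearMap.star_eq_adjoint, LinearMap.adjoint_inner_left]
  rw [hAv, inner_smul_right, inner_self_eq_norm_sq_to_K, inner_self_eq_norm_sq_to_K] at h1
  have hn : (‖v.1‖ : ℝ) ≠ 0 := norm_ne_zero_iff.2 hv0
  refine ⟨‖star a v.1‖ ^ 2 / ‖v.1‖ ^ 2, v.1, hv0, v.2, ?_⟩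
  rw [hAv]
  congr 1
  have hnc : ((‖v.1‖ : ℝ) : ℂ) ≠ 0 := by exact_mod_cast hn
  push_cast
  rw [eq_div_iff (pow_ne_zero 2 hnc)]
  exact_mod_cast h1

/-- No two orthogonal elements. -/
theorem no_orth (h : Tri e V)
    (hP : ∀ v, Prim V v → ∀ y ∈ V, P0 v y → y = 0)
    {y z : Module.End ℂ W} (hy : y ∈ V) (hz : z ∈ V) (h1 : y * star z = 0)
    (h2 : star z * y = 0) : y = 0 ∨ z = 0 := by
  by_contra hc
  push Not at hc
  obtain ⟨hy0, hz0⟩ := hc
  let V' : Submodule ℂ (Module.End ℂ W) :=
    { carrier := {w | w ∈ V ∧ w * star z = 0 ∧ star z * w = 0}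
      add_mem' := by
        rintro a b ⟨h1, h2, h3⟩ ⟨h4, h5, h6⟩
        exact ⟨V.add_mem h1 h4, by rw [add_mul, h2, h5, add_zero], by rw [mul_add, h3, h6, add_zero]⟩
      zero_mem' := ⟨V.zero_mem, by simp, by simp⟩
      smul_mem' := by
        rintro c a ⟨h1, h2, h3⟩
        exact ⟨V.smul_mem c h1, by rw [smul_mul_assoc, h2, smul_zero],
          by rw [mul_smul_comm, h3, smul_zero]⟩ }
  have hmem : ∀ {w}, w ∈ V' ↔ (w ∈ V ∧ w * star z = 0 ∧ star z * w = 0) := fun {w} => Iff.rfl
  obtain ⟨v, hv, hv0, hvvv, hmin⟩ := exists_trip V' (by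
    rintro a ha
    obtain ⟨ha1, ha2, ha3⟩ := hmem.1 ha
    refine hmem.2 ⟨tri_half h ha1 ha1, ?_, ?_⟩
    · rw [mul_assoc, ha2, mul_zero]
    · rw [mul_assoc, ← mul_assoc, ha3, zero_mul]) ⟨y, hmem.2 ⟨hy, h1, h2⟩, hy0⟩
  obtain ⟨hv1, hv2, hv3⟩ := hmem.1 hv
  have hprim : Prim V v := by
    refine ⟨hv1, hv0, hvvv, fun w hw hwp => ?_⟩
    refine dim_one hv hv0 hvvv hmin w (hmem.2 ⟨hw, ?_, ?_⟩) hwp
    · rw [← hwp, mul_assoc, mul_assoc (star v), hv2, mul_zero, mul_zero]
    · rw [← hwp]
      simp only [← mul_assoc]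
      rw [hv3]
      simp
  have h3 := hP v hprim z hz ⟨?_, ?_⟩
  · exact hz0 h3
  · have := congrArg star hv3
    rwa [star_mul, star_star, star_zero] at this
  · have := congrArg star hv2
    rwa [star_mul, star_star, star_zero] at this


/-- `A y` for odd polynomials `y` in `x`. -/
theorem odd_mem (h : Tri e V) {x y : Module.End ℂ W} (hx : x ∈ V) (hy : y ∈ V)
    (hc : y * star x * x = x * star x * y) : x * star x * y ∈ V := by
  have h1 := V.smul_mem (1/2 : ℂ) (h.tri x hx x hx y hy)
  rw [hc] at h1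
  have h2 : (1/2 : ℂ) • (x * star x * y + x * star x * y) = x * star x * y := by module
  rwa [h2] at h1

/-- Every element is a multiple of a tripotent. -/
theorem scal (h : Tri e V)
    (hP : ∀ v, Prim V v → ∀ y ∈ V, P0 v y → y = 0) (n : ℕ) :
    ∀ x ∈ V, finrank ℂ (LinearMap.range x) ≤ n → ∃ c : ℂ, x * star x * x = c • x := by
  induction n with
  | zero =>
    intro x hx hn
    have h1 : LinearMap.range x = ⊥ := Submodule.finrank_eq_zero.1 (Nat.le_zero.1 hn)
    have h2 : x = 0 := LinearMap.range_eq_bot.1 h1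
    exact ⟨0, by rw [h2]; simp⟩
  | succ n ih =>
    intro x hx hn
    by_cases hx0 : x = 0
    · exact ⟨0, by rw [hx0]; simp⟩
    obtain ⟨lam, v, hv0, hvr, hAv⟩ := exists_eig hx0
    set A : Module.End ℂ W := x * star x with hA
    set L : ℂ := (lam : ℂ) with hL
    set b : Module.End ℂ W := A * x - L • x with hb
    by_cases hb0 : b = 0
    · exact ⟨L, sub_eq_zero.1 hb0⟩
    have h1 : LinearMap.range b =
        (LinearMap.range x).map (A - L • (1 : Module.End ℂ W)) := by
      rw [← LinearMap.range_comp]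
      rfl
    have h2 := cop_finrank_map_lt (LinearMap.range x)
      (A - L • (1 : Module.End ℂ W)) v hvr hv0 (by rw [LinearMap.sub_apply, hAv]; simp)
    rw [← h1] at h2
    have hAs : star A = A := by rw [hA, star_mul, star_star]
    have y1 : A * x ∈ V := tri_half h hx hx
    have y2 : A * (A * x) ∈ V := by
      refine odd_mem h hx y1 ?_
      rw [hA]; simp only [mul_assoc]
    have y3 : A * (A * (A * x)) ∈ V := by
      refine odd_mem h hx y2 ?_
      rw [hA]; simp only [mul_assoc]
    have hbV : b ∈ V := V.sub_mem y1 (V.smul_mem _ hx)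
    obtain ⟨c, hc⟩ := ih b hbV (by omega)
    have hbs : star b = star x * A - L • star x := by
      rw [hb, star_sub, star_mul, star_smul, hAs, hL]
      simp
    have hc0 : c ≠ 0 := by
      obtain ⟨q, hq0, hq⟩ := triple_pos hb0 hc
      rw [hq]
      have hqc : (q : ℂ) ≠ 0 := by exact_mod_cast hq0.ne'
      exact mul_ne_zero hqc hqc
    -- b b* = A (A - L)^2 and b b* b = A (A-L)^3 x
    set D : Module.End ℂ W := A - L • (1 : Module.End ℂ W) with hD
    have hDA : D * A = A * D := by rw [hD, sub_mul, mul_sub]; simp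
    have hbD : b = D * x := by rw [hb, hD, sub_mul]; simp
    have hbsD : star b = star x * D := by rw [hbs, hD, mul_sub]; simp
    have hbb : b * star b = A * D * D := by
      have h3 : D * x * (star x * D) = D * A * D := by rw [hA]; simp only [mul_assoc]
      rw [hbsD, ← hDA, ← h3, ← hbD]
    have hcc : A * D * D * D * x = c • (D * x) := by
      rw [← hbD, ← hc, hbb, hbD]
      simp only [mul_assoc]
    -- the complement
    set x' : Module.End ℂ W := x - c⁻¹ • (A * D * D * x) with hx'
    have hx'V : x' ∈ V := by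
      have h3 : A * D * D * x = A * (A * (A * x)) - (2 * L) • (A * (A * x)) + (L * L) • (A * x) := by
        rw [hD]
        simp only [mul_sub, sub_mul, mul_smul_comm, smul_mul_assoc, mul_one, one_mul, mul_assoc,
          smul_sub, smul_smul]
        module
      rw [hx', h3]
      exact V.sub_mem hx (V.smul_mem _ (V.add_mem (V.sub_mem y3 (V.smul_mem _ y2))
        (V.smul_mem _ y1)))
    have hcomm : ∀ z : Module.End ℂ W, D * (A * z) = A * (D * z) := fun z => by
      rw [← mul_assoc, hDA, mul_assoc]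
    have o2 : star b * x' = 0 := by
      rw [hbsD, hx', mul_sub, mul_smul_comm]
      have h4 : star x * D * (A * D * D * x) = star x * (A * D * D * D * x) := by
        simp only [mul_assoc, hcomm]
      rw [h4, hcc, mul_smul_comm, smul_smul, inv_mul_cancel₀ hc0, one_smul, mul_assoc, sub_self]
    have o1 : x' * star b = 0 := by
      rw [hbsD, hx', sub_mul, smul_mul_assoc]
      have h4 : A * D * D * x * (star x * D) = (A * D * D * D * x) * star x := by
        have h5 : A * D * D * x * (star x * D) = A * D * D * (A * D) := by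
          rw [hA]; simp only [mul_assoc]
        have h6 : A * D * D * D * x * star x = A * D * D * (D * A) := by
          rw [hA]; simp only [mul_assoc]
        rw [h5, h6, hDA]
      have h7 : x * (star x * D) = D * x * star x := by
        rw [← mul_assoc, ← hA, ← hDA, hA]
        simp only [mul_assoc]
      rw [h4, hcc, smul_mul_assoc, smul_smul, inv_mul_cancel₀ hc0, one_smul, h7, sub_self]
    rcases no_orth h hP hx'V hbV o1 o2 with h8 | h8
    · exfalso
      obtain ⟨w, rfl⟩ := hvr
      have h9 := congrArg (fun f : Module.End ℂ W => f w) h8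
      have h10 : D (x w) = 0 := by
        rw [hD, LinearMap.sub_apply, hAv]
        simp
      have h11 : (A * D * D * x) w = 0 := by
        simp only [Module.End.mul_apply]
        rw [h10]
        simp
      rw [hx'] at h9
      simp only [LinearMap.sub_apply, LinearMap.smul_apply, h11, smul_zero, sub_zero,
        LinearMap.zero_apply] at h9
      exact hv0 h9
    · exact absurd h8 hb0


end Pool.MP43e44c.SG
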