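import Pool.Agent.H.MP_43e44c_ag.SG.Defs

/-!
# SG/Simple: a star closed algebra normalised by an irreducible space is a full matrix algebra (helper55)

`B` star closed: semisimple (the Jacobson radical is nilpotent).  A nonzero two-sided ideal `I` is generated by an
idempotent `f` with `x f = x` on `I`, also `f x = x` on `I`; `[g, I] ⊆ I`, so the ranges of `I` span `W` and `f = 1`.
-/

set_option autoImplicit false

namespace Pool.MP43e44c.SG

open Module PE

variable {W : Type*} [NormedAddCommGroup W] [InnerProductSpace ℂ W] [FiniteDimensional ℂ W]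

theorem sa_sq_zero (y : Module.End ℂ W) (hy : star y = y) (h : y * y = 0) : y = 0 := by
  refine cop_pos_zero y ?_
  rw [hy, h, map_zero]

theorem sa_pow_zero (y : Module.End ℂ W) (hy : star y = y) (n : ℕ) (h : y ^ (n + 1) = 0) : y = 0 := by
  induction n with
  | zero => simpa using h
  | succ n ih =>
    refine ih (sa_sq_zero _ ?_ ?_)
    · rw [star_pow, hy]
    · rw [← pow_add]
      have : n + 1 + (n + 1) = (n + 1 + 1) + n := by omega
      rw [this, pow_add, h, zero_mul]

theorem semisimple_of_star (B : Subalgebra ℂ (Module.End ℂ W)) (hB : ∀ x ∈ B, star x ∈ B) :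
    IsSemisimpleRing B := by
  have : IsArtinianRing B := IsArtinianRing.of_finite ℂ B
  rw [IsArtinianRing.isSemisimpleRing_iff_jacobson]
  by_contra h
  obtain ⟨x, hx, hx0⟩ := (Submodule.ne_bot_iff _).1 h
  let sx : B := ⟨star x.1, hB _ x.2⟩
  have hy : sx * x ∈ Ring.jacobson B := Ideal.mul_mem_left _ _ hx
  obtain ⟨n, hn⟩ := (IsSemiprimaryRing.isNilpotent (R := B))
  have hyn : (sx * x) ^ n ∈ (Ring.jacobson B) ^ n := Ideal.pow_mem_pow hy n
  rw [hn] at hyn
  have h0 : (sx * x) ^ n = 0 := by simpa using hyn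
  have h1 : (star x.1 * x.1) ^ (n + 1) = 0 := by
    have := congrArg Subtype.val h0
    rw [pow_succ]
    have h2 : (star x.1 * x.1) ^ n = 0 := by simpa [sx] using this
    rw [h2, zero_mul]
  have h3 := sa_pow_zero (star x.1 * x.1) (by rw [star_mul, star_star]) n h1
  have h4 : x.1 = 0 := by
    have h5 := cop_pos_zero (star x.1) (by rw [star_star, h3, map_zero])
    simpa using congrArg star h5
  exact hx0 (Subtype.ext h4)

/-- If `B` is stable under adjoints and `ad g`, and `g` is irreducible, then `B` is simple. -/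
theorem simple_of_ad [Nontrivial W] (g : Submodule ℂ (Module.End ℂ W))
    (hirr : ∀ U : Submodule ℂ W, (∀ x ∈ g, ∀ w ∈ U, x w ∈ U) → U = ⊥ ∨ U = ⊤)
    (B : Subalgebra ℂ (Module.End ℂ W)) (hB : ∀ x ∈ B, star x ∈ B)
    (had : ∀ y ∈ g, ∀ x ∈ B, y * x - x * y ∈ B) : IsSimpleRing B := by
  have := semisimple_of_star B hB
  refine ⟨{ exists_pair_ne := ⟨⊥, ⊤, ?_⟩, eq_bot_or_eq_top := ?_ }⟩
  · exact bot_ne_top
  intro I
  by_cases hI : I = ⊥
  · exact Or.inl hI
  right
  obtain ⟨x0, hx0I, hx0⟩ : ∃ x0 ∈ I, x0 ≠ 0 := by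
    by_contra hcon
    push Not at hcon
    apply hI
    rw [eq_bot_iff]
    intro x hx
    rw [hcon x hx]
    exact TwoSidedIdeal.zero_mem _
  obtain ⟨f, hf, hIf⟩ := IsSemisimpleRing.ideal_eq_span_idempotent (TwoSidedIdeal.asIdeal I)
  have hfI : f ∈ I := by
    rw [← TwoSidedIdeal.mem_asIdeal, hIf]
    exact Ideal.mem_span_singleton_self f
  have hxf : ∀ x ∈ I, x * f = x := by
    intro x hx
    rw [← TwoSidedIdeal.mem_asIdeal, hIf] at hx
    obtain ⟨a, rfl⟩ := Ideal.mem_span_singleton'.1 hx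
    rw [mul_assoc, hf.eq]
  -- f is a left identity of I
  have hfx : ∀ x ∈ I, f * x = x := by
    intro x hx
    have hz : x - f * x ∈ I := I.sub_mem hx (I.mul_mem_left f x hx)
    obtain ⟨z, hzdef⟩ : ∃ z, z = x - f * x := ⟨_, rfl⟩
    rw [← hzdef] at hz
    have hIz : ∀ a ∈ I, a * z = 0 := by
      intro a ha
      rw [hzdef, mul_sub, ← mul_assoc, hxf a ha, sub_self]
    let sz : B := ⟨star z.1, hB _ z.2⟩
    have h1 : z * sz * z = 0 := hIz _ (I.mul_mem_right _ _ hz)
    have h2 : z.1 * star z.1 * z.1 = 0 := congrArg Subtype.val h1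
    have h3 : star z.1 * z.1 = 0 := by
      refine sa_sq_zero _ (by rw [star_mul, star_star]) ?_
      rw [mul_assoc, ← mul_assoc z.1, h2, mul_zero]
    have h4 : z = 0 := by
      have h5 := cop_pos_zero (star z.1) (by rw [star_star, h3, map_zero])
      exact Subtype.ext (by simpa using congrArg star h5)
    rw [h4] at hzdef
    exact (sub_eq_zero.1 hzdef.symm).symm
  -- the span of the ranges
  let U : Submodule ℂ W := Submodule.span ℂ {v | ∃ x ∈ I, ∃ w : W, x.1 w = v}
  have hUstab : ∀ y ∈ g, ∀ w ∈ U, y w ∈ U := by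
    intro y hy w hw
    induction hw using Submodule.span_induction with
    | mem v hv =>
      obtain ⟨x, hx, w, rfl⟩ := hv
      have e1 : y (x.1 w) = (y * x.1 - x.1 * y) w + x.1 (y w) := by
        simp
      rw [e1]
      refine U.add_mem (Submodule.subset_span ?_) (Submodule.subset_span ⟨x, hx, y w, rfl⟩)
      let c : B := ⟨y * x.1 - x.1 * y, had y hy _ x.2⟩
      let c2 : B := ⟨y * f.1 - f.1 * y, had y hy _ f.2⟩
      have hc : c = c * f + x * c2 := by
        apply Subtype.ext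
        change y * x.1 - x.1 * y = (y * x.1 - x.1 * y) * f.1 + x.1 * (y * f.1 - f.1 * y)
        have hx2 : x.1 * f.1 = x.1 := congrArg Subtype.val (hxf x hx)
        rw [sub_mul, mul_sub, mul_assoc y, hx2, ← mul_assoc x.1 f.1, hx2]
        simp only [mul_assoc]
        abel
      refine ⟨c, ?_, w, rfl⟩
      rw [hc]
      exact I.add_mem (I.mul_mem_left _ _ hfI) (I.mul_mem_right _ _ hx)
    | zero => rw [map_zero]; exact U.zero_mem
    | add a b _ _ ha hb => rw [map_add]; exact U.add_mem ha hb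
    | smul a b _ hb => rw [map_smul]; exact U.smul_mem a hb
  have hUtop : U = ⊤ := by
    rcases hirr U hUstab with h | h
    · exfalso
      apply hx0
      apply Subtype.ext
      refine LinearMap.ext fun w => ?_
      have h1 : x0.1 w ∈ U := Submodule.subset_span ⟨x0, hx0I, w, rfl⟩
      rw [h] at h1
      exact (Submodule.mem_bot ℂ).1 h1
    · exact h
  have hf1 : f = 1 := by
    apply Subtype.ext
    refine LinearMap.ext fun w => ?_
    have hw : w ∈ U := by rw [hUtop]; trivial
    induction hw using Submodule.span_induction with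
    | mem v hv =>
      obtain ⟨x, hx, w, rfl⟩ := hv
      have h1 : f.1 * x.1 = x.1 := congrArg Subtype.val (hfx x hx)
      exact congrArg (fun z : Module.End ℂ W => z w) h1
    | zero => rw [map_zero, map_zero]
    | add a b _ _ ha hb => rw [map_add, ha, hb, map_add]
    | smul a b _ hb => rw [map_smul, hb, map_smul]
  rw [eq_top_iff]
  intro x _
  rw [hf1] at hfI
  have := I.mul_mem_left x 1 hfI
  rwa [mul_one] at this

/-- `B` is simple and finite dimensional over `ℂ`: Wedderburn. -/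
theorem exists_mat (B : Subalgebra ℂ (Module.End ℂ W)) (hBs : ∀ b ∈ B, star b ∈ B)
    (g : Submodule ℂ (Module.End ℂ W))
    (hirr : ∀ U : Submodule ℂ W, (∀ x ∈ g, ∀ w ∈ U, x w ∈ U) → U = ⊥ ∨ U = ⊤)
    (hgB : ∀ y ∈ g, ∀ b ∈ B, y * b - b * y ∈ B) (hW : Nontrivial W) :
    ∃ n : ℕ, 0 < n ∧ ∃ φ : Matrix (Fin n) (Fin n) ℂ →ₐ[ℂ] Module.End ℂ W,
      Function.Injective φ ∧ ∀ b, b ∈ B ↔ ∃ M, φ M = b := by
  have := simple_of_ad g hirr B hBs hgB
  obtain ⟨n, hn, ⟨ψ⟩⟩ := IsSimpleRing.exists_algEquiv_matrix_of_isAlgClosed ℂ B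
  refine ⟨n, Nat.pos_of_ne_zero hn.out, B.val.comp ψ.symm.toAlgHom, ?_, ?_⟩
  · intro a b hab
    exact ψ.symm.injective (Subtype.ext hab)
  · intro b
    constructor
    · intro hb
      refine ⟨ψ ⟨b, hb⟩, ?_⟩
      change (ψ.symm (ψ ⟨b, hb⟩)).1 = b
      rw [AlgEquiv.symm_apply_apply]
    · rintro ⟨M, rfl⟩
      exact (ψ.symm M).2

end Pool.MP43e44c.SG
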