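import Pool.Agent.H.MP_43e44c_ag.SG.IrrG
import Pool.Agent.H.MP_43e44c_ag.SG.PropJ
import Pool.Agent.H.MP_43e44c_ag.PE.Cop

/-!
# SG/Sl: the replacement of the coprime lemma
-/

set_option autoImplicit false

namespace Pool.MP43e44c.SG

open Module PE

/-- The case `1, e ∈ g`: the corner is full. -/
theorem corner_full {W : Type*} [NormedAddCommGroup W] [InnerProductSpace ℂ W] [FiniteDimensional ℂ W]
    (g : Submodule ℂ (Module.End ℂ W))
    (hbr : ∀ x ∈ g, ∀ y ∈ g, x * y - y * x ∈ g) (hst : ∀ x ∈ g, star x ∈ g)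
    (hirr : ∀ U : Submodule ℂ W, (∀ x ∈ g, ∀ w ∈ U, x w ∈ U) → U = ⊥ ∨ U = ⊤)
    (e : Module.End ℂ W) (he : e * e = e) (hes : star e = e) (heg : e ∈ g)
    (h1g : (1 : Module.End ℂ W) ∈ g) (he0 : e ≠ 0) (he1 : e ≠ 1) (hI : Irr (copG1 g e))
    (hrs : finrank ℂ (LinearMap.range e) ≠ finrank ℂ (LinearMap.ker e))
    (hbin : ∀ n j : ℕ, 1 < j → j < n → ¬ (finrank ℂ (LinearMap.range e) = n.choose j ∧
      finrank ℂ (LinearMap.ker e) = n.choose (j - 1))) :
    ∀ x : Module.End ℂ W, e * x = x → x * e = 0 → x ∈ g := by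
  obtain ⟨c₁, c₂, hC, h1, h2⟩ := cas_of_g hbr hst hirr he hes heg h1g he0 he1
  have hV := cop_G1_ne hbr hst hirr he hes heg he0 he1
  have hd : (finrank ℂ (copG1 g e) : ℂ) ≠ 0 := by
    obtain ⟨a, ha, ha0⟩ := hV
    rw [Nat.cast_ne_zero]
    intro h
    have h3 : copG1 g e = ⊥ := Submodule.finrank_eq_zero.1 h
    rw [h3, Submodule.mem_bot] at ha
    exact ha0 ha
  have hne : c₁ ≠ c₂ := by
    intro h
    rw [← h, ← h1] at h2
    have hc : c₁ ≠ 0 := by
      intro h0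
      rw [h0, zero_mul] at h1
      exact hd h1.symm
    have h3 := mul_left_cancel₀ hc h2
    exact hrs (Nat.cast_injective h3).symm
  rcases propJ (tri_of_g hbr hst he hes) hI hC hne hV he0 he1 with h | ⟨n, j, hj, hn, h3, h4⟩
  · intro x hx1 hx2
    exact (mem_copG1.1 (h x hx1 hx2)).1
  · exact absurd ⟨h3, h4⟩ (hbin n j hj hn)

/-- The adjoint form of `sl_of`. -/
theorem sl_main {W : Type*} [NormedAddCommGroup W] [InnerProductSpace ℂ W] [FiniteDimensional ℂ W]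
    (g : Submodule ℂ (Module.End ℂ W))
    (hbr : ∀ x ∈ g, ∀ y ∈ g, x * y - y * x ∈ g) (hst : ∀ x ∈ g, star x ∈ g)
    (hirr : ∀ U : Submodule ℂ W, (∀ x ∈ g, ∀ w ∈ U, x w ∈ U) → U = ⊥ ∨ U = ⊤)
    (e : Module.End ℂ W) (he : e * e = e) (hes : star e = e)
    (α β : ℂ) (hβ : β ≠ 0) (hx : α • (1 : Module.End ℂ W) + β • e ∈ g)
    (J : Set (Module.End ℂ W)) (hJi : ∀ f ∈ J, f * f = f)
    (hJg : ∀ f ∈ J, ∃ α' β' : ℂ, β' ≠ 0 ∧ α' • (1 : Module.End ℂ W) + β' • f ∈ g)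
    (hgen : ∀ g' : Submodule ℂ (Module.End ℂ W), (∀ x ∈ g', ∀ y ∈ g', x * y - y * x ∈ g') →
      (1 : Module.End ℂ W) ∈ g' → (∀ f ∈ J, f ∈ g') → g ≤ g')
    (hr : 0 < finrank ℂ (LinearMap.range e)) (hs : 0 < finrank ℂ (LinearMap.ker e))
    (hrs : finrank ℂ (LinearMap.range e) ≠ finrank ℂ (LinearMap.ker e))
    (hbin : ∀ n j : ℕ, 1 < j → j < n → ¬ (finrank ℂ (LinearMap.range e) = n.choose j ∧
      finrank ℂ (LinearMap.ker e) = n.choose (j - 1)))
    (hdiv : ∀ f ∈ J, 0 < finrank ℂ (LinearMap.range f) → 0 < finrank ℂ (LinearMap.ker f) →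
      ¬ finrank ℂ W ∣
      Nat.gcd (finrank ℂ (LinearMap.range e)) (finrank ℂ (LinearMap.ker e)) *
      Nat.gcd (finrank ℂ (LinearMap.range f)) (finrank ℂ (LinearMap.ker f)))
    (A : Module.End ℂ W) (hA : LinearMap.trace ℂ W A = 0) : A ∈ g := by
  have he0 : e ≠ 0 := by
    intro h
    rw [h, LinearMap.range_zero, finrank_bot] at hr
    exact lt_irrefl 0 hr
  have he1 : e ≠ 1 := by
    intro h
    have h1 : LinearMap.ker (1 : Module.End ℂ W) = ⊥ := LinearMap.ker_id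
    rw [h, h1, finrank_bot] at hs
    exact lt_irrefl 0 hs
  -- enlarge g by the scalars
  set g' : Submodule ℂ (Module.End ℂ W) := g ⊔ Submodule.span ℂ {(1 : Module.End ℂ W)} with hg'
  have hmem' : ∀ x, x ∈ g' ↔ ∃ y ∈ g, ∃ c : ℂ, x = y + c • (1 : Module.End ℂ W) := by
    intro x
    rw [hg', Submodule.mem_sup]
    constructor
    · rintro ⟨y, hy, z, hz, rfl⟩
      obtain ⟨c, rfl⟩ := Submodule.mem_span_singleton.1 hz
      exact ⟨y, hy, c, rfl⟩
    · rintro ⟨y, hy, c, rfl⟩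
      exact ⟨y, hy, _, Submodule.mem_span_singleton.2 ⟨c, rfl⟩, rfl⟩
  have hbr0 : ∀ x ∈ g', ∀ y ∈ g', x * y - y * x ∈ g := by
    intro x hx y hy
    obtain ⟨x', hx', c, rfl⟩ := (hmem' x).1 hx
    obtain ⟨y', hy', d, rfl⟩ := (hmem' y).1 hy
    have h1 : (x' + c • (1 : Module.End ℂ W)) * (y' + d • (1 : Module.End ℂ W)) -
        (y' + d • (1 : Module.End ℂ W)) * (x' + c • (1 : Module.End ℂ W)) = x' * y' - y' * x' := by
      simp only [mul_add, add_mul, mul_smul_comm, smul_mul_assoc, mul_one, one_mul]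
      module
    rw [h1]
    exact hbr x' hx' y' hy'
  have hle : g ≤ g' := le_sup_left
  have hbr' : ∀ x ∈ g', ∀ y ∈ g', x * y - y * x ∈ g' := fun x hx y hy => hle (hbr0 x hx y hy)
  have hst' : ∀ x ∈ g', star x ∈ g' := by
    intro x hx
    obtain ⟨x', hx', c, rfl⟩ := (hmem' x).1 hx
    rw [star_add, star_smul, star_one]
    exact (hmem' _).2 ⟨_, hst x' hx', _, rfl⟩
  have hirr' : ∀ U : Submodule ℂ W, (∀ x ∈ g', ∀ w ∈ U, x w ∈ U) → U = ⊥ ∨ U = ⊤ :=
    fun U hU => hirr U fun x hx => hU x (hle hx)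
  have h1g' : (1 : Module.End ℂ W) ∈ g' := (hmem' _).2 ⟨0, g.zero_mem, 1, by rw [zero_add, one_smul]⟩
  have hscal : ∀ (f : Module.End ℂ W) (α' β' : ℂ), β' ≠ 0 →
      α' • (1 : Module.End ℂ W) + β' • f ∈ g → f ∈ g' := by
    intro f α' β' hβ' hf
    have h1 : f = β'⁻¹ • (α' • (1 : Module.End ℂ W) + β' • f) +
        (-(β'⁻¹ * α')) • (1 : Module.End ℂ W) := by
      rw [smul_add, smul_smul, smul_smul, inv_mul_cancel₀ hβ']
      module
    exact (hmem' f).2 ⟨_, g.smul_mem _ hf, _, h1⟩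
  have heg' : e ∈ g' := hscal e α β hβ hx
  have hJg' : ∀ f ∈ J, f ∈ g' := by
    intro f hf
    obtain ⟨α', β', hβ', h1⟩ := hJg f hf
    exact hscal f α' β' hβ' h1
  have hgen' : ∀ g'' : Submodule ℂ (Module.End ℂ W), (∀ x ∈ g'', ∀ y ∈ g'', x * y - y * x ∈ g'') →
      (1 : Module.End ℂ W) ∈ g'' → (∀ f ∈ J, f ∈ g'') → g' ≤ g'' := by
    intro g'' h1 h2 h3
    rw [hg', sup_le_iff]
    refine ⟨hgen g'' h1 h2 h3, ?_⟩
    rw [Submodule.span_singleton_le_iff_mem]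
    exact h2
  have hI := irrG g' hbr' hst' hirr' e he hes heg' h1g' he0 he1 J hJg' hJi hgen' (by
    intro f hf hf0 hf1
    refine hdiv f hf ?_ ?_
    · rw [Nat.pos_iff_ne_zero]
      intro h
      exact hf0 (LinearMap.range_eq_bot.1 (Submodule.finrank_eq_zero.1 h))
    · rw [Nat.pos_iff_ne_zero]
      intro h
      have h1 : LinearMap.ker f = ⊥ := Submodule.finrank_eq_zero.1 h
      apply hf1
      refine LinearMap.ext fun w => ?_
      have h2 : w - f w ∈ LinearMap.ker f := by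
        rw [LinearMap.mem_ker, map_sub]
        have : f (f w) = f w := congrArg (fun f : Module.End ℂ W => f w) (hJi f hf)
        rw [this, sub_self]
      rw [h1] at h2
      exact (sub_eq_zero.1 ((Submodule.mem_bot ℂ).1 h2)).symm)
  have hfull := corner_full g' hbr' hst' hirr' e he hes heg' h1g' he0 he1 hI hrs hbin
  have h10 : ∀ x : Module.End ℂ W, e * x = x → x * e = 0 → x ∈ g := by
    intro x h1 h2
    have h3 := hbr0 e heg' x (hfull x h1 h2)
    rwa [h1, h2, sub_zero] at h3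
  have h01 : ∀ x : Module.End ℂ W, e * x = 0 → x * e = x → x ∈ g := by
    intro x h1 h2
    have h3 : e * star x = star x := by
      have := congrArg star h2
      rwa [star_mul, hes] at this
    have h4 : star x * e = 0 := by
      have := congrArg star h1
      rwa [star_mul, hes, star_zero] at this
    have h5 := hst _ (h10 _ h3 h4)
    rwa [star_star] at h5
  exact cop_corners g hbr e he he0 he1 h10 h01 A hA

/-- The replacement of `PE.coprime_sl`. -/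
theorem sl_of {W : Type*} [AddCommGroup W] [Module ℂ W] [FiniteDimensional ℂ W]
    (c : InnerProductSpace.Core ℂ W) (g : Submodule ℂ (Module.End ℂ W))
    (hg : ∀ x ∈ g, ∀ y ∈ g, x * y - y * x ∈ g)
    (hadj : ∀ x ∈ g, ∃ y ∈ g, ∀ u v, c.inner (x u) v = c.inner u (y v))
    (hirr : ∀ U : Submodule ℂ W, (∀ x ∈ g, ∀ u ∈ U, x u ∈ U) → U = ⊥ ∨ U = ⊤)
    (e : Module.End ℂ W) (he : e * e = e) (hes : ∀ u v, c.inner (e u) v = c.inner u (e v))
    (α β : ℂ) (hβ : β ≠ 0) (hx : α • (1 : Module.End ℂ W) + β • e ∈ g)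
    (J : Set (Module.End ℂ W)) (hJi : ∀ f ∈ J, f * f = f)
    (hJg : ∀ f ∈ J, ∃ α' β' : ℂ, β' ≠ 0 ∧ α' • (1 : Module.End ℂ W) + β' • f ∈ g)
    (hgen : ∀ g' : Submodule ℂ (Module.End ℂ W), (∀ x ∈ g', ∀ y ∈ g', x * y - y * x ∈ g') →
      (1 : Module.End ℂ W) ∈ g' → (∀ f ∈ J, f ∈ g') → g ≤ g')
    (hr : 0 < finrank ℂ (LinearMap.range e)) (hs : 0 < finrank ℂ (LinearMap.ker e))
    (hrs : finrank ℂ (LinearMap.range e) ≠ finrank ℂ (LinearMap.ker e))
    (hbin : ∀ n j : ℕ, 1 < j → j < n → ¬ (finrank ℂ (LinearMap.range e) = n.choose j ∧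
      finrank ℂ (LinearMap.ker e) = n.choose (j - 1)))
    (hdiv : ∀ f ∈ J, 0 < finrank ℂ (LinearMap.range f) → 0 < finrank ℂ (LinearMap.ker f) →
      ¬ finrank ℂ W ∣
      Nat.gcd (finrank ℂ (LinearMap.range e)) (finrank ℂ (LinearMap.ker e)) *
      Nat.gcd (finrank ℂ (LinearMap.range f)) (finrank ℂ (LinearMap.ker f)))
    (A : Module.End ℂ W) (hA : LinearMap.trace ℂ W A = 0) : A ∈ g := by
  let _ : NormedAddCommGroup W := c.toNormedAddCommGroup
  let _ : InnerProductSpace ℂ W := InnerProductSpace.ofCore c.toCore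
  refine sl_main g hg ?_ hirr e he ?_ α β hβ hx J hJi hJg hgen hr hs hrs hbin hdiv A hA
  · intro x hx
    obtain ⟨y, hy, hxy⟩ := hadj x hx
    have h1 : y = star x := by
      rw [LinearMap.star_eq_adjoint, LinearMap.eq_adjoint_iff]
      intro a b
      rw [← inner_conj_symm (y a) b, ← inner_conj_symm a (x b)]
      exact congrArg _ (hxy b a).symm
    rw [← h1]
    exact hy
  · rw [LinearMap.star_eq_adjoint]
    symm
    rw [LinearMap.eq_adjoint_iff]
    intro a b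
    exact hes a b

end Pool.MP43e44c.SG
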