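import Pool.Agent.H.MP_43e44c_ag.SG.Main2
import Pool.Agent.H.MP_43e44c_ag.IR.Sub

/-!
# SG/Sub2: CM fields without smaller CM subfields, regular multiplicities
-/

set_option autoImplicit false

open NumberField Module

namespace Pool.MP43e44c.SG

open IR

variable {K : Type*} [Field K] [NumberField K] [IsCMField K]

open PE in
/-- For a CM field without smaller CM subfield, one regular place with different multiplicities: the Hodge rings of
all powers are generated by divisor classes iff the multiplicities are nondegenerate. -/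
theorem main_sub (hK : ∀ L : Subfield K, L ≤ maximalRealSubfield K ∨ L = ⊤)
    {E : Type*} [AddCommGroup E] [Module ℂ E] [Module ℝ E] [IsScalarTower ℝ ℂ E]
    {Λ : AddSubgroup E} {ι : K →+* Module.End ℂ E} (h : HasEndK Λ ι) {τ₁ : K →+* ℂ}
    (hc : Nat.Coprime (mult ι τ₁) (mult ι (cj τ₁)) ∨ Reg (mult ι) τ₁) (hne : mult ι τ₁ ≠ mult ι (cj τ₁)) :
    (∀ k p : ℕ, GeneratedByDivisors (powLattice Λ k) p) ↔ NondegMult (mult ι) := by
  have hadd := mult_add_mult h
  constructor
  · intro hg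
    by_contra hnd
    have h0 : ∃ τ, mult ι τ ≠ 0 := by
      by_contra h0
      push Not at h0
      exact hne (by rw [h0, h0])
    obtain ⟨k, p, hkp⟩ := PE.conv h h0 hnd
    exact hkp (hg k p)
  intro hnd k p
  by_cases h1 : mult ι τ₁ + mult ι (cj τ₁) = 1
  · exact main_cm h (fun τ => by rw [hadd τ τ₁]; exact h1) hnd k p
  have h0 : 0 < mult ι τ₁ ∧ 0 < mult ι (cj τ₁) := by
    rcases hc with hc | hc
    swap
    · exact ⟨hc.1, hc.2.1⟩
    constructor
    · by_contra h2
      rw [Nat.le_zero.1 (not_lt.1 h2), Nat.coprime_zero_left] at hc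
      omega
    · by_contra h2
      rw [Nat.le_zero.1 (not_lt.1 h2), Nat.coprime_zero_right] at hc
      omega
  obtain ⟨f, hf⟩ : ∃ f : (K →+* ℂ) → ℤ, ∀ τ, f τ = (mult ι τ : ℤ) - mult ι (cj τ) :=
    ⟨_, fun _ => rfl⟩
  have hodd : ∀ τ, f (ComplexEmbedding.conjugate τ) = -f τ := by
    intro τ
    have e : cj (cj τ) = τ := cj_cj τ
    have h2 := hf (cj τ)
    rw [e] at h2
    rw [hf τ]
    show f (cj τ) = _
    rw [h2]
    ring
  have hN1 : ¬ ((mult ι τ₁ + mult ι (cj τ₁) : ℕ) : ℤ) ∣ f τ₁ := by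
    intro h2
    rw [hf] at h2
    have h3 : (mult ι τ₁ : ℤ) - mult ι (cj τ₁) = 0 := by
      apply Int.eq_zero_of_abs_lt_dvd h2
      rw [abs_lt]
      push_cast
      omega
    apply hne
    have h4 : (mult ι τ₁ : ℤ) = mult ι (cj τ₁) := by linarith
    exact_mod_cast h4
  refine SG.main h ⟨τ₁, hc⟩ hnd (fun τ t ht _ => ?_) k p
  obtain ⟨g, hg⟩ := sep_of_sub hK hodd hN1 ht
  obtain ⟨σ, hσ⟩ := exists_autC g
  refine ⟨σ, ?_, ?_⟩
  · rw [hσ, hσ]
    intro h2
    apply hg
    have h3 := hadd (g • t) (g • τ)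
    have h4 : mult ι (cj (g • t)) = mult ι (cj (g • τ)) := by
      have h5 : mult ι (g • t) + mult ι (cj (g • t)) = mult ι (g • τ) + mult ι (cj (g • τ)) := h3
      omega
    rw [hf, hf, h2, h4, sub_self]
    exact dvd_zero _
  · rw [hσ, hσ]
    rintro ⟨h2, h3⟩
    apply hg
    have h4 : mult ι (g • t) + mult ι (cj (g • t)) = mult ι τ₁ + mult ι (cj τ₁) := hadd _ _
    have h5 : mult ι (g • τ) + mult ι (cj (g • τ)) = mult ι τ₁ + mult ι (cj τ₁) := hadd _ _
    have h2' : mult ι (g • τ) * mult ι (cj (g • τ)) = 0 := h2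
    have h3' : mult ι (g • t) * mult ι (cj (g • t)) = 0 := h3
    rw [hf, hf]
    rcases Nat.mul_eq_zero.1 h2' with h6 | h6 <;> rcases Nat.mul_eq_zero.1 h3' with h7 | h7
    · refine ⟨0, ?_⟩
      rw [h6, h7]
      push_cast
      omega
    · refine ⟨1, ?_⟩
      rw [h6, h7]
      push_cast
      omega
    · refine ⟨-1, ?_⟩
      rw [h6, h7]
      push_cast
      omega
    · refine ⟨0, ?_⟩
      rw [h6, h7]
      push_cast
      omega

end Pool.MP43e44c.SG
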