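import Pool.Agent.H.MP_43e44c_ag.SG.Count

/-!
# SG/TrF: an element of degree (1,0) with unbalanced components
-/

set_option autoImplicit false

namespace Pool.MP43e44c.SG

open Module PE

variable {W : Type*} [NormedAddCommGroup W] [InnerProductSpace ℂ W] [FiniteDimensional ℂ W]
variable {e : Module.End ℂ W} {V : Submodule ℂ (Module.End ℂ W)}

/-- `z ↦ (u + v) z* (u + v) = u z* v + v z* u` on the elements of degree one for both `u` and `v`. -/
noncomputable def shp (u v z : Module.End ℂ W) : Module.End ℂ W := u * star z * v + v * star z * u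

/-- `z' = u u* z v* v`, `z'' = v v* z u* u` for `z` of degree one for `u` and `v`. -/
theorem shp_comp {u v z : Module.End ℂ W} (huv : P0 u v) (h2 : P1 v z) :
    u * (star u * z) = u * (star u * (z * (star v * v))) ∧
    z * (star u * u) = v * (star v * (z * (star u * u))) := by
  have a1 : ∀ y : Module.End ℂ W, star u * (v * y) = 0 := fun y => by
    rw [← mul_assoc, huv.1, zero_mul]
  have a2 : ∀ y : Module.End ℂ W, v * (star u * y) = 0 := fun y => by
    rw [← mul_assoc, huv.2, zero_mul]
  constructor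
  · have h := congrArg (fun y => u * (star u * y)) h2.2
    simpa only [mul_add, mul_assoc, a1, mul_zero, zero_add] using h
  · have h := congrArg (fun y => y * (star u * u)) h2.2
    simpa only [add_mul, mul_assoc, a2, mul_zero, add_zero] using h

/-- The properties of `shp` on `{z ∈ V | P1 u z ∧ P1 v z}`, `u`, `v` orthogonal tripotents. -/
theorem shp_props (T : Tri e V) {u v z : Module.End ℂ W} (hu : u ∈ V) (hut : u * star u * u = u)
    (hv : v ∈ V) (hvt : v * star v * v = v) (huv : P0 u v) (hz : z ∈ V) (h1 : P1 u z) (h2 : P1 v z) :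
    shp u v z ∈ V ∧ P1 u (shp u v z) ∧ P1 v (shp u v z) ∧ shp u v (shp u v z) = z ∧
    u * star u * shp u v z = u * star z * v ∧ shp u v z * (star u * u) = v * star z * u := by
  obtain ⟨a3, a4⟩ := P0_symm huv
  have b1 : ∀ y : Module.End ℂ W, star u * (v * y) = 0 := fun y => by
    rw [← mul_assoc, huv.1, zero_mul]
  have b2 : ∀ y : Module.End ℂ W, v * (star u * y) = 0 := fun y => by
    rw [← mul_assoc, huv.2, zero_mul]
  have b3 : ∀ y : Module.End ℂ W, star v * (u * y) = 0 := fun y => by
    rw [← mul_assoc, a3, zero_mul]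
  have b4 : ∀ y : Module.End ℂ W, u * (star v * y) = 0 := fun y => by
    rw [← mul_assoc, a4, zero_mul]
  have c1 : ∀ y : Module.End ℂ W, u * (star u * (u * y)) = u * y := fun y => by
    rw [← mul_assoc, ← mul_assoc, hut]
  have c1' : u * (star u * u) = u := by rw [← mul_assoc, hut]
  have c2 : ∀ y : Module.End ℂ W, v * (star v * (v * y)) = v * y := fun y => by
    rw [← mul_assoc, ← mul_assoc, hvt]
  have c2' : v * (star v * v) = v := by rw [← mul_assoc, hvt]
  have d1 : u * star u * shp u v z = u * star z * v := by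
    simp only [shp, mul_add, mul_assoc, b1, c1, mul_zero, add_zero]
  have d2 : shp u v z * (star u * u) = v * star z * u := by
    simp only [shp, add_mul, mul_assoc, b2, c1', mul_zero, zero_add]
  have d3 : v * star v * shp u v z = v * star z * u := by
    simp only [shp, mul_add, mul_assoc, b3, c2, mul_zero, zero_add]
  have d4 : shp u v z * (star v * v) = u * star z * v := by
    simp only [shp, add_mul, mul_assoc, b4, c2', mul_zero, add_zero]
  refine ⟨T.tri u hu z hz v hv, ⟨?_, ?_⟩, ⟨?_, ?_⟩, ?_, d1, d2⟩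
  · rw [d1]
    simp only [mul_assoc, b2, mul_zero]
  · rw [d1, d2, shp]
  · rw [d3]
    simp only [mul_assoc, b4, mul_zero]
  · rw [d3, d4, shp, add_comm]
  · obtain ⟨e1, e2⟩ := shp_comp huv h2
    conv_rhs => rw [h1.2, e2, mul_assoc, e1]
    simp only [shp, star_add, star_mul, star_star, mul_add, add_mul, mul_assoc, b2, b4, mul_zero,
      add_zero, zero_add]

theorem shp_fr {u v z y : Module.End ℂ W} (hut : u * star u * u = u)
    (hvt : v * star v * v = v) (huv : P0 u v) (h1 : P1 u z) (h2 : P1 v z) (h3 : P1 u y) (h4 : P1 v y) :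
    fr (shp u v z) (shp u v y) = fr y z ∧
    LinearMap.trace ℂ W (u * star u * (shp u v z * star (shp u v z))) =
      LinearMap.trace ℂ W (star z * z * (star u * u)) := by
  obtain ⟨a3, a4⟩ := P0_symm huv
  have b1 : ∀ y : Module.End ℂ W, star u * (v * y) = 0 := fun y => by
    rw [← mul_assoc, huv.1, zero_mul]
  have b2 : ∀ y : Module.End ℂ W, v * (star u * y) = 0 := fun y => by
    rw [← mul_assoc, huv.2, zero_mul]
  have b3 : ∀ y : Module.End ℂ W, star v * (u * y) = 0 := fun y => by
    rw [← mul_assoc, a3, zero_mul]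
  have b4 : ∀ y : Module.End ℂ W, u * (star v * y) = 0 := fun y => by
    rw [← mul_assoc, a4, zero_mul]
  have c1 : ∀ y : Module.End ℂ W, u * (star u * (u * y)) = u * y := fun y => by
    rw [← mul_assoc, ← mul_assoc, hut]
  obtain ⟨e1, e2⟩ := shp_comp huv h2
  obtain ⟨f1, f2⟩ := shp_comp huv h4
  constructor
  · have h5 : shp u v z * star (shp u v y) =
        u * (star z * (v * (star v * (y * star u)))) + v * (star z * (u * (star u * (y * star v)))) := by
      simp only [shp, star_add, star_mul, star_star, mul_add, add_mul, mul_assoc, b2, b4, mul_zero,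
        add_zero, zero_add]
    have h6 : LinearMap.trace ℂ W (u * (star z * (v * (star v * (y * star u))))) =
        LinearMap.trace ℂ W (star z * (y * (star u * u))) := by
      rw [cop_trace_comm, f2]
      simp only [mul_assoc]
    have h7 : LinearMap.trace ℂ W (v * (star z * (u * (star u * (y * star v))))) =
        LinearMap.trace ℂ W (star z * (u * (star u * y))) := by
      rw [cop_trace_comm, f1]
      simp only [mul_assoc]
    rw [fr, h5, map_add, h6, h7, ← map_add, ← mul_add, fr, cop_trace_comm y]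
    congr 2
    have h8 := h3.2
    rw [mul_assoc u] at h8
    rw [add_comm]
    exact h8.symm
  · have h5 : u * star u * (shp u v z * star (shp u v z)) =
        u * (star z * (v * (star v * (z * star u)))) := by
      simp only [shp, star_add, star_mul, star_star, mul_add, add_mul, mul_assoc, b1, b2, b4, c1,
        mul_zero, add_zero, zero_add]
    rw [h5, cop_trace_comm, mul_assoc (star z) z, e2]
    simp only [mul_assoc]

/-- If `c₁ ≠ c₂`: take orthonormal bases of `Z = {P1 u, P1 v}` and `X = {P1 u, P0 v}` (`split_v`, `onb_append`); by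
`onb_anti` and `onb_indep` the sums of `tr (u u* z z*)` and of `tr (z* z u* u)` over `Z` agree; if all `x ∈ X` were
balanced then `c₁ fr u u = c₂ fr u u` by `count1`. -/
theorem trF (T : Tri e V) {c₁ c₂ : ℂ} (hC : Cas e V c₁ c₂) (hne : c₁ ≠ c₂) {u v : Module.End ℂ W}
    (hu : Prim V u) (hv : v ∈ V) (hvt : v * star v * v = v) (huv : P0 u v) :
    ∃ x ∈ V, P1 u x ∧ P0 v x ∧
      2 * LinearMap.trace ℂ W (u * star u * (x * star x)) ≠ fr x x := by
  by_contra hcon
  push Not at hcon
  obtain ⟨n, bz, hbz⟩ := exists_onb (PV1 V u ⊓ PV1 V v)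
  obtain ⟨m, bx, hbx⟩ := exists_onb (PV1 V u ⊓ PV0 V v)
  have hz : ∀ i, bz i ∈ V ∧ P1 u (bz i) ∧ P1 v (bz i) := fun i =>
    ⟨(hbz.mem i).1.1, (hbz.mem i).1.2, (hbz.mem i).2.2⟩
  have hx : ∀ i, bx i ∈ V ∧ P1 u (bx i) ∧ P0 v (bx i) := fun i =>
    ⟨(hbx.mem i).1.1, (hbx.mem i).1.2, (hbx.mem i).2.2⟩
  have hc : ONB (PV1 V u) (Fin.append bz bx) := by
    refine onb_append inf_le_left inf_le_left ?_ ?_ hbz hbx
    · rintro x ⟨hxV, hx1⟩
      obtain ⟨z, hz, y, hy, h1, h2, h3, h4, h5⟩ := split_v T hu.trip hv hvt huv hxV hx1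
      exact ⟨z, ⟨⟨hz, h1⟩, ⟨hz, h2⟩⟩, y, ⟨⟨hy, h3⟩, ⟨hy, h4⟩⟩, h5⟩
    · rintro x ⟨-, -, h1⟩ y ⟨-, -, h2⟩
      exact fr_P1_P0 hvt h1 h2
  obtain ⟨k1, k2⟩ := count1 T hC hu hc
  rw [Fin.sum_univ_add] at k1 k2
  simp only [Fin.append_left, Fin.append_right] at k1 k2
  -- the sums over `Z`
  have hZ : ∑ i, LinearMap.trace ℂ W (u * star u * (bz i * star (bz i))) =
      ∑ i, LinearMap.trace ℂ W (star (bz i) * bz i * (star u * u)) := by
    have hb2 : ONB (PV1 V u ⊓ PV1 V v) (fun i => shp u v (bz i)) := by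
      refine onb_anti hbz (shp u v) ?_ ?_ ?_ ?_ ?_
      · rintro x ⟨⟨hxV, h1⟩, ⟨-, h2⟩⟩
        obtain ⟨p1, p2, p3, -⟩ := shp_props T hu.mem hu.trip hv hvt huv hxV h1 h2
        exact ⟨⟨p1, p2⟩, ⟨p1, p3⟩⟩
      · rintro x ⟨⟨hxV, h1⟩, ⟨-, h2⟩⟩
        exact (shp_props T hu.mem hu.trip hv hvt huv hxV h1 h2).2.2.2.1
      · rintro x ⟨⟨-, h1⟩, ⟨-, h2⟩⟩ y ⟨⟨-, h3⟩, ⟨-, h4⟩⟩
        exact (shp_fr hu.trip hvt huv h1 h2 h3 h4).1
      · intro x y
        simp only [shp, star_add, mul_add, add_mul]
        abel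
      · intro t x
        simp only [shp, star_smul, mul_smul_comm, smul_mul_assoc, smul_add]
        rfl
    have h1 := onb_indep hbz hb2 (fun x y => LinearMap.trace ℂ W (u * star u * (x * star y)))
      (fun x y z => by simp only [add_mul, mul_add, map_add])
      (fun t x z => by simp only [smul_mul_assoc, mul_smul_comm, map_smul, smul_eq_mul])
      (fun x y z => by simp only [star_add, mul_add, map_add])
      (fun t x z => by
        simp only [star_smul, mul_smul_comm, map_smul, smul_eq_mul]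
        rfl)
    rw [h1]
    refine Finset.sum_congr rfl fun i _ => ?_
    obtain ⟨-, p1, p2⟩ := hz i
    exact (shp_fr hu.trip hvt huv p1 p2 p1 p2).2
  have hX : ∑ i, LinearMap.trace ℂ W (u * star u * (bx i * star (bx i))) =
      ∑ i, LinearMap.trace ℂ W (star (bx i) * bx i * (star u * u)) := by
    refine Finset.sum_congr rfl fun i _ => ?_
    obtain ⟨p0, p1, p2⟩ := hx i
    have h1 := hcon _ p0 p1 p2
    have h2 := fr_split hu.trip p1
    linear_combination h1 - h2
  rw [hZ, hX, ← k2] at k1
  exact hne (mul_right_cancel₀ (fr_self_ne hu.ne) k1)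

end Pool.MP43e44c.SG
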