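import Pool.Agent.H.MP_43e44c_ag.SG.Defs

/-!
# SG/Trip: tripotents
-/

set_option autoImplicit false

namespace Pool.MP43e44c.SG

open Module PE

variable {W : Type*} [NormedAddCommGroup W] [InnerProductSpace ℂ W] [FiniteDimensional ℂ W]

theorem tri_half {e : Module.End ℂ W} {V : Submodule ℂ (Module.End ℂ W)} (T : Tri e V)
    {x y : Module.End ℂ W} (hx : x ∈ V) (hy : y ∈ V) : x * star y * x ∈ V := by
  have h := V.smul_mem (1/2 : ℂ) (T.tri x hx y hy x hx)
  have h2 : (1/2 : ℂ) • (x * star y * x + x * star y * x) = x * star y * x := by module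
  rwa [h2] at h

/-- Copy of `PE.cop_tripotent` with `V'` in place of `copG1 g e`. -/
theorem exists_trip (V' : Submodule ℂ (Module.End ℂ W)) (hcl : ∀ x ∈ V', x * star x * x ∈ V')
    (hne : ∃ a ∈ V', a ≠ 0) :
    ∃ u ∈ V', u ≠ 0 ∧ u * star u * u = u ∧
      ∀ y ∈ V', y ≠ 0 → finrank ℂ (LinearMap.range u) ≤ finrank ℂ (LinearMap.range y) := by
  classical
  -- minimal rank
  have hex : ∃ k : ℕ, ∃ a ∈ V', a ≠ 0 ∧ finrank ℂ (LinearMap.range a) = k := by
    obtain ⟨a, ha, ha0⟩ := hne
    exact ⟨_, a, ha, ha0, rfl⟩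
  obtain ⟨a, ha, ha0, hak⟩ := Nat.find_spec hex
  have hmin : ∀ y ∈ V', y ≠ 0 →
      finrank ℂ (LinearMap.range a) ≤ finrank ℂ (LinearMap.range y) := by
    intro y hy hy0
    rw [hak]
    exact Nat.find_min' hex ⟨y, hy, hy0, rfl⟩
  -- an eigenvector of a a* in the range of a
  set A : Module.End ℂ W := a * star a with hA
  obtain ⟨lam, v, hv0, hvr, hAv⟩ : ∃ lam : ℂ, ∃ v : W, v ≠ 0 ∧ v ∈ LinearMap.range a ∧
      A v = lam • v := by
    have hstab : ∀ w ∈ LinearMap.range a, A w ∈ LinearMap.range a := by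
      rintro w -
      exact ⟨(star a) w, rfl⟩
    have hnt : Nontrivial (LinearMap.range a) := by
      rw [Submodule.nontrivial_iff_ne_bot]
      intro h
      exact ha0 (LinearMap.range_eq_bot.1 h)
    obtain ⟨ν, hν⟩ := Module.End.exists_eigenvalue (A.restrict hstab)
    obtain ⟨v, hv⟩ := hν.exists_hasEigenvector
    refine ⟨ν, v.1, ?_, v.2, ?_⟩
    · intro h
      exact hv.2 (Subtype.ext h)
    · have := congrArg Subtype.val hv.apply_eq_smul
      simpa using this
  have hbm : a * star a * a - lam • a ∈ V' :=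
    V'.sub_mem (hcl a ha) (V'.smul_mem lam ha)
  have hb0 : a * star a * a - lam • a = 0 := by
    by_contra hne0
    have h1 := hmin _ hbm hne0
    have h2 : LinearMap.range (a * star a * a - lam • a) =
        (LinearMap.range a).map (A - lam • (1 : Module.End ℂ W)) := by
      rw [← LinearMap.range_comp]
      rfl
    have h3 := cop_finrank_map_lt (LinearMap.range a) (A - lam • (1 : Module.End ℂ W)) v hvr hv0
      (by simp [hAv])
    rw [← h2] at h3
    omega
  have haaa : a * star a * a = lam • a := sub_eq_zero.1 hb0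
  -- lam is a positive real
  obtain ⟨s, hs0, hs, hsz⟩ := cop_pos (a * star a)
  obtain ⟨t, ht0, ht, htz⟩ := cop_pos a
  have hAA : (a * star a) * star (a * star a) = lam • (a * star a) := by
    rw [star_mul, star_star, ← mul_assoc, haaa, smul_mul_assoc]
  have hlam : (s : ℂ) = lam * (t : ℂ) := by
    rw [← hs, hAA, map_smul, ht, smul_eq_mul]
  have ht1 : 0 < t := lt_of_le_of_ne ht0 fun h => ha0 (htz h.symm)
  have hs1 : 0 < s := by
    refine lt_of_le_of_ne hs0 fun h => ?_
    have h1 := hsz h.symm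
    have h2 : LinearMap.trace ℂ W (a * star a) = 0 := by rw [h1, map_zero]
    exact ha0 (cop_pos_zero a h2)
  have hlam2 : lam = ((s / t : ℝ) : ℂ) := by
    have : (t : ℂ) ≠ 0 := by exact_mod_cast ht1.ne'
    rw [Complex.ofReal_div, hlam]
    field_simp
  have hst' : 0 < s / t := div_pos hs1 ht1
  set q : ℝ := Real.sqrt (s / t) with hq
  have hq0 : 0 < q := Real.sqrt_pos.2 hst'
  have hqq : q * q = s / t := Real.mul_self_sqrt hst'.le
  have hqc : (q : ℂ) ≠ 0 := by exact_mod_cast hq0.ne'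
  have hlamq : lam = (q : ℂ) * (q : ℂ) := by rw [hlam2, ← hqq]; push_cast; ring
  refine ⟨(q : ℂ)⁻¹ • a, V'.smul_mem _ ha, ?_, ?_, ?_⟩
  · exact smul_ne_zero (inv_ne_zero hqc) ha0
  · rw [star_smul]
    have h1 : star ((q : ℂ)⁻¹) = (q : ℂ)⁻¹ := by simp
    rw [h1]
    simp only [smul_mul_assoc, mul_smul_comm, smul_smul]
    rw [haaa, smul_smul, hlamq]
    congr 1
    field_simp
  · intro y hy hy0
    rw [LinearMap.range_smul _ _ (inv_ne_zero hqc)]
    exact hmin y hy hy0

/-- Copy of `PE.cop_dim_one` with `V'` in place of `copG1 g e`. -/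
theorem dim_one {V' : Submodule ℂ (Module.End ℂ W)} {u : Module.End ℂ W} (hu : u ∈ V') (hu0 : u ≠ 0)
    (huuu : u * star u * u = u)
    (hmin : ∀ y ∈ V', y ≠ 0 → finrank ℂ (LinearMap.range u) ≤ finrank ℂ (LinearMap.range y))
    (y : Module.End ℂ W) (hy : y ∈ V') (hyp : u * star u * y * (star u * u) = y) :
    ∃ c : ℂ, y = c • u := by
  set T : Module.End ℂ W := y * star u with hT
  have hyr : ∀ w, y w ∈ LinearMap.range u := by
    intro w
    have := congrArg (fun f : Module.End ℂ W => f w) hyp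
    change u ((star u) (y ((star u) (u w)))) = y w at this
    rw [← this]
    exact ⟨_, rfl⟩
  obtain ⟨lam, v, hv0, hvr, hTv⟩ : ∃ lam : ℂ, ∃ v : W, v ≠ 0 ∧ v ∈ LinearMap.range u ∧
      T v = lam • v := by
    have hstab : ∀ w ∈ LinearMap.range u, T w ∈ LinearMap.range u := by
      rintro w -
      exact hyr _
    have hnt : Nontrivial (LinearMap.range u) := by
      rw [Submodule.nontrivial_iff_ne_bot]
      intro h
      exact hu0 (LinearMap.range_eq_bot.1 h)
    obtain ⟨ν, hν⟩ := Module.End.exists_eigenvalue (T.restrict hstab)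
    obtain ⟨v, hv⟩ := hν.exists_hasEigenvector
    refine ⟨ν, v.1, ?_, v.2, ?_⟩
    · intro h
      exact hv.2 (Subtype.ext h)
    · have := congrArg Subtype.val hv.apply_eq_smul
      simpa using this
  refine ⟨lam, ?_⟩
  by_contra hne
  have hne0 : y - lam • u ≠ 0 := sub_ne_zero.2 hne
  have h1 := hmin _ (V'.sub_mem hy (V'.smul_mem lam hu)) hne0
  have hyu : y = T * u := by
    rw [hT, mul_assoc]
    have h4 : y * (star u * u) = y := by
      conv_lhs => rw [← hyp]
      have h5 : star u * u * (star u * u) = star u * u := by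
        rw [mul_assoc, ← mul_assoc u, huuu]
      rw [mul_assoc _ (star u * u) (star u * u), h5, hyp]
    exact h4.symm
  have h2 : LinearMap.range (y - lam • u) =
      (LinearMap.range u).map (T - lam • (1 : Module.End ℂ W)) := by
    rw [← LinearMap.range_comp]
    congr 1
    ext w
    have := congrArg (fun f : Module.End ℂ W => f w) hyu
    simp only [Module.End.mul_apply] at this
    simp [this]
  have h3 := cop_finrank_map_lt (LinearMap.range u) (T - lam • (1 : Module.End ℂ W)) v hvr hv0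
    (by simp [hTv])
  rw [← h2] at h3
  omega

/-- The rank of a tripotent is the trace of `u u*`. -/
theorem Trip_trace {u : Module.End ℂ W} (huuu : u * star u * u = u) :
    LinearMap.trace ℂ W (u * star u) = (finrank ℂ (LinearMap.range u) : ℂ) := by
  have hk1 : LinearMap.range (u * star u) = LinearMap.range u := by
    apply le_antisymm
    · rintro w ⟨w', rfl⟩
      exact ⟨(star u) w', rfl⟩
    · rintro w ⟨w', rfl⟩
      refine ⟨u w', ?_⟩
      exact congrArg (fun f : Module.End ℂ W => f w') huuu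
  rw [cop_trace_idem _ (p1_idem huuu), hk1]

theorem exists_prim {e : Module.End ℂ W} {V : Submodule ℂ (Module.End ℂ W)} (T : Tri e V)
    (hne : ∃ a ∈ V, a ≠ 0) : ∃ u, Prim V u := by
  obtain ⟨u, hu, hu0, huuu, hmin⟩ := exists_trip V (fun x hx => tri_half T hx hx) hne
  exact ⟨u, hu, hu0, huuu, fun y hy hyp => dim_one hu hu0 huuu hmin y hy hyp⟩

/-- A nonzero tripotent `w` dominates a primitive one: minimal rank in `V' = {y ∈ V | w w* y w* w = y}`;
if `v v* y v* v = y`, `y ∈ V`, then `y ∈ V'` because `w w* v = v = v w* w` (from `v ∈ V'`). -/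
theorem exists_prim_in {e : Module.End ℂ W} {V : Submodule ℂ (Module.End ℂ W)} (T : Tri e V)
    {w : Module.End ℂ W} (hw : w ∈ V) (hw0 : w ≠ 0) (hwt : w * star w * w = w) :
    ∃ v, Prim V v ∧ w * star w * v = v ∧ v * (star w * w) = v := by
  set V' : Submodule ℂ (Module.End ℂ W) :=
    { carrier := {y | y ∈ V ∧ w * star w * y = y ∧ y * (star w * w) = y}
      add_mem' := by
        rintro a b ⟨h1, h2, h3⟩ ⟨h4, h5, h6⟩
        exact ⟨V.add_mem h1 h4, by rw [mul_add, h2, h5], by rw [add_mul, h3, h6]⟩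
      zero_mem' := ⟨V.zero_mem, by simp, by simp⟩
      smul_mem' := by
        rintro c a ⟨h1, h2, h3⟩
        exact ⟨V.smul_mem c h1, by rw [mul_smul_comm, h2], by rw [smul_mul_assoc, h3]⟩ } with hV'
  have hmem : ∀ y, y ∈ V' ↔ (y ∈ V ∧ w * star w * y = y ∧ y * (star w * w) = y) := fun y => Iff.rfl
  have hcl : ∀ x ∈ V', x * star x * x ∈ V' := by
    intro x hx
    obtain ⟨h1, h2, h3⟩ := (hmem x).1 hx
    refine (hmem _).2 ⟨tri_half T h1 h1, ?_, ?_⟩
    · rw [← mul_assoc, ← mul_assoc, h2]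
    · rw [mul_assoc, h3]
  have hww : w ∈ V' := (hmem w).2 ⟨hw, hwt, by rw [← mul_assoc, hwt]⟩
  obtain ⟨v, hv, hv0, hvvv, hmin⟩ := exists_trip V' hcl ⟨w, hww, hw0⟩
  obtain ⟨h1, h2, h3⟩ := (hmem v).1 hv
  refine ⟨v, ⟨h1, hv0, hvvv, ?_⟩, h2, h3⟩
  intro y hy hyp
  refine dim_one hv hv0 hvvv hmin y ((hmem y).2 ⟨hy, ?_, ?_⟩) hyp
  · have h4 : w * star w * (v * star v) = v * star v := by rw [← mul_assoc, h2]
    have h5 : w * star w * (v * star v * y * (star v * v)) =
        w * star w * (v * star v) * y * (star v * v) := by simp only [mul_assoc]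
    conv_lhs => rw [← hyp]
    rw [h5, h4, hyp]
  · conv_lhs => rw [← hyp]
    have h4 : star v * v * (star w * w) = star v * v := by rw [mul_assoc, h3]
    rw [mul_assoc, h4, hyp]

/-- A maximal tripotent orthogonal to `u`: maximal rank among the tripotents of `V` with `P0 u v` (`0` is
one); if `0 ≠ y ∈ V`, `P0 u y`, `P0 v y`, then `exists_trip` for `{y ∈ V | P0 u y ∧ P0 v y}` gives a tripotent
`v'` and `v + v'` is a tripotent of larger rank (`tr (v + v')(v + v')* = tr v v* + tr v' v'*`, `cop_trace_idem`). -/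
theorem exists_max {e : Module.End ℂ W} {V : Submodule ℂ (Module.End ℂ W)} (T : Tri e V)
    (u : Module.End ℂ W) :
    ∃ v ∈ V, v * star v * v = v ∧ P0 u v ∧ ∀ y ∈ V, P0 u y → P0 v y → y = 0 := by
  classical
  have hex : ∃ k : ℕ, ∃ v ∈ V, v * star v * v = v ∧ P0 u v ∧
      finrank ℂ (LinearMap.range v) + k = finrank ℂ W := by
    refine ⟨finrank ℂ W - finrank ℂ (LinearMap.range (0 : Module.End ℂ W)), 0, V.zero_mem, by simp,
      ⟨by simp, by simp⟩, ?_⟩
    have h := (LinearMap.range (0 : Module.End ℂ W)).finrank_le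
    omega
  obtain ⟨v, hv, hvvv, hP, hk⟩ := Nat.find_spec hex
  refine ⟨v, hv, hvvv, hP, ?_⟩
  intro y hy hy1 hy2
  by_contra hy0
  have hcl : ∀ x ∈ PV0 V u ⊓ PV0 V v, x * star x * x ∈ PV0 V u ⊓ PV0 V v := by
    rintro x ⟨⟨h1, h2, h3⟩, ⟨_, h5, h6⟩⟩
    have h7 := tri_half T h1 h1
    refine ⟨⟨h7, ?_, ?_⟩, ⟨h7, ?_, ?_⟩⟩
    · rw [← mul_assoc, ← mul_assoc, h2, zero_mul, zero_mul]
    · rw [mul_assoc, h3, mul_zero]
    · rw [← mul_assoc, ← mul_assoc, h5, zero_mul, zero_mul]
    · rw [mul_assoc, h6, mul_zero]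
  obtain ⟨w, ⟨⟨h1, h2⟩, ⟨_, h4⟩⟩, hw0, hwww, _⟩ := exists_trip (PV0 V u ⊓ PV0 V v) hcl
    ⟨y, ⟨⟨hy, hy1⟩, ⟨hy, hy2⟩⟩, hy0⟩
  have h5 := P0_symm h4
  have hvw1 : v * star w = 0 := h5.2
  have hwv1 : w * star v = 0 := h4.2
  have hvw2 : star v * w = 0 := h4.1
  have hwv2 : star w * v = 0 := h5.1
  have hsq : (v + w) * star (v + w) = v * star v + w * star w := by
    rw [star_add, mul_add, add_mul, add_mul, hvw1, hwv1, add_zero, zero_add]
  have htr : (v + w) * star (v + w) * (v + w) = v + w := by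
    rw [hsq, add_mul, mul_add, mul_add, hvvv, hwww, mul_assoc v (star v) w, hvw2,
      mul_assoc w (star w) v, hwv2, mul_zero, mul_zero, add_zero, zero_add]
  have hrk : finrank ℂ (LinearMap.range (v + w)) =
      finrank ℂ (LinearMap.range v) + finrank ℂ (LinearMap.range w) := by
    have h6 := Trip_trace htr
    rw [hsq, map_add, Trip_trace hvvv, Trip_trace hwww] at h6
    exact_mod_cast h6.symm
  have hpos : 0 < finrank ℂ (LinearMap.range w) := by
    rw [Module.finrank_pos_iff, Submodule.nontrivial_iff_ne_bot]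
    intro h
    exact hw0 (LinearMap.range_eq_bot.1 h)
  have hle := (LinearMap.range (v + w)).finrank_le
  have hlt := Nat.find_min' hex (m := finrank ℂ W - finrank ℂ (LinearMap.range (v + w)))
    ⟨v + w, V.add_mem hv h1, htr, ⟨by rw [mul_add, hP.1, h2.1, add_zero],
      by rw [add_mul, hP.2, h2.2, add_zero]⟩, by omega⟩
  omega

end Pool.MP43e44c.SG
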