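import Pool.Agent.H.MP_43e44c_ag.SG.TrF

/-!
# SG/Zeta: a self-adjoint element of degree (1,1)
-/

set_option autoImplicit false

namespace Pool.MP43e44c.SG

open Module PE

variable {W : Type*} [NormedAddCommGroup W] [InnerProductSpace ℂ W] [FiniteDimensional ℂ W]
variable {e : Module.End ℂ W} {V : Submodule ℂ (Module.End ℂ W)}

/-- The product of two elements of `V` is zero. -/
private theorem Zeta_mul (T : Tri e V) {x y : Module.End ℂ W} (hx : x ∈ V) (hy : y ∈ V) :
    x * y = 0 := by
  rw [← T.left y hy, ← mul_assoc, T.right x hx, zero_mul]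

private theorem Zeta_star (T : Tri e V) {x y : Module.End ℂ W} (hx : x ∈ V) (hy : y ∈ V) :
    star x * star y = 0 := by
  rw [← star_mul, Zeta_mul T hy hx, star_zero]

/-- The generators of the stable subspace. -/
private def ZG (V : Submodule ℂ (Module.End ℂ W)) (u : Module.End ℂ W) : Set W :=
  {w | (∃ a, w = (u * star u) a) ∨ (∃ a, w = (star u * u) a) ∨
    (∃ x ∈ V, P1 u x ∧ ∃ a, w = (star x * (u * star u)) a) ∨
    (∃ x ∈ V, P1 u x ∧ ∃ a, w = (x * (star u * u)) a)}

private theorem ZG1 {u : Module.End ℂ W} (a : W) :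
    (u * star u) a ∈ Submodule.span ℂ (ZG V u) :=
  Submodule.subset_span (Or.inl ⟨a, rfl⟩)

private theorem ZG2 {u : Module.End ℂ W} (a : W) :
    (star u * u) a ∈ Submodule.span ℂ (ZG V u) :=
  Submodule.subset_span (Or.inr (Or.inl ⟨a, rfl⟩))

private theorem ZG3 {u x : Module.End ℂ W} (hx : x ∈ V) (h1 : P1 u x) (a : W) :
    (star x * (u * star u)) a ∈ Submodule.span ℂ (ZG V u) :=
  Submodule.subset_span (Or.inr (Or.inr (Or.inl ⟨x, hx, h1, a, rfl⟩)))

private theorem ZG4 {u x : Module.End ℂ W} (hx : x ∈ V) (h1 : P1 u x) (a : W) :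
    (x * (star u * u)) a ∈ Submodule.span ℂ (ZG V u) :=
  Submodule.subset_span (Or.inr (Or.inr (Or.inr ⟨x, hx, h1, a, rfl⟩)))

/-- An operator which maps the four kinds of generators into the span preserves the span. -/
private theorem ZG_stable {u y : Module.End ℂ W}
    (h1 : ∀ a, (y * (u * star u)) a ∈ Submodule.span ℂ (ZG V u))
    (h2 : ∀ a, (y * (star u * u)) a ∈ Submodule.span ℂ (ZG V u))
    (h3 : ∀ x ∈ V, P1 u x → ∀ a, (y * (star x * (u * star u))) a ∈ Submodule.span ℂ (ZG V u))
    (h4 : ∀ x ∈ V, P1 u x → ∀ a, (y * (x * (star u * u))) a ∈ Submodule.span ℂ (ZG V u)) :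
    ∀ w ∈ Submodule.span ℂ (ZG V u), y w ∈ Submodule.span ℂ (ZG V u) := by
  intro w hw
  induction hw using Submodule.span_induction with
  | mem w hw =>
    rcases hw with ⟨a, rfl⟩ | ⟨a, rfl⟩ | ⟨x, hx, hx1, a, rfl⟩ | ⟨x, hx, hx1, a, rfl⟩
    · exact h1 a
    · exact h2 a
    · exact h3 x hx hx1 a
    · exact h4 x hx hx1 a
  | zero => rw [map_zero]; exact Submodule.zero_mem _
  | add w w' _ _ h h' => rw [map_add]; exact Submodule.add_mem _ h h'
  | smul c w _ h => rw [map_smul]; exact Submodule.smul_mem _ c h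

private theorem ZG_zero {u y : Module.End ℂ W} (h : y = 0) (a : W) :
    y a ∈ Submodule.span ℂ (ZG V u) := by
  rw [h, LinearMap.zero_apply]
  exact Submodule.zero_mem _

private theorem ZG_u (T : Tri e V) {u : Module.End ℂ W} (hu : u ∈ V) (hut : u * star u * u = u) :
    ∀ w ∈ Submodule.span ℂ (ZG V u), u w ∈ Submodule.span ℂ (ZG V u) := by
  refine ZG_stable ?_ ?_ ?_ ?_
  · intro a
    exact ZG_zero (by rw [← mul_assoc, Zeta_mul T hu hu, zero_mul]) a
  · intro a
    have h : u * (star u * u) = u * star u * u := (mul_assoc _ _ _).symm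
    have h2 := ZG1 (V := V) (u := u) (u a)
    rwa [← Module.End.mul_apply, ← h] at h2
  · intro x _ h1 a
    refine ZG_zero ?_ a
    rw [← mul_assoc u (star x), ← mul_assoc (u * star x), h1.usu hut, zero_mul]
  · intro x hx _ a
    exact ZG_zero (by rw [← mul_assoc, Zeta_mul T hu hx, zero_mul]) a

private theorem ZG_us (T : Tri e V) {u : Module.End ℂ W} (hu : u ∈ V) (hut : u * star u * u = u) :
    ∀ w ∈ Submodule.span ℂ (ZG V u), (star u) w ∈ Submodule.span ℂ (ZG V u) := by
  refine ZG_stable ?_ ?_ ?_ ?_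
  · intro a
    have h : star u * (u * star u) = star u * u * star u := (mul_assoc _ _ _).symm
    have h2 := ZG2 (V := V) (u := u) (star u a)
    rwa [← Module.End.mul_apply, ← h] at h2
  · intro a
    exact ZG_zero (by rw [← mul_assoc, Zeta_star T hu hu, zero_mul]) a
  · intro x hx _ a
    exact ZG_zero (by rw [← mul_assoc, Zeta_star T hu hx, zero_mul]) a
  · intro x _ h1 a
    refine ZG_zero ?_ a
    rw [← mul_assoc (star u) x, ← mul_assoc (star u * x), h1.sxs hut, zero_mul]

private theorem ZG_1 (T : Tri e V) {u z : Module.End ℂ W} (hu : u ∈ V) (hut : u * star u * u = u)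
    (hz : z ∈ V) (hz1 : P1 u z) :
    ∀ w ∈ Submodule.span ℂ (ZG V u), z w ∈ Submodule.span ℂ (ZG V u) := by
  refine ZG_stable ?_ ?_ ?_ ?_
  · intro a
    exact ZG_zero (by rw [← mul_assoc, Zeta_mul T hz hu, zero_mul]) a
  · intro a
    exact ZG4 hz hz1 a
  · intro x _ h1 a
    have h := (P1.comm hut hz1 h1).1
    rw [← mul_assoc, ← h, Module.End.mul_apply]
    exact ZG1 _
  · intro x hx _ a
    exact ZG_zero (by rw [← mul_assoc, Zeta_mul T hz hx, zero_mul]) a

private theorem ZG_1s (T : Tri e V) {u z : Module.End ℂ W} (hu : u ∈ V) (hut : u * star u * u = u)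
    (hz : z ∈ V) (hz1 : P1 u z) :
    ∀ w ∈ Submodule.span ℂ (ZG V u), (star z) w ∈ Submodule.span ℂ (ZG V u) := by
  refine ZG_stable ?_ ?_ ?_ ?_
  · intro a
    exact ZG3 hz hz1 a
  · intro a
    exact ZG_zero (by rw [← mul_assoc, Zeta_star T hz hu, zero_mul]) a
  · intro x hx _ a
    exact ZG_zero (by rw [← mul_assoc, Zeta_star T hz hx, zero_mul]) a
  · intro x _ h1 a
    have h := (P1.comm hut h1 hz1).2.2
    rw [← mul_assoc, ← h, Module.End.mul_apply]
    exact ZG2 _

private theorem ZG_0 (T : Tri e V) {u y : Module.End ℂ W} (hu : u ∈ V) (hut : u * star u * u = u)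
    (hy : y ∈ V) (hy0 : P0 u y) :
    ∀ w ∈ Submodule.span ℂ (ZG V u), y w ∈ Submodule.span ℂ (ZG V u) := by
  refine ZG_stable ?_ ?_ ?_ ?_
  · intro a
    exact ZG_zero (by rw [← mul_assoc, Zeta_mul T hy hu, zero_mul]) a
  · intro a
    exact ZG_zero (by rw [← mul_assoc, hy0.2, zero_mul]) a
  · intro x hx h1 a
    obtain ⟨hq, hq1⟩ := mem_yqu T hu hut hy hy0 hx h1
    have h : (y * star x * u + u * star x * y) * (star u * u) = y * star x * u := by
      rw [add_mul, mul_assoc (u * star x) y, ← mul_assoc y (star u) u, hy0.2, zero_mul, mul_zero,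
        add_zero, mul_assoc (y * star x) u, ← mul_assoc u (star u) u, hut]
    have h2 := ZG4 hq hq1 (star u a)
    rw [h, ← Module.End.mul_apply] at h2
    have h3 : y * (star x * (u * star u)) = y * star x * u * star u := by
      simp only [mul_assoc]
    rw [h3]
    exact h2
  · intro x hx _ a
    exact ZG_zero (by rw [← mul_assoc, Zeta_mul T hy hx, zero_mul]) a

private theorem ZG_0s (T : Tri e V) {u y : Module.End ℂ W} (hu : u ∈ V) (hut : u * star u * u = u)
    (hy : y ∈ V) (hy0 : P0 u y) :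
    ∀ w ∈ Submodule.span ℂ (ZG V u), (star y) w ∈ Submodule.span ℂ (ZG V u) := by
  refine ZG_stable ?_ ?_ ?_ ?_
  · intro a
    have h : star y * u = 0 := (P0_symm hy0).1
    exact ZG_zero (by rw [← mul_assoc, h, zero_mul]) a
  · intro a
    exact ZG_zero (by rw [← mul_assoc, Zeta_star T hy hu, zero_mul]) a
  · intro x hx _ a
    exact ZG_zero (by rw [← mul_assoc, Zeta_star T hy hx, zero_mul]) a
  · intro x hx h1 a
    obtain ⟨hq, hq1⟩ := mem_yqu T hu hut hy hy0 hx h1
    have h : u * star u * (y * star x * u + u * star x * y) = u * star x * y := by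
      rw [mul_add]
      have h4 : u * star u * (y * star x * u) = u * (star u * y) * star x * u := by
        simp only [mul_assoc]
      have h5 : u * star u * (u * star x * y) = u * star u * u * star x * y := by
        simp only [mul_assoc]
      rw [h4, h5, hy0.1, hut, mul_zero, zero_mul, zero_mul, zero_add]
    have h' := congrArg star h
    simp only [star_mul, star_star] at h'
    have h2 := ZG3 hq hq1 (u a)
    have h3 : star (y * star x * u + u * star x * y) * (u * star u) = star y * (x * star u) := by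
      rw [← h']
    rw [h3, ← Module.End.mul_apply] at h2
    have h6 : star y * (x * (star u * u)) = star y * (x * star u) * u := by
      simp only [mul_assoc]
    rw [h6]
    exact h2

/-- Otherwise every `x ∈ V` with `P1 u x` has `P0 v x` (`split_v`), and
`U = range (u u*) + range (u* u) + ∑ range (x* u u*) + ∑ range (x u* u)` (`x ∈ V`, `P1 u x`) is stable under `V`, `V*`
(decompose `V` by `mem_P2`, `mem_P1`, `mem_P0`; for `y` of degree zero
`y x* u = {y, x, u} u* u`, `y* x u* = {y, x, u}* u u*`, `mem_yqu`) and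
`v v*` kills it, so `U ≠ ⊤`, while `u ≠ 0`. -/
theorem exists_Z (T : Tri e V) (hI : Irr V) {u v : Module.End ℂ W} (hu : Prim V u) (hv : v ∈ V)
    (hv0 : v ≠ 0) (hvt : v * star v * v = v) (huv : P0 u v) :
    ∃ z ∈ V, z ≠ 0 ∧ P1 u z ∧ P1 v z := by
  by_contra hcon
  push Not at hcon
  have hx0 : ∀ x ∈ V, P1 u x → P0 v x := by
    intro x hx h1
    obtain ⟨z, hz, y, hy, hz1, hz2, hy1, hy2, hxe⟩ := split_v T hu.trip hv hvt huv hx h1
    have hz0 : z = 0 := by
      by_contra h
      exact hcon z hz h hz1 hz2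
    rw [hxe, hz0, zero_add]
    exact hy2
  have hdec : ∀ y ∈ V, ∃ c : ℂ, ∃ y1 ∈ PV1 V u, ∃ y0 ∈ PV0 V u, y = c • u + y1 + y0 := by
    intro y hy
    obtain ⟨c, hc⟩ := hu.one _ (mem_P2 T hu.mem hy) (by
      have h1 := p1_idem hu.trip
      have h0 := p0_idem hu.trip
      calc u * star u * (u * star u * y * (star u * u)) * (star u * u) =
          (u * star u * (u * star u)) * y * ((star u * u) * (star u * u)) := by
            simp only [mul_assoc]
        _ = u * star u * y * (star u * u) := by rw [h1, h0])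
    refine ⟨c, _, mem_P1 T hu.mem hu.trip hy, _, mem_P0 T hu.mem hu.trip hy, ?_⟩
    rw [← hc]
    module
  have hU := hI (Submodule.span ℂ (ZG V u)) (by
    intro y hy w hw
    obtain ⟨c, y1, hy1, y0, hy0, rfl⟩ := hdec y hy
    rw [LinearMap.add_apply, LinearMap.add_apply, LinearMap.smul_apply]
    exact Submodule.add_mem _ (Submodule.add_mem _
      (Submodule.smul_mem _ c (ZG_u T hu.mem hu.trip w hw))
      (ZG_1 T hu.mem hu.trip hy1.1 hy1.2 w hw)) (ZG_0 T hu.mem hu.trip hy0.1 hy0.2 w hw)) (by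
    intro y hy w hw
    obtain ⟨c, y1, hy1, y0, hy0, rfl⟩ := hdec y hy
    rw [star_add, star_add, star_smul, LinearMap.add_apply, LinearMap.add_apply,
      LinearMap.smul_apply]
    exact Submodule.add_mem _ (Submodule.add_mem _
      (Submodule.smul_mem _ (star c) (ZG_us T hu.mem hu.trip w hw))
      (ZG_1s T hu.mem hu.trip hy1.1 hy1.2 w hw)) (ZG_0s T hu.mem hu.trip hy0.1 hy0.2 w hw))
  rcases hU with hU | hU
  · apply hu.ne
    refine LinearMap.ext fun a => ?_
    have h := ZG1 (V := V) (u := u) (u a)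
    rw [hU, Submodule.mem_bot, ← Module.End.mul_apply, hu.trip] at h
    exact h
  · have hkill : ∀ w ∈ Submodule.span ℂ (ZG V u), (star v) w = 0 := by
      intro w hw
      induction hw using Submodule.span_induction with
      | mem w hw =>
        have hvu : star v * u = 0 := (P0_symm huv).1
        rcases hw with ⟨a, rfl⟩ | ⟨a, rfl⟩ | ⟨x, hx, hx1, a, rfl⟩ | ⟨x, hx, hx1, a, rfl⟩
        · rw [← Module.End.mul_apply, ← mul_assoc, hvu, zero_mul, LinearMap.zero_apply]
        · rw [← Module.End.mul_apply, ← mul_assoc, Zeta_star T hv hu.mem, zero_mul,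
            LinearMap.zero_apply]
        · rw [← Module.End.mul_apply, ← mul_assoc, Zeta_star T hv hx, zero_mul,
            LinearMap.zero_apply]
        · rw [← Module.End.mul_apply, ← mul_assoc, (hx0 x hx hx1).1, zero_mul,
            LinearMap.zero_apply]
      | zero => rw [map_zero]
      | add w w' _ _ h h' => rw [map_add, h, h', add_zero]
      | smul c w _ h => rw [map_smul, h, smul_zero]
    apply hv0
    have h : star v = 0 := LinearMap.ext fun a => hkill a (by rw [hU]; trivial)
    rw [← star_star v, h, star_zero]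

/-- `shp` is additive and antilinear. -/
private theorem Zeta_shp_add (u v z y : Module.End ℂ W) :
    shp u v (z + y) = shp u v z + shp u v y := by
  simp only [shp, star_add, mul_add, add_mul]
  abel

private theorem Zeta_shp_smul (u v z : Module.End ℂ W) (c : ℂ) :
    shp u v (c • z) = star c • shp u v z := by
  simp only [shp, star_smul, mul_smul_comm, smul_mul_assoc, smul_add]

/-- A nonzero fixed point of `shp`. -/
private theorem Zeta_fix (T : Tri e V) {u v z : Module.End ℂ W} (hu : Prim V u) (hv : v ∈ V)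
    (hvt : v * star v * v = v) (huv : P0 u v) (hz : z ∈ V) (hz0 : z ≠ 0) (h1 : P1 u z)
    (h2 : P1 v z) : ∃ y ∈ V, y ≠ 0 ∧ P1 u y ∧ P1 v y ∧ shp u v y = y := by
  obtain ⟨hs, hs1, hs2, hss, -, -⟩ := shp_props T hu.mem hu.trip hv hvt huv hz h1 h2
  by_cases h0 : z + shp u v z = 0
  · refine ⟨Complex.I • z, V.smul_mem _ hz, smul_ne_zero Complex.I_ne_zero hz0,
      ((PV1 V u).smul_mem _ (show z ∈ PV1 V u from ⟨hz, h1⟩)).2,
      ((PV1 V v).smul_mem _ (show z ∈ PV1 V v from ⟨hz, h2⟩)).2, ?_⟩
    have h3 : shp u v z = -z := by rw [eq_neg_iff_add_eq_zero, add_comm]; exact h0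
    rw [Zeta_shp_smul, h3, Complex.star_def, Complex.conj_I, smul_neg, neg_smul, neg_neg]
  · refine ⟨z + shp u v z, V.add_mem hz hs, h0,
      ((PV1 V u).add_mem (show z ∈ PV1 V u from ⟨hz, h1⟩) ⟨hs, hs1⟩).2,
      ((PV1 V v).add_mem (show z ∈ PV1 V v from ⟨hz, h2⟩) ⟨hs, hs2⟩).2, ?_⟩
    rw [Zeta_shp_add, hss, add_comm]

/-- `ζ = z + z♯`, or `i z` if this is zero, rescaled to `fr ζ ζ = 2 fr u u`; `shp_props`, `star_id`. -/
theorem exists_zeta (T : Tri e V) {u v z : Module.End ℂ W} (hu : Prim V u) (hv : v ∈ V)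
    (hvt : v * star v * v = v) (huv : P0 u v) (hz : z ∈ V) (hz0 : z ≠ 0) (h1 : P1 u z) (h2 : P1 v z) :
    ∃ ζ ∈ V, P1 u ζ ∧ P1 v ζ ∧ u * star u * (ζ * star ζ) * (u * star u) = u * star u ∧
      star u * u * (star ζ * ζ) * (star u * u) = star u * u := by
  obtain ⟨y, hy, hy0, hy1, hy2, hys⟩ := Zeta_fix T hu hv hvt huv hz hz0 h1 h2
  obtain ⟨s, hs0, hs, hs'⟩ := fr_self y
  obtain ⟨r, hr0, hr, hr'⟩ := fr_self u
  have hsp : 0 < s := lt_of_le_of_ne hs0 fun h => hy0 (hs' h.symm)
  have hrp : 0 < r := lt_of_le_of_ne hr0 fun h => hu.ne (hr' h.symm)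
  set t : ℝ := Real.sqrt (2 * r / s) with ht
  have htt : t * t = 2 * r / s := Real.mul_self_sqrt (by positivity)
  set ζ : Module.End ℂ W := (t : ℂ) • y with hζ
  have hζV : ζ ∈ V := V.smul_mem _ hy
  have hζ1 : P1 u ζ := ((PV1 V u).smul_mem _ (show y ∈ PV1 V u from ⟨hy, hy1⟩)).2
  have hζ2 : P1 v ζ := ((PV1 V v).smul_mem _ (show y ∈ PV1 V v from ⟨hy, hy2⟩)).2
  have hζs : shp u v ζ = ζ := by
    rw [hζ, Zeta_shp_smul, hys, Complex.star_def, Complex.conj_ofReal]
  have hfr : fr ζ ζ = 2 * fr u u := by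
    rw [hζ, fr_smul_left, fr_smul_right, Complex.conj_ofReal, hs, hr]
    have h3 : (t : ℂ) * ((t : ℂ) * (s : ℂ)) = ((t * t * s : ℝ) : ℂ) := by
      push_cast
      ring
    rw [h3, htt, div_mul_cancel₀ _ hsp.ne']
    push_cast
    ring
  have hru : fr u u ≠ 0 := fr_self_ne hu.ne
  have hid := star_id T hu hζV hζV hζ1 hζ1
  rw [hfr, mul_div_assoc, div_self hru, mul_one] at hid
  obtain ⟨-, -, -, -, hA, hB⟩ := shp_props T hu.mem hu.trip hv hvt huv hζV hζ1 hζ2
  rw [hζs] at hA hB
  -- `hA : u u* ζ = u ζ* v`, `hB : ζ u* u = v ζ* u`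
  have h3 : ζ * star u = v * star ζ * (u * star u) := by
    calc ζ * star u = ζ * (star u * u * star u) := by rw [star_trip hu.trip]
      _ = ζ * (star u * u) * star u := by simp only [mul_assoc]
      _ = v * star ζ * (u * star u) := by rw [hB]; simp only [mul_assoc]
  have h4 : u * star ζ = u * star u * ζ * star v := by
    have h5 := congrArg star h3
    simpa only [star_mul, star_star, ← mul_assoc] using h5
  have h5 : u * star u * ζ * (star v * v) = u * star u * ζ := by
    calc u * star u * ζ * (star v * v) = u * star ζ * (v * star v * v) := by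
          rw [hA]; simp only [mul_assoc]
      _ = u * star u * ζ := by rw [hvt, hA]
  have h6 : u * star ζ * ζ * star u = u * star u * (ζ * star ζ) * (u * star u) := by
    calc u * star ζ * ζ * star u = (u * star ζ) * (ζ * star u) := by simp only [mul_assoc]
      _ = (u * star u * ζ * (star v * v)) * star ζ * (u * star u) := by
          rw [h3, h4]; simp only [mul_assoc]
      _ = u * star u * (ζ * star ζ) * (u * star u) := by rw [h5]; simp only [mul_assoc]
  have h7 : u * star u * (ζ * star ζ) = u * star u * (ζ * star ζ) * (u * star u) := by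
    have h8 := (P1.comm hu.trip hζ1 hζ1).1
    calc u * star u * (ζ * star ζ) = (u * star u) * (u * star u) * (ζ * star ζ) := by
          rw [p1_idem hu.trip]
      _ = u * star u * (u * star u * (ζ * star ζ)) := mul_assoc _ _ _
      _ = u * star u * (ζ * star ζ) * (u * star u) :=
          (congrArg (fun x => u * star u * x) h8).trans (mul_assoc _ _ _).symm
  have hK : u * star u * (ζ * star ζ) * (u * star u) = u * star u := by
    have h9 : u * star u * (ζ * star ζ) * (u * star u) + u * star u * (ζ * star ζ) * (u * star u) =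
        (2 : ℂ) • (u * star u) := by
      rw [← hid]
      conv_rhs => rw [h7, h6]
    rw [← two_smul ℂ] at h9
    exact smul_right_injective _ (two_ne_zero' ℂ) h9
  refine ⟨ζ, hζV, hζ1, hζ2, hK, ?_⟩
  calc star u * u * (star ζ * ζ) * (star u * u) = star u * (u * star ζ * ζ * star u) * u := by
        simp only [mul_assoc]
    _ = star u * (u * star u) * u := by rw [h6, hK]
    _ = star u * u := by
        rw [mul_assoc, hu.trip]

end Pool.MP43e44c.SG
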